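import Pool.Agent.Lib.MP_6e5bed_ag_WW.TrQ

set_option autoImplicit false
set_option linter.unusedVariables false

/-!
# MP_6e5bed_ag, THEOREM W, (3.2): way-out induction
-/

noncomputable section

namespace Pool.Agent.MP_6e5bed_ag_WW

open Pool.Agent.MP_6e5bed_ag_NC Pool.Agent.MP_6e5bed_ag_GG
open Pool.Agent.MP_6e5bed_ag_PN hiding Ch
open Pool.Agent.MP_6e5bed_ag_NS (Cx CHom ringH)
open scoped TensorProduct

universe u

variable {k : Type u} [Field k] {i j : Type} [Fintype i] [Fintype j] {A : CA k i} {A' : CA k j}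

/-- the cohomology over `m` is zero in the degrees of absolute value `> N` -/
def BdM (m : Ch i) (F : BPB A A') : Prop := ∃ N : ℕ, ∀ (c' : Ch j) (n : ℤ), (N : ℤ) < |n| →
  ∀ x : (F.F (m, c')).M, (F.F (m, c')).dg.IsDeg n x → (F.F (m, c')).dg.d x = 0 →
    ∃ y, (F.F (m, c')).dg.d y = x

/-- Properties of complexes of bisheaves to which the way-out induction applies. -/
structure WayP (I : ∀ c : Ch i, Ideal (A.A c)) (m : Ch i) (Sg : Submonoid (RR k m.1))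
    (P : BPB A A' → Prop) : Prop where
  acy : ∀ {F : BPB A A'}, F.QC → Kl I F → (∀ c' : Ch j, Acy (bcx (F.F (m, c')))) → P F
  qi : ∀ {F G : BPB A A'} (f : BPH F G), F.QC → G.QC → Kl I F → Kl I G →
    (∀ c' : Ch j, QIso (f.f (m, c'))) → (P F ↔ P G)
  mid : ∀ {F' F F'' : BPB A A'} {a : BPH F' F} {b : BPH F F''}, BPEx a b → F'.QC → F.QC →
    F''.QC → Kl I F' → Kl I F → Kl I F'' → P F' → P F'' → P F
  right : ∀ {F' F F'' : BPB A A'} {a : BPH F' F} {b : BPH F F''}, BPEx a b → F'.QC → F.QC →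
    F''.QC → Kl I F' → Kl I F → Kl I F'' → P F' → P F → P F''
  left : ∀ {F' F F'' : BPB A A'} {a : BPH F' F} {b : BPH F F''}, BPEx a b → F'.QC → F.QC →
    F''.QC → Kl I F' → Kl I F → Kl I F'' → P F → P F'' → P F'
  sh : ∀ {Z : BS A A'}, SCo I m Sg Z → P Z.bp

variable {I : ∀ c : Ch i, Ideal (A.A c)} {m : Ch i} {Sg : Submonoid (RR k m.1)}
  {P : BPB A A' → Prop}

/-- bisheaves in degree `n` -/
theorem WayP.atn (hP : WayP I m Sg P) {Z : BS A A'} (hZ : SCo I m Sg Z) (n : ℤ) :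
    P (Z.atn n).bpb := by
  have hq : ∀ n, (Z.atn n).bpb.QC := fun n => QCc.bpb (atn_qc Z n)
  have hk : ∀ n, Kl I (Z.atn n).bpb := fun n => (atn_kl hZ.ann n).bpb
  have hwq : ∀ n, (Z.twn n).bpb.QC := fun n => QCc.bpb (twn_qc Z n)
  have hwk : ∀ n, Kl I (Z.twn n).bpb := fun n => (twn_kl hZ.ann n).bpb
  have hw : ∀ n, P (Z.twn n).bpb := fun n => hP.acy (hwq n) (hwk n) (fun c' => twx_acy)
  have hex : ∀ n, BPEx (Z.twI n).bph (Z.twP n).bph := fun n p => Z.tw_ex n p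
  induction n using Int.induction_on with
  | zero =>
    refine (hP.qi Z.at0 (bp_qc Z) (hq 0) (bp_kl hZ.ann) (hk 0) (fun c' => ?_)).1 (hP.sh hZ)
    refine ⟨Z.at0.dd (m, c'), fun x hx hy => ?_, fun y hy => ?_⟩
    · obtain ⟨w, hw'⟩ := hy
      exact ⟨0, (map_zero _).trans (((atx_d (V := Z.E (m, c')) w).symm.trans hw').trans rfl)⟩
    · exact ⟨y, rfl, 0, (map_zero _).trans (sub_self y).symm⟩
  | succ n ih => exact hP.left (hex n) (hq _) (hwq _) (hq _) (hk _) (hwk _) (hk _) (hw _) ih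
  | pred n ih =>
    refine hP.right (hex (-(n : ℤ) - 1)) (hq _) (hwq _) (hq _) (hk _) (hwk _) (hk _) ?_ (hw _)
    rw [sub_add_cancel]
    exact ih

/-- WAY-OUT INDUCTION -/
theorem WayP.all (hP : WayP I m Sg P) {F : BPB A A'} (hB : SB I m Sg F) (hM : BdM m F) :
    P F := by
  obtain ⟨N, hN⟩ := hM
  have hQ : F.QC := hB.qc
  have hQt : ∀ l, (tr F.bpc l).bpc.bpb.QC := fun l => QCc.bpb (QCc.tr (QCc.of_bpb hQ) l)
  have hQt' : ∀ l, (tr' F.bpc l).bpc.bpb.QC := fun l => QCc.bpb (QCc.tr' (QCc.of_bpb hQ) l)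
  have hKt : ∀ l, Kl I (tr F.bpc l).bpc.bpb := fun l => ((Klc.of_bpb hB.kl).grs _).bpb
  have hKt' : ∀ l, Kl I (tr' F.bpc l).bpc.bpb := fun l => ((Klc.of_bpb hB.kl).grs _).bpb
  have hQH : ∀ l, ((F.H hQ l).atn l).bpb.QC := fun l => QCc.bpb (atn_qc _ l)
  have hKH : ∀ l, Kl I ((F.H hQ l).atn l).bpb := fun l => (atn_kl (hB.kl.ann_le hQ l) l).bpb
  have hstep : ∀ l, P (tr F.bpc (l - 1)).bpc.bpb → P (tr F.bpc l).bpc.bpb := by
    intro l h1
    have h2 : P (tr' F.bpc l).bpc.bpb :=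
      (hP.qi (GrS.ofLE (tr_pred_le (F := F.bpc) l)).bph (hQt _) (hQt' _) (hKt _) (hKt' _)
        (fun c' => ⟨(GrS.ofLE (tr_pred_le (F := F.bpc) l)).bph.dd _,
          (tr_pred_qi l (m, c')).1, (tr_pred_qi l (m, c')).2⟩)).1 h1
    have hex : BPEx (GrS.ofLE (tr_le' (F := F.bpc) l)).bph (trH F hQ l).bph :=
      fun p => tr_ex F hQ l p
    exact hP.mid hex (hQt' _) (hQt _) (hQH _) (hKt' _) (hKt _) (hKH _) h2
      (hP.atn (hB.co l) l)
  have hall : ∀ l, -(N : ℤ) - 1 ≤ l → P (tr F.bpc l).bpc.bpb := by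
    intro l hl
    induction l, hl using Int.leInduction with
    | base =>
      refine hP.acy (hQt _) (hKt _) (fun c' => ?_)
      exact tr_acyc (fun n x hn h1 h2 => hN c' n (by
        have h3 := neg_abs_le n
        change n ≤ -(N : ℤ) - 1 at hn
        omega) x h1 h2)
    | succ l hl ih =>
      refine hstep (l + 1) ?_
      rw [add_sub_cancel_right]
      exact ih
  have h1 := hall N (by omega)
  have h2 : ∀ c' : Ch j, Qi ((tr F.bpc (N : ℤ)).incl.f (m, c')) := fun c' =>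
    tr_qi (fun n x hn h1 h2 => hN c' n (lt_of_lt_of_le hn (le_abs_self n)) x h1 h2)
  exact (hP.qi (tr F.bpc (N : ℤ)).incl.toB (hQt _) hQ (hKt _) hB.kl
    (fun c' => ⟨(tr F.bpc (N : ℤ)).incl.toB.dd _, (h2 c').1, (h2 c').2⟩)).1 h1

end Pool.Agent.MP_6e5bed_ag_WW
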