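import Pool.Agent.Lib.MP_6e5bed_ag_WW.K1
import Pool.Agent.Lib.MP_6e5bed_ag_WW.Way

set_option autoImplicit false
set_option linter.unusedVariables false

/-!
# MP_6e5bed_ag, THEOREM W, (6.2), (6.3): the Euler characteristic of `X_F ⊗ U ⊗ Y`, for complexes
with cohomology which is coherent over the generic point
-/

noncomputable section

namespace Pool.Agent.MP_6e5bed_ag_WW

open Pool.Agent.MP_6e5bed_ag_NC Pool.Agent.MP_6e5bed_ag_GG
open Pool.Agent.MP_6e5bed_ag_PN hiding Ch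
open Pool.Agent.MP_6e5bed_ag_NS (Cx CHom ringH)
open Pool.Agent.MP_6e5bed_ag_PS (Dist)

universe u

variable {k : Type u} [Field k] {i j x : Type} [Fintype i] [Fintype j] [Fintype x]
  {A : CA k i} {A' : CA k j} {B : CA k x}

section loc

variable {W : DGA k} {m : Ch i} {Sg : Submonoid (RR k m.1)}

/-- the action of the functions on the first space -/
def sgl (X : PB A.pa (PA.con i W)) (s : Sg) : (X.M m).M →ₗ[k] (X.M m).M :=
  (X.M m).l (algebraMap (RR k m.1) (A.A m) s.1)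

theorem bp_locS {Z₁ Z₂ : BS A B} {φ : ShH Z₁ Z₂} (h : SIso m Sg φ) (b : Ch x) :
    LocS (V := (Z₁.bp.F (m, b)).M) (V' := (Z₂.bp.F (m, b)).M) (φ.bp.f (m, b)).f
      (fun s : Sg => (Z₁.bp.F (m, b)).l (algebraMap (RR k m.1) (A.A m) s.1))
      (fun s : Sg => (Z₂.bp.F (m, b)).l (algebraMap (RR k m.1) (A.A m) s.1)) where
  mul := fun s t z => by
    rw [Submonoid.coe_mul, map_mul]
    exact (Z₁.bp.F (m, b)).l_mul _ _ z
  mul' := fun s t z => by
    rw [Submonoid.coe_mul, map_mul]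
    exact (Z₂.bp.F (m, b)).l_mul _ _ z
  nat := fun s z => map_smul (φ.f (m, b)) (cl1 A B (m, b) s.1) (show Z₁.E (m, b) from z)
  surj := fun y => by
    obtain ⟨s, hs, z, hz⟩ := h.surj b y
    exact ⟨⟨s, hs⟩, z, hz⟩
  inj := fun z hz => by
    obtain ⟨s, hs, h1⟩ := h.inj b z hz
    exact ⟨⟨s, hs⟩, h1⟩

/-- the morphism of the Čech complexes in the second variable -/
abbrev XFm {F G : BPB A B} (f : BPH F G) : PBH (XF F) (XF G) := f.two.push2 (LL x) (FS.e x)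

theorem XF_locS {Z₁ Z₂ : BS A B} {φ : ShH Z₁ Z₂} (h : SIso m Sg φ) :
    LocS (V := ((XF Z₁.bp).M m).M) (V' := ((XF Z₂.bp).M m).M) ((XFm φ.bp).f m).f
      (fun s : Sg => ((XF Z₁.bp).M m).l (algebraMap (RR k m.1) (A.A m) s.1))
      (fun s : Sg => ((XF Z₂.bp).M m).l (algebraMap (RR k m.1) (A.A m) s.1)) :=
  cBL_locS (M := Z₁.bp.two.snd m) (M' := Z₂.bp.two.snd m) (f := (φ.bp.two.snd m).pch)
    (fun b => bp_locS h b) (LL x) (FS.e x)

/-- localisations at `m` give isomorphisms in cohomology up to denominators -/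
theorem ciso_of_locS {X X' : PB A.pa (PA.con i W)} {f : PBH X X'}
    (h : LocS (V := (X.M m).M) (V' := (X'.M m).M) (f.f m).f
      (fun s : Sg => (X.M m).l (algebraMap (RR k m.1) (A.A m) s.1))
      (fun s : Sg => (X'.M m).l (algebraMap (RR k m.1) (A.A m) s.1)))
    {W' : DGA k} (U : Bim W W') (Y : PB (PA.con j W') A'.pa) : CIso m Sg (cmpX f U Y) :=
  CIso.of_locS (fun c' => cmpX_locS h U Y c') (fun c' s z => rfl) (fun c' s z => rfl)

/-- quasi-isomorphisms at `m` give isomorphisms in cohomology -/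
theorem ciso_of_qiso {X X' : PB A.pa (PA.con i W)} {f : PBH X X'} (h : QIso (f.f m))
    {W' : DGA k} {U : Bim W W'} (hU : Perf U) (Y : PB (PA.con j W') A'.pa) :
    CIso m Sg (cmpX f U Y) :=
  CIso.of_qiso (fun c' => cmpX_qiso hU h c')

end loc

variable {V : Type*} [AddCommGroup V] {E : BS A A'} {m : Ch i}
  {hR : Red E m} {cl : AddFn (S := bs A A') Sh.Coh V} {q : K0Q (TT A) (TT A') →+ V}
  {W : DGA k} {hW : Proper W}

theorem yqc {X : PB A.pa (PA.con i W)} (hX : QCl X) (U : Bim W (TT A')) :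
    (BPB.cmp X U (YY A')).QC := BPB.cmp_qc hX (YY_qcr A')

section cp

variable (hN : (bs A A').Noe) (ih : ∀ F : BS A A', F.Coh → ann E < ann F → cl.cl F = 0)

include hN ih

/-- invariance -/
theorem CP.iff_ciso {X X' : PB A.pa (PA.con i W)} (hX : QCl X) (hX' : QCl X')
    (kX : KlX (ann E) X) (kX' : KlX (ann E) X') {f : PBH X X'}
    (h : ∀ U : Bim W (TT A'), Perf U → CIso m (sgR hR) (cmpX f U (YY A')))
    {z : K0Q (TT A) W} : CP hR cl q hW X z ↔ CP hR cl q hW X' z := by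
  have h1 : ∀ (U : Bim W (TT A')) (hU : Perf U),
      (SB (ann E) m (sgR hR) (BPB.cmp X U (YY A')) ↔
        SB (ann E) m (sgR hR) (BPB.cmp X' U (YY A'))) ∧
      chi hR cl (BPB.cmp X U (YY A')) = chi hR cl (BPB.cmp X' U (YY A')) := by
    intro U hU
    have e1 : (BPB.cmp X U (YY A')).QC := yqc hX U
    have e2 : (BPB.cmp X' U (YY A')).QC := yqc hX' U
    have e3 := kX.cmp U (YY A')
    have e4 := kX'.cmp U (YY A')
    exact ⟨SB.iff_ciso (h U hU) e1 e2 e3 e4, chi_ciso hN ih (h U hU) e1 e2 e3 e4⟩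
  constructor
  · intro hc U hU
    exact ⟨(h1 U hU).1.1 (hc U hU).1, (h1 U hU).2.symm.trans (hc U hU).2⟩
  · intro hc U hU
    exact ⟨(h1 U hU).1.2 (hc U hU).1, (h1 U hU).2.trans (hc U hU).2⟩

theorem CP.iff_locS {X X' : PB A.pa (PA.con i W)} (hX : QCl X) (hX' : QCl X')
    (kX : KlX (ann E) X) (kX' : KlX (ann E) X') {f : PBH X X'}
    (h : LocS (V := (X.M m).M) (V' := (X'.M m).M) (f.f m).f
      (fun s : sgR hR => (X.M m).l (algebraMap (RR k m.1) (A.A m) s.1))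
      (fun s : sgR hR => (X'.M m).l (algebraMap (RR k m.1) (A.A m) s.1)))
    {z : K0Q (TT A) W} : CP hR cl q hW X z ↔ CP hR cl q hW X' z :=
  CP.iff_ciso hN ih hX hX' kX kX' (fun U hU => ciso_of_locS h U (YY A'))

theorem CP.iff_qiso {X X' : PB A.pa (PA.con i W)} (hX : QCl X) (hX' : QCl X')
    (kX : KlX (ann E) X) (kX' : KlX (ann E) X') {f : PBH X X'} (h : QIso (f.f m))
    {z : K0Q (TT A) W} : CP hR cl q hW X z ↔ CP hR cl q hW X' z :=
  CP.iff_ciso hN ih hX hX' kX kX' (fun U hU => ciso_of_qiso h hU (YY A'))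

/-- acyclic at `m` -/
theorem CP.of_acyc {X : PB A.pa (PA.con i W)} (hX : QCl X) (kX : KlX (ann E) X)
    (h : Acyc (X.M m)) : CP hR cl q hW X 0 := by
  intro U hU
  have e1 : (BPB.cmp X U (YY A')).QC := yqc hX U
  have e3 := kX.cmp U (YY A')
  have ht : ∀ n, STors m (sgR hR) ((BPB.cmp X U (YY A')).H e1 n) := by
    intro n c' z
    refine ⟨1, (sgR hR).one_mem, ?_⟩
    have h3 : Acyc (tb (X.M m) (tb U ((YY A').M c'))) := by
      exact lflat_tb hU ((YY A').M c') (MP_6e5bed_ag_NC.res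
        (DHom.unit (MP_6e5bed_ag_NC.ring k (A.A m))) (DHom.id W) (X.M m)) h
    have hz : z = 0 := by
      obtain ⟨y, h1, h2, rfl⟩ := hc_surj z
      exact hc_eq_zero.2 (h3 y h2)
    rw [hz, smul_zero]
  refine ⟨SB.of_tors e1 e3 ht, ?_⟩
  rw [chi_tors hN ih e1 ht, map_zero, LinearMap.zero_apply, map_zero]

/-- the middle term -/
theorem CP.mid {X' X X'' : PB A.pa (PA.con i W)} {a : PBH X' X} {b : PBH X X''}
    (h : PBEx a b) (hX : QCl X) (kX : KlX (ann E) X) {z' z'' : K0Q (TT A) W}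
    (h' : CP hR cl q hW X' z') (h'' : CP hR cl q hW X'' z'') : CP hR cl q hW X (z' + z'') := by
  intro U hU
  have e1 : (BPB.cmp X U (YY A')).QC := yqc hX U
  have e3 := kX.cmp U (YY A')
  have hD := fun p => cmpX_distE hU (Y := YY A') h p
  have hS := SB.mid hN hD (h' U hU).1 (h'' U hU).1 e1 e3
  refine ⟨hS, ?_⟩
  rw [chi_add hN ih hD (h' U hU).1 hS (h'' U hU).1, (h' U hU).2, (h'' U hU).2, map_add,
    LinearMap.add_apply, map_add]

theorem CP.right {X' X X'' : PB A.pa (PA.con i W)} {a : PBH X' X} {b : PBH X X''}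
    (h : PBEx a b) (hX : QCl X'') (kX : KlX (ann E) X'') {z' z : K0Q (TT A) W}
    (h' : CP hR cl q hW X' z') (h'' : CP hR cl q hW X z) : CP hR cl q hW X'' (z - z') := by
  intro U hU
  have e1 : (BPB.cmp X'' U (YY A')).QC := yqc hX U
  have e3 := kX.cmp U (YY A')
  have hD := fun p => cmpX_distE hU (Y := YY A') h p
  have hS := SB.right hN hD (h' U hU).1 (h'' U hU).1 e1 e3
  refine ⟨hS, ?_⟩
  have h1 := chi_add hN ih hD (h' U hU).1 (h'' U hU).1 hS
  rw [map_sub, LinearMap.sub_apply, map_sub, ← (h' U hU).2, ← (h'' U hU).2, h1,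
    add_sub_cancel_left]

theorem CP.left {X' X X'' : PB A.pa (PA.con i W)} {a : PBH X' X} {b : PBH X X''}
    (h : PBEx a b) (hX : QCl X') (kX : KlX (ann E) X') {z z'' : K0Q (TT A) W}
    (h' : CP hR cl q hW X z) (h'' : CP hR cl q hW X'' z'') : CP hR cl q hW X' (z - z'') := by
  intro U hU
  have e1 : (BPB.cmp X' U (YY A')).QC := yqc hX U
  have e3 := kX.cmp U (YY A')
  have hD := fun p => cmpX_distE hU (Y := YY A') h p
  have hS := SB.left hN hD (h' U hU).1 (h'' U hU).1 e1 e3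
  refine ⟨hS, ?_⟩
  have h1 := chi_add hN ih hD hS (h' U hU).1 (h'' U hU).1
  rw [map_sub, LinearMap.sub_apply, map_sub, ← (h' U hU).2, ← (h'' U hU).2, h1,
    add_sub_cancel_right]

end cp

section way

variable (hN : (bs A A').Noe) (ih : ∀ F : BS A A', F.Coh → ann E < ann F → cl.cl F = 0)
  (q : K0Q (TT A) (TT A') →+ V) (hRes : ∀ Z : BS A A', Z.Coh → HasRes Z.bp.BB)
  (hq : ∀ (Z : BS A A') (h : Z.Coh), cl.cl Z = q (rcls Z.bp.BB (hRes Z h)))
  (hA : Smooth (TT A)) (hB : Smooth (TT B)) (hP : Proper (TT B))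

include hN ih hq hA hB

/-- (6.2) -/
theorem CP.of_sco {Z : BS A B} (hZ : SCo (ann E) m (sgR hR) Z) :
    ∃ z, CP hR cl q hP (XF Z.bp) z := by
  obtain ⟨N, hN', h1⟩ := hZ.ex
  have hI : ann E ≤ ann N.sh := hZ.ann.trans (ann_sub Z N)
  have r : HasRes N.sh.bp.BB := hasRes_BB finBB hA hB hN'
  refine ⟨rcls _ r, (CP.iff_locS hN ih (qcl_push2 (Sh.bp_qc N.sh) _ _)
    (qcl_push2 (Sh.bp_qc Z) _ _) (kl_bp hI).XF (kl_bp hZ.ann).XF
    (XF_locS (SIso.incl h1))).1 ?_⟩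
  exact CP.of_coh hN ih q hRes hq hA hB hP hN' hI r

/-- the property of (6.3) satisfies the conditions of the way-out induction -/
theorem cp_way : WayP (ann E) m (sgR hR) (fun F : BPB A B => ∃ z, CP hR cl q hP (XF F) z) where
  acy := fun {F} hQ hK h => ⟨0, CP.of_acyc hN ih (qcl_push2 hQ _ _) hK.XF
    (cC_acy (V := (F.two.snd m).pc) (fun b => h b) (LL x) (FS.e x))⟩
  qi := fun {F G} f hF hG kF kG h => exists_congr (fun z =>
    CP.iff_qiso hN ih (qcl_push2 hF _ _) (qcl_push2 hG _ _) kF.XF kG.XF (f := XFm f)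
      ((f.two.snd m).qisoL (fun b => h b) (LL x) (FS.e x)))
  mid := fun {F' F F'' a b} h q1 q2 q3 k1 k2 k3 ⟨z', h'⟩ ⟨z'', h''⟩ =>
    ⟨z' + z'', CP.mid hN ih (PB2Ex.push2 (i := a.two) (p := b.two) (fun c c' => h (c, c')) _ _)
      (qcl_push2 q2 _ _) k2.XF h' h''⟩
  right := fun {F' F F'' a b} h q1 q2 q3 k1 k2 k3 ⟨z', h'⟩ ⟨z, h''⟩ =>
    ⟨z - z', CP.right hN ih (PB2Ex.push2 (i := a.two) (p := b.two) (fun c c' => h (c, c')) _ _)
      (qcl_push2 q3 _ _) k3.XF h' h''⟩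
  left := fun {F' F F'' a b} h q1 q2 q3 k1 k2 k3 ⟨z, h'⟩ ⟨z'', h''⟩ =>
    ⟨z - z'', CP.left hN ih (PB2Ex.push2 (i := a.two) (p := b.two) (fun c c' => h (c, c')) _ _)
      (qcl_push2 q1 _ _) k1.XF h' h''⟩
  sh := fun {Z} hZ => CP.of_sco hN ih q hRes hq hA hB hP hZ

/-- (6.3) -/
theorem CP.of_sb {F : BPB A B} (hS : SB (ann E) m (sgR hR) F) (hM : BdM m F) :
    ∃ z, CP hR cl q hP (XF F) z :=
  (cp_way hN ih q hRes hq hA hB hP).all hS hM

end way

end Pool.Agent.MP_6e5bed_ag_WW
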