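import Pool.Agent.Lib.MP_6e5bed_ag_GG.GF
import Pool.Agent.Lib.MP_6e5bed_ag_GG.Cmp
import Pool.Agent.Lib.MP_6e5bed_ag_NS.Sh
import Pool.Agent.Lib.MP_6e5bed_ag_PN.GT

set_option autoImplicit false
set_option linter.unusedVariables false

/-!
# MP_6e5bed_ag, THEOREM W, (7.1): the generic fibre as a presheaf of bimodules (definition)
-/

noncomputable section

namespace Pool.Agent.MP_6e5bed_ag_WW

open Pool.Agent.MP_6e5bed_ag_NC Pool.Agent.MP_6e5bed_ag_GG
open Pool.Agent.MP_6e5bed_ag_PN hiding Ch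
open Pool.Agent.MP_6e5bed_ag_NS (Cx CHom ringH)
open scoped TensorProduct

universe u

variable {k : Type u} [Field k] {j : Type} [Fintype j] {A' : CA k j} {T : Type u} [Ring T]
  [Algebra k T]

/-- the bimodule at a chart -/
def pbK (V : Sh (bsS T A')) (c : Ch j) : KBi k T (A'.A c) where
  M := V.E c
  l := (shl V c).toLinearMap
  r := (shr V c).toLinearMap ∘ₗ (MulOpposite.opLinearEquiv k).toLinearMap
  l_one := fun x => LinearMap.congr_fun (map_one (shl V c)) x
  r_one := fun x => LinearMap.congr_fun (map_one (shr V c)) x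
  l_mul := fun a a' x => LinearMap.congr_fun (map_mul (shl V c) a a') x
  r_mul := fun b b' x => LinearMap.congr_fun (map_mul (shr V c) (MulOpposite.op b')
    (MulOpposite.op b)) x
  l_r := fun a b x => sh_comm c a (MulOpposite.op b) x

/-- the presheaf of bimodules -/
def pbS (V : Sh (bsS T A')) : PB (PA.con j (MP_6e5bed_ag_NC.ring k T)) A'.pa where
  M := fun c => (pbK V c).bim
  ρ := fun {c d} hcd => gmk (DHom.id (MP_6e5bed_ag_NC.ring k T)) (A'.pa.r hcd) (V.res hcd)
    (fun {i x} hx => by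
      rw [add_zero]
      exact Pool.Agent.MP_6e5bed_ag_NS.conc_map _ hx)
    (fun (a : T) x => res_shl hcd a x)
    (fun b x => res_shr hcd (MulOpposite.op b) x)
  dd := fun {c d} hcd => gmk_dd _ _ _ _ _ _ (fun x => (map_zero (V.res hcd)).symm)
  ρ_id := fun h x => V.res_id h x
  ρ_ρ := fun h h' x => V.res_res h h' x

end Pool.Agent.MP_6e5bed_ag_WW
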