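import Pool.Agent.Lib.MP_6e5bed_ag_WW.HRs
import Pool.Agent.Lib.MP_6e5bed_ag_WW.K2
import Pool.Agent.Lib.MP_6e5bed_ag_WW.RVd
import Pool.Agent.Lib.MP_6e5bed_ag_GG.Cbm
import Pool.Agent.Lib.MP_6e5bed_ag_GG.GF
import Pool.Agent.Lib.MP_6e5bed_ag_GG.GE
import Pool.Agent.Lib.MP_6e5bed_ag_GG.MnA

set_option autoImplicit false
set_option linter.unusedVariables false

/-!
# MP_6e5bed_ag, THEOREM W, (7.1): the Čech complex of the generic fibre has a perfect resolution
-/

noncomputable section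

namespace Pool.Agent.MP_6e5bed_ag_WW

open Pool.Agent.MP_6e5bed_ag_NC Pool.Agent.MP_6e5bed_ag_GG
open Pool.Agent.MP_6e5bed_ag_PN hiding Ch
open Pool.Agent.MP_6e5bed_ag_NS (Cx CHom ringH)
open scoped TensorProduct

universe u

variable {k : Type u} [Field k] {i j : Type} [Fintype i] [Fintype j]
  {A : CA k i} {A' : CA k j} {m : Ch i}

/-- `ε` respects the left actions -/
theorem ε_l {E : BS A A'} {g : GD A m} (v : GV E g) (c : Ch j) (a : A.A m) (x : E.E (m, c)) :
    v.ε c (((E.bp.two.snd m).M c).l a x) = shl v.V c (g.psi a) (v.ε c x) := by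
  refine (congrArg (v.ε c) ?_).trans (v.ε_smul c a 1 x)
  rw [map_one, mul_one]
  rfl

/-- `ε` respects the right actions -/
theorem ε_r {E : BS A A'} {g : GD A m} (v : GV E g) (c : Ch j) (b : A'.A c) (x : E.E (m, c)) :
    v.ε c (((E.bp.two.snd m).M c).r b x) = shr v.V c (MulOpposite.op b) (v.ε c x) := by
  refine ((congrArg (v.ε c) ?_).trans (v.ε_smul c 1 (MulOpposite.op b) x)).trans ?_
  · rw [map_one, one_mul]
    rfl
  · rw [map_one]
    rfl

/-- the map to the generic fibre -/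
def εP {E : BS A A'} {g : GD A m} (v : GV E g) :
    PBL (ringH g.psi) (E.bp.two.snd m) (pbS v.V) where
  f := fun c => gmk (ringH g.psi) (DHom.id (A'.pa.A c)) (X := (E.bp.two.snd m).M c)
    (Y := (pbS v.V).M c) (v.ε c)
    (fun {n x} hx => by
      rw [add_zero]
      exact Pool.Agent.MP_6e5bed_ag_NS.conc_map (v.ε c) hx)
    (fun a x => ε_l v c a x) (fun b x => ε_r v c b x)
  dd := fun c => gmk_dd _ _ _ _ _ _ (fun x => (map_zero (v.ε c)).symm)
  nat := fun {c d} h x => v.nat h x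

/-- `ε` is a localisation -/
theorem ε_locS {E : BS A A'} (hR : Red E m) (v : GV E hR.gd) (c : Ch j) :
    LocS (V := ((E.bp.two.snd m).M c).M) (V' := ((pbS v.V).M c).M) ((εP v).pch.f c).f
      (fun s : sgR hR => ((E.bp.two.snd m).M c).l (algebraMap (RR k m.1) (A.A m) s.1))
      (fun s : sgR hR => ((pbS v.V).M c).l (hR.gd.fn s.1)) where
  mul := fun s t x => by
    rw [Submonoid.coe_mul, map_mul]
    exact ((E.bp.two.snd m).M c).l_mul _ _ x
  mul' := fun s t x => by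
    rw [Submonoid.coe_mul, hR.gd.fn_mul]
    exact ((pbS v.V).M c).l_mul _ _ x
  nat := fun s x => ε_l v c _ x
  surj := fun y => by
    obtain ⟨f, hf, x, hx⟩ := v.surj c y
    exact ⟨⟨f, (hR.gd_fn f).1 hf⟩, x, hx⟩
  inj := fun x hx => ⟨1, by
    have h1 : x = 0 := v.inj c x hx
    rw [h1, map_zero]⟩

/-- the algebra of the generic data is semisimple -/
theorem gd_semisimple (g : GD A m) : IsSemisimpleRing g.S := by
  let _ := g.fieldC
  have h1 : IsArtinianRing (Subalgebra.center k g.S) := inferInstance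
  have h2 : IsArtinianRing g.S := IsArtinianRing.of_finite (Subalgebra.center k g.S) g.S
  exact IsSimpleRing.isSemisimpleRing_iff_isArtinianRing.2 h2

/-- generators of the cohomology of a localisation -/
theorem gen_loc {R S D : Type u} [Ring R] [Algebra k R] [Ring S] [Algebra k S] [CommRing D]
    [Algebra k D] {W : DGA k} {X : Bim (ring k R) W} {Y : Bim (ring k S) W} {Sg : Submonoid D}
    {α : D → R} {β : D → S} {F : X.M →ₗ[k] Y.M} (hF : ∀ x, Y.dg.d (F x) = F (X.dg.d x))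
    (hL : LocS F (fun s : Sg => X.l (α s.1)) (fun s : Sg => Y.l (β s.1)))
    (hu : ∀ s ∈ Sg, ∃ u : S, u * β s = 1)
    (hl : ∀ (r : D) x, F (X.l (α r) x) = Y.l (β r) (F x)) {n : ℕ} (s : Fin n → X.M)
    (h : ∀ x, X.dg.d x = 0 → ∃ (r : Fin n → D) (w : X.M),
      x = ∑ l, X.l (α (r l)) (s l) + X.dg.d w) (y : Y.M) (hy : Y.dg.d y = 0) :
    ∃ (r : Fin n → S) (w : Y.M), y = ∑ l, Y.l (r l) (F (s l)) + Y.dg.d w := by
  obtain ⟨t, x, hx⟩ := hL.surj y
  have h1 : F (X.dg.d x) = 0 := by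
    rw [← hF, hx, lring_d, hy, map_zero]
  obtain ⟨t', ht'⟩ := hL.inj _ h1
  have h2 : X.dg.d (X.l (α t'.1) x) = 0 := by rw [lring_d]; exact ht'
  obtain ⟨r, w, hw⟩ := h _ h2
  obtain ⟨u, hu1⟩ := hu t.1 t.2
  obtain ⟨u', hu1'⟩ := hu t'.1 t'.2
  have hm : ∀ (a b : S) (z : Y.M), Y.l (a * b) z = Y.l a (Y.l b z) := fun a b z => Y.l_mul a b z
  have h1' : ∀ z : Y.M, Y.l (1 : S) z = z := fun z => Y.l_one z
  have h3 : Y.l u (Y.l u' (F (X.l (α t'.1) x))) = y := by
    rw [hl, ← hm u', hu1', h1', hx]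
    rw [← hm, hu1, h1']
  refine ⟨fun l => u * (u' * β (r l)), Y.l u (Y.l u' (F w)), ?_⟩
  rw [← h3, hw, map_add, map_sum, map_add, map_add, map_sum, map_sum, ← hF, lring_d, lring_d]
  refine congrArg (· + _) (Finset.sum_congr rfl fun l _ => ?_)
  rw [hl, hm, hm]

/-- (7.1): the Čech complex of the generic fibre has a perfect resolution. -/
theorem rv_hasRes {E : BS A A'} (hR : Red E m) (v : GV E hR.gd) (hE : E.Coh)
    (hT : Smooth (TT A')) : HasRes (B := TT A') (cBL (pbS v.V) (LL j) (FS.e j)) := by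
  have := gd_semisimple hR.gd
  obtain ⟨a, ha, n, s, hs, h⟩ := push2_fg hE m
  have hL := cBL_locS (M := E.bp.two.snd m) (M' := pbS v.V) (f := (εP v).pch)
    (fun c => ε_locS hR v c) (LL j) (FS.e j)
  have hd : ∀ x, (cBL (pbS v.V) (LL j) (FS.e j)).dg.d (((cH (εP v).pch (LL j)).g (FS.e j)).f x) =
      ((cH (εP v).pch (LL j)).g (FS.e j)).f ((cBL (E.bp.two.snd m) (LL j) (FS.e j)).dg.d x) :=
    fun x => ((cH (εP v).pch (LL j)).g (FS.e j)).d x
  refine hasRes_of_gen hT (cBL (pbS v.V) (LL j) (FS.e j))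
    (fun l => ((cH (εP v).pch (LL j)).g (FS.e j)).f (s l)) (fun l => ?_) ?_
  · refine (hd (s l)).trans ?_
    exact (congrArg ((cH (εP v).pch (LL j)).g (FS.e j)).f (hs l)).trans (map_zero _)
  · refine gen_loc (W := TT A') (X := cBL (E.bp.two.snd m) (LL j) (FS.e j))
      (Y := cBL (pbS v.V) (LL j) (FS.e j)) (D := RR k m.1)
      (α := algebraMap (RR k m.1) (A.A m)) (β := hR.gd.fn) (Sg := sgR hR) hd hL ?_ ?_ s ?_
    · intro t ht
      exact (hR.gd.unit t ((hR.gd_fn t).2 ht)).exists_left_inv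
    · exact fun r x => (εP v).gm_l' (LL j) (FS.e j) (algebraMap (RR k m.1) (A.A m) r) x
    · intro x hx
      obtain ⟨r, w, hw⟩ := h x hx
      refine ⟨r, w, ?_⟩
      refine (sub_eq_iff_eq_add'.1 hw.symm).trans ?_
      refine congrArg (· + _) (Finset.sum_congr rfl fun l _ => ha (r l) (s l))

end Pool.Agent.MP_6e5bed_ag_WW
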