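import Pool.Agent.Lib.MP_6e5bed_ag_GG.GB
import Pool.Agent.Lib.MP_6e5bed_ag_GG.Cmp
import Pool.Agent.Lib.MP_6e5bed_ag_PN.GT

set_option autoImplicit false
set_option linter.unusedVariables false

/-!
# MP_6e5bed_ag, THEOREM W, (5.1): the presheaf `ss`, which is constant along a cone (definition)
-/

noncomputable section

namespace Pool.Agent.MP_6e5bed_ag_WW

open Pool.Agent.MP_6e5bed_ag_NC Pool.Agent.MP_6e5bed_ag_GG
open Pool.Agent.MP_6e5bed_ag_PN hiding Ch
open Pool.Agent.MP_6e5bed_ag_NS (Cx CHom ringH)

universe u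

variable {k : Type u} [Field k] {i : Type} [Fintype i] {A : CA k i} {T : Type u} [Ring T]
  [Algebra k T] (κ : Cone A T)

/-- the bimodule at the chart `c` -/
def ssK (c : Ch i) : KBi k (A.A c) T where
  M := PLift (κ.D c) → T
  l := LinearMap.mk₂ k (fun a (x : PLift (κ.D c) → T) => fun h => κ.psi c h.down a * x h)
    (fun a a' x => funext fun h => by
      change κ.psi c h.down (a + a') * x h = κ.psi c h.down a * x h + κ.psi c h.down a' * x h
      rw [map_add, add_mul])
    (fun t a x => funext fun h => by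
      change κ.psi c h.down (t • a) * x h = t • (κ.psi c h.down a * x h)
      rw [map_smul, smul_mul_assoc])
    (fun a x x' => funext fun h => mul_add _ _ _)
    (fun t a x => funext fun h => mul_smul_comm _ _ _)
  r := LinearMap.mk₂ k (fun t (x : PLift (κ.D c) → T) => fun h => x h * t)
    (fun t t' x => funext fun h => mul_add _ _ _)
    (fun s t x => funext fun h => mul_smul_comm _ _ _)
    (fun t x x' => funext fun h => add_mul _ _ _)
    (fun s t x => funext fun h => smul_mul_assoc _ _ _)
  l_one := fun x => funext fun h => by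
    change κ.psi c h.down 1 * x h = x h
    rw [map_one, one_mul]
  r_one := fun x => funext fun h => mul_one _
  l_mul := fun a a' x => funext fun h => by
    change κ.psi c h.down (a * a') * x h = κ.psi c h.down a * (κ.psi c h.down a' * x h)
    rw [map_mul, mul_assoc]
  r_mul := fun t t' x => funext fun h => (mul_assoc _ _ _).symm
  l_r := fun a t x => funext fun h => (mul_assoc _ _ _).symm

theorem ssK_l (c : Ch i) (a : A.A c) (x : (ssK κ c).M) (h : PLift (κ.D c)) :
    (show PLift (κ.D c) → T from (ssK κ c).l a x) h =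
      κ.psi c h.down a * (show PLift (κ.D c) → T from x) h := rfl

theorem ssK_r (c : Ch i) (t : T) (x : (ssK κ c).M) (h : PLift (κ.D c)) :
    (show PLift (κ.D c) → T from (ssK κ c).r t x) h =
      (show PLift (κ.D c) → T from x) h * t := rfl

/-- the restriction -/
def ssr {c d : Ch i} (h : c ≤ d) : (ssK κ c).M →ₗ[k] (ssK κ d).M where
  toFun := fun (x : PLift (κ.D c) → T) => (fun hd => x ⟨κ.dn h hd.down⟩ : PLift (κ.D d) → T)
  map_add' := fun x x' => rfl
  map_smul' := fun t x => rfl

/-- THE PRESHEAF `ss` -/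
def ss : PB A.pa (PA.con i (MP_6e5bed_ag_NC.ring k T)) where
  M := fun c => (ssK κ c).bim
  ρ := fun {c d} h => gmk (A.pa.r h) (DHom.id (MP_6e5bed_ag_NC.ring k T))
    (X := (ssK κ c).bim) (Y := (ssK κ d).bim) (ssr κ h)
    (fun {n x} hx => by
      rw [add_zero]
      rcases Dg.conc_cases hx with rfl | h0
      · exact Dg.conc_deg _
      · rw [h0]
        exact Dg.IsDeg.zero _)
    (fun a x => funext fun hd => by
      change κ.psi c (κ.dn h hd.down) a * x ⟨κ.dn h hd.down⟩ =
        κ.psi d hd.down (A.res h a) * x ⟨κ.dn h hd.down⟩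
      rw [κ.nat])
    (fun t x => rfl)
  dd := fun {c d} h => gmk_dd _ _ _ _ _ _ (fun x => (map_zero (ssr κ h)).symm)
  ρ_id := fun {c} h x => rfl
  ρ_ρ := fun {c d e} h h' x => rfl

theorem ss_M (c : Ch i) : (ss κ).M c = (ssK κ c).bim := rfl

end Pool.Agent.MP_6e5bed_ag_WW
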