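import Pool.Agent.Lib.MP_6e5bed_ag_WW.StepA
import Pool.Agent.Lib.MP_6e5bed_ag_WW.SsD
import Pool.Agent.Lib.MP_6e5bed_ag_WW.RV
import Pool.Agent.Lib.MP_6e5bed_ag_GG.Pmk
import Pool.Agent.Lib.MP_6e5bed_ag_GG.GF
import Pool.Agent.Lib.MP_6e5bed_ag_GG.MnA

set_option autoImplicit false
set_option linter.unusedVariables false

/-!
# MP_6e5bed_ag, THEOREM W, (7.2): the morphism from the external product of `ss` and `V` to the
constant bisheaf, the class of `E`
-/

noncomputable section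

namespace Pool.Agent.MP_6e5bed_ag_WW

open Pool.Agent.MP_6e5bed_ag_NC Pool.Agent.MP_6e5bed_ag_GG
open Pool.Agent.MP_6e5bed_ag_PN hiding Ch
open Pool.Agent.MP_6e5bed_ag_NS (Cx CHom ringH)
open scoped TensorProduct

universe u

variable {k : Type u} [Field k] {i j : Type} [Fintype i] [Fintype j]
  {A : CA k i} {A' : CA k j} {m : Ch i} {T : Type u} [Ring T] [Algebra k T]

/-! ### the morphism -/

theorem pair_bij {D W D' : DGA k} {X : Bim D W} {Y : Bim W D'} {Z : Bim D D'} (P : BPr X Y Z)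
    (x0 : X.M) (h1 : ∀ x, ∃ w, x = X.r w x0) (h2 : Function.Bijective (fun y => P.v x0 y)) :
    Function.Bijective P.gm.f := by
  have h3 : ∀ t : (tb X Y).M, ∃ y, t = tm x0 y := fun t => by
    refine tb_ind (M := X) (N := Y) (P := fun t => ∃ y, t = tm x0 y) ?_ ?_ ?_ t
    · exact ⟨0, (tm_zero_right x0).symm⟩
    · rintro x y ⟨y1, rfl⟩ ⟨y2, rfl⟩
      exact ⟨y1 + y2, (tm_add_right x0 y1 y2).symm⟩
    · intro x y
      obtain ⟨w, rfl⟩ := h1 x
      exact ⟨Y.l w y, tm_r_l x0 w y⟩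
  constructor
  · refine (injective_iff_map_eq_zero P.gm.f).2 fun t ht => ?_
    obtain ⟨y, rfl⟩ := h3 t
    have h4 : P.v x0 y = P.v x0 0 := by
      rw [← P.gm_tm, ← P.gm_tm, ht, tm_zero_right, map_zero]
    have h5 : y = 0 := h2.1 h4
    rw [h5, tm_zero_right]
  · intro z
    obtain ⟨y, hy⟩ := h2.2 z
    exact ⟨tm x0 y, (P.gm_tm x0 y).trans hy⟩

section mor

variable (κ : Cone A T) (V : Sh (bsS T A'))

/-- the pairing `x, v ↦ x h • v` -/
def ssP (p : Ch i × Ch j) : BPr ((ss κ).M p.1) ((pbS V).M p.2) ((Zs κ V).bp.F p) :=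
  BPr.conc (X := ssK κ p.1) (Y := pbK V p.2) (Z := kbim k (A.A p.1) (A'.A p.2) ((Zs κ V).E p))
    (LinearMap.mk₂ k (fun (x : PLift (κ.D p.1) → T) (v : V.E p.2) =>
        (fun h => shl V p.2 (x h) v : ZE κ V p))
      (fun x x' v => funext fun h => LinearMap.congr_fun (map_add (shl V p.2) (x h) (x' h)) v)
      (fun t x v => funext fun h => LinearMap.congr_fun (map_smul (shl V p.2) t (x h)) v)
      (fun x v v' => funext fun h => map_add (shl V p.2 (x h)) v v')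
      (fun t x v => funext fun h => map_smul (shl V p.2 (x h)) t v))
    (fun x w v => funext fun h => LinearMap.congr_fun (map_mul (shl V p.2) (x h) w) v)
    (fun a x v => funext fun h => by
      refine (LinearMap.congr_fun (map_mul (shl V p.2) (κ.psi p.1 h.down a) (x h)) v).trans ?_
      exact (congrArg (fun z => Zact V z (shl V p.2 (x h) v))
        (κ.ph_tmul p h.down a (1 : (A'.A p.2)ᵐᵒᵖ))).symm)
    (fun b x v => funext fun h => by
      refine (sh_comm p.2 (x h) (MulOpposite.op b) v).trans ?_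
      refine (congrArg (fun z => Zact V (z ⊗ₜ[k] MulOpposite.op b : bsSB T A' p.2)
        (shl V p.2 (x h) v)) (map_one (κ.psi p.1 h.down)).symm).trans ?_
      exact (congrArg (fun z => Zact V z (shl V p.2 (x h) v))
        (κ.ph_tmul p h.down (1 : A.A p.1) (MulOpposite.op b))).symm)

theorem ssP_v (p : Ch i × Ch j) (x : PLift (κ.D p.1) → T) (v : V.E p.2) :
    (ssP κ V p).v x v = (fun h => shl V p.2 (x h) v : ZE κ V p) := rfl

/-- the morphism `ss ⊗ V → Zs` -/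
def ssF : PB2H (PB.ext (ss κ) (pbS V)) (Zs κ V).bp.two where
  f := fun a b => (ssP κ V (a, b)).gm
  dd := fun a b => (ssP κ V (a, b)).gm_dd
  nat := fun {a a' b b'} h h' x => lin_tm (M := (ss κ).M a) (N := (pbS V).M b)
    (f := ((Zs κ V).bp.two.ρ h h').f ∘ₗ (ssP κ V (a, b)).gm.f)
    (g := (ssP κ V (a', b')).gm.f ∘ₗ ((PB.ext (ss κ) (pbS V)).ρ h h').f) (fun m n => by
      refine (congrArg ((Zs κ V).bp.two.ρ h h').f ((ssP κ V (a, b)).gm_tm m n)).trans ?_
      refine Eq.trans ?_ (congrArg (ssP κ V (a', b')).gm.f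
        (PB.ext_ρ (ss κ) (pbS V) h h' m n)).symm
      refine Eq.trans ?_ ((ssP κ V (a', b')).gm_tm (((ss κ).ρ h).f m)
        (((pbS V).ρ h').f n)).symm
      exact funext fun hq => res_shl h' _ _) x

theorem ssF_bij {c : Ch i} (hc : κ.D c) (b : Ch j) :
    Function.Bijective ((ssF κ V).f c b).f := by
  refine pair_bij (ssP κ V (c, b)) (fun _ : PLift (κ.D c) => (1 : T))
    (fun x => ⟨(x : PLift (κ.D c) → T) ⟨hc⟩, funext fun h => (one_mul _).symm⟩) ?_
  have h1 : ∀ (y : V.E b) (h : PLift (κ.D c)), ((ssP κ V (c, b)).v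
      (fun _ : PLift (κ.D c) => (1 : T)) y : ZE κ V (c, b)) h = y := fun y h =>
    LinearMap.congr_fun (map_one (shl V b)) y
  constructor
  · intro y y' h
    exact ((h1 y ⟨hc⟩).symm.trans (congrFun h _)).trans (h1 y' ⟨hc⟩)
  · intro z
    exact ⟨(z : ZE κ V (c, b)) ⟨hc⟩, funext fun h => h1 _ h⟩

end mor

/-! ### the class of `E` -/

theorem Zs_kl {E : BS A A'} (hR : Red E m) (V : Sh (bsS hR.gd.S A')) :
    Kl (ann E) (Zs hR.gd.cone V).bp := fun p a ha z => by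
  refine ZE_ext hR.gd.cone V (p := p) fun h => ?_
  have h1 : hR.gd.cone.psi p.1 h a = 0 := hR.psi_res ha h
  refine (congrArg (fun w => Zact V w ((z : ZE hR.gd.cone V p) ⟨h⟩))
    (hR.gd.cone.ph_tmul p h a (1 : (A'.A p.2)ᵐᵒᵖ))).trans ?_
  rw [h1, TensorProduct.zero_tmul]
  exact Zact_zero V _

theorem gv_siso {E : BS A A'} (hR : Red E m) (v : GV E hR.gd) : SIso m (sgR hR) v.map where
  inj := fun c' x hx => ⟨1, (sgR hR).one_mem, by rw [v.map_hi c' x hx, smul_zero]⟩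
  surj := fun c' z => v.map_hs hR c' z

/-- (7.2): the data of `SData` -/
theorem gen_data {E : BS A A'} (hR : Red E m) (hE : E.Coh) (hT : Smooth (TT A')) :
    ∃ (N : PB (PA.con j (ring k hR.gd.S)) A'.pa) (G : BPB A A') (f₁ : BPH E.bp G)
      (f₂ : PB2H (PB.ext (ss hR.gd.cone) N) G.two) (P : Bim (ring k hR.gd.S) (TT A'))
      (g : GMap 0 P (cBL N (LL j) (FS.e j))), G.QC ∧ Kl (ann E) G ∧
      (∀ b : Ch j, LocS (V := (E.bp.F (m, b)).M) (V' := (G.F (m, b)).M) (f₁.f (m, b)).f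
        (fun s : sgR hR => (E.bp.F (m, b)).l (algebraMap (RR k m.1) (A.A m) s.1))
        (fun s : sgR hR => (G.F (m, b)).l (algebraMap (RR k m.1) (A.A m) s.1))) ∧
      (∀ b : Ch j, QIso (f₂.f m b)) ∧ Perf P ∧ QIso g := by
  obtain ⟨P, g, hP, hg⟩ := rv_hasRes hR hR.gv hE hT
  exact ⟨pbS hR.gv.V, (Zs hR.gd.cone hR.gv.V).bp, hR.gv.map.bp, ssF hR.gd.cone hR.gv.V, P, g,
    Sh.bp_qc _, Zs_kl hR _, fun b => bp_locS (gv_siso hR hR.gv) b,
    fun b => qiso_of_bij' ((ssF hR.gd.cone hR.gv.V).dd m b)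
      (ssF_bij hR.gd.cone hR.gv.V (le_refl m) b), hP, hg⟩

end Pool.Agent.MP_6e5bed_ag_WW
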