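import Pool.Agent.Lib.MP_6e5bed_ag_WW.SsP
import Pool.Agent.Lib.MP_6e5bed_ag_GG.FrT
import Pool.Agent.Lib.MP_6e5bed_ag_PN.KTen

set_option autoImplicit false
set_option linter.unusedVariables false

/-!
# MP_6e5bed_ag, THEOREM W, (5.2): `X ⊗ (W ⊗ T) ⊗ Y`, if `X` is over `m` a localisation of a cyclic
module in degree zero
-/

noncomputable section

namespace Pool.Agent.MP_6e5bed_ag_WW

open Pool.Agent.MP_6e5bed_ag_NC Pool.Agent.MP_6e5bed_ag_GG
open Pool.Agent.MP_6e5bed_ag_PN hiding Ch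
open Pool.Agent.MP_6e5bed_ag_NS (Cx CHom ringH)
open Pool.Agent.MP_6e5bed_ag_PS (tenC tenH)
open scoped TensorProduct

universe u

variable {k : Type u} [Field k] {i x : Type} [Fintype i] [Fintype x] {A : CA k i} {B : CA k x}
  {W₀ : DGA k}

section ze

variable (X : PB A.pa (PA.con i W₀)) (B) (m : Ch i) (c' : Ch x)

/-- the augmentation -/
def agm : CHom (acx (B.pa.A c')) (bcx ((YY B).M c')) := (cC B.pa.pc (LL x)).a c'

theorem agm_qi : Qi (agm B c') := aug_qi B.pa.pc mem_LL c'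

theorem agm_mul (b b' : B.A c') : (agm B c').f (b * b' : B.A c') =
    ((YY B).M c').r b' ((agm B c').f b) := (cA.a B.pa (LL x) c').mul b b'

/-- the complex -/
abbrev zC : Cx k := bcx ((BPB.cmp X (free W₀ (TT B)) (YY B)).F (m, c'))

/-- `v ⊗ b ↦ v ⊗ (1 ⊗ 1) ⊗ b` -/
def ze : (X.M m).M ⊗[k] (B.A c') →ₗ[k] (zC B X m c').V :=
  (frF (W' := TT B) (X.M m) ((YY B).M c')) ∘ₗ (TensorProduct.map LinearMap.id (agm B c').f)

theorem ze_tmul (v : (X.M m).M) (b : B.A c') : ze B X m c' (v ⊗ₜ[k] b) =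
    tm (M := X.M m) (N := tb (free W₀ (TT B)) ((YY B).M c')) v
      (tm (M := free W₀ (TT B)) (N := (YY B).M c') (fr1 W₀ (TT B)) ((agm B c').f b)) := rfl

/-- the composition of the two morphisms of complexes -/
def zeH : CHom (tenC (bcx (X.M m)) (acx (B.pa.A c'))) (zC B X m c') :=
  (tenH (CHom.id (bcx (X.M m))) (agm B c')).comp (frH (W' := TT B) (X.M m) ((YY B).M c'))

theorem zeH_f (v : (X.M m).M ⊗[k] (B.A c')) : (zeH B X m c').f v = ze B X m c' v := rfl

theorem zeH_qi : Qi (zeH B X m c') := by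
  have h1 : Qi (tenH (CHom.id (bcx (X.M m))) (agm B c')) :=
    tenH_Qi (Qi.of_bij (f := CHom.id (bcx (X.M m))) Function.bijective_id) (agm_qi B c')
  refine h1.comp (Qi.of_bij (f := frH (W' := TT B) (X.M m) ((YY B).M c')) ?_)
  exact ⟨Function.LeftInverse.injective (frG_frF (W' := TT B) (X.M m) ((YY B).M c')),
    Function.RightInverse.surjective (frF_frG (W' := TT B) (X.M m) ((YY B).M c'))⟩

/-- equivariance -/
theorem ze_act (a : A.A m) (b' : (B.A c')ᵐᵒᵖ) (v : (X.M m).M) (b : B.A c') :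
    bact ((BPB.cmp X (free W₀ (TT B)) (YY B)).F (m, c')) (a ⊗ₜ[k] b') (ze B X m c' (v ⊗ₜ[k] b)) =
      ze B X m c' ((X.M m).l a v ⊗ₜ[k] (b * b'.unop)) := by
  rw [bact_tmul, ze_tmul, ze_tmul]
  refine (congrArg ((tb (X.M m) (tb (free W₀ (TT B)) ((YY B).M c'))).l a)
    ((tb_r (M := X.M m) (N := tb (free W₀ (TT B)) ((YY B).M c')) b'.unop v _).trans
      (congrArg (fun z => tm (M := X.M m) (N := tb (free W₀ (TT B)) ((YY B).M c')) v z)
        (tb_r (M := free W₀ (TT B)) (N := (YY B).M c') b'.unop (fr1 W₀ (TT B))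
          ((agm B c').f b))))).trans ?_
  refine (tb_l (M := X.M m) (N := tb (free W₀ (TT B)) ((YY B).M c')) a v _).trans ?_
  exact congrArg (fun z => tm (M := X.M m) (N := tb (free W₀ (TT B)) ((YY B).M c'))
    ((X.M m).l a v) (tm (M := free W₀ (TT B)) (N := (YY B).M c') (fr1 W₀ (TT B)) z))
    (agm_mul B c' b b'.unop).symm

end ze

section main

variable {X : PB A.pa (PA.con i W₀)} {m : Ch i}

/-- everything is in degree zero -/
theorem ten_deg (h0 : ∀ v : (X.M m).M, (X.M m).dg.IsDeg 0 v) (c' : Ch x)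
    (v : (X.M m).M ⊗[k] (B.A c')) :
    (tenC (bcx (X.M m)) (acx (B.pa.A c'))).dg.IsDeg 0 v := by
  induction v using TensorProduct.induction_on with
  | zero => exact Dg.IsDeg.zero _
  | tmul v b =>
    have h1 : (B.pa.A c').dg.IsDeg 0 b := Dg.conc_deg b
    have h2 := Dg.tensor_deg (h0 v) h1
    rwa [add_zero] at h2
  | add v v' h h' => exact h.add h'

theorem ten_d (h0 : ∀ v : (X.M m).M, (X.M m).dg.d v = 0) (c' : Ch x)
    (v : (X.M m).M ⊗[k] (B.A c')) :
    (tenC (bcx (X.M m)) (acx (B.pa.A c'))).dg.d v = 0 := by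
  induction v using TensorProduct.induction_on with
  | zero => exact map_zero _
  | tmul v b =>
    have h1 : (B.pa.A c').dg.d b = 0 := rfl
    refine (Dg.tensor_d (X := (X.M m).dg) (Y := (B.pa.A c').dg) v b).trans ?_
    rw [h0, h1, TensorProduct.zero_tmul, TensorProduct.tmul_zero, add_zero]
    rfl
  | add v v' h h' =>
    exact (map_add (tenC (bcx (X.M m)) (acx (B.pa.A c'))).dg.d v v').trans
      ((congrArg₂ (· + ·) h h').trans (add_zero 0))

variable (h0 : ∀ v : (X.M m).M, (X.M m).dg.IsDeg 0 v) (hd : ∀ v : (X.M m).M, (X.M m).dg.d v = 0)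

include h0 in
theorem ze_deg (c' : Ch x) (v : (X.M m).M ⊗[k] (B.A c')) :
    (zC B X m c').dg.IsDeg 0 (ze B X m c' v) :=
  (zeH B X m c').deg (ten_deg h0 c' v)

include hd in
theorem ze_d (c' : Ch x) (v : (X.M m).M ⊗[k] (B.A c')) :
    (zC B X m c').dg.d (ze B X m c' v) = 0 :=
  ((zeH B X m c').d v).trans ((congrArg (zeH B X m c').f (ten_d hd c' v)).trans (map_zero _))

/-- the cohomology is generated by the `ze v` -/
theorem ze_surj (c' : Ch x) (y : (zC B X m c').V) (hy : (zC B X m c').dg.d y = 0) :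
    ∃ (v : (X.M m).M ⊗[k] (B.A c')) (w : (zC B X m c').V),
      (zC B X m c').dg.d w = y - ze B X m c' v := by
  obtain ⟨v, _, w, hw⟩ := (zeH_qi B X m c').2 y hy
  exact ⟨v, w, hw⟩

theorem bd_of_deg {Z : Cx k} {n : ℤ} (hn : n ≠ 0) {y z w : Z.V} (h1 : Z.dg.IsDeg n y)
    (h2 : Z.dg.IsDeg 0 z) (hw : Z.dg.d w = y - z) : ∃ w, Z.dg.d w = y := by
  refine ⟨Z.dg.ρ w (n - 1), ?_⟩
  have h3 : Z.dg.ρ z = Finsupp.single 0 z := h2
  have h4 : Z.dg.ρ z n = 0 := by
    rw [h3, Finsupp.single_apply, if_neg (Ne.symm hn)]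
  rw [← ρ_d', hw, ρ_sub, ρ_self h1, h4, sub_zero]

include h0 in
/-- and is zero in the degrees different from zero -/
theorem ze_bd (c' : Ch x) {n : ℤ} (hn : n ≠ 0) (y : (zC B X m c').V)
    (h1 : (zC B X m c').dg.IsDeg n y) (hy : (zC B X m c').dg.d y = 0) :
    ∃ w, (zC B X m c').dg.d w = y := by
  obtain ⟨v, w, hw⟩ := ze_surj c' y hy
  exact bd_of_deg hn h1 (ze_deg h0 c' v) hw

variable {I : ∀ c : Ch i, Ideal (A.A c)} {Sg : Submonoid (RR k m.1)}

include h0 hd in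
/-- (5.2) -/
theorem free_case (hX : QCl X) (kX : KlX I X) (e : (X.M m).M)
    (hgen : ∀ v : (X.M m).M, ∃ s ∈ Sg, ∃ a : A.A m,
      (X.M m).l (algebraMap (RR k m.1) (A.A m) s) v = (X.M m).l a e) :
    SB I m Sg (BPB.cmp X (free W₀ (TT B)) (YY B)) ∧
      BdM m (BPB.cmp X (free W₀ (TT B)) (YY B)) := by
  classical
  have hQ : (BPB.cmp X (free W₀ (TT B)) (YY B)).QC := yqc hX _
  have hK : Kl I (BPB.cmp X (free W₀ (TT B)) (YY B)) := kX.cmp _ _
  have hz : ∀ n : ℤ, n ≠ 0 → ∀ (c' : Ch x)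
      (z : ((BPB.cmp X (free W₀ (TT B)) (YY B)).H hQ n).E (m, c')), z = 0 := by
    intro n hn c' z
    obtain ⟨y, h1, h2, rfl⟩ := hc_surj z
    exact hc_eq_zero.2 (ze_bd h0 c' hn y h1 h2)
  have hne : ∀ n : ℤ, ((0 : ℕ) : ℤ) < |n| → n ≠ 0 := by
    intro n hn h
    rw [h, abs_zero] at hn
    exact lt_irrefl _ hn
  refine ⟨⟨hQ, hK, fun n => ?_, ⟨0, fun n hn c' z => ⟨1, Sg.one_mem, ?_⟩⟩⟩,
    (bdM_iff hQ).2 ⟨0, fun n hn c' z => hz n (hne n hn) c' z⟩⟩
  · by_cases hn : n = 0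
    · subst hn
      let Z := (BPB.cmp X (free W₀ (TT B)) (YY B)).H hQ 0
      let cz : ∀ (c' : Ch x) (v : (X.M m).M ⊗[k] (B.A c')), Z.E (m, c') := fun c' v =>
        hc (BPB.cmp X (free W₀ (TT B)) (YY B)) hQ 0 (p := (m, c')) (ze B X m c' v)
          (ze_deg h0 c' v) (ze_d hd c' v)
      let T : ∀ p : Ch i × Ch x, Finset (Z.E p) := fun p =>
        if h : ((m, p.2) : Ch i × Ch x) = p then {(h ▸ cz p.2 (e ⊗ₜ[k] 1) : Z.E p)} else ∅
      obtain ⟨N, hN, hT⟩ := exists_sub_coh Z T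
      have hT' : ∀ c' : Ch x, cz c' (e ⊗ₜ[k] 1) ∈ N.N (m, c') := fun c' => by
        refine hT (m, c') _ ?_
        change cz c' (e ⊗ₜ[k] 1) ∈ (if h : ((m, c') : Ch i × Ch x) = (m, c') then
          {(h ▸ cz c' (e ⊗ₜ[k] 1) : Z.E (m, c'))} else ∅ : Finset (Z.E (m, c')))
        rw [dif_pos rfl]
        exact Finset.mem_singleton_self _
      have key : ∀ (c' : Ch x) (v : (X.M m).M ⊗[k] (B.A c')), ∃ s ∈ Sg,
          cl1 A B (m, c') s • cz c' v ∈ N.N (m, c') := by
        intro c' v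
        induction v using TensorProduct.induction_on with
        | zero =>
          refine ⟨1, Sg.one_mem, ?_⟩
          have h1 : cz c' 0 = 0 := hc_eq_zero.2 ⟨0, by rw [map_zero, map_zero]⟩
          rw [h1, smul_zero]
          exact Submodule.zero_mem _
        | tmul v b =>
          obtain ⟨s, hs, a, ha⟩ := hgen v
          refine ⟨s, hs, ?_⟩
          have h1 : cl1 A B (m, c') s • cz c' (v ⊗ₜ[k] b) =
              (show (bs A B).B (m, c') from
                (a ⊗ₜ[k] MulOpposite.op b : bsB A B (m, c'))) • cz c' (e ⊗ₜ[k] 1) := by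
            refine (smul_hc _ _ _).trans (Eq.trans ?_ (smul_hc _ _ _).symm)
            refine hc_ext ?_
            refine (ze_act B X m c' (algebraMap (RR k m.1) (A.A m) s) 1 v b).trans ?_
            refine Eq.trans ?_ (ze_act B X m c' a (MulOpposite.op b) e 1).symm
            rw [ha, MulOpposite.unop_one, mul_one, MulOpposite.unop_op, one_mul]
          rw [h1]
          exact Submodule.smul_mem _ _ (hT' c')
        | add v v' h h' =>
          obtain ⟨s, hs, h1⟩ := h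
          obtain ⟨s', hs', h1'⟩ := h'
          refine ⟨s * s', Sg.mul_mem hs hs', ?_⟩
          have h2 : cz c' (v + v') = cz c' v + cz c' v' := by
            refine Eq.trans ?_ (hc_add _ _ _ _).symm
            exact hc_ext (map_add _ _ _)
          have h3 : cl1 A B (m, c') (s * s') • cz c' (v + v') =
              cl1 A B (m, c') s' • (cl1 A B (m, c') s • cz c' v) +
                cl1 A B (m, c') s • (cl1 A B (m, c') s' • cz c' v') := by
            rw [h2, smul_add, ← mul_smul, ← mul_smul, ← cl1_mul, ← cl1_mul, mul_comm s' s]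
          rw [h3]
          exact Submodule.add_mem _ (Submodule.smul_mem _ _ h1) (Submodule.smul_mem _ _ h1')
      refine ⟨hK.ann_le hQ 0, N, hN, fun c' z => ?_⟩
      obtain ⟨y, h1, h2, rfl⟩ := hc_surj z
      obtain ⟨v, w, hw⟩ := ze_surj c' y h2
      obtain ⟨s, hs, h3⟩ := key c' v
      refine ⟨s, hs, ?_⟩
      have h4 : hc (BPB.cmp X (free W₀ (TT B)) (YY B)) hQ 0 y h1 h2 = cz c' v :=
        hc_eq.2 ⟨w, hw⟩
      rw [h4]
      exact h3
    · exact SCo.of_STors (hK.ann_le hQ n) (fun c' z => ⟨1, Sg.one_mem, by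
        rw [hz n hn c' z, smul_zero]⟩)
  · rw [hz n (hne n hn) c' z, smul_zero]

end main

end Pool.Agent.MP_6e5bed_ag_WW
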