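import Pool.Agent.Lib.MP_6e5bed_ag_WW.SsD
import Pool.Agent.Lib.MP_6e5bed_ag_WW.SsF0
import Pool.Agent.Lib.MP_6e5bed_ag_GG.MnA
import Pool.Agent.Lib.MP_6e5bed_ag_NS.RMStepA

set_option autoImplicit false
set_option linter.unusedVariables false

/-!
# MP_6e5bed_ag, THEOREM W, (5.1), (5.2): the presheaf `ss`
-/

noncomputable section

namespace Pool.Agent.MP_6e5bed_ag_WW

open Pool.Agent.MP_6e5bed_ag_NC Pool.Agent.MP_6e5bed_ag_GG
open Pool.Agent.MP_6e5bed_ag_PN hiding Ch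
open Pool.Agent.MP_6e5bed_ag_NS (Cx CHom ringH)

universe u

/-- an isomorphic bimodule is flat -/
theorem RFlat.iso {k : Type u} [Field k] {A W : DGA k} {X X' : Bim A W} (h : BIso X X')
    (hX : RFlat X) : RFlat X' := fun B Y hY =>
  Acyc.iso ((MP_6e5bed_ag_NC.tbR A Y).biso h) (hX B Y hY)

theorem rflat_diag {k : Type u} [Field k] (W : DGA k) : RFlat (diag W) := fun B Y hY =>
  Acyc.iso (tb_diag_left Y).symm hY

section cone

variable {k : Type u} [Field k] {i : Type} [Fintype i] {A : CA k i} {T : Type u} [Ring T]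
  [Algebra k T] (κ : Cone A T)

theorem ss_qcl : QCl (ss κ) := by
  intro c d h g hg l hd
  refine ⟨fun x => funext fun hq => ?_, fun y => ?_, fun x hx => ?_⟩
  · change κ.psi c (κ.dn h hq.down) (algebraMap (RR k c.1) (A.A c) (tt k l hg)) *
      x ⟨κ.dn h hq.down⟩ = κ.psi d hq.down (algebraMap (RR k d.1) (A.A d) (tt k l (h hg))) *
      x ⟨κ.dn h hq.down⟩
    rw [← κ.nat h hq.down, A.res_R, rinc_tt_set]
  · by_cases hq : κ.D d
    · exact ⟨0, fun _ => y ⟨hq⟩, rfl⟩
    · exact ⟨0, 0, funext fun hq' => absurd hq'.down hq⟩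
  · by_cases hp : κ.D c
    · by_cases hq : κ.D d
      · refine ⟨0, funext fun hp' => ?_⟩
        exact congrFun hx ⟨hq⟩
      · refine ⟨1, funext fun hp' => ?_⟩
        rw [pow_one]
        change κ.psi c hp'.down (algebraMap (RR k c.1) (A.A c) (tt k l hg)) * x hp' = 0
        rw [κ.zero h hp'.down hq hg l hd, zero_mul]
    · exact ⟨0, funext fun hp' => absurd hp'.down hp⟩

/-- the algebra `T`, as the value at a chart of the cone -/
def ssI (c : Ch i) (hc : κ.D c) : GMap 0 (res (ringH (κ.psi c hc))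
    (DHom.id (MP_6e5bed_ag_NC.ring k T)) (diag (MP_6e5bed_ag_NC.ring k T))) ((ss κ).M c) where
  f := { toFun := fun (t : T) => (fun _ => t : PLift (κ.D c) → T)
         map_add' := fun _ _ => rfl
         map_smul' := fun _ _ => rfl }
  deg := fun {n x} hx => by
    rw [add_zero]
    exact Pool.Agent.MP_6e5bed_ag_NS.conc_map (show T →ₗ[k] (PLift (κ.D c) → T) from
      { toFun := fun (t : T) => (fun _ => t : PLift (κ.D c) → T)
        map_add' := fun _ _ => rfl
        map_smul' := fun _ _ => rfl }) hx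
  map_l := fun a x => by
    rw [Dg.sp_zero]
    rfl
  map_r := fun t x => rfl

theorem ssI_dd (c : Ch i) (hc : κ.D c) : (ssI κ c hc).dd = 0 := LinearMap.ext fun x => by
  rw [GMap.dd_apply, sg_zero, one_smul, LinearMap.zero_apply, sub_eq_zero]
  rfl

theorem ssI_bij (c : Ch i) (hc : κ.D c) : Function.Bijective (ssI κ c hc).f :=
  ⟨fun x y h => congrFun h ⟨hc⟩, fun y => ⟨(show PLift (κ.D c) → T from y) ⟨hc⟩, rfl⟩⟩

theorem ss_flat (c : Ch i) (hc : κ.D c) : RFlat ((ss κ).M c) :=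
  RFlat.iso (BIso.of_bij (ssI κ c hc) (ssI_dd κ c hc) (ssI_bij κ c hc))
    (Pool.Agent.MP_6e5bed_ag_NS.rflat_res (ringH (κ.psi c hc)) (rflat_diag (MP_6e5bed_ag_NC.ring k T)))

end cone

section gd

variable {k : Type u} [Field k] {i j : Type} [Fintype i] [Fintype j] {A : CA k i} {A' : CA k j}
  {E : BS A A'} {m : Ch i} (hR : Red E m)

theorem ss_klx : KlX (ann E) (ss hR.gd.cone) := fun c a ha x => funext fun h => by
  change hR.gd.cone.psi c h.down a * x h = 0
  rw [hR.psi_res ha h.down, zero_mul]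

theorem ss_flat_gd : RFlat ((ss hR.gd.cone).M m) := ss_flat hR.gd.cone m (le_refl m)

/-- (5.2) -/
theorem ss_free {x : Type} [Fintype x] (B : CA k x) :
    SB (ann E) m (sgR hR) (BPB.cmp (ss hR.gd.cone)
      (MP_6e5bed_ag_NC.free (MP_6e5bed_ag_NC.ring k hR.gd.S) (TT B)) (YY B)) ∧
      BdM m (BPB.cmp (ss hR.gd.cone)
        (MP_6e5bed_ag_NC.free (MP_6e5bed_ag_NC.ring k hR.gd.S) (TT B)) (YY B)) := by
  refine free_case (fun v => Dg.conc_deg _) (fun v => rfl) (ss_qcl hR.gd.cone) (ss_klx hR)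
    (fun _ => 1) (fun v => ?_)
  obtain ⟨s, hs, a, ha⟩ := hR.gd.surj (v ⟨le_refl m⟩)
  refine ⟨s, (hR.gd_fn s).1 hs, a, funext fun h => ?_⟩
  change hR.gd.psi (A.res _ (algebraMap (RR k m.1) (A.A m) s)) * v h =
    hR.gd.psi (A.res _ a) * 1
  rw [A.res_id, A.res_id, mul_one]
  exact ha.symm

end gd

end Pool.Agent.MP_6e5bed_ag_WW
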