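import Pool.Agent.Lib.MP_6e5bed_ag_WW.StepA
import Pool.Agent.Lib.MP_6e5bed_ag_WW.Ss
import Pool.Agent.Lib.MP_6e5bed_ag_WW.KE

set_option autoImplicit false
set_option linter.unusedVariables false

/-!
# MP_6e5bed_ag, THEOREM W: the core theorem
-/

noncomputable section

namespace Pool.Agent.MP_6e5bed_ag_WW

open Pool.Agent.MP_6e5bed_ag_NC Pool.Agent.MP_6e5bed_ag_GG
open Pool.Agent.MP_6e5bed_ag_PN hiding Ch

universe u

variable {k : Type u} [Field k]

/-- the data for `E` -/
theorem sData {i : Type} [Fintype i] (A : CA k i) (E : BS A A) (m : Ch i) (hR : Red E m) :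
    SData hR (ss hR.gd.cone) where
  qcl := ss_qcl hR.gd.cone
  kl := ss_klx hR
  flat := ss_flat_gd hR
  free := fun B => ss_free hR B
  gen := fun hE hS => gen_data hR hE hS

variable (k) in
theorem stepW : StepW k := stepW_of fun A E m _ hR => ⟨_, sData A E m hR⟩

variable (k) in
/-- THE CORE THEOREM, for the generic algebras of `A` -/
theorem coreWS : CoreWS k := coreWS_of_step (stepW k)

variable (k) in
/-- THE CORE THEOREM, for the centres of the generic algebras of `A` -/
theorem coreWC : CoreWC k := coreWC_of_step (stepW k)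

variable (k) in
/-- THE CORE THEOREM, for the finitely generated field extensions -/
theorem coreWF : CoreWF k := coreW_of_step (stepW k)

end Pool.Agent.MP_6e5bed_ag_WW
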