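import Pool.Agent.Lib.MP_6e5bed_ag_GG.TDef

set_option autoImplicit false

/-!
# The action of the morphisms of noncommutative motives on the Grothendieck groups (MP_6e5bed_ag)
-/

namespace Pool.Agent.MP_6e5bed_ag_Pn

open CategoryTheory MonoidalCategory MulOpposite MvPolynomial Pool.Agent.MP_6e5bed_ag_SP

universe u

section

variable {k : Type u} [Field k] {C : Type (u + 1)} [Category.{u + 1} C] [MonoidalCategory C]
  [Preadditive C] [Linear ℚ C] (H : NCData k C)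

/-- `F` is the action of the morphisms `U Y ⟶ U X` of noncommutative motives on the Grothendieck
groups of the dg `E`-`Y`-bimodules (with the classes `φ`) and of the dg `E`-`X`-bimodules (with the
classes `φ'`): the class of the `Y`-`X`-bimodule `N` maps the class of `M` to the class of
`M ⊗_Y N`. -/
def IsAct {A B : Type u} [Ring A] [Algebra k A] [Ring B] [Algebra k B] {Y : DG k A} {X : DG k B}
    (hY : SmPr Y) (hX : SmPr X) {L : Type u} [Ring L] [Algebra k L] (E : DG k L)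
    {V V' : Type (u + 1)} [AddCommGroup V] [Module ℚ V] [AddCommGroup V'] [Module ℚ V']
    (φ : ∀ {M : Type u} [AddCommGroup M] [Module k M] [Module L M] [Module Aᵐᵒᵖ M] (Z : Bm E Y M),
      Perf Z → V)
    (φ' : ∀ {M : Type u} [AddCommGroup M] [Module k M] [Module L M] [Module Bᵐᵒᵖ M] (Z : Bm E X M),
      Perf Z → V') (F : (H.U Y hY ⟶ H.U X hX) →ₗ[ℚ] V →ₗ[ℚ] V') : Prop :=
  ∀ {M N P : Type u} [AddCommGroup M] [Module k M] [Module L M] [Module Aᵐᵒᵖ M] [AddCommGroup N]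
    [Module k N] [Module A N] [Module Bᵐᵒᵖ N] [AddCommGroup P] [Module k P] [Module L P]
    [Module Bᵐᵒᵖ P] (Z : Bm E Y M) (Z' : Bm Y X N) (T : Bm E X P) (h : Perf Z) (h' : Perf Z')
    (h'' : Perf T) (t : M →ₗ[k] N →ₗ[k] P), IsTb Z Z' T t → F (H.cl hY hX Z' h') (φ Z h) = φ' T h''

/-- The images of the maps `K_0(Y_{a,L})_ℚ → K_0(X_L)_ℚ` given by the morphisms of motives
`u_a : U Y_a ⟶ U X` generate `K_0(X_L)_ℚ`. Here `K_0(X_L)_ℚ` is the Grothendieck group of the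
perfect dg `L`-`X`-bimodules tensored with `ℚ`, the field `L` being a dg algebra concentrated in
degree zero. -/
def UGen (L : Type u) [Field L] [Algebra k L] {ι : Type (u + 1)} {A : ι → Type u}
    [∀ a, Ring (A a)] [∀ a, Algebra k (A a)] {B : Type u} [Ring B] [Algebra k B]
    {Y : ∀ a, DG k (A a)} {X : DG k B} (hY : ∀ a, SmPr (Y a)) (hX : SmPr X)
    (u : ∀ a, H.U (Y a) (hY a) ⟶ H.U X hX) : Prop :=
  ∀ (E : DG k L), E.gr 0 = ⊤ →
    ∀ (V : ι → Type (u + 1)) (V' : Type (u + 1)) [∀ a, AddCommGroup (V a)] [∀ a, Module ℚ (V a)]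
    [AddCommGroup V'] [Module ℚ V']
    (φ : ∀ (a : ι) {M : Type u} [AddCommGroup M] [Module k M] [Module L M] [Module (A a)ᵐᵒᵖ M]
      (Z : Bm E (Y a) M), Perf Z → V a)
    (φ' : ∀ {M : Type u} [AddCommGroup M] [Module k M] [Module L M] [Module Bᵐᵒᵖ M] (Z : Bm E X M),
      Perf Z → V') (F : ∀ a, (H.U (Y a) (hY a) ⟶ H.U X hX) →ₗ[ℚ] V a →ₗ[ℚ] V'),
    (∀ a, IsK0 E (Y a) (fun Z h => φ a Z h)) → IsK0 E X (fun Z h => φ' Z h) →
    (∀ a, IsAct H (hY a) hX E (fun Z h => φ a Z h) (fun Z h => φ' Z h) (F a)) →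
    ⨆ a, LinearMap.range (F a (u a)) = ⊤

/-- The map `K_0(Y_L)_ℚ → K_0(X_L)_ℚ` given by the morphism of motives `u : U Y ⟶ U X` is
bijective. -/
def UBij (L : Type u) [Field L] [Algebra k L] {A B : Type u} [Ring A] [Algebra k A] [Ring B]
    [Algebra k B] {Y : DG k A} {X : DG k B} (hY : SmPr Y) (hX : SmPr X)
    (u : H.U Y hY ⟶ H.U X hX) : Prop :=
  ∀ (E : DG k L), E.gr 0 = ⊤ →
    ∀ (V V' : Type (u + 1)) [AddCommGroup V] [Module ℚ V] [AddCommGroup V'] [Module ℚ V']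
    (φ : ∀ {M : Type u} [AddCommGroup M] [Module k M] [Module L M] [Module Aᵐᵒᵖ M] (Z : Bm E Y M),
      Perf Z → V)
    (φ' : ∀ {M : Type u} [AddCommGroup M] [Module k M] [Module L M] [Module Bᵐᵒᵖ M] (Z : Bm E X M),
      Perf Z → V') (F : (H.U Y hY ⟶ H.U X hX) →ₗ[ℚ] V →ₗ[ℚ] V'),
    IsK0 E Y (fun Z h => φ Z h) → IsK0 E X (fun Z h => φ' Z h) →
    IsAct H hY hX E (fun Z h => φ Z h) (fun Z h => φ' Z h) F → Function.Bijective (F u)

end

/-- `X` is one of the dg algebras `RΓ(Pⁿ, Γ~)`, for some `n` and some graded algebra `Γ` which is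
a finitely generated module over the polynomial ring. -/
def CohAlg {k : Type u} [Field k] {T : Type u} [Ring T] [Algebra k T] (X : DG k T) : Prop :=
  ∃ (n : ℕ) (Γ : Type u) (_ : Ring Γ) (_ : Algebra k Γ)
    (_ : Algebra (MvPolynomial (Fin (n + 1)) k) Γ)
    (_ : IsScalarTower k (MvPolynomial (Fin (n + 1)) k) Γ) (𝒢 : ℕ → Submodule k Γ),
    IsGr n 𝒢 ∧ IsRGam n 𝒢 X

/-- The field `L` is the centre of a simple quotient `Q` of one of the algebras `Γ ⊗ F`
(`x_i ↦ a_i`), where `F` is a field which is generated over `k` by elements `a_0, …, a_n`, one of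
which is `1` (the residue field of a point of the projective space). -/
def CenL (n : ℕ) (k Γ : Type u) [Field k] [Ring Γ] [Algebra (MvPolynomial (Fin (n + 1)) k) Γ]
    (L : Type u) [Field L] [Algebra k L] : Prop :=
  ∃ (F Q : Type u) (_ : Field F) (_ : Algebra k F) (_ : Ring Q) (_ : Algebra F Q)
    (_ : IsSimpleRing Q) (a : Fin (n + 1) → F) (j : Fin (n + 1)) (π : Γ →+* Q) (e : L →+* Q),
    a j = 1 ∧ IntermediateField.adjoin k (Set.range a) = ⊤ ∧
    (∀ p : MvPolynomial (Fin (n + 1)) k, π (algebraMap _ Γ p) = algebraMap F Q (aeval a p)) ∧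
    Submodule.span F (Set.range π) = ⊤ ∧
    (∀ c, e (algebraMap k L c) = algebraMap F Q (algebraMap k F c)) ∧
    ∀ z : Q, z ∈ Set.range e ↔ ∀ x, z * x = x * z

end Pool.Agent.MP_6e5bed_ag_Pn
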