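import Pool.Agent.Lib.MP_6e5bed_ag_SP.MFun
import Pool.Agent.Lib.MP_6e5bed_ag_WW.WDef

set_option autoImplicit false

/-!
# MP_6e5bed_ag, THEOREM W: morphisms of motives and their action as classes of the tower
-/

noncomputable section

namespace Pool.Agent.MP_6e5bed_ag_WW

open CategoryTheory MonoidalCategory MulOpposite Pool.Agent.MP_6e5bed_ag_NC
open Pool.Agent.MP_6e5bed_ag_Pn (IsAct)
open Pool.Agent.MP_6e5bed_ag_SP (DG Bm Rep RepB SmPr NCMot IsK0 exists_isTb IsRes)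

universe u

section hom

variable {k : Type u} [Field k] {C : Type (u + 1)} [Category.{u + 1} C] [MonoidalCategory C]
  [SymmetricCategory C] [Preadditive C] [MonoidalPreadditive C] [Linear ℚ C] (H : NCMot k C)
  {A B D : Type u} [Ring A] [Algebra k A] [Ring B] [Algebra k B] [Ring D] [Algebra k D]
  {X : DG k A} {Y : DG k B} {W : DG k D} (hX : SmPr X) (hY : SmPr Y) (hW : SmPr W)
  {A' B' D' : DGA k} (r : Rep X A') (s : Rep Y B') (w : Rep W D')

/-- the morphisms between the motives as classes -/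
def ghom : K0Q A' B' ≃ₗ[ℚ] (H.U X hX ⟶ H.U Y hY) :=
  IsK0.equiv (φ := fun Z h => H.cl hX hY Z h) (H.hom_k0 hX hY) r s

theorem ghom_cls {M' : Bim A' B'} (hM : Perf M') :
    ghom H hX hY r s (cls M' hM) = H.cl hX hY (Bm.of r s M')
      (MP_6e5bed_ag_SP.Perf.of hM (Bm.ofRepB r s M')) :=
  IsK0.equiv_cls (φ := fun Z h => H.cl hX hY Z h) (H.hom_k0 hX hY) _ (Bm.ofRepB r s M') hM

theorem ghom_one (hs : Smooth A') (hp : Proper A') : ghom H hX hX r r (K0Q.one hs) = 𝟙 _ := by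
  obtain ⟨P, φ, hP, hφ⟩ := id hs
  rw [K0Q.one_eq hs hp hP hφ, ghom_cls]
  exact H.cl_one hX _ _ (IsRes.of (Bm.ofRepB r r P) hP hφ)

theorem ghom_comp (hp : Proper B') (x : K0Q A' B') (y : K0Q B' D') :
    ghom H hX hW r w (K0Q.comp hp x y) = ghom H hX hY r s x ≫ ghom H hY hW s w y := by
  refine K0Q.ind (P := fun x : K0Q A' B' => ghom H hX hW r w (K0Q.comp hp x y) =
    ghom H hX hY r s x ≫ ghom H hY hW s w y) ?_ ?_ ?_ ?_ x
  · intro x x' hx hx'
    rw [map_add, LinearMap.add_apply, map_add, hx, hx', map_add, Preadditive.add_comp]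
  · intro c x hx
    rw [map_smul, LinearMap.smul_apply, map_smul, hx, map_smul, Linear.smul_comp]
  · rw [map_zero, LinearMap.zero_apply, map_zero, map_zero, Limits.zero_comp]
  intro M hM
  refine K0Q.ind (P := fun y : K0Q B' D' => ghom H hX hW r w (K0Q.comp hp (cls M hM) y) =
    ghom H hX hY r s (cls M hM) ≫ ghom H hY hW s w y) ?_ ?_ ?_ ?_ y
  · intro x x' hx hx'
    rw [map_add, map_add, hx, hx', map_add, Preadditive.comp_add]
  · intro c x hx
    rw [map_smul, map_smul, hx, map_smul, Linear.comp_smul]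
  · rw [map_zero, map_zero, map_zero, Limits.comp_zero]
  intro N hN
  rw [K0Q.comp_cls, ghom_cls, ghom_cls, ghom_cls]
  obtain ⟨t, ht⟩ := exists_isTb (Bm.ofRepB r s M) (Bm.ofRepB s w N) (Bm.ofRepB r w (tb M N))
  exact (H.cl_comp hX hY hW _ _ _ _ _ _ t ht).symm

end hom

section act

variable {k : Type u} [Field k] {C : Type (u + 1)} [Category.{u + 1} C] [MonoidalCategory C]
  [SymmetricCategory C] [Preadditive C] [MonoidalPreadditive C] [Linear ℚ C] (H : NCMot k C)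
  {A B L : Type u} [Ring A] [Algebra k A] [Ring B] [Algebra k B] [Ring L] [Algebra k L]
  {Y : DG k A} {X : DG k B} {E : DG k L} (hY : SmPr Y) (hX : SmPr X)
  {A' B' E' : DGA k} (r : Rep Y A') (s : Rep X B') (e : Rep E E')
  {V V' : Type (u + 1)} [AddCommGroup V] [Module ℚ V] [AddCommGroup V'] [Module ℚ V']
  {φ : ∀ {M : Type u} [AddCommGroup M] [Module k M] [Module L M] [Module Aᵐᵒᵖ M] (Z : Bm E Y M),
    MP_6e5bed_ag_SP.Perf Z → V}
  {φ' : ∀ {M : Type u} [AddCommGroup M] [Module k M] [Module L M] [Module Bᵐᵒᵖ M] (Z : Bm E X M),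
    MP_6e5bed_ag_SP.Perf Z → V'}

/-- The action is the composition of classes. -/
theorem act_comp (hφ : IsK0 E Y (fun Z h => φ Z h)) (hφ' : IsK0 E X (fun Z h => φ' Z h))
    {F : (H.U Y hY ⟶ H.U X hX) →ₗ[ℚ] V →ₗ[ℚ] V'}
    (hF : IsAct H.toNCData hY hX E (fun Z h => φ Z h) (fun Z h => φ' Z h) F) (hp : Proper A')
    (x : K0Q E' A') (y : K0Q A' B') :
    F (ghom H hY hX r s y) (IsK0.equiv (φ := fun Z h => φ Z h) hφ e r x) =
      IsK0.equiv (φ := fun Z h => φ' Z h) hφ' e s (K0Q.comp hp x y) := by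
  refine K0Q.ind (P := fun x : K0Q E' A' =>
    F (ghom H hY hX r s y) (IsK0.equiv (φ := fun Z h => φ Z h) hφ e r x) =
      IsK0.equiv (φ := fun Z h => φ' Z h) hφ' e s (K0Q.comp hp x y)) ?_ ?_ ?_ ?_ x
  · intro x x' hx hx'
    rw [map_add, map_add, hx, hx', map_add, LinearMap.add_apply, map_add]
  · intro c x hx
    rw [map_smul, map_smul, hx, map_smul, LinearMap.smul_apply, map_smul]
  · rw [map_zero, map_zero, map_zero, LinearMap.zero_apply, map_zero]
  intro M hM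
  refine K0Q.ind (P := fun y : K0Q A' B' =>
    F (ghom H hY hX r s y) (IsK0.equiv (φ := fun Z h => φ Z h) hφ e r (cls M hM)) =
      IsK0.equiv (φ := fun Z h => φ' Z h) hφ' e s (K0Q.comp hp (cls M hM) y)) ?_ ?_ ?_ ?_ y
  · intro x x' hx hx'
    rw [map_add, map_add, LinearMap.add_apply, hx, hx', map_add, map_add]
  · intro c x hx
    rw [map_smul, map_smul, LinearMap.smul_apply, hx, map_smul, map_smul]
  · rw [map_zero, map_zero, LinearMap.zero_apply, map_zero, map_zero]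
  intro N hN
  have h1 : IsK0.equiv (φ := fun Z h => φ Z h) hφ e r (cls M hM) = φ (Bm.of e r M)
      (MP_6e5bed_ag_SP.Perf.of hM (Bm.ofRepB e r M)) :=
    IsK0.equiv_cls (φ := fun Z h => φ Z h) hφ _ (Bm.ofRepB e r M) hM
  have h2 : IsK0.equiv (φ := fun Z h => φ' Z h) hφ' e s (cls (tb M N) (Perf.tb hp hM hN)) =
      φ' (Bm.of e s (tb M N))
        (MP_6e5bed_ag_SP.Perf.of (Perf.tb hp hM hN) (Bm.ofRepB e s (tb M N))) :=
    IsK0.equiv_cls (φ := fun Z h => φ' Z h) hφ' _ (Bm.ofRepB e s (tb M N)) _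
  rw [K0Q.comp_cls, h1, h2, ghom_cls]
  obtain ⟨t, ht⟩ := exists_isTb (Bm.ofRepB e r M) (Bm.ofRepB r s N) (Bm.ofRepB e s (tb M N))
  exact hF _ _ _ _ _ _ t ht

end act

end Pool.Agent.MP_6e5bed_ag_WW
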