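import Pool.Agent.Lib.MP_6e5bed_ag_WW.K3

set_option autoImplicit false
set_option linter.unusedVariables false

/-!
# MP_6e5bed_ag, THEOREM W, (7.2): the class of `E`, abstract form
-/

noncomputable section

namespace Pool.Agent.MP_6e5bed_ag_WW

open Pool.Agent.MP_6e5bed_ag_NC Pool.Agent.MP_6e5bed_ag_GG
open Pool.Agent.MP_6e5bed_ag_PN hiding Ch
open Pool.Agent.MP_6e5bed_ag_NS (Cx CHom ringH)

universe u

variable {k : Type u} [Field k] {i j : Type} [Fintype i] [Fintype j]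
  {A : CA k i} {A' : CA k j} {V : Type*} [AddCommGroup V] [Module ℚ V] {E : BS A A'} {m : Ch i}
  {hR : Red E m} {cl : AddFn (S := bs A A') Sh.Coh V} {W₀ : DGA k}

/-- the Čech complexes of a presheaf which is isomorphic to an external product -/
theorem qcl_ext_push2 {X : PB A.pa (PA.con i W₀)} (hX : QCl X) (N : PB (PA.con j W₀) A'.pa) :
    QCl ((PB.ext X N).push2 (LL j) (FS.e j)) :=
  qcl_of_bij (alp X N (LL j) (FS.e j)) (fun c => alp_bij X N (LL j) (FS.e j) c)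
    (qcl_tbR hX _)

theorem klx_ext_push2 {I : ∀ c : Ch i, Ideal (A.A c)} {X : PB A.pa (PA.con i W₀)}
    (kX : KlX I X) (N : PB (PA.con j W₀) A'.pa) :
    KlX I ((PB.ext X N).push2 (LL j) (FS.e j)) :=
  klx_of_bij (alp X N (LL j) (FS.e j)) (fun c => alp_bij X N (LL j) (FS.e j) c) (kX.tbR _)

/-- (7.2): `E` is isomorphic over the generic point of `m` to the external product of `X` and
`N`; `P` is a perfect resolution of the Čech complex of `N`. Then the value at `[P]` is the class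
of `E`. -/
theorem ke_of {ql : K0Q (TT A) (TT A') →ₗ[ℚ] V} (hN : (bs A A').Noe)
    (ih : ∀ F : BS A A', F.Coh → ann E < ann F → cl.cl F = 0)
    (hRes : ∀ Z : BS A A', Z.Coh → HasRes Z.bp.BB)
    (hq : ∀ (Z : BS A A') (h : Z.Coh), cl.cl Z = ql (rcls Z.bp.BB (hRes Z h)))
    (hA : Smooth (TT A)) (hS : Smooth (TT A')) (hP' : Proper (TT A'))
    {X : PB A.pa (PA.con i W₀)} (hX : QCl X) (kX : KlX (ann E) X) (hf : RFlat (X.M m))
    {Gm : K0Q W₀ (TT A') →ₗ[ℚ] V}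
    (hGm : ∀ (M : Bim W₀ (TT A')) (hM : Perf M),
      Gm (cls M hM) = chi hR cl (BPB.cmp X M (YY A')))
    (hE : E.Coh) {N : PB (PA.con j W₀) A'.pa} {G : BPB A A'} (hG : G.QC) (kG : Kl (ann E) G)
    {f₁ : BPH E.bp G}
    (h₁ : ∀ b : Ch j, LocS (V := (E.bp.F (m, b)).M) (V' := (G.F (m, b)).M) (f₁.f (m, b)).f
      (fun s : sgR hR => (E.bp.F (m, b)).l (algebraMap (RR k m.1) (A.A m) s.1))
      (fun s : sgR hR => (G.F (m, b)).l (algebraMap (RR k m.1) (A.A m) s.1)))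
    {f₂ : PB2H (PB.ext X N) G.two} (h₂ : ∀ b : Ch j, QIso (f₂.f m b))
    {P : Bim W₀ (TT A')} (hP : Perf P) {g : GMap 0 P (cBL N (LL j) (FS.e j))} (hg : QIso g) :
    Gm (cls P hP) = cl.cl E := by
  have r : HasRes E.bp.BB := hRes E hE
  have e0 : CP hR cl ql.toAddMonoidHom hP' (XF E.bp) (rcls E.bp.BB (hRes E hE)) :=
    CP.of_coh hN ih ql.toAddMonoidHom hRes hq hA hS hP' hE (le_refl (ann E)) _
  have kE : KlX (ann E) (XF E.bp) := (kl_bp (le_refl (ann E))).XF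
  have e1 : CP hR cl ql.toAddMonoidHom hP' (XF G) (rcls E.bp.BB (hRes E hE)) :=
    (CP.iff_locS hN ih (qcl_push2 (Sh.bp_qc E) _ _) (qcl_push2 hG _ _) kE kG.XF
      (f := XFm f₁) (cBL_locS (M := E.bp.two.snd m) (M' := G.two.snd m)
        (f := (f₁.two.snd m).pch) (fun b => h₁ b) (LL j) (FS.e j))).1 e0
  have e2 : CP hR cl ql.toAddMonoidHom hP' ((PB.ext X N).push2 (LL j) (FS.e j))
      (rcls E.bp.BB (hRes E hE)) :=
    (CP.iff_qiso hN ih (qcl_ext_push2 hX N) (qcl_push2 hG _ _) (klx_ext_push2 kX N) kG.XF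
      (f := f₂.push2 (LL j) (FS.e j))
      ((f₂.snd m).qisoL (fun b => h₂ b) (LL j) (FS.e j))).2 e1
  have e3 := (CP.iff_alp hN ih hX kX).2 e2
  have e4 := (CP.iff_tbR hN ih hX kX hf hg).2 e3
  have e5 := CP.eval hN ih hX kX hGm hP e4 (K0Q.one hS)
  rw [K0Q.comp_one hS hP', K0Q.comp_one hS hP'] at e5
  rw [e5, hq E hE]

end Pool.Agent.MP_6e5bed_ag_WW
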