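import Pool.Agent.Lib.MP_6e5bed_ag_WW.LSg
import Pool.Agent.Lib.MP_6e5bed_ag_GG.DgL
import Pool.Agent.Lib.MP_6e5bed_ag_GG.GD
import Pool.Agent.Lib.MP_6e5bed_ag_GG.SL

set_option autoImplicit false
set_option linter.unusedVariables false

/-!
# MP_6e5bed_ag, THEOREM W, section 9: the main step and the core theorem
-/

noncomputable section

namespace Pool.Agent.MP_6e5bed_ag_WW

open Pool.Agent.MP_6e5bed_ag_GG Pool.Agent.MP_6e5bed_ag_NC

universe u

/-- The classes which are sums of classes which factor through the `u a`. -/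
def JU {k : Type u} [Field k] (W : DGA k) {T : DGA k} {ι : Type (u + 1)} {T' : ι → DGA k}
    (hT' : ∀ a, Proper (T' a)) (u : ∀ a, K0Q (T' a) T) : Submodule ℚ (K0Q W T) :=
  ⨆ a, LinearMap.range ((K0Q.comp (hT' a)).flip (u a))

theorem mem_JU {k : Type u} [Field k] {W T : DGA k} {ι : Type (u + 1)} {T' : ι → DGA k}
    (hT' : ∀ a, Proper (T' a)) (u : ∀ a, K0Q (T' a) T) (a : ι) (z : K0Q W (T' a)) :
    K0Q.comp (hT' a) z (u a) ∈ JU W hT' u :=
  (le_iSup (fun a => LinearMap.range ((K0Q.comp (A := W) (hT' a)).flip (u a))) a) ⟨z, rfl⟩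

variable (k : Type u) [Field k] in
/-- THE CORE THEOREM of THEOREM W, for families. -/
def CoreWF : Prop :=
  ∀ {i : Type} [Fintype i] (A : CA k i) {ι : Type (u + 1)} {j : ι → Type} [∀ a, Fintype (j a)]
    (A' : ∀ a, CA k (j a)) (hs : Smooth (TT A)) (_ : ∀ a, Smooth (TT (A' a)))
    (_ : Proper (TT A)) (hp' : ∀ a, Proper (TT (A' a))) (u : ∀ a, K0Q (TT (A' a)) (TT A)),
    (∀ (L : Type u) [Field L] [Algebra k L] [Algebra.EssFiniteType k L]
      (x : K0Q (ring k L) (TT A)), x ∈ JU (ring k L) hp' u) → K0Q.one hs ∈ JU (TT A) hp' u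

variable (k : Type u) [Field k] in
/-- The results of the sections 6 and 7: the function `Γ` on the classes of perfect
`S`-`T`-bimodules, the statement (6.4), and the class of `E` (7.2). -/
def StepW : Prop :=
  ∀ {i : Type} [Fintype i] (A : CA k i) (hF : FinBB A A) (hS : Smooth (TT A))
    (J : Submodule ℚ (K0Q (TT A) (TT A))) (E : BS A A) (m : Ch i) (_ : E.Coh) (hR : Red E m)
    (_ : ∀ F : BS A A, F.Coh → ann E < ann F →
      (clf A A hF hS hS (bs_noe A A) J).cl F = 0),
    ∃ Gm : K0Q (ring k hR.gd.S) (TT A) →ₗ[ℚ] (K0Q (TT A) (TT A) ⧸ J),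
      (∀ {j : Type} [Fintype j] (B : CA k j) (_ : Smooth (TT B)) (hB : Proper (TT B))
        (y : K0Q (ring k hR.gd.S) (TT B)), ∃ z : K0Q (TT A) (TT B), ∀ w : K0Q (TT B) (TT A),
          Gm (K0Q.comp hB y w) = J.mkQ (K0Q.comp hB z w)) ∧
      ∃ x : K0Q (ring k hR.gd.S) (TT A),
        (clf A A hF hS hS (bs_noe A A) J).cl E = Gm x

variable (k : Type u) [Field k] in
/-- The core theorem with the hypothesis for the generic algebras of `A` only. -/
def CoreWS : Prop :=
  ∀ {i : Type} [Fintype i] (A : CA k i) {ι : Type (u + 1)} {j : ι → Type} [∀ a, Fintype (j a)]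
    (A' : ∀ a, CA k (j a)) (hs : Smooth (TT A)) (_ : ∀ a, Smooth (TT (A' a)))
    (hp' : ∀ a, Proper (TT (A' a))) (u : ∀ a, K0Q (TT (A' a)) (TT A)),
    (∀ (m : Ch i) (g : GD A m) (x : K0Q (ring k g.S) (TT A)), x ∈ JU (ring k g.S) hp' u) →
      K0Q.one hs ∈ JU (TT A) hp' u

variable (k : Type u) [Field k] in
/-- The core theorem with the hypothesis for the centres of the generic algebras of `A` only. -/
def CoreWC : Prop :=
  ∀ {i : Type} [Fintype i] (A : CA k i) {ι : Type (u + 1)} {j : ι → Type} [∀ a, Fintype (j a)]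
    (A' : ∀ a, CA k (j a)) (hs : Smooth (TT A)) (_ : ∀ a, Smooth (TT (A' a)))
    (hp' : ∀ a, Proper (TT (A' a))) (u : ∀ a, K0Q (TT (A' a)) (TT A)),
    (∀ (m : Ch i) (g : GD A m) (x : K0Q (ring k (Subalgebra.center k g.S)) (TT A)),
      x ∈ JU (ring k (Subalgebra.center k g.S)) hp' u) → K0Q.one hs ∈ JU (TT A) hp' u

variable {k : Type u} [Field k]

/-- The core theorem for the generic algebras, given the sections 6 and 7. -/
theorem coreWS_of_step (h : StepW k) : CoreWS k := by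
  intro i _ A ι j _ A' hs hs' hp' u hu
  refine one_mem (hF := finBB) fun E m hE hR ih => ?_
  obtain ⟨Gm, h1, x, hx⟩ := h A finBB hs (JU (TT A) hp' u) E m hE hR ih
  rw [hx]
  have h2 : x ∈ JU (ring k hR.gd.S) hp' u := hu m hR.gd x
  have h3 : JU (ring k hR.gd.S) hp' u ≤ LinearMap.ker Gm := by
    refine iSup_le fun a => ?_
    rintro _ ⟨y, rfl⟩
    obtain ⟨z, hz⟩ := h1 (A' a) (hs' a) (hp' a) y
    rw [LinearMap.mem_ker, LinearMap.flip_apply, hz (u a), Submodule.mkQ_apply,
      Submodule.Quotient.mk_eq_zero]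
    exact mem_JU hp' u a z
  exact h3 h2

theorem coreWC_of_S (h : CoreWS k) : CoreWC k := by
  intro i _ A ι j _ A' hs hs' hp' u hu
  exact h A A' hs hs' hp' u fun m g x => span_gd_center g hp' u (hu m g) x

theorem coreWF_of_S (h : CoreWS k) : CoreWF k := by
  intro i _ A ι j _ A' hs hs' hp hp' u hu
  exact h A A' hs hs' hp' u fun m g x => span_gd g hp' u hu x

/-- The core theorem, given the sections 6 and 7. -/
theorem coreW_of_step (h : StepW k) : CoreWF k := coreWF_of_S (coreWS_of_step h)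

theorem coreWC_of_step (h : StepW k) : CoreWC k := coreWC_of_S (coreWS_of_step h)

end Pool.Agent.MP_6e5bed_ag_WW
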