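import Pool.Agent.Lib.MP_6e5bed_ag_SP.RepA
import Pool.Agent.Lib.MP_6e5bed_ag_CV.Ring0
import Pool.Agent.Lib.MP_6e5bed_ag_WW.WTr
import Pool.Agent.Lib.MP_6e5bed_ag_WW.Main

set_option autoImplicit false

/-!
# MP_6e5bed_ag, THEOREM W: the hypothesis in terms of classes of the tower
-/

noncomputable section

namespace Pool.Agent.MP_6e5bed_ag_WW

open CategoryTheory MonoidalCategory MulOpposite Pool.Agent.MP_6e5bed_ag_NC
open Pool.Agent.MP_6e5bed_ag_Pn (IsAct UGen UBij)
open Pool.Agent.MP_6e5bed_ag_SP (Cx DG Bm Rep RepB SmPr NCMot IsK0 exists_isTb IsRes IsTb isK0_cls)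

universe u

section ring

variable {k L : Type u} [Field k] [Field L] [Algebra k L]

theorem gr_bot {E : DG k L} (hE : E.gr 0 = ⊤) {n : ℤ} (hn : n ≠ 0) : E.gr n = ⊥ := by
  have h1 := E.internal.submodule_iSupIndep n
  rw [disjoint_iff] at h1
  have h2 : E.gr 0 ≤ ⨆ j, ⨆ (_ : j ≠ n), E.gr j := le_iSup₂_of_le 0 (Ne.symm hn) le_rfl
  rw [hE, top_le_iff] at h2
  rwa [h2, inf_top_eq] at h1

/-- A field in degree zero. -/
def repL (E : DG k L) (hE : E.gr 0 = ⊤) : Rep E (ring k L) where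
  e := LinearEquiv.refl k L
  one := rfl
  mul := fun _ _ => rfl
  rep :=
    { mem := fun n v => by
        by_cases hn : n = 0
        · subst hn
          rw [hE]
          exact ⟨fun _ => Dg.conc_deg v, fun _ => trivial⟩
        · rw [gr_bot hE hn, Submodule.mem_bot]
          constructor
          · rintro rfl
            exact Dg.IsDeg.zero _
          · intro h
            exact (Dg.conc_cases h).resolve_left hn
      d := fun v => by
        have h1 : E.d v ∈ E.gr (0 + 1) := E.d_mem 0 v (by rw [hE]; trivial)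
        rw [gr_bot hE (by norm_num), Submodule.mem_bot] at h1
        rw [h1]
        rfl }

variable (k L) in
theorem exists_dgL : ∃ E : DG k L, E.gr 0 = ⊤ := by
  have hr := Cx.ofDg_rep (Dg.conc k L)
  refine ⟨{ toCx := Cx.ofDg (Dg.conc k L), one_mem := ?_, mul_mem := ?_, leibniz := ?_ }, ?_⟩
  · exact (hr.mem 0 1).2 (Dg.conc_deg _)
  · intro i j a b ha hb
    exact (hr.mem (i + j) (a * b)).2 (Dg.conc_bil (LinearMap.mul k L) ((hr.mem i a).1 ha)
      ((hr.mem j b).1 hb))
  · intro i a b _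
    change (0 : L) = (0 : L) * b + i.negOnePow • (a * (0 : L))
    rw [zero_mul, mul_zero, smul_zero, add_zero]
  · rw [eq_top_iff]
    intro v _
    exact (hr.mem 0 v).2 (Dg.conc_deg v)

end ring

variable {k : Type u} [Field k] {C : Type (u + 1)} [Category.{u + 1} C] [MonoidalCategory C]
  [SymmetricCategory C] [Preadditive C] [MonoidalPreadditive C] [Linear ℚ C] (H : NCMot k C)
  {A B : Type u} [Ring A] [Algebra k A] [Ring B] [Algebra k B]
  {Y : DG k A} {X : DG k B} (hY : SmPr Y) (hX : SmPr X) {A' B' : DGA k} (r : Rep Y A')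
  (s : Rep X B')

/-- The action exists. -/
theorem exists_act {L : Type u} [Ring L] [Algebra k L] {E : DG k L} {E' : DGA k} (e : Rep E E')
    (hp : Proper A') : ∃ F : (H.U Y hY ⟶ H.U X hX) →ₗ[ℚ] K0Q E' A' →ₗ[ℚ] K0Q E' B',
      IsAct H.toNCData hY hX E (fun Z h => cls (Z.toBim e r) (h.to (Z.toRepB e r)))
        (fun Z h => cls (Z.toBim e s) (h.to (Z.toRepB e s))) F ∧
      ∀ (y : K0Q A' B') (x : K0Q E' A'), F (ghom H hY hX r s y) x = K0Q.comp hp x y := by
  let F : (H.U Y hY ⟶ H.U X hX) →ₗ[ℚ] K0Q E' A' →ₗ[ℚ] K0Q E' B' :=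
    (K0Q.comp (A := E') (C := B') hp).flip ∘ₗ (ghom H hY hX r s).symm.toLinearMap
  have hF : ∀ (y : K0Q A' B') (x : K0Q E' A'), F (ghom H hY hX r s y) x = K0Q.comp hp x y := by
    intro y x
    change K0Q.comp hp x ((ghom H hY hX r s).symm (ghom H hY hX r s y)) = _
    rw [LinearEquiv.symm_apply_apply]
  refine ⟨F, ?_, hF⟩
  intro M N P _ _ _ _ _ _ _ _ _ _ _ _ Z Z' T h h' h'' t ht
  have h1 : H.cl hY hX Z' h' = ghom H hY hX r s (cls (Z'.toBim r s) (h'.to (Z'.toRepB r s))) :=
    (IsK0.equiv_cls (φ := fun Z h => H.cl hY hX Z h) (H.hom_k0 hY hX) h' (Z'.toRepB r s)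
      (h'.to (Z'.toRepB r s))).symm
  change F (H.cl hY hX Z' h') _ = _
  rw [h1, hF, K0Q.comp_cls]
  exact K0Q.cls_iso (IsTb.biso (Z.toRepB e r) (Z'.toRepB r s) (T.toRepB e s) ht) _ _

/-- The bijectivity in terms of the classes of the tower. -/
theorem uBij_iff {u : H.U Y hY ⟶ H.U X hX} {y : K0Q A' B'} (hp : Proper A')
    (hu : ghom H hY hX r s y = u) (L : Type u) [Field L] [Algebra k L] :
    UBij H.toNCData L hY hX u ↔
      Function.Bijective (fun z : K0Q (ring k L) A' => K0Q.comp (C := B') hp z y) := by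
  subst hu
  constructor
  · intro h
    obtain ⟨E, hE⟩ := exists_dgL k L
    obtain ⟨F, hF, hF'⟩ := exists_act H hY hX r s (repL E hE) hp
    have h1 := h E hE _ _ (fun Z h => cls (Z.toBim (repL E hE) r)
      (h.to (Z.toRepB (repL E hE) r))) (fun Z h => cls (Z.toBim (repL E hE) s)
      (h.to (Z.toRepB (repL E hE) s))) F (isK0_cls (repL E hE) r) (isK0_cls (repL E hE) s) hF
    have h2 : (fun z : K0Q (ring k L) A' => K0Q.comp (C := B') hp z y) =
        F (ghom H hY hX r s y) := funext fun z => (hF' y z).symm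
    rw [h2]
    exact h1
  · intro h1 E hE V V' _ _ _ _ φ φ' F hφ hφ' hF
    have h2 : ∀ v, F (ghom H hY hX r s y) v = IsK0.equiv (φ := fun Z h => φ' Z h) hφ'
        (repL E hE) s (K0Q.comp hp ((IsK0.equiv (φ := fun Z h => φ Z h) hφ (repL E hE) r).symm v)
          y) := by
      intro v
      rw [← act_comp H hY hX r s (repL E hE) hφ hφ' hF hp, LinearEquiv.apply_symm_apply]
    have h3 : ⇑(F (ghom H hY hX r s y)) = (IsK0.equiv (φ := fun Z h => φ' Z h) hφ'
        (repL E hE) s) ∘ (fun z : K0Q (ring k L) A' => K0Q.comp (C := B') hp z y) ∘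
          (IsK0.equiv (φ := fun Z h => φ Z h) hφ (repL E hE) r).symm := funext h2
    rw [h3]
    exact (LinearEquiv.bijective _).comp (h1.comp (LinearEquiv.bijective _))

section fam

variable {ι : Type (u + 1)} {AA : ι → Type u} [∀ a, Ring (AA a)] [∀ a, Algebra k (AA a)]
  {YY : ∀ a, DG k (AA a)} (hYY : ∀ a, SmPr (YY a)) {AA' : ι → DGA k}
  (rr : ∀ a, Rep (YY a) (AA' a)) {uu : ∀ a, H.U (YY a) (hYY a) ⟶ H.U X hX}
  {yy : ∀ a, K0Q (AA' a) B'}

/-- The generation in terms of the classes of the tower. -/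
theorem uGen_iff (hp : ∀ a, Proper (AA' a))
    (hu : ∀ a, ghom H (hYY a) hX (rr a) s (yy a) = uu a) (L : Type u) [Field L] [Algebra k L] :
    UGen H.toNCData L hYY hX uu ↔ ∀ x : K0Q (ring k L) B', x ∈ JU (ring k L) hp yy := by
  obtain rfl : (fun a => ghom H (hYY a) hX (rr a) s (yy a)) = uu := funext hu
  constructor
  · intro h x
    obtain ⟨E, hE⟩ := exists_dgL k L
    choose F hF hF' using fun a => exists_act H (hYY a) hX (rr a) s (repL E hE) (hp a)
    have h1 := h E hE _ _ (fun a {M} _ _ _ _ Z h => cls (Z.toBim (repL E hE) (rr a))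
      (h.to (Z.toRepB (repL E hE) (rr a)))) (fun Z h => cls (Z.toBim (repL E hE) s)
      (h.to (Z.toRepB (repL E hE) s))) F (fun a => isK0_cls (repL E hE) (rr a))
      (isK0_cls (repL E hE) s) (fun a => hF a)
    have h2 : ∀ a, F a (ghom H (hYY a) hX (rr a) s (yy a)) =
        (K0Q.comp (A := ring k L) (hp a)).flip (yy a) := fun a =>
      LinearMap.ext fun z => hF' a (yy a) z
    have h3 : x ∈ ⨆ a, LinearMap.range (F a (ghom H (hYY a) hX (rr a) s (yy a))) := by
      rw [h1]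
      trivial
    unfold JU
    simpa only [h2] using h3
  · intro h E hE V V' _ _ _ _ φ φ' F hφ hφ' hF
    let e := IsK0.equiv (φ := fun Z h => φ' Z h) hφ' (repL E hE) s
    have h2 : ∀ a, LinearMap.range (F a (ghom H (hYY a) hX (rr a) s (yy a))) =
        (LinearMap.range ((K0Q.comp (A := ring k L) (hp a)).flip (yy a))).map
          (e : K0Q (ring k L) B' →ₗ[ℚ] V') := by
      intro a
      refine le_antisymm ?_ ?_
      · rintro _ ⟨v, rfl⟩
        refine ⟨_, ⟨(IsK0.equiv (φ := fun Z h => φ a Z h) (hφ a) (repL E hE) (rr a)).symm v,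
          rfl⟩, ?_⟩
        have h3 := act_comp H (hYY a) hX (rr a) s (repL E hE) (hφ a) hφ' (hF a) (hp a)
          ((IsK0.equiv (φ := fun Z h => φ a Z h) (hφ a) (repL E hE) (rr a)).symm v) (yy a)
        rw [LinearEquiv.apply_symm_apply] at h3
        exact h3.symm
      · rintro _ ⟨_, ⟨z, rfl⟩, rfl⟩
        exact ⟨_, act_comp H (hYY a) hX (rr a) s (repL E hE) (hφ a) hφ' (hF a) (hp a) z (yy a)⟩
    have h3 : ⨆ a, LinearMap.range ((K0Q.comp (A := ring k L) (hp a)).flip (yy a)) = ⊤ :=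
      eq_top_iff.2 fun x _ => h x
    simp only [h2]
    rw [← Submodule.map_iSup, h3, Submodule.map_top, LinearMap.range_eq_top]
    exact e.surjective

end fam

end Pool.Agent.MP_6e5bed_ag_WW
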