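import Pool.Agent.Lib.MP_6e5bed_ag_GG.TFin
import Pool.Agent.Lib.MP_6e5bed_ag_CV.FinalA
import Pool.Agent.Lib.MP_6e5bed_ag_WW.WRep
import Pool.Agent.Lib.MP_6e5bed_ag_WW.WCen
import Pool.Agent.Lib.MP_6e5bed_ag_WW.StepF

set_option autoImplicit false
set_option linter.unusedVariables false
set_option linter.unusedSectionVars false

/-!
# MP_6e5bed_ag, THEOREM W: the theorem over an arbitrary field from the core theorem
-/

noncomputable section

namespace Pool.Agent.MP_6e5bed_ag_WW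

open CategoryTheory MonoidalCategory MvPolynomial Pool.Agent.MP_6e5bed_ag
  Pool.Agent.MP_6e5bed_ag_Pn Pool.Agent.MP_6e5bed_ag_NC Pool.Agent.MP_6e5bed_ag_GG
open Pool.Agent.MP_6e5bed_ag_PN hiding Ch
open Pool.Agent.MP_6e5bed_ag_SP (DG Rep RA repOf SmPr NCMot IsBc)

universe u

section classes

variable {k : Type u} [Field k] {W T : DGA k} {ι : Type (u + 1)} {T' : ι → DGA k}
  (hT' : ∀ a, Proper (T' a)) (y : ∀ a, K0Q (T' a) T)

theorem mem_JU_iff (x : K0Q W T) : x ∈ JU W hT' y ↔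
    ∃ (s : Finset ι) (v : ∀ a, K0Q W (T' a)), ∑ a ∈ s, K0Q.comp (hT' a) (v a) (y a) = x := by
  constructor
  · intro h
    obtain ⟨f, hf, hs⟩ := (Submodule.mem_iSup_iff_exists_finsupp _ _).1 h
    choose v hv using hf
    refine ⟨f.support, v, ?_⟩
    rw [← hs, Finsupp.sum]
    exact Finset.sum_congr rfl fun a _ => hv a
  · rintro ⟨s, v, rfl⟩
    exact Submodule.sum_mem _ fun a _ => mem_JU hT' y a (v a)

theorem mem_JU_of_one (hs : Smooth T) (hp : Proper T) (h : K0Q.one hs ∈ JU T hT' y)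
    (x : K0Q W T) : x ∈ JU W hT' y := by
  obtain ⟨s, v, hv⟩ := (mem_JU_iff hT' y _).1 h
  refine (mem_JU_iff hT' y _).2 ⟨s, fun a => K0Q.comp hp x (v a), ?_⟩
  refine Eq.trans ?_ (K0Q.comp_one hs hp x)
  rw [← hv, map_sum]
  exact Finset.sum_congr rfl fun a _ => K0Q.comp_assoc hp (hT' a) x (v a) (y a)

end classes

variable {ν ν' : ℕ} {k : Type u} [Field k]

/-- The centres of the generic algebras of `A` are centres of residue algebras of `Γ`. -/
def CenCA {i : Type} [Fintype i] (ν : ℕ) (Γ : Type u) [Ring Γ]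
    [Algebra (MvPolynomial (Fin (ν + 1)) k) Γ] (A : CA k i) : Prop :=
  ∀ {m : Ch i} (g : GD A m) (L : Type u) [Field L] [Algebra k L] (e : L →+* g.S),
    (∀ c : k, e (algebraMap k L c) = algebraMap k g.S c) →
    (∀ z : g.S, z ∈ Set.range e ↔ ∀ x, z * x = x * z) → CenL ν k Γ L

theorem exists_rep {Γ : Type u} [Ring Γ] [Algebra k Γ] [Algebra (MvPolynomial (Fin (ν + 1)) k) Γ]
    [IsScalarTower k (MvPolynomial (Fin (ν + 1)) k) Γ] {𝒢 : ℕ → Submodule k Γ} (h : IsGr ν 𝒢)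
    {T : Type u} [Ring T] [Algebra k T] {X : DG k T} (hX : IsRGam ν 𝒢 X) :
    ∃ A : CA k (Fin (ν + 1)), Nonempty (Rep X (TT A)) ∧ CenCA ν Γ A := by
  obtain ⟨B, _, _, r, q, e, hq, he⟩ := hX
  obtain ⟨σ, hσ⟩ := exists_dec (ν := ν) (nodup_LL (Fin (ν + 1))) mem_LL
  obtain ⟨E, hE⟩ := exists_cechD h hq σ hσ mem_LL
  exact ⟨_, cechD_rep he hE, fun g L _ _ e he he' => cenL_caOf h hq σ g L e he he'⟩

theorem exists_repA {T : Type u} [Ring T] [Algebra k T] {X : DG k T} (hX : CohAlg X) :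
    ∃ (n : ℕ) (A : CA k (Fin (n + 1))), Nonempty (Rep X (TT A)) := by
  obtain ⟨n, Γ, _, _, _, _, 𝒢, h, hX⟩ := hX
  obtain ⟨A, hA, -⟩ := exists_rep h hX
  exact ⟨n, A, hA⟩

/-- The hypothesis for the centres of the generic algebras. -/
theorem cen_hyp {Γ : Type u} [Ring Γ] [Algebra (MvPolynomial (Fin (ν + 1)) k) Γ] {i : Type}
    [Fintype i] {A : CA k i} (hA : CenCA ν Γ A)
    {P : ∀ (L : Type u) [Ring L] [Algebra k L], Prop}
    (h : ∀ (L : Type u) [Field L] [Algebra k L], CenL ν k Γ L → P L) {m : Ch i} (g : GD A m) :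
    P (Subalgebra.center k g.S) := by
  let _ : Field (Subalgebra.center k g.S) := (center_isField k g.S).toField
  exact h (Subalgebra.center k g.S) (hA g (Subalgebra.center k g.S)
    (Subalgebra.center k g.S).val.toRingHom (fun c => rfl) (fun z =>
      ⟨fun ⟨w, hw⟩ x => hw ▸ (Subalgebra.mem_center_iff.1 w.2 x).symm,
        fun hz => ⟨⟨z, Subalgebra.mem_center_iff.2 fun x => (hz x).symm⟩, rfl⟩⟩))

variable {C : Type (u + 1)} [Category.{u + 1} C] [MonoidalCategory C]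
  [SymmetricCategory C] [Preadditive C] [MonoidalPreadditive C] [Linear ℚ C] (H : NCMot k C)

section fam

variable {T : Type u} [Ring T] [Algebra k T] {X : DG k T} (sX : SmPr X) {i : Type} [Fintype i]
  {A : CA k i} (s : Rep X (TT A)) {ι : Type (u + 1)} {S : ι → Type u} [∀ a, Ring (S a)]
  [∀ a, Algebra k (S a)] {Y : ∀ a, DG k (S a)} (sY : ∀ a, SmPr (Y a)) {j : ι → Type}
  [∀ a, Fintype (j a)] {A' : ∀ a, CA k (j a)} (r : ∀ a, Rep (Y a) (TT (A' a)))
  (u : ∀ a, H.U (Y a) (sY a) ⟶ H.U X sX)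

/-- The decomposition of the identity in terms of the classes of the tower. -/
theorem dec_iff (hs : Smooth (TT A)) (hp : Proper (TT A)) (hp' : ∀ a, Proper (TT (A' a)))
    {y : ∀ a, K0Q (TT (A' a)) (TT A)} (hy : ∀ a, ghom H (sY a) sX (r a) s (y a) = u a) :
    (∃ (t : Finset ι) (v : ∀ a, H.U X sX ⟶ H.U (Y a) (sY a)), ∑ a ∈ t, v a ≫ u a = 𝟙 _) ↔
      K0Q.one hs ∈ JU (TT A) hp' y := by
  obtain rfl : (fun a => ghom H (sY a) sX (r a) s (y a)) = u := funext hy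
  have key : ∀ (t : Finset ι) (v : ∀ a, K0Q (TT A) (TT (A' a))),
      ∑ a ∈ t, ghom H sX (sY a) s (r a) (v a) ≫ ghom H (sY a) sX (r a) s (y a) = 𝟙 _ ↔
        ∑ a ∈ t, K0Q.comp (hp' a) (v a) (y a) = K0Q.one hs := by
    intro t v
    have h1 : ∀ a, ghom H sX (sY a) s (r a) (v a) ≫ ghom H (sY a) sX (r a) s (y a) =
        ghom H sX sX s s (K0Q.comp (hp' a) (v a) (y a)) := fun a =>
      (ghom_comp H sX (sY a) sX s (r a) s (hp' a) (v a) (y a)).symm
    simp only [h1]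
    rw [← map_sum, ← ghom_one H sX s hs hp]
    exact (ghom H sX sX s s).injective.eq_iff
  rw [mem_JU_iff]
  constructor
  · rintro ⟨t, v, hv⟩
    refine ⟨t, fun a => (ghom H sX (sY a) s (r a)).symm (v a), (key t _).1 ?_⟩
    simpa only [LinearEquiv.apply_symm_apply] using hv
  · rintro ⟨t, v, hv⟩
    exact ⟨t, _, (key t v).2 hv⟩

end fam

section main

variable {Γ : Type u} [Ring Γ] [Algebra k Γ] [Algebra (MvPolynomial (Fin (ν + 1)) k) Γ]
  [IsScalarTower k (MvPolynomial (Fin (ν + 1)) k) Γ] {𝒢 : ℕ → Submodule k Γ} (h : IsGr ν 𝒢)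
  {T : Type u} [Ring T] [Algebra k T] {X : DG k T} (hX : IsRGam ν 𝒢 X) (sX : SmPr X)

include h hX

/-- THEOREM W, for families. -/
theorem main_fam {ι : Type (u + 1)} {S : ι → Type u} [∀ a, Ring (S a)] [∀ a, Algebra k (S a)]
    {Y : ∀ a, DG k (S a)} (hY : ∀ a, CohAlg (Y a)) (sY : ∀ a, SmPr (Y a))
    (u : ∀ a, H.U (Y a) (sY a) ⟶ H.U X sX) :
    [∃ (t : Finset ι) (v : ∀ a, H.U X sX ⟶ H.U (Y a) (sY a)), ∑ a ∈ t, v a ≫ u a = 𝟙 _,
      ∀ (L : Type u) [Field L] [Algebra k L], UGen H.toNCData L sY sX u,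
      ∀ (L : Type u) [Field L] [Algebra k L], CenL ν k Γ L →
        UGen H.toNCData L sY sX u].TFAE := by
  obtain ⟨A, ⟨s⟩, hA⟩ := exists_rep h hX
  choose n A' hA' using fun a => exists_repA (hY a)
  have r : ∀ a, Rep (Y a) (TT (A' a)) := fun a => (hA' a).some
  have hs : Smooth (TT A) := sX.smooth s
  have hp : Proper (TT A) := sX.proper s
  have hs' : ∀ a, Smooth (TT (A' a)) := fun a => (sY a).smooth (r a)
  have hp' : ∀ a, Proper (TT (A' a)) := fun a => (sY a).proper (r a)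
  choose y hy using fun a => (ghom H (sY a) sX (r a) s).surjective (u a)
  have h1 := dec_iff H sX s sY r u hs hp hp' hy
  have h2 := fun (L : Type u) [Field L] [Algebra k L] =>
    uGen_iff H sX s sY r hp' hy L
  tfae_have 1 → 2 := by
    intro h3 L _ _
    exact (h2 L).2 (mem_JU_of_one hp' y hs hp (h1.1 h3))
  tfae_have 2 → 3 := fun h3 L _ _ _ => h3 L
  tfae_have 3 → 1 := by
    intro h3
    refine h1.2 (coreWC k A A' hs hs' hp' y fun m g => ?_)
    exact cen_hyp (P := fun L _ _ => ∀ x : K0Q (ring k L) (TT A), x ∈ JU (ring k L) hp' y) hA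
      (fun L _ _ hL => (h2 L).1 (h3 L hL)) g
  tfae_finish

/-- THEOREM W, Kimura-finiteness. -/
theorem main_kf_of {ι : Type (u + 1)} {S : ι → Type u} [∀ a, Ring (S a)] [∀ a, Algebra k (S a)]
    {Y : ∀ a, DG k (S a)} (hY : ∀ a, CohAlg (Y a)) (sY : ∀ a, SmPr (Y a))
    (u : ∀ a, H.U (Y a) (sY a) ⟶ H.U X sX) (hK : ∀ a, KimuraFinite (H.U (Y a) (sY a)))
    (hu : ∀ (L : Type u) [Field L] [Algebra k L], CenL ν k Γ L →
        UGen H.toNCData L sY sX u) : KimuraFinite (H.U X sX) := by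
  obtain ⟨A, ⟨s⟩, hA⟩ := exists_rep h hX
  choose n A' hA' using fun a => exists_repA (hY a)
  have r : ∀ a, Rep (Y a) (TT (A' a)) := fun a => (hA' a).some
  have hs : Smooth (TT A) := sX.smooth s
  have hp : Proper (TT A) := sX.proper s
  have hs' : ∀ a, Smooth (TT (A' a)) := fun a => (sY a).smooth (r a)
  have hp' : ∀ a, Proper (TT (A' a)) := fun a => (sY a).proper (r a)
  choose y hy using fun a => (ghom H (sY a) sX (r a) s).surjective (u a)
  have h1 := (dec_iff H sX s sY r u hs hp hp' hy).1 (((main_fam H h hX sX hY sY u).out 2 0).1 hu)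
  obtain ⟨t, v, hv⟩ := (mem_JU_iff hp' y _).1 h1
  refine (H.kimuraFinite_iff sX ⟨TT A, hs, hp⟩ s).2 ?_
  refine kf_of_sum (⟨TT A, hs, hp⟩ : SP k) (n := t.card)
    (fun l => ⟨TT (A' (t.equivFin.symm l)), hs' _, hp' _⟩)
    (fun l => v (t.equivFin.symm l)) (fun l => y (t.equivFin.symm l)) ?_ (fun l =>
      (H.kimuraFinite_iff (sY _) ⟨TT (A' (t.equivFin.symm l)), hs' _, hp' _⟩ (r _)).1 (hK _))
  have h2 : K0Q.one hs = ∑ l : Fin t.card, K0Q.comp (hp' (t.equivFin.symm l))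
      (v (t.equivFin.symm l)) (y (t.equivFin.symm l)) := by
    rw [← hv, Equiv.sum_comp t.equivFin.symm (fun a : t => K0Q.comp (hp' a) (v a) (y a))]
    exact (Finset.sum_coe_sort t (fun a => K0Q.comp (hp' a) (v a) (y a))).symm
  exact h2

/-- THEOREM W, the criterion for Kimura-finiteness. -/
theorem main_kf : KimuraFinite (H.U X sX) ↔
    ∃ (ι : Type (u + 1)) (S : ι → Type u) (_ : ∀ a, Ring (S a)) (_ : ∀ a, Algebra k (S a))
      (Y : ∀ a, DG k (S a)) (sY : ∀ a, SmPr (Y a)) (u : ∀ a, H.U (Y a) (sY a) ⟶ H.U X sX),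
      (∀ a, CohAlg (Y a)) ∧ (∀ a, KimuraFinite (H.U (Y a) (sY a))) ∧
      ∀ (L : Type u) [Field L] [Algebra k L], CenL ν k Γ L → UGen H.toNCData L sY sX u := by
  constructor
  · intro hK
    have hc : CohAlg X := ⟨ν, Γ, _, _, _, ‹_›, 𝒢, h, hX⟩
    refine ⟨PUnit, fun _ => T, fun _ => inferInstance, fun _ => inferInstance, fun _ => X,
      fun _ => sX, fun _ => 𝟙 _, fun _ => hc, fun _ => hK, ?_⟩
    refine ((main_fam H h hX sX (fun _ => hc) (fun _ => sX) (fun _ : PUnit => 𝟙 _)).out 0 2).1 ?_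
    refine ⟨{PUnit.unit}, fun _ => 𝟙 _, ?_⟩
    rw [Finset.sum_singleton, Category.comp_id]
  · rintro ⟨ι, S, _, _, Y, sY, u, hY, hK, hu⟩
    exact main_kf_of H h hX sX hY sY u hK hu

end main

section iso

variable {Γ Γ' : Type u} [Ring Γ] [Algebra k Γ] [Algebra (MvPolynomial (Fin (ν + 1)) k) Γ]
  [IsScalarTower k (MvPolynomial (Fin (ν + 1)) k) Γ]
  [Ring Γ'] [Algebra k Γ'] [Algebra (MvPolynomial (Fin (ν' + 1)) k) Γ']
  [IsScalarTower k (MvPolynomial (Fin (ν' + 1)) k) Γ'] {𝒢 : ℕ → Submodule k Γ}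
  {𝒢' : ℕ → Submodule k Γ'}

/-- THEOREM W, the criterion for isomorphisms. -/
theorem main_iso (h : IsGr ν 𝒢) (h' : IsGr ν' 𝒢') {T T' : Type u} [Ring T]
    [Algebra k T] [Ring T'] [Algebra k T'] {X : DG k T} {Y : DG k T'} (hX : IsRGam ν 𝒢 X)
    (hY : IsRGam ν' 𝒢' Y) (sX : SmPr X) (sY : SmPr Y) (u : H.U Y sY ⟶ H.U X sX) :
    IsIso u ↔ ∀ (L : Type u) [Field L] [Algebra k L], CenL ν k Γ L ∨ CenL ν' k Γ' L →
      UBij H.toNCData L sY sX u := by
  obtain ⟨A, ⟨s⟩, hA⟩ := exists_rep h hX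
  obtain ⟨A', ⟨r⟩, hA'⟩ := exists_rep h' hY
  have hs : Smooth (TT A) := sX.smooth s
  have hp : Proper (TT A) := sX.proper s
  have hs' : Smooth (TT A') := sY.smooth r
  have hp' : Proper (TT A') := sY.proper r
  obtain ⟨y, rfl⟩ := (ghom H sY sX r s).surjective u
  have key : ∀ v : K0Q (TT A) (TT A'), ghom H sX sY s r v ≫ ghom H sY sX r s y = 𝟙 _ ↔
      K0Q.comp hp' v y = K0Q.one hs := by
    intro v
    rw [← ghom_comp H sX sY sX s r s hp', ← ghom_one H sX s hs hp]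
    exact (ghom H sX sX s s).injective.eq_iff
  have key' : ∀ v : K0Q (TT A) (TT A'), ghom H sY sX r s y ≫ ghom H sX sY s r v = 𝟙 _ ↔
      K0Q.comp hp y v = K0Q.one hs' := by
    intro v
    rw [← ghom_comp H sY sX sY r s r hp, ← ghom_one H sY r hs' hp']
    exact (ghom H sY sY r r).injective.eq_iff
  have h2 := fun (L : Type u) [Field L] [Algebra k L] =>
    uBij_iff (y := y) H sY sX r s hp' rfl L
  constructor
  · rintro ⟨⟨v, hv1, hv2⟩⟩ L _ _ -
    obtain ⟨v, rfl⟩ := (ghom H sX sY s r).surjective v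
    rw [h2]
    refine Function.bijective_iff_has_inverse.2 ⟨fun x => K0Q.comp hp x v, fun z => ?_,
      fun x => ?_⟩
    · change K0Q.comp hp (K0Q.comp hp' z y) v = z
      rw [K0Q.comp_assoc, (key' v).1 hv1, K0Q.comp_one hs' hp']
    · change K0Q.comp hp' (K0Q.comp hp x v) y = x
      rw [K0Q.comp_assoc, (key v).1 hv2, K0Q.comp_one hs hp]
  · intro hu
    -- a section
    have one : ∀ {i j : Type} [Fintype i] [Fintype j] (A : CA k i) (A' : CA k j)
        (hs : Smooth (TT A)) (_ : Smooth (TT A')) (hp' : Proper (TT A'))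
        (y : K0Q (TT A') (TT A)),
        (∀ (m : Ch i) (g : GD A m) (x : K0Q (ring k (Subalgebra.center k g.S)) (TT A)),
          ∃ z, K0Q.comp hp' z y = x) → ∃ v : K0Q (TT A) (TT A'), K0Q.comp hp' v y =
            K0Q.one hs := by
      intro i j _ _ A A' hs hs' hp' y hy
      have h3 := coreWC k A (ι := PUnit) (j := fun _ => j) (fun _ => A') hs (fun _ => hs')
        (fun _ => hp') (fun _ => y) (fun m g x => by
          obtain ⟨z, rfl⟩ := hy m g x
          exact mem_JU (T' := fun _ : PUnit => TT A') (fun _ => hp') (fun _ => y) PUnit.unit z)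
      obtain ⟨t, v, hv⟩ := (mem_JU_iff (T' := fun _ : PUnit => TT A') (fun _ => hp')
        (fun _ => y) _).1 h3
      refine ⟨∑ a ∈ t, v a, ?_⟩
      rw [map_sum, LinearMap.sum_apply]
      exact hv
    obtain ⟨v, hv⟩ := one A A' hs hs' hp' y fun m g =>
      cen_hyp (P := fun L _ _ => ∀ x : K0Q (ring k L) (TT A), ∃ z : K0Q (ring k L) (TT A'),
        K0Q.comp hp' z y = x) hA (fun L _ _ hL x => ((h2 L).1 (hu L (Or.inl hL))).2 x) g
    obtain ⟨w, hw⟩ := one A' A hs' hs hp v fun m g =>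
      cen_hyp (P := fun L _ _ => ∀ x : K0Q (ring k L) (TT A'), ∃ z : K0Q (ring k L) (TT A),
        K0Q.comp hp z v = x) hA' (fun L _ _ hL x => by
          refine ⟨K0Q.comp hp' x y, ((h2 L).1 (hu L (Or.inr hL))).1 ?_⟩
          change K0Q.comp hp' (K0Q.comp hp (K0Q.comp hp' x y) v) y = K0Q.comp hp' x y
          rw [K0Q.comp_assoc, hv, K0Q.comp_one hs hp]) g
    have h3 : w = y := by
      have h4 : K0Q.comp hp' (K0Q.comp hp w v) y = K0Q.comp hp w (K0Q.comp hp' v y) :=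
        K0Q.comp_assoc hp hp' w v y
      rw [hw, hv, K0Q.one_comp hs' hp', K0Q.comp_one hs hp] at h4
      exact h4.symm
    rw [h3] at hw
    exact ⟨⟨_, (key' v).2 hw, (key v).2 hv⟩⟩

end iso

end Pool.Agent.MP_6e5bed_ag_WW
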