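import Pool.Agent.Lib.MP_6e5bed_ag_PN.ExtP
import Pool.Agent.Lib.MP_6e5bed_ag_PN.Two2

set_option autoImplicit false
set_option linter.unusedVariables false

/-!
# MP_6e5bed_ag, THEOREM W, (6.4) ALPHA: `X ⊗ G_r(N) = push2 (X ⊗ N)`, as presheaves in the first variable
-/

noncomputable section

namespace Pool.Agent.MP_6e5bed_ag_WW

open Pool.Agent.MP_6e5bed_ag_NC Pool.Agent.MP_6e5bed_ag_NS Pool.Agent.MP_6e5bed_ag_PN

universe u

variable {k : Type u} [CommRing k] {ι κ : Type} {A : PA k ι} {B : PA k κ} {W D : DGA k}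

/-- the identities -/
def ext1' (V : PB A (PA.con ι W)) (N : PB (PA.con κ W) B) (a : MP_6e5bed_ag_PN.Ch ι) :
    ExL (D := A.A a) (W := W) (V.M a) N ((PB.ext V N).snd a) where
  β := fun b => GMap.id _
  dd := fun b => LinearMap.ext GMap.dd_id
  nat := fun {b b'} h x n => by
    refine (PB.ext_ρ V N (le_refl a) h x n).trans ?_
    rw [V.ρ_id]
    rfl

/-- the restriction of `V`, as a morphism of constant presheaves -/
def cnV (κ : Type) (V : PB A (PA.con ι W)) {a a' : MP_6e5bed_ag_PN.Ch ι} (h : a ≤ a') :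
    PCH (PC.con κ (bcx (V.M a))) (PC.con κ (bcx (V.M a'))) where
  f := fun _ => gch (V.ρ h) (V.dd h)
  nat := fun _ _ => rfl

/-- ALPHA: the map `V a ⊗ G_r(N) → G_r(V a ⊗ N)` -/
def alp (V : PB A (PA.con ι W)) (N : PB (PA.con κ W) B) (L : List κ)
    (c : MP_6e5bed_ag_PN.FS κ) :
    PBH (PB.tbR V (cBL N L c)) ((PB.ext V N).push2 L c) where
  f := fun a => (ext1' V N a).th L c
  dd := fun a => (ext1' V N a).th_dd L c
  nat := fun {a a'} h x => by
    refine LinearMap.congr_fun (tb_hom_ext (M := V.M a) (N := cBL N L c)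
      (f := (((PB.ext V N).push2 L c).ρ h).f ∘ₗ ((ext1' V N a).th L c).f)
      (g := ((ext1' V N a').th L c).f ∘ₗ ((PB.tbR V (cBL N L c)).ρ h).f) fun m n => ?_) x
    refine (congrArg (((PB.ext V N).push2 L c).ρ h).f ((ext1' V N a).th_tm L c m n)).trans ?_
    refine Eq.trans ?_ (congrArg ((ext1' V N a').th L c).f
      (PB.tbR_ρ V (cBL N L c) h m n)).symm
    refine Eq.trans ?_ ((ext1' V N a').th_tm L c ((V.ρ h).f m) n).symm
    refine (cH_mul (p := (ext1' V N a).pp) (q := (ext1' V N a').pp) (cnV κ V h)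
      (PCH.id N.pc) ((PB.ext V N).fn h) (fun b m y => ?_) L c
      ((kX (bcx (V.M a)) L c).f m) n).trans ?_
    · refine (PB.ext_ρ V N h (le_refl b) m y).trans ?_
      rw [N.ρ_id]
      rfl
    · exact congrArg₂ (fun z w => ((cP (ext1' V N a').pp L).q c).m z w)
        (kX_nat (gch (V.ρ h) (V.dd h)) (cnV κ V h) (fun _ _ => rfl) L c m) (cH_id N.pc L c n)

theorem alp_bij (V : PB A (PA.con ι W)) (N : PB (PA.con κ W) B) (L : List κ)
    (c : MP_6e5bed_ag_PN.FS κ) (a : MP_6e5bed_ag_PN.Ch ι) :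
    Function.Bijective ((alp V N L c).f a).f :=
  (ext1' V N a).th_bij (fun b => Function.bijective_id) L c

end Pool.Agent.MP_6e5bed_ag_WW
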