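import Pool.Agent.Lib.MP_6e5bed_ag_WW.SC

set_option autoImplicit false

/-!
# MP_6e5bed_ag, THEOREM W: the class function on the bisheaves which are coherent over the generic
point of a chart
-/

noncomputable section

namespace Pool.Agent.MP_6e5bed_ag_WW

open Pool.Agent.MP_6e5bed_ag_GG
open scoped TensorProduct

universe u

variable {k : Type u} [Field k] {i j : Type} [Fintype i] [Fintype j] {A : CA k i} {A' : CA k j}
  {V : Type*} [AddCommGroup V] {E : BS A A'} {m : Ch i}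

/-- the denominators -/
abbrev sgR (hR : Red E m) : Submonoid (RR k m.1) := sg E m hR.one hR.pr

/-- killed by the annihilator of `E` and coherent over the generic point -/
abbrev SCoR (hR : Red E m) (Z : BS A A') : Prop := SCo (ann E) m (sgR hR) Z

open Classical in
/-- The class function. -/
def gam (hR : Red E m) (cl : AddFn (S := bs A A') Sh.Coh V) (Z : BS A A') : V :=
  if h : SCoR hR Z then cl.cl h.ex.choose.sh else 0

variable {hR : Red E m} {cl : AddFn (S := bs A A') Sh.Coh V}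

theorem gam_of_not {Z : BS A A'} (h : ¬ SCoR hR Z) : gam hR cl Z = 0 := dif_neg h

/-- The value is the class of any coherent bisheaf which is isomorphic up to denominators. -/
theorem gam_of (hN : (bs A A').Noe)
    (ih : ∀ F : BS A A', F.Coh → ann E < ann F → cl.cl F = 0) {F Z : BS A A'} (hF : F.Coh)
    (hEF : ann E ≤ ann F) {φ : ShH F Z} (hφ : SIso m (sgR hR) φ) (hEZ : ann E ≤ ann Z) :
    SCoR hR Z ∧ gam hR cl Z = cl.cl F := by
  have h : SCoR hR Z := SCo.of_map hF φ hEZ hφ.surj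
  refine ⟨h, ?_⟩
  have h1 : gam hR cl Z = cl.cl h.ex.choose.sh := dif_pos h
  rw [h1]
  have h2 := h.ex.choose_spec
  have h3 : SIso m (sgR hR) h.ex.choose.incl := SIso.incl h2.2
  exact compare (scls_coh hN) cl hR ih h2.1 hF (h.ann.trans (ann_sub Z _)) hEF
    h.ex.choose.incl φ h3.inj hφ.inj h3.surj hφ.surj

/-- coherent bisheaves -/
theorem gam_coh (hN : (bs A A').Noe)
    (ih : ∀ F : BS A A', F.Coh → ann E < ann F → cl.cl F = 0) {Z : BS A A'} (hZ : Z.Coh)
    (h : ann E ≤ ann Z) : gam hR cl Z = cl.cl Z :=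
  (gam_of hN ih hZ h (SIso.of_bij (ShH.id_bij Z)) h).2

/-- isomorphisms up to denominators -/
theorem gam_iso (hN : (bs A A').Noe)
    (ih : ∀ F : BS A A', F.Coh → ann E < ann F → cl.cl F = 0) {Z₁ Z₂ : BS A A'}
    {φ : ShH Z₁ Z₂} (hφ : SIso m (sgR hR) φ) (h₁ : ann E ≤ ann Z₁) (h₂ : ann E ≤ ann Z₂) :
    gam hR cl Z₁ = gam hR cl Z₂ := by
  by_cases h : SCoR hR Z₁
  · obtain ⟨N, hN', h3⟩ := h.ex
    have h4 : SIso m (sgR hR) N.incl := SIso.incl h3
    have h5 := gam_of hN ih hN' (h₁.trans (ann_sub _ N)) h4 h₁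
    have h6 := gam_of hN ih hN' (h₁.trans (ann_sub _ N)) (h4.comp hφ) h₂
    rw [h5.2, h6.2]
  · have h' : ¬ SCoR hR Z₂ := fun h' => h ((SCo.iff_SIso hφ h₁ h₂).2 h')
    rw [gam_of_not h, gam_of_not h']

/-- torsion bisheaves -/
theorem gam_tors (hN : (bs A A').Noe)
    (ih : ∀ F : BS A A', F.Coh → ann E < ann F → cl.cl F = 0) {Z : BS A A'}
    (hEZ : ann E ≤ ann Z)
    (h : ∀ (c' : Ch j) (z : Z.E (m, c')), ∃ f ∈ sgR hR, cl1 A A' (m, c') f • z = 0) :
    gam hR cl Z = 0 := by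
  have h1 : (Sub.bot Z).sh.Coh := fun p => by
    have h1 : Module.Finite ((bs A A').B p) (⊥ : Submodule ((bs A A').B p) (Z.E p)) :=
      inferInstance
    exact h1
  have h2 : SIso m (sgR hR) (Sub.bot Z).incl := SIso.incl (fun c' z => by
    obtain ⟨f, hf, h1⟩ := h c' z
    exact ⟨f, hf, (Submodule.mem_bot _).2 h1⟩)
  rw [(gam_of hN ih h1 (hEZ.trans (ann_sub Z _)) h2 hEZ).2]
  refine cl.zero (scls_coh hN) h1 (fun p => ⟨fun x y => ?_⟩)
  refine Subtype.ext ?_
  rw [(Submodule.mem_bot _).1 x.2, (Submodule.mem_bot _).1 y.2]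

/-- short exact sequences -/
theorem gam_ses (hN : (bs A A').Noe)
    (ih : ∀ F : BS A A', F.Coh → ann E < ann F → cl.cl F = 0) {Z' Z Z'' : BS A A'}
    (f : ShH Z' Z) (g : ShH Z Z'') (hf : f.Inj) (hg : g.Surj)
    (hfg : ∀ p x, g.f p x = 0 ↔ ∃ y, f.f p y = x) (h : SCoR hR Z) :
    SCoR hR Z' ∧ SCoR hR Z'' ∧ gam hR cl Z = gam hR cl Z' + gam hR cl Z'' := by
  have hEZ' : ann E ≤ ann Z' := h.ann.trans (ann_of_inj f hf)
  have hEZ'' : ann E ≤ ann Z'' := h.ann.trans (ann_of_surj g hg)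
  obtain ⟨M, hM, h1⟩ := h.ex
  have hEM : ann E ≤ ann M.sh := h.ann.trans (ann_sub Z M)
  have e0 := (gam_of (cl := cl) hN ih hM hEM (SIso.incl (Sg := sgR hR) h1) h.ann).2
  let K : Sub M.sh := Sub.restr M g.ker
  have hK : K.sh.Coh := hM.sub hN K
  -- the iso `Z' → ker g`
  let θ : ShH Z' g.ker.sh := f.codRestr g.ker (fun p x => ShH.mem_ker.2 ((hfg p _).2 ⟨x, rfl⟩))
  have hθ : θ.Bij := by
    intro p
    constructor
    · intro x y hxy
      exact hf p (congrArg (fun z : g.ker.sh.E p => z.1) hxy)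
    · rintro ⟨x, hx⟩
      obtain ⟨y, hy⟩ := (hfg p x).1 (ShH.mem_ker.1 hx)
      exact ⟨y, Subtype.ext hy⟩
  let ψ : ShH K.sh g.ker.sh := (M.incl.comp K.incl).codRestr g.ker (fun p x => x.2)
  have hψ : SIso m (sgR hR) ψ := by
    constructor
    · intro c' x hx
      refine ⟨1, (sgR hR).one_mem, ?_⟩
      have h2 : x = 0 := by
        refine Subtype.ext (Subtype.ext ?_)
        exact congrArg (fun z : g.ker.sh.E (m, c') => z.1) hx
      rw [h2, smul_zero]
    · intro c' z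
      obtain ⟨e, he, h2⟩ := h1 c' z.1
      refine ⟨e, he, ⟨⟨_, h2⟩, ?_⟩, rfl⟩
      change g.f (m, c') (cl1 A A' (m, c') e • z.1) = 0
      rw [map_smul, ShH.mem_ker.1 z.2, smul_zero]
  have e1 := gam_of (cl := cl) hN ih hK (hEM.trans (ann_sub M.sh K))
    (hψ.comp (SIso.of_bij (θ.symm_bij hθ))) hEZ'
  let χ : ShH K.quot Z'' := (g.comp M.incl).desc K (fun p x hx => hx)
  have hχ : SIso m (sgR hR) χ := by
    constructor
    · intro c' x hx
      obtain ⟨x, rfl⟩ := K.proj_surj (m, c') x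
      refine ⟨1, (sgR hR).one_mem, ?_⟩
      have h2 : x ∈ K.N (m, c') := hx
      rw [K.proj_eq_zero.2 h2, smul_zero]
    · intro c' z
      obtain ⟨z, rfl⟩ := hg (m, c') z
      obtain ⟨e, he, h2⟩ := h1 c' z
      refine ⟨e, he, K.proj.f (m, c') ⟨_, h2⟩, ?_⟩
      change g.f (m, c') (cl1 A A' (m, c') e • z) = _
      rw [map_smul]
  have e2 := gam_of (cl := cl) hN ih (hM.quot K) (hEM.trans (ann_quot M.sh K)) hχ hEZ''
  exact ⟨e1.1, e2.1, by rw [e0, e1.2, e2.2, cl.add _ hM K]⟩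

end Pool.Agent.MP_6e5bed_ag_WW
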