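import Pool.Agent.Lib.MP_6e5bed_ag_WW.SB
import Pool.Agent.Lib.MP_6e5bed_ag_WW.Gam

set_option autoImplicit false
set_option linter.unusedVariables false

/-!
# MP_6e5bed_ag, THEOREM W, (2.4): the Euler characteristic
-/

noncomputable section

namespace Pool.Agent.MP_6e5bed_ag_WW

open Pool.Agent.MP_6e5bed_ag_NC Pool.Agent.MP_6e5bed_ag_GG
open Pool.Agent.MP_6e5bed_ag_PN hiding Ch
open Pool.Agent.MP_6e5bed_ag_NS (Cx CHom ringH)
open Pool.Agent.MP_6e5bed_ag_PS (Dist)
open scoped TensorProduct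

universe u

/-! ### Alternating sums -/

section alt

variable {V : Type*} [AddCommGroup V]

/-- the alternating sum of a function with finite support -/
def alt (g : ℤ → V) : V := ∑ᶠ n : ℤ, n.negOnePow • g n

theorem alt_supp {g : ℤ → V} (h : (Function.support g).Finite) :
    (Function.support (fun n : ℤ => n.negOnePow • g n)).Finite :=
  h.subset (fun n hn hg => hn (by
    change n.negOnePow • g n = 0
    rw [hg, smul_zero]))

theorem alt_add {g h : ℤ → V} (hg : (Function.support g).Finite)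
    (hh : (Function.support h).Finite) : alt (fun n => g n + h n) = alt g + alt h := by
  unfold alt
  rw [← finsum_add_distrib (alt_supp hg) (alt_supp hh)]
  exact finsum_congr (fun n => smul_add _ _ _)

theorem alt_zero : alt (fun _ : ℤ => (0 : V)) = 0 := by
  unfold alt
  refine (finsum_congr (fun n => ?_)).trans (finsum_zero (α := ℤ) (M := V))
  exact smul_zero n.negOnePow

theorem alt_succ (g : ℤ → V) : alt (fun n => g (n + 1)) = - alt g := by
  have h1 : alt g = ∑ᶠ n : ℤ, (n + 1).negOnePow • g (n + 1) :=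
    (finsum_comp_equiv (f := fun n : ℤ => n.negOnePow • g n) (Equiv.addRight (1 : ℤ))).symm
  rw [h1, ← finsum_neg_distrib]
  refine finsum_congr (fun n => ?_)
  rw [Int.negOnePow_succ, Units.neg_smul, neg_neg]

end alt

variable {k : Type u} [Field k] {i j : Type} [Fintype i] [Fintype j] {A : CA k i} {A' : CA k j}
  {V : Type*} [AddCommGroup V] {E : BS A A'} {m : Ch i}

open Classical in
/-- THE EULER CHARACTERISTIC -/
def chi (hR : Red E m) (cl : AddFn (S := bs A A') Sh.Coh V) (F : BPB A A') : V :=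
  if h : SB (ann E) m (sgR hR) F then alt (fun n => gam hR cl (F.H h.qc n)) else 0

variable {hR : Red E m} {cl : AddFn (S := bs A A') Sh.Coh V}

theorem chi_of (F : BPB A A') (h : SB (ann E) m (sgR hR) F) :
    chi hR cl F = alt (fun n => gam hR cl (F.H h.qc n)) := dif_pos h

theorem chi_of_not (F : BPB A A') (h : ¬ SB (ann E) m (sgR hR) F) : chi hR cl F = 0 :=
  dif_neg h

theorem finite_of_bd {g : ℤ → V} (h : ∃ N : ℕ, ∀ n : ℤ, (N : ℤ) < |n| → g n = 0) :
    (Function.support g).Finite := by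
  obtain ⟨N, hN⟩ := h
  refine (Set.finite_Icc (-(N : ℤ)) N).subset (fun n hn => ?_)
  by_contra hc
  refine hn (hN n ?_)
  rw [lt_abs]
  rw [Set.mem_Icc, not_and_or, not_le, not_le] at hc
  omega

variable (hN : (bs A A').Noe) (ih : ∀ F : BS A A', F.Coh → ann E < ann F → cl.cl F = 0)

include hN ih

theorem gam_finite {F : BPB A A'} (h : SB (ann E) m (sgR hR) F) :
    (Function.support (fun n => gam hR cl (F.H h.qc n))).Finite := by
  obtain ⟨N, h1⟩ := h.bd
  exact finite_of_bd ⟨N, fun n hn => gam_tors hN ih (h.kl.ann_le h.qc n) (h1 n hn)⟩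

/-- the class of the middle term of an exact sequence -/
theorem gam_mid {Z' Z Z'' : BS A A'} {f : ShH Z' Z} {g : ShH Z Z''}
    (hfg : ∀ p z, g.f p z = 0 ↔ ∃ y, f.f p y = z) (h : SCoR hR Z) :
    gam hR cl Z = gam hR cl f.range.sh + gam hR cl g.range.sh := by
  refine (gam_ses hN ih f.range.incl
    (g.codRestr g.range (fun p x => ⟨x, rfl⟩)) f.range.incl_inj (fun p z => ?_)
    (fun p z => ?_) h).2.2
  · obtain ⟨y, hy⟩ := z.2
    exact ⟨y, Subtype.ext hy⟩
  · constructor
    · intro hz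
      have h1 : g.f p z = 0 := congrArg Subtype.val hz
      exact ⟨⟨z, (hfg p z).1 h1⟩, rfl⟩
    · rintro ⟨y, rfl⟩
      refine Subtype.ext ?_
      exact (hfg p y.1).2 y.2

/-- ADDITIVITY -/
theorem chi_add {F' F F'' : BPB A A'} {a : BPH F' F} {b : BPH F F''}
    (hD : ∀ p, Dist (a.ch p) (b.ch p)) (h' : SB (ann E) m (sgR hR) F')
    (h : SB (ann E) m (sgR hR) F) (h'' : SB (ann E) m (sgR hR) F'') :
    chi hR cl F = chi hR cl F' + chi hR cl F'' := by
  rw [chi_of F' h', chi_of F h, chi_of F'' h'']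
  let ga : ℤ → V := fun n => gam hR cl (a.H h'.qc h.qc n).range.sh
  let gb : ℤ → V := fun n => gam hR cl (b.H h.qc h''.qc n).range.sh
  let gd : ℤ → V := fun n => gam hR cl (lesD hD h'.qc h''.qc n).range.sh
  have e1 : ∀ n, gam hR cl (F.H h.qc n) = ga n + gb n := fun n =>
    gam_mid hN ih (les_mid hD h'.qc h.qc h''.qc n) (h.co n)
  have e2 : ∀ n, gam hR cl (F''.H h''.qc n) = gb n + gd n := fun n =>
    gam_mid hN ih (les_right hD h'.qc h.qc h''.qc n) (h''.co n)
  have e3 : ∀ n, gam hR cl (F'.H h'.qc (n + 1)) = gd n + ga (n + 1) := fun n =>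
    gam_mid hN ih (les_left hD h'.qc h.qc h''.qc n) (h'.co (n + 1))
  -- the supports
  have t1 : ∀ {Z Z' : BS A A'} (f : ShH Z' Z), ann E ≤ ann Z → STors m (sgR hR) Z →
      gam hR cl f.range.sh = 0 := by
    intro Z Z' f hE ht
    refine gam_tors hN ih (hE.trans (ann_sub Z _)) (fun c' z => ?_)
    obtain ⟨s, hs, h1⟩ := ht c' z.1
    exact ⟨s, hs, Subtype.ext h1⟩
  have sa : (Function.support ga).Finite := by
    obtain ⟨N, h1⟩ := h.bd
    exact finite_of_bd ⟨N, fun n hn => t1 _ (h.kl.ann_le h.qc n) (h1 n hn)⟩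
  have sb : (Function.support gb).Finite := by
    obtain ⟨N, h1⟩ := h''.bd
    exact finite_of_bd ⟨N, fun n hn => t1 _ (h''.kl.ann_le h''.qc n) (h1 n hn)⟩
  have sd : (Function.support gd).Finite := by
    obtain ⟨N, h1⟩ := h'.bd
    refine finite_of_bd ⟨N + 1, fun n hn => t1 _ (h'.kl.ann_le h'.qc (n + 1)) (h1 (n + 1) ?_)⟩
    have h6 := abs_sub (n + 1) 1
    rw [add_sub_cancel_right, abs_one] at h6
    push_cast at hn
    omega
  have f1 : alt (fun n => gam hR cl (F.H h.qc n)) = alt ga + alt gb := by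
    rw [← alt_add sa sb]
    exact congrArg alt (funext e1)
  have f2 : alt (fun n => gam hR cl (F''.H h''.qc n)) = alt gb + alt gd := by
    rw [← alt_add sb sd]
    exact congrArg alt (funext e2)
  have f3 : alt (fun n => gam hR cl (F'.H h'.qc n)) = - alt gd + alt ga := by
    have g1 := alt_succ (fun n => gam hR cl (F'.H h'.qc n))
    have g2 : alt (fun n => gam hR cl (F'.H h'.qc (n + 1))) =
        alt gd + alt (fun n => ga (n + 1)) := by
      rw [← alt_add sd (sa.preimage (fun x _ y _ h => add_right_cancel h) |>.subset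
        (fun n hn => hn))]
      exact congrArg alt (funext e3)
    rw [g2, alt_succ ga] at g1
    have g3 := congrArg Neg.neg g1
    rw [neg_neg] at g3
    rw [← g3, neg_add, neg_neg]
  rw [f1, f2, f3]
  abel

/-- INVARIANCE -/
theorem chi_ciso {F G : BPB A A'} {f : BPH F G} (h : CIso m (sgR hR) f) (hF : F.QC)
    (hG : G.QC) (hKF : Kl (ann E) F) (hKG : Kl (ann E) G) : chi hR cl F = chi hR cl G := by
  by_cases hB : SB (ann E) m (sgR hR) F
  · have hB' : SB (ann E) m (sgR hR) G := hB.of_ciso h hG hKG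
    rw [chi_of F hB, chi_of G hB']
    exact congrArg alt (funext fun n => gam_iso hN ih (h.sIso hF hG n) (hKF.ann_le hF n)
      (hKG.ann_le hG n))
  · have hB' : ¬ SB (ann E) m (sgR hR) G := fun h' => hB (h'.of_ciso' h hF hKF)
    rw [chi_of_not F hB, chi_of_not G hB']

/-- TORSION -/
theorem chi_tors {F : BPB A A'} (hF : F.QC) (h : ∀ n, STors m (sgR hR) (F.H hF n)) :
    chi hR cl F = 0 := by
  by_cases hB : SB (ann E) m (sgR hR) F
  · rw [chi_of F hB, ← alt_zero]
    exact congrArg alt (funext fun n => gam_tors hN ih (hB.kl.ann_le hF n) (h n))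
  · exact chi_of_not F hB

end Pool.Agent.MP_6e5bed_ag_WW
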