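import Pool.Agent.Lib.MP_6e5bed_ag_WW.Chi
import Pool.Agent.Lib.MP_6e5bed_ag_GG.Cls

set_option autoImplicit false
set_option linter.unusedVariables false

/-!
# MP_6e5bed_ag, THEOREM W, (2.5): the Euler characteristic of a complex with coherent cohomology
-/

noncomputable section

namespace Pool.Agent.MP_6e5bed_ag_WW

open Pool.Agent.MP_6e5bed_ag_NC Pool.Agent.MP_6e5bed_ag_GG
open Pool.Agent.MP_6e5bed_ag_PN hiding Ch
open Pool.Agent.MP_6e5bed_ag_NS (Cx CHom ringH)
open Pool.Agent.MP_6e5bed_ag_PS (Dist)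
open scoped TensorProduct

universe u

/-! ### Telescoping sums -/

section tele

variable {V : Type*} [AddCommGroup V]

theorem sum_tele (G : ℤ → V) {m n : ℤ} (h : m ≤ n) :
    ∑ l ∈ Finset.Ioc m n, (G l - G (l - 1)) = G n - G m := by
  induction n, h using Int.leInduction with
  | base => rw [Finset.Ioc_self, Finset.sum_empty, sub_self]
  | succ n hn ih =>
    have h1 : Finset.Ioc m (n + 1) = insert (n + 1) (Finset.Ioc m n) := by
      ext l
      rw [Finset.mem_insert, Finset.mem_Ioc, Finset.mem_Ioc]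
      omega
    rw [h1, Finset.sum_insert (by rw [Finset.mem_Ioc]; omega), ih, add_sub_cancel_right]
    abel

theorem finsum_tele {G : ℤ → V} {m n : ℤ} {v : V} (h1 : ∀ l ≤ m, G l = 0)
    (h2 : ∀ l, n ≤ l → G l = v) : ∑ᶠ l : ℤ, (G l - G (l - 1)) = v := by
  have h3 : Function.support (fun l : ℤ => G l - G (l - 1)) ⊆
      ((Finset.Ioc m (max m n) : Finset ℤ) : Set ℤ) := by
    intro l hl
    by_contra hc
    refine hl ?_
    rw [Finset.mem_coe, Finset.mem_Ioc, not_and_or, not_lt, not_le] at hc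
    change G l - G (l - 1) = 0
    rcases hc with hc | hc
    · rw [h1 l hc, h1 (l - 1) (by omega), sub_zero]
    · have h4 := le_max_right m n
      rw [h2 l (by omega), h2 (l - 1) (by omega), sub_self]
  rw [finsum_eq_sum_of_support_subset _ h3, sum_tele G (le_max_left m n),
    h2 _ (le_max_right m n), h1 m le_rfl, sub_zero]

end tele

variable {k : Type u} [Field k] {i j : Type} [Fintype i] [Fintype j] {A : CA k i} {A' : CA k j}

/-- the class of a bisheaf in degree `n` -/
theorem atn_rcls (E : BS A A') (h : HasRes E.bp.BB) (n : ℤ) :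
    rcls _ (E.atn_res h n) = n.negOnePow • rcls _ h := by
  have hw : ∀ n, HasRes (E.twn n).bpb.BB := fun n => BPC.acyc_hasRes _ (fun p => twx_acy)
  have h1 : ∀ n, rcls _ (E.atn_res h (n + 1)) = - rcls _ (E.atn_res h n) := by
    intro n
    have h2 := (E.tw_ex n).ses.rcls (E.atn_res h (n + 1)) (hw n) (E.atn_res h n)
    rw [rcls_acyc (BPC.acyc _ (fun p => twx_acy)) (hw n)] at h2
    exact eq_neg_of_add_eq_zero_left h2.symm
  induction n using Int.induction_on with
  | zero =>
    rw [Int.negOnePow_zero, one_smul]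
    exact (rcls_iso E.at0_biso h (E.atn_res h 0)).symm
  | succ n ih => rw [h1, ih, Int.negOnePow_succ, Units.neg_smul]
  | pred n ih =>
    have h2 := h1 (-(n : ℤ) - 1)
    have h3 : ∀ a b : ℤ, a = b → rcls _ (E.atn_res h a) = - rcls _ (E.atn_res h (-(n : ℤ) - 1)) →
        rcls _ (E.atn_res h b) = - rcls _ (E.atn_res h (-(n : ℤ) - 1)) := by
      rintro a _ rfl h
      exact h
    have h4 := h3 _ _ (sub_add_cancel _ _) h2
    rw [ih] at h4
    have h5 := Int.negOnePow_succ (-(n : ℤ) - 1)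
    rw [sub_add_cancel] at h5
    rw [h5, Units.neg_smul] at h4
    exact (neg_injective h4).symm

variable {I : ∀ c : Ch i, Ideal (A.A c)} {m : Ch i} {Sg : Submonoid (RR k m.1)}
  {V : Type*} [AddCommGroup V] {E : BS A A'}

/-- complexes with coherent cohomology -/
theorem sb_cohF {F : BPB A A'} (hQ : F.QC) (hK : Kl I F) (hC : F.CohF) : SB I m Sg F where
  qc := hQ
  kl := hK
  co := fun n => SCo.of_coh (hC.coh hQ n) (hK.ann_le hQ n)
  bd := by
    obtain ⟨a, b, hB⟩ := hC.bd
    refine ⟨a.natAbs + b.natAbs, fun n hn c' z => ⟨1, Sg.one_mem, ?_⟩⟩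
    have hz : z = 0 := by
      obtain ⟨x, h1, h2, rfl⟩ := hc_surj z
      refine hc_eq_zero.2 ?_
      push_cast at hn
      rw [lt_abs] at hn
      rcases hn with hn | hn
      · exact (hB (m, c')).2 n x (by
          have h3 := le_abs_self b
          have h4 := abs_nonneg a
          change b < n
          omega) h1 h2
      · exact (hB (m, c')).1 n x (by
          have h3 := neg_abs_le a
          have h4 := abs_nonneg b
          change n ≤ a
          omega) h1 h2
    rw [hz, smul_zero]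

/-- (2.5) the Euler characteristic of a complex with coherent cohomology is its class -/
theorem chi_cohF {hR : Red E m} {cl : AddFn (S := bs A A') Sh.Coh V} (hN : (bs A A').Noe)
    (ih : ∀ F : BS A A', F.Coh → ann E < ann F → cl.cl F = 0)
    (q : K0Q (TT A) (TT A') →+ V) (hRes : ∀ Z : BS A A', Z.Coh → HasRes Z.bp.BB)
    (hq : ∀ (Z : BS A A') (h : Z.Coh), cl.cl Z = q (rcls Z.bp.BB (hRes Z h)))
    {F : BPB A A'} (hQ : F.QC) (hK : Kl (ann E) F) (hC : F.CohF) (h : HasRes F.BB) :
    chi hR cl F = q (rcls F.BB h) := by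
  have hS : SB (ann E) m (sgR hR) F := sb_cohF hQ hK hC
  obtain ⟨a, b, hB⟩ := hC.bd
  have hR' : ∀ l, HasRes (F.H hQ l).bp.BB := fun l => hRes _ (hC.coh hQ l)
  rw [chi_of F hS]
  have h1 : ∀ l, gam hR cl (F.H hS.qc l) = q (rcls _ (hR' l)) := fun l =>
    (gam_coh hN ih (hC.coh hQ l) (hK.ann_le hQ l)).trans (hq _ (hC.coh hQ l))
  let G : ℤ → V := fun l => q (rcls _ (tr_hasRes hB hR' l))
  have h2 : ∀ l, l.negOnePow • gam hR cl (F.H hS.qc l) = G l - G (l - 1) := by
    intro l
    have h3 := congrArg q (tr_rcls hB hR' l)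
    rw [map_add, atn_rcls _ (hR' l)] at h3
    have h4 : q (l.negOnePow • rcls _ (hR' l)) = l.negOnePow • q (rcls _ (hR' l)) :=
      map_zsmul q (l.negOnePow : ℤ) _
    rw [h4, ← h1] at h3
    exact (sub_eq_of_eq_add' h3).symm
  refine (finsum_congr h2).trans (finsum_tele (m := a) (n := b) (fun l hl => ?_)
    (fun l hl => ?_))
  · change q (rcls _ (tr_hasRes hB hR' l)) = 0
    rw [rcls_acyc (tr_low hB hl), map_zero]
  · obtain ⟨f, hf⟩ := tr_top hB hl
    exact congrArg q (rcls_qiso (tr_hasRes hB hR' l) h f hf)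

end Pool.Agent.MP_6e5bed_ag_WW
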