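import Pool.Agent.Lib.MP_6e5bed_ag_WW.CmpF
import Pool.Agent.Lib.MP_6e5bed_ag_WW.Asc

set_option autoImplicit false
set_option linter.unusedVariables false

/-!
# MP_6e5bed_ag, THEOREM W, (4.6): `(X ⊗ M) ⊗ V ⊗ Y = X ⊗ (M ⊗ V) ⊗ Y`
-/

noncomputable section

namespace Pool.Agent.MP_6e5bed_ag_WW

open Pool.Agent.MP_6e5bed_ag_NC Pool.Agent.MP_6e5bed_ag_GG
open Pool.Agent.MP_6e5bed_ag_PN hiding Ch
open Pool.Agent.MP_6e5bed_ag_NS (Cx CHom ringH)

universe u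

section bim

variable {k : Type u} [CommRing k] {D W W' W'' B : DGA k}

/-- `(x ⊗ m) ⊗ (v ⊗ y) ↦ x ⊗ ((m ⊗ v) ⊗ y)` -/
def as4 (X : Bim D W) (M : Bim W W') (V : Bim W' W'') (Y : Bim W'' B) :
    GMap 0 (tb (tb X M) (tb V Y)) (tb X (tb (tb M V) Y)) :=
  (asG X M (tb V Y)).comp ((asI M V Y).tbL X) (add_zero 0)

theorem as4_tm (X : Bim D W) (M : Bim W W') (V : Bim W' W'') (Y : Bim W'' B) (x : X.M)
    (m : M.M) (v : V.M) (y : Y.M) :
    (as4 X M V Y).f (tm (tm x m : (tb X M).M) (tm v y : (tb V Y).M)) =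
      tm x (tm (tm m v : (tb M V).M) y : (tb (tb M V) Y).M) := by
  have h : (as4 X M V Y).f (tm (tm x m : (tb X M).M) (tm v y : (tb V Y).M)) =
    ((asI M V Y).tbL X).f ((asG X M (tb V Y)).f
      (tm (tm x m : (tb X M).M) (tm v y : (tb V Y).M))) := rfl
  rw [h, asG_tm, tbL_tm0, asI_tm]

theorem as4_dd (X : Bim D W) (M : Bim W W') (V : Bim W' W'') (Y : Bim W'' B) :
    (as4 X M V Y).dd = 0 := LinearMap.ext fun x => by
  change ((asG X M (tb V Y)).comp ((asI M V Y).tbL X) (add_zero 0)).dd x = 0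
  rw [GMap.dd_comp, asG_dd, tbL_dd' X _ (asI_dd M V Y)]
  simp

theorem bij_tbL (X : Bim D W) {M M' : Bim W B} (f : GMap 0 M M') (g : GMap 0 M' M)
    (h1 : ∀ x, g.f (f.f x) = x) (h2 : ∀ x, f.f (g.f x) = x) : Function.Bijective (f.tbL X).f :=
  Function.bijective_iff_has_inverse.2 ⟨(g.tbL X).f,
    (MP_6e5bed_ag_NC.tbL X B).map_inv (add_zero 0) h1,
    (MP_6e5bed_ag_NC.tbL X B).map_inv (add_zero 0) h2⟩

theorem as4_bij (X : Bim D W) (M : Bim W W') (V : Bim W' W'') (Y : Bim W'' B) :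
    Function.Bijective (as4 X M V Y).f :=
  (bij_tbL X (asI M V Y) (asG M V Y) (asG_asI M V Y) (asI_asG M V Y)).comp
    (asG_bij X M (tb V Y))

/-- two linear maps which agree on the tensors `(x ⊗ m) ⊗ (v ⊗ y)` -/
theorem lin_tm4 {X : Bim D W} {M : Bim W W'} {V : Bim W' W''} {Y : Bim W'' B} {Z : Type*}
    [AddCommGroup Z] [Module k Z] {f g : (tb (tb X M) (tb V Y)).M →ₗ[k] Z}
    (h : ∀ (x : X.M) (m : M.M) (v : V.M) (y : Y.M),
      f (tm (tm x m : (tb X M).M) (tm v y : (tb V Y).M)) =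
        g (tm (tm x m : (tb X M).M) (tm v y : (tb V Y).M))) (x) : f x = g x := by
  refine lin_tm3 X M (tb V Y) (f := f) (g := g) (fun x m z => ?_) x
  exact lin_tm (M := V) (N := Y) (f := f ∘ₗ tmB (tb X M) (tb V Y) (tm x m))
    (g := g ∘ₗ tmB (tb X M) (tb V Y) (tm x m)) (fun v y => h x m v y) z

end bim

section cmp

variable {k : Type u} [Field k] {i j : Type} [Fintype i] [Fintype j] {A : CA k i} {A' : CA k j}
  {W W' W'' : DGA k}

/-- (4.6) -/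
def cmpA (X : PB A.pa (PA.con i W)) (M : Bim W W') (V : Bim W' W'')
    (Y : PB (PA.con j W'') A'.pa) :
    BPH (BPB.cmp (PB.tbR X M) V Y) (BPB.cmp X (tb M V) Y) where
  f := fun p => as4 (W := W) (W' := W') (W'' := W'') (X.M p.1) M V (Y.M p.2)
  dd := fun p => as4_dd (W := W) (W' := W') (W'' := W'') (X.M p.1) M V (Y.M p.2)
  nat := fun {p q} h x => by
    refine lin_tm4 (D := A.pa.A p.1) (W := W) (W' := W') (W'' := W'') (B := A'.pa.A p.2)
      (X := X.M p.1) (M := M) (V := V) (Y := Y.M p.2)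
      (f := ((BPB.cmp X (tb M V) Y).ρ h).f ∘ₗ
        (as4 (W := W) (W' := W') (W'' := W'') (X.M p.1) M V (Y.M p.2)).f)
      (g := (as4 (W := W) (W' := W') (W'' := W'') (X.M q.1) M V (Y.M q.2)).f ∘ₗ
        ((BPB.cmp (PB.tbR X M) V Y).ρ h).f) (fun x m v y => ?_) x
    refine ((congrArg ((BPB.cmp X (tb M V) Y).ρ h).f
      (as4_tm (W := W) (W' := W') (W'' := W'') (X.M p.1) M V (Y.M p.2) x m v y)).trans
      (BPB.cmp_ρ X (tb M V) Y h x (tm m v) y)).trans ?_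
    refine Eq.trans ?_ (congrArg (as4 (W := W) (W' := W') (W'' := W'') (X.M q.1) M V
      (Y.M q.2)).f (BPB.cmp_ρ (PB.tbR X M) V Y h (tm x m) v y)).symm
    refine Eq.trans ?_ (congrArg (fun z => (as4 (W := W) (W' := W') (W'' := W'') (X.M q.1) M V
      (Y.M q.2)).f (tm (M := tb (X.M q.1) M) (N := tb V (Y.M q.2)) z
        (tm (M := V) (N := Y.M q.2) v ((Y.ρ h.2).f y)))) (PB.tbR_ρ X M h.1 x m)).symm
    exact (as4_tm (W := W) (W' := W') (W'' := W'') (X.M q.1) M V (Y.M q.2) ((X.ρ h.1).f x) m v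
      ((Y.ρ h.2).f y)).symm

theorem cmpA_bij (X : PB A.pa (PA.con i W)) (M : Bim W W') (V : Bim W' W'')
    (Y : PB (PA.con j W'') A'.pa) (p : Ch i × Ch j) :
    Function.Bijective ((cmpA X M V Y).f p).f :=
  as4_bij (W := W) (W' := W') (W'' := W'') (X.M p.1) M V (Y.M p.2)

end cmp

end Pool.Agent.MP_6e5bed_ag_WW
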