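import Pool.Agent.Lib.MP_6e5bed_ag_GG.Cmp

set_option autoImplicit false
set_option linter.unusedVariables false

/-!
# MP_6e5bed_ag, THEOREM W, section 4: functoriality of `X_c ⊗_W V ⊗_W' Y_{c'}`
-/

noncomputable section

namespace Pool.Agent.MP_6e5bed_ag_WW

open Pool.Agent.MP_6e5bed_ag_NC Pool.Agent.MP_6e5bed_ag_GG
open Pool.Agent.MP_6e5bed_ag_PN hiding Ch
open Pool.Agent.MP_6e5bed_ag_NS (Cx CHom ringH)

universe u

/-! ### Functoriality of the tensor products of presheaves of bimodules -/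

section PN

variable {k : Type u} [CommRing k] {ι κ : Type} {A : PA k ι} {B : PA k κ} {W W' D : DGA k}

theorem tbR_dd' {A B C : DGA k} {M N : Bim A B} (f : GMap 0 M N) (h : f.dd = 0) (Z : Bim B C) :
    (f.tbR Z).dd = 0 := (MP_6e5bed_ag_NC.tbR A Z).closed h

theorem tbL_dd' {A B C : DGA k} (Z : Bim A B) {M N : Bim B C} (f : GMap 0 M N) (h : f.dd = 0) :
    (f.tbL Z).dd = 0 := (MP_6e5bed_ag_NC.tbL Z C).closed h

theorem tbL_tm0 {A B C : DGA k} (Z : Bim A B) {M N : Bim B C} (f : GMap 0 M N) (z : Z.M)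
    (m : M.M) : (f.tbL Z).f (tm z m) = tm (M := Z) (N := N) z (f.f m) := by
  rw [GMap.tbL_tm, Dg.sp_zero]

/-- two linear maps on a tensor product which agree on the tensors -/
theorem lin_tm {A B C : DGA k} {M : Bim A B} {N : Bim B C} {V : Type*} [AddCommGroup V]
    [Module k V] {f g : (tb M N).M →ₗ[k] V}
    (h : ∀ (m : M.M) (n : N.M), f (tm m n) = g (tm m n)) (x : (tb M N).M) : f x = g x :=
  LinearMap.congr_fun (tb_hom_ext (M := M) (N := N) h) x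

/-- `X ⊗ N → X' ⊗ N` -/
def PB.tbLm {X X' : Bim D W} (g : GMap 0 X X') (hg : g.dd = 0) (N : PB (PA.con κ W) B) :
    PBH (PB.tbL X N) (PB.tbL X' N) where
  f := fun b => g.tbR (N.M b)
  dd := fun b => tbR_dd' g hg _
  nat := fun {b b'} h x => lin_tm (M := X) (N := N.M b)
    (f := ((PB.tbL X' N).ρ h).f ∘ₗ (g.tbR (N.M b)).f)
    (g := (g.tbR (N.M b')).f ∘ₗ ((PB.tbL X N).ρ h).f) (fun m n =>
      ((congrArg ((PB.tbL X' N).ρ h).f (GMap.tbR_tm g (N.M b) m n)).trans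
        (PB.tbL_ρ X' N h (g.f m) n)).trans
      ((congrArg (g.tbR (N.M b')).f (PB.tbL_ρ X N h m n)).trans
        (GMap.tbR_tm g (N.M b') m ((N.ρ h).f n))).symm) x

/-- `X ⊗ N → X ⊗ N'` -/
def PB.tbLN (X : Bim D W) {N N' : PB (PA.con κ W) B} (f : PBH N N') :
    PBH (PB.tbL X N) (PB.tbL X N') where
  f := fun b => (f.f b).tbL X
  dd := fun b => tbL_dd' X (f.f b) (f.dd b)
  nat := fun {b b'} h x => lin_tm (M := X) (N := N.M b)
    (f := ((PB.tbL X N').ρ h).f ∘ₗ ((f.f b).tbL X).f)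
    (g := ((f.f b').tbL X).f ∘ₗ ((PB.tbL X N).ρ h).f) (fun m n =>
      ((congrArg ((PB.tbL X N').ρ h).f (tbL_tm0 X (f.f b) m n)).trans
        ((PB.tbL_ρ X N' h m ((f.f b).f n)).trans
          (congrArg (fun z => tm (M := X) (N := N'.M b') m z) (f.nat h n)))).trans
      ((congrArg ((f.f b').tbL X).f (PB.tbL_ρ X N h m n)).trans
        (tbL_tm0 X (f.f b') m ((N.ρ h).f n))).symm) x

/-- `V ⊗ Y → V ⊗ Y'` -/
def PB.tbRm (V : PB A (PA.con ι W)) {Y Y' : Bim W D} (g : GMap 0 Y Y') (hg : g.dd = 0) :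
    PBH (PB.tbR V Y) (PB.tbR V Y') where
  f := fun a => g.tbL (V.M a)
  dd := fun a => tbL_dd' (V.M a) g hg
  nat := fun {a a'} h x => lin_tm (M := V.M a) (N := Y)
    (f := ((PB.tbR V Y').ρ h).f ∘ₗ (g.tbL (V.M a)).f)
    (g := (g.tbL (V.M a')).f ∘ₗ ((PB.tbR V Y).ρ h).f) (fun m y =>
      ((congrArg ((PB.tbR V Y').ρ h).f (tbL_tm0 (V.M a) g m y)).trans
        (PB.tbR_ρ V Y' h m (g.f y))).trans
      ((congrArg (g.tbL (V.M a')).f (PB.tbR_ρ V Y h m y)).trans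
        (tbL_tm0 (V.M a') g ((V.ρ h).f m) y)).symm) x

/-- `V ⊗ Y → V' ⊗ Y` -/
def PB.tbRV {V V' : PB A (PA.con ι W)} (f : PBH V V') (Y : Bim W D) :
    PBH (PB.tbR V Y) (PB.tbR V' Y) where
  f := fun a => (f.f a).tbR Y
  dd := fun a => tbR_dd' (f.f a) (f.dd a) Y
  nat := fun {a a'} h x => lin_tm (M := V.M a) (N := Y)
    (f := ((PB.tbR V' Y).ρ h).f ∘ₗ ((f.f a).tbR Y).f)
    (g := ((f.f a').tbR Y).f ∘ₗ ((PB.tbR V Y).ρ h).f) (fun m y =>
      ((congrArg ((PB.tbR V' Y).ρ h).f (GMap.tbR_tm (f.f a) Y m y)).trans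
        ((PB.tbR_ρ V' Y h ((f.f a).f m) y).trans
          (congrArg (fun z => tm (M := V'.M a') (N := Y) z y) (f.nat h m)))).trans
      ((congrArg ((f.f a').tbR Y).f (PB.tbR_ρ V Y h m y)).trans
        (GMap.tbR_tm (f.f a') Y ((V.ρ h).f m) y)).symm) x

/-- `V ⊗ N → V' ⊗ N` -/
def PB.extV {V V' : PB A (PA.con ι W)} (f : PBH V V') (N : PB (PA.con κ W) B) :
    PB2H (PB.ext V N) (PB.ext V' N) where
  f := fun a b => (f.f a).tbR (N.M b)
  dd := fun a b => tbR_dd' (f.f a) (f.dd a) _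
  nat := fun {a a' b b'} h h' x => lin_tm (M := V.M a) (N := N.M b)
    (f := ((PB.ext V' N).ρ h h').f ∘ₗ ((f.f a).tbR (N.M b)).f)
    (g := ((f.f a').tbR (N.M b')).f ∘ₗ ((PB.ext V N).ρ h h').f) (fun m n =>
      ((congrArg ((PB.ext V' N).ρ h h').f (GMap.tbR_tm (f.f a) (N.M b) m n)).trans
        ((PB.ext_ρ V' N h h' ((f.f a).f m) n).trans
          (congrArg (fun z => tm (M := V'.M a') (N := N.M b') z ((N.ρ h').f n))
            (f.nat h m)))).trans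
      ((congrArg ((f.f a').tbR (N.M b')).f (PB.ext_ρ V N h h' m n)).trans
        (GMap.tbR_tm (f.f a') (N.M b') ((V.ρ h).f m) ((N.ρ h').f n))).symm) x

/-- `V ⊗ N → V ⊗ N'` -/
def PB.extN (V : PB A (PA.con ι W)) {N N' : PB (PA.con κ W) B} (f : PBH N N') :
    PB2H (PB.ext V N) (PB.ext V N') where
  f := fun a b => (f.f b).tbL (V.M a)
  dd := fun a b => tbL_dd' _ (f.f b) (f.dd b)
  nat := fun {a a' b b'} h h' x => lin_tm (M := V.M a) (N := N.M b)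
    (f := ((PB.ext V N').ρ h h').f ∘ₗ ((f.f b).tbL (V.M a)).f)
    (g := ((f.f b').tbL (V.M a')).f ∘ₗ ((PB.ext V N).ρ h h').f) (fun m n =>
      ((congrArg ((PB.ext V N').ρ h h').f (tbL_tm0 (V.M a) (f.f b) m n)).trans
        ((PB.ext_ρ V N' h h' m ((f.f b).f n)).trans
          (congrArg (fun z => tm (M := V.M a') (N := N'.M b') ((V.ρ h).f m) z)
            (f.nat h' n)))).trans
      ((congrArg ((f.f b').tbL (V.M a')).f (PB.ext_ρ V N h h' m n)).trans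
        (tbL_tm0 (V.M a') (f.f b') ((V.ρ h).f m) ((N.ρ h').f n))).symm) x

end PN

/-! ### Functoriality of `BPB.cmp` -/

section GG

variable {k : Type u} [Field k] {i j : Type} [Fintype i] [Fintype j] {A : CA k i} {A' : CA k j}
  {W W' : DGA k}

/-- a morphism of presheaves in two variables as a morphism of complexes of bisheaves -/
def BPH.ofTwo {M N : PB2 A.pa A'.pa} (f : PB2H M N) : BPH (BPB.ofTwo M) (BPB.ofTwo N) where
  f := fun p => f.f p.1 p.2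
  dd := fun p => f.dd p.1 p.2
  nat := fun h x => f.nat h.1 h.2 x

/-- `X ⊗ V ⊗ Y → X' ⊗ V ⊗ Y` -/
def cmpX {X X' : PB A.pa (PA.con i W)} (f : PBH X X') (V : Bim W W')
    (Y : PB (PA.con j W') A'.pa) : BPH (BPB.cmp X V Y) (BPB.cmp X' V Y) :=
  BPH.ofTwo (PB.extV f (PB.tbL V Y))

/-- `X ⊗ V ⊗ Y → X ⊗ V' ⊗ Y` -/
def cmpV (X : PB A.pa (PA.con i W)) {V V' : Bim W W'} (g : GMap 0 V V') (hg : g.dd = 0)
    (Y : PB (PA.con j W') A'.pa) : BPH (BPB.cmp X V Y) (BPB.cmp X V' Y) :=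
  BPH.ofTwo (PB.extN X (PB.tbLm g hg Y))

/-- `X ⊗ V ⊗ Y → X ⊗ V ⊗ Y'` -/
def cmpY (X : PB A.pa (PA.con i W)) (V : Bim W W') {Y Y' : PB (PA.con j W') A'.pa}
    (f : PBH Y Y') : BPH (BPB.cmp X V Y) (BPB.cmp X V Y') :=
  BPH.ofTwo (PB.extN X (PB.tbLN V f))

theorem cmpX_f {X X' : PB A.pa (PA.con i W)} (f : PBH X X') (V : Bim W W')
    (Y : PB (PA.con j W') A'.pa) (p : Ch i × Ch j) (x : (X.M p.1).M) (z : (tb V (Y.M p.2)).M) :
    ((cmpX f V Y).f p).f (tm (M := X.M p.1) (N := tb V (Y.M p.2)) x z) =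
      tm (M := X'.M p.1) (N := tb V (Y.M p.2)) ((f.f p.1).f x) z :=
  GMap.tbR_tm (f.f p.1) (tb V (Y.M p.2)) x z

theorem cmpV_f (X : PB A.pa (PA.con i W)) {V V' : Bim W W'} (g : GMap 0 V V') (hg : g.dd = 0)
    (Y : PB (PA.con j W') A'.pa) (p : Ch i × Ch j) (x : (X.M p.1).M) (v : V.M)
    (y : (Y.M p.2).M) :
    ((cmpV X g hg Y).f p).f (tm (M := X.M p.1) (N := tb V (Y.M p.2)) x
      (tm (M := V) (N := Y.M p.2) v y)) =
      tm (M := X.M p.1) (N := tb V' (Y.M p.2)) x (tm (M := V') (N := Y.M p.2) (g.f v) y) :=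
  (tbL_tm0 (X.M p.1) (g.tbR (Y.M p.2)) x (tm (M := V) (N := Y.M p.2) v y)).trans
    (congrArg (fun z => tm (M := X.M p.1) (N := tb V' (Y.M p.2)) x z)
      (GMap.tbR_tm g (Y.M p.2) v y))

theorem cmpY_f (X : PB A.pa (PA.con i W)) (V : Bim W W') {Y Y' : PB (PA.con j W') A'.pa}
    (f : PBH Y Y') (p : Ch i × Ch j) (x : (X.M p.1).M) (v : V.M) (y : (Y.M p.2).M) :
    ((cmpY X V f).f p).f (tm (M := X.M p.1) (N := tb V (Y.M p.2)) x
      (tm (M := V) (N := Y.M p.2) v y)) =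
      tm (M := X.M p.1) (N := tb V (Y'.M p.2)) x (tm (M := V) (N := Y'.M p.2) v
        ((f.f p.2).f y)) :=
  (tbL_tm0 (X.M p.1) ((f.f p.2).tbL V) x (tm (M := V) (N := Y.M p.2) v y)).trans
    (congrArg (fun z => tm (M := X.M p.1) (N := tb V (Y'.M p.2)) x z)
      (tbL_tm0 V (f.f p.2) v y))

end GG

end Pool.Agent.MP_6e5bed_ag_WW
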