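import Pool.Agent.Lib.MP_6e5bed_ag_WW.CmpF

set_option autoImplicit false
set_option linter.unusedVariables false

/-!
# MP_6e5bed_ag, THEOREM W, (4.3): localisations and `X ↦ X ⊗ V ⊗ Y`
-/

noncomputable section

namespace Pool.Agent.MP_6e5bed_ag_WW

open Pool.Agent.MP_6e5bed_ag_NC Pool.Agent.MP_6e5bed_ag_GG
open Pool.Agent.MP_6e5bed_ag_PN hiding Ch
open Pool.Agent.MP_6e5bed_ag_NS (Cx CHom ringH)

universe u

variable {k : Type u} [Field k] {i j : Type} [Fintype i] [Fintype j] {A : CA k i} {A' : CA k j}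
  {W W' : DGA k}

/-- (4.3): localisations at the chart `c` -/
theorem cmpX_locS {S : Type*} [CommMonoid S] {X X' : PB A.pa (PA.con i W)} {f : PBH X X'}
    {c : Ch i} {b b' : S → A.A c} (h : LocS (V := (X.M c).M) (V' := (X'.M c).M) (f.f c).f
      (fun s => (X.M c).l (b s)) (fun s => (X'.M c).l (b' s)))
    (V : Bim W W') (Y : PB (PA.con j W') A'.pa) (c' : Ch j) :
    LocS (V := ((BPB.cmp X V Y).F (c, c')).M) (V' := ((BPB.cmp X' V Y).F (c, c')).M)
      ((cmpX f V Y).f (c, c')).f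
      (fun s => ((BPB.cmp X V Y).F (c, c')).l (b s))
      (fun s => ((BPB.cmp X' V Y).F (c, c')).l (b' s)) :=
  LocS.tbR (W := W) (X := X.M c) (X' := X'.M c) h (fun w x => (f.f c).map_r w x)
    (fun s w x => (X.M c).l_r (b s) w x) (fun s w x => (X'.M c).l_r (b' s) w x)
    (tb V (Y.M c')) (fun x q => GMap.tbR_tm (f.f c) (tb V (Y.M c')) x q)
    (fun s x q => tb_l (M := X.M c) (N := tb V (Y.M c')) (b s) x q)
    (fun s x q => tb_l (M := X'.M c) (N := tb V (Y.M c')) (b' s) x q)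

end Pool.Agent.MP_6e5bed_ag_WW
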