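import Pool.Agent.Lib.MP_6e5bed_ag_WW.CmpF
import Pool.Agent.Lib.MP_6e5bed_ag_GG.LDt
import Pool.Agent.Lib.MP_6e5bed_ag_GG.LNu
import Pool.Agent.Lib.MP_6e5bed_ag_GG.CbT

set_option autoImplicit false
set_option linter.unusedVariables false

/-!
# MP_6e5bed_ag, THEOREM W, (4.2), (4.4): exactness of `X ↦ X ⊗ V ⊗ Y` for perfect `V`
-/

noncomputable section

namespace Pool.Agent.MP_6e5bed_ag_WW

open Pool.Agent.MP_6e5bed_ag_NC Pool.Agent.MP_6e5bed_ag_GG
open Pool.Agent.MP_6e5bed_ag_PN hiding Ch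
open Pool.Agent.MP_6e5bed_ag_NS (Cx CHom ringH)
open Pool.Agent.MP_6e5bed_ag_PS (Dist gc)

universe u

section bim

variable {k : Type u} [Field k] {D W W' B : DGA k}

/-- The tensor product with a flat left module preserves quasi-isomorphisms of bimodules. -/
theorem LFlat_qisoD {Z : Bim W B} (hZ : LFlat Z) {M N : Bim D W} {φ : GMap 0 M N}
    (h : QIso φ) : QIso (φ.tbR Z) := by
  have h1 : QIso (φ.res (DHom.unit D) (DHom.id W)) := h
  have h2 := LFlat.qiso hZ h1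
  exact h2

/-- The tensor product with a flat left module maps short exact sequences of bimodules to
distinguished sequences. -/
theorem dist_tbD {M1 M2 M3 : Bim D W} (i : GMap 0 M1 M2) (p : GMap 0 M2 M3)
    (hi : i.dd = 0) (hp : p.dd = 0) (h1 : Function.Injective i.f) (h2 : Function.Surjective p.f)
    (h3 : ∀ x, p.f x = 0 ↔ ∃ y, i.f y = x) {Z : Bim W B} (hZ : LFlat Z) :
    Dist (gc (i.tbR Z) (tbR_dd' i hi Z)) (gc (p.tbR Z) (tbR_dd' p hp Z)) := by
  have h4 := dist_tbF (i.res (DHom.unit D) (DHom.id W)) (p.res (DHom.unit D) (DHom.id W))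
    hi hp h1 h2 h3 hZ
  exact h4

end bim

section cmp

variable {k : Type u} [Field k] {i j : Type} [Fintype i] [Fintype j] {A : CA k i} {A' : CA k j}
  {W W' : DGA k} {V : Bim W W'} {Y : PB (PA.con j W') A'.pa}

/-- (4.2): quasi-isomorphisms at the chart `c` -/
theorem cmpX_qiso (hV : Perf V) {X X' : PB A.pa (PA.con i W)} {f : PBH X X'} {c : Ch i}
    (h : QIso (f.f c)) (c' : Ch j) : QIso ((cmpX f V Y).f (c, c')) :=
  LFlat_qisoD (lflat_tb hV (Y.M c')) h

/-- (4.4): short exact sequences at the chart `c` -/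
theorem cmpX_dist (hV : Perf V) {X' X X'' : PB A.pa (PA.con i W)} {a : PBH X' X}
    {b : PBH X X''} {c : Ch i} (h1 : Function.Injective (a.f c).f)
    (h2 : Function.Surjective (b.f c).f) (h3 : ∀ x, (b.f c).f x = 0 ↔ ∃ y, (a.f c).f y = x)
    (c' : Ch j) : Dist ((cmpX a V Y).ch (c, c')) ((cmpX b V Y).ch (c, c')) :=
  dist_tbD (a.f c) (b.f c) (a.dd c) (b.dd c) h1 h2 h3 (lflat_tb hV (Y.M c'))

theorem cmpX_distE (hV : Perf V) {X' X X'' : PB A.pa (PA.con i W)} {a : PBH X' X}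
    {b : PBH X X''} (h : PBEx a b) (p : Ch i × Ch j) :
    Dist ((cmpX a V Y).ch p) ((cmpX b V Y).ch p) :=
  cmpX_dist hV (h p.1).1 (h p.1).2.1 (h p.1).2.2 p.2

end cmp

end Pool.Agent.MP_6e5bed_ag_WW
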