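import Pool.Agent.Lib.MP_6e5bed_ag_WW.CmpF
import Pool.Agent.Lib.MP_6e5bed_ag_NC.K0Api
import Pool.Agent.Lib.MP_6e5bed_ag_NC.Null

set_option autoImplicit false
set_option linter.unusedVariables false

/-!
# MP_6e5bed_ag, THEOREM W, (4.5): the functor `V ↦ X ⊗ V ⊗ Y`
-/

noncomputable section

namespace Pool.Agent.MP_6e5bed_ag_WW

open Pool.Agent.MP_6e5bed_ag_NC Pool.Agent.MP_6e5bed_ag_GG
open Pool.Agent.MP_6e5bed_ag_PN hiding Ch
open Pool.Agent.MP_6e5bed_ag_NS (Cx CHom ringH)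

universe u

section bim

variable {k : Type u} [CommRing k] {D W W' B A A' B' : DGA k}

/-- A dg functor maps split exact sequences to split exact sequences. -/
theorem DGFun_split (F : DGFun A B A' B') {M' M M'' : Bim A B} {i : GMap 0 M' M}
    {p : GMap 0 M M''} {r : GMap 0 M M'} {σ : GMap 0 M'' M} (h2 : ∀ x, r.f (i.f x) = x)
    (h3 : ∀ x, p.f (σ.f x) = x) (h4 : ∀ x, p.f (i.f x) = 0)
    (h6 : ∀ x, i.f (r.f x) + σ.f (p.f x) = x) :
    Function.Injective (F.map i).f ∧ Function.Surjective (F.map p).f ∧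
      ∀ x, (F.map p).f x = 0 ↔ ∃ y, (F.map i).f y = x := by
  refine ⟨fun x y h => ?_, fun y => ⟨(F.map σ).f y, F.map_inv (add_zero 0) h3 y⟩, fun x => ?_⟩
  · rw [← F.map_inv (add_zero 0) h2 x, h, F.map_inv (add_zero 0) h2 y]
  · refine ⟨fun hx => ⟨(F.map r).f x, ?_⟩, ?_⟩
    · have h7 : r.comp i (add_zero 0) + p.comp σ (add_zero 0) = GMap.id M := GMap.ext h6
      have h8 := F.map_add (r.comp i (add_zero 0)) (p.comp σ (add_zero 0)) x
      rw [h7, F.map_id, F.map_comp r i (add_zero 0), F.map_comp p σ (add_zero 0), hx,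
        _root_.map_zero, add_zero] at h8
      exact h8.symm
    · rintro ⟨y, rfl⟩
      exact F.map_comp_zero h4 y

/-- The functor `V ↦ X ⊗ V ⊗ Y`. -/
def xvy (X : Bim D W) (Y : Bim W' B) : DGFun W W' D B :=
  (MP_6e5bed_ag_NC.tbR W Y).comp (MP_6e5bed_ag_NC.tbL X B)

end bim

section qis

variable {k : Type u} [Field k] {D W W' B A A' B' : DGA k}

/-- A dg functor maps quasi-isomorphisms of perfect bimodules to quasi-isomorphisms. -/
theorem DGFun_qiso (F : DGFun A B A' B') {M N : Bim A B} (hM : Perf M) (hN : Perf N)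
    {φ : GMap 0 M N} (h : QIso φ) : QIso (F.map φ) := by
  have hc : IsCone φ (MP_6e5bed_ag_NC.cone φ h.1) := isCone_cone φ h.1
  have h1 : Acyc (MP_6e5bed_ag_NC.cone φ h.1) := (hc.qiso_iff h.1).1 h
  have h2 : Contr (MP_6e5bed_ag_NC.cone φ h.1) := (hc.perf hM hN).contr_of_acyc h1
  exact ((F.isCone hc).qiso_iff (F.closed h.1)).2 (F.contr h2).acyc

end qis

section cmp

variable {k : Type u} [Field k] {i j : Type} [Fintype i] [Fintype j] {A : CA k i} {A' : CA k j}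
  {W W' : DGA k} (X : PB A.pa (PA.con i W)) (Y : PB (PA.con j W') A'.pa)

theorem cmpV_map {V V' : Bim W W'} (g : GMap 0 V V') (hg : g.dd = 0) (p : Ch i × Ch j) :
    (cmpV X g hg Y).f p = (xvy (X.M p.1) (Y.M p.2)).map g := rfl

/-- (4.5): split exact sequences -/
theorem cmpV_ex {V' V V'' : Bim W W'} {a : GMap 0 V' V} {b : GMap 0 V V''} (ha : a.dd = 0)
    (hb : b.dd = 0) {r : GMap 0 V V'} {σ : GMap 0 V'' V} (h2 : ∀ x, r.f (a.f x) = x)
    (h3 : ∀ x, b.f (σ.f x) = x) (h4 : ∀ x, b.f (a.f x) = 0)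
    (h6 : ∀ x, a.f (r.f x) + σ.f (b.f x) = x) : BPEx (cmpV X a ha Y) (cmpV X b hb Y) :=
  fun p => DGFun_split (xvy (X.M p.1) (Y.M p.2)) h2 h3 h4 h6

theorem cmpV_isExt {V' V V'' : Bim W W'} (h : IsExt V' V V'') :
    ∃ (a : BPH (BPB.cmp X V' Y) (BPB.cmp X V Y)) (b : BPH (BPB.cmp X V Y) (BPB.cmp X V'' Y)),
      BPEx a b := by
  obtain ⟨i, p, r, σ, h0, h1, h2, h3, h4, h5, h6⟩ := h
  exact ⟨cmpV X i h0 Y, cmpV X p h1 Y, cmpV_ex X Y h0 h1 h2 h3 h4 h6⟩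

/-- (4.5): contractible bimodules -/
theorem cmpV_contr {V : Bim W W'} (h : Contr V) (p : Ch i × Ch j) :
    Contr ((BPB.cmp X V Y).F p) :=
  (xvy (X.M p.1) (Y.M p.2)).contr h

/-- (4.5): quasi-isomorphisms of perfect bimodules -/
theorem cmpV_qiso {V V' : Bim W W'} (hV : Perf V) (hV' : Perf V') {g : GMap 0 V V'}
    (hg : QIso g) (p : Ch i × Ch j) : QIso ((cmpV X g hg.1 Y).f p) :=
  DGFun_qiso (xvy (X.M p.1) (Y.M p.2)) hV hV' hg

/-- (4.5): direct summands -/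
theorem cmpV_summand {V' V : Bim W W'} (h : IsSummand V' V) :
    ∃ (a : BPH (BPB.cmp X V' Y) (BPB.cmp X V Y)) (b : BPH (BPB.cmp X V Y) (BPB.cmp X V' Y)),
      ∀ p x, (b.f p).f ((a.f p).f x) = x := by
  obtain ⟨a, r, h0, h1, h2⟩ := h
  exact ⟨cmpV X a h0 Y, cmpV X r h1 Y, fun p x =>
    (xvy (X.M p.1) (Y.M p.2)).map_inv (add_zero 0) h2 x⟩

end cmp

end Pool.Agent.MP_6e5bed_ag_WW
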