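import Pool.Agent.Lib.MP_6e5bed_ag_WW.SsP

set_option autoImplicit false
set_option linter.unusedVariables false

/-!
# MP_6e5bed_ag, THEOREM W, (5.4): the Euler characteristic on the Grothendieck group
-/

noncomputable section

namespace Pool.Agent.MP_6e5bed_ag_WW

open Pool.Agent.MP_6e5bed_ag_NC Pool.Agent.MP_6e5bed_ag_GG
open Pool.Agent.MP_6e5bed_ag_PN hiding Ch
open Pool.Agent.MP_6e5bed_ag_NS (Cx CHom ringH)
open Pool.Agent.MP_6e5bed_ag_PS (Dist)

universe u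

variable {k : Type u} [Field k] {i j : Type} [Fintype i] [Fintype j] {A : CA k i} {A' : CA k j}
  {V : Type*} [AddCommGroup V] {E : BS A A'} {m : Ch i}
  {hR : Red E m} {cl : AddFn (S := bs A A') Sh.Coh V} {W₀ : DGA k}

section

variable (hN : (bs A A').Noe) (ih : ∀ F : BS A A', F.Coh → ann E < ann F → cl.cl F = 0)
  {X : PB A.pa (PA.con i W₀)} (hX : QCl X)
  (h53 : ∀ M : Bim W₀ (TT A'), Perf M → SB (ann E) m (sgR hR) (BPB.cmp X M (YY A')))

include hN ih h53 in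
theorem Gam0_ext {M' M M'' : Bim W₀ (TT A')} (h' : Perf M') (h : Perf M) (h'' : Perf M'')
    (he : IsExt M' M M'') : chi hR cl (BPB.cmp X M (YY A')) =
      chi hR cl (BPB.cmp X M' (YY A')) + chi hR cl (BPB.cmp X M'' (YY A')) := by
  obtain ⟨a, b, hab⟩ := cmpV_isExt X (YY A') he
  exact chi_add hN ih (fun p => bpEx_dist hab p) (h53 M' h') (h53 M h) (h53 M'' h'')

include hN ih hX in
theorem Gam0_contr {M : Bim W₀ (TT A')} (h : Perf M) (hc : Contr M) :
    chi hR cl (BPB.cmp X M (YY A')) = 0 :=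
  chi_tors hN ih (yqc hX M) (fun n => stors_of_acyc (yqc hX M)
    (fun c' => (cmpV_contr X (YY A') hc (m, c')).acyc) n)

variable [Module ℚ V]

/-- the map `Γ` -/
def Gam0 (hN : (bs A A').Noe) (ih : ∀ F : BS A A', F.Coh → ann E < ann F → cl.cl F = 0)
    {X : PB A.pa (PA.con i W₀)} (hX : QCl X)
    (h53 : ∀ M : Bim W₀ (TT A'), Perf M → SB (ann E) m (sgR hR) (BPB.cmp X M (YY A'))) :
    K0Q W₀ (TT A') →ₗ[ℚ] V :=
  K0Q.lift (fun M _ => chi hR cl (BPB.cmp X M (YY A')))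
    (fun h' h h'' he => Gam0_ext hN ih h53 h' h h'' he)
    (fun h hc => Gam0_contr hN ih hX h hc)

theorem Gam0_cls (M : Bim W₀ (TT A')) (hM : Perf M) :
    Gam0 hN ih hX h53 (cls M hM) = chi hR cl (BPB.cmp X M (YY A')) :=
  K0Q.lift_cls (fun M _ => chi hR cl (BPB.cmp X M (YY A')))
    (fun h' h h'' he => Gam0_ext hN ih h53 h' h h'' he)
    (fun h hc => Gam0_contr hN ih hX h hc) M hM

end

end Pool.Agent.MP_6e5bed_ag_WW
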