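import Pool.Agent.Lib.MP_6e5bed_ag_GG.SG
import Pool.Agent.Lib.MP_6e5bed_ag_GG.IC

set_option autoImplicit false

/-!
# MP_6e5bed_ag, THEOREM W: finitely many sections are contained in a coherent subsheaf
-/

noncomputable section

namespace Pool.Agent.MP_6e5bed_ag_WW

open Pool.Agent.MP_6e5bed_ag_GG
open scoped TensorProduct

universe u

variable {k : Type u} [Field k] {i j : Type} [Fintype i] [Fintype j] {A : CA k i} {A' : CA k j}

/-! ### Sheaves on the pairs of charts -/

/-- the image of a coherent sheaf is coherent -/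
theorem coh_range {S : Site k} {E F : Sh S} (h : E.Coh) (f : ShH E F) : f.range.sh.Coh :=
  h.of_surj (f.codRestr f.range (fun _ x => ⟨x, rfl⟩)) (fun _ x => by
    obtain ⟨x, y, rfl⟩ := x
    exact ⟨y, rfl⟩)

/-- Finitely many sections are contained in a coherent subsheaf. -/
theorem exists_sub_coh_ob (E : Sh (ob k i j)) (T : ∀ p : Ch i × Ch j, Finset (E.E p)) :
    ∃ N : Sub E, N.sh.Coh ∧ ∀ p, ∀ x ∈ T p, x ∈ N.N p := by
  classical
  let I : Type u := Σ p : Ch i × Ch j, {x // x ∈ T p}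
  have hI : Finite I := inferInstance
  have h1 : ∀ q : I, ∃ (c : i) (hc : c ∈ q.1.1.1) (c' : j) (hc' : c' ∈ q.1.2.1)
      (r : (ob k i j).B q.1) (y : E.E (U c c')), q.2.1 = r • E.res (U_le hc hc') y := by
    rintro ⟨p, x, hx⟩
    obtain ⟨c, hc⟩ := p.1.2.1
    obtain ⟨c', hc'⟩ := p.2.2.1
    obtain ⟨r, y, h⟩ := gen_all E p hc hc' x
    exact ⟨c, hc, c', hc', r, y, h⟩
  choose c hc c' hc' r y hy using h1
  have h2 : ∀ q : I, ∃ b0 : ℕ, ∀ b, b0 ≤ b → ∃ s : ∀ (c : i) (c' : j), E.E (U c c'),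
      Sys E b s ∧ s (c q) (c' q) = y q := fun q => sys_ex E (c q) (c' q) (y q)
  choose b0 hb0 using h2
  have : Fintype I := Fintype.ofFinite I
  let b : ℕ := Finset.univ.sup b0
  have h3 : ∀ q : I, ∃ s : ∀ (c : i) (c' : j), E.E (U c c'),
      Sys E b s ∧ s (c q) (c' q) = y q := fun q =>
    hb0 q b (Finset.le_sup (Finset.mem_univ q))
  choose s hs hsy using h3
  let n : ℕ := Fintype.card I
  let e : Fin n ≃ I := (Fintype.equivFin I).symm
  let f : ShH ((O2 k i j (-b) (-b)).pow n) E := ShH.sum fun m => (hs (e m)).hom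
  refine ⟨f.range, coh_range ((O2_coh _ _).pow n) f, fun p x hx => ?_⟩
  let q : I := ⟨p, x, hx⟩
  obtain ⟨w, hw⟩ := (hs q).hom_mem (c q) (c' q)
  rw [hsy q] at hw
  have h6 := ShH.sum_mem (fun m => (hs (e m)).hom) (e.symm q) (p := U (c q) (c' q)) w
  rw [Equiv.apply_symm_apply, hw] at h6
  have h7 : y q ∈ f.range.N (U (c q) (c' q)) := h6
  have h8 := f.range.mono (U_le (hc q) (hc' q)) h7
  have h9 : x = r q • E.res (U_le (hc q) (hc' q)) (y q) := hy q
  rw [h9]
  exact Submodule.smul_mem _ _ h8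

/-! ### The algebras of the site of bisheaves -/

/-- the functions on the second space -/
theorem ro_comm (p : Ch i × Ch j) (f : RR k p.2.1) (x : (bs A A').B p) :
    ro A A' p (MulOpposite.op (algebraMap (RR k p.2.1) (A'.A p.2) f)) * x =
      x * ro A A' p (MulOpposite.op (algebraMap (RR k p.2.1) (A'.A p.2) f)) := by
  have h1 : ∀ b : (A'.A p.2)ᵐᵒᵖ, MulOpposite.op (algebraMap (RR k p.2.1) (A'.A p.2) f) * b =
      b * MulOpposite.op (algebraMap (RR k p.2.1) (A'.A p.2) f) := by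
    intro b
    refine MulOpposite.unop_injective ?_
    rw [MulOpposite.unop_mul, MulOpposite.unop_mul, MulOpposite.unop_op, Algebra.commutes]
  induction x using bs_induction with
  | h0 => rw [mul_zero, zero_mul]
  | h1 a b =>
    rw [← mul_assoc, ro_mul_lo, mul_assoc, ← map_mul, h1, map_mul, ← mul_assoc]
  | h2 x y hx hy => rw [mul_add, add_mul, hx, hy]

/-- the elements which are inverted come from the `R_c ⊗ R_{c'}` -/
theorem bsLoc_ob {p q : Ch i × Ch j} {t : (bs A A').B p} (h : (bs A A').Loc p q t) :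
    ∃ t0 : obB k p, (ob k i j).Loc p q t0 ∧ t = rB A A' p t0 := by
  obtain ⟨h0, ⟨l, g, hg, h2, h3, rfl⟩ | ⟨l, g, hg, h2, h3, rfl⟩⟩ := h
  · refine ⟨t1 k p l hg, ⟨h0, Or.inl ⟨l, g, hg, h2, h3, rfl⟩⟩, ?_⟩
    unfold t1
    rw [rB_tmul, map_one, MulOpposite.op_one]
  · refine ⟨t2 k p l hg, ⟨h0, Or.inr ⟨l, g, hg, h2, h3, rfl⟩⟩, ?_⟩
    unfold t2
    rw [rB_tmul, map_one]

/-- the restriction of an inverted element is central -/
theorem bsLoc_comm {p q : Ch i × Ch j} {t : (bs A A').B p} (h : (bs A A').Loc p q t)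
    (b : (bs A A').B q) : (bs A A').r ((bs A A').le h) t * b = b * (bs A A').r ((bs A A').le h) t := by
  obtain ⟨h0, ⟨l, g, hg, h2, h3, rfl⟩ | ⟨l, g, hg, h2, h3, rfl⟩⟩ := h
  · exact (congrArg (· * b) (cl1_r A A' h0 (tt k l hg))).trans
      ((cl1_comm A A' q _ b).trans (congrArg (b * ·) (cl1_r A A' h0 (tt k l hg)).symm))
  · have e : (bs A A').r h0 (ro A A' p (MulOpposite.op
        (algebraMap (RR k p.2.1) (A'.A p.2) (tt k l hg)))) =
        ro A A' q (MulOpposite.op (algebraMap (RR k q.2.1) (A'.A q.2) (tt k l (h0.2 hg)))) := by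
      rw [ro_r, MulOpposite.unop_op, A'.res_R]
      rfl
    exact (congrArg (· * b) e).trans ((ro_comm q _ b).trans (congrArg (b * ·) e.symm))

theorem pow_comm' {R : Type*} [Ring R] {t : R} (h : ∀ b, t * b = b * t) (n : ℕ) (b : R) :
    t ^ n * b = b * t ^ n := by
  have h1 : Commute t b := h b
  exact h1.pow_left n

/-- The algebra `B q` is the localisation of `B p`. -/
theorem bs_surj {p q : Ch i × Ch j} {t : (bs A A').B p} (h : (bs A A').Loc p q t)
    (b : (bs A A').B q) : ∃ (n : ℕ) (b' : (bs A A').B p),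
      (bs A A').r ((bs A A').le h) b' = (bs A A').r ((bs A A').le h) t ^ n * b := by
  have hc := bsLoc_comm h
  induction b using bs_induction with
  | h0 => exact ⟨0, 0, by rw [map_zero, mul_zero]⟩
  | h1 a b =>
    obtain ⟨h0, ⟨l, g, hg, h2, h3, rfl⟩ | ⟨l, g, hg, h2, h3, rfl⟩⟩ := h
    · obtain ⟨n, a', ha'⟩ := A.surj h0.1 hg l h2 a
      refine ⟨n, lo A A' p a' * ro A A' p (MulOpposite.op (A'.res h3 b.unop)), ?_⟩
      have e1 : (bs A A').r h0 (lo A A' p a' *
          ro A A' p (MulOpposite.op (A'.res h3 b.unop))) =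
          cl1 A A' q (tt k l (h0.1 hg)) ^ n * (lo A A' q a * ro A A' q b) := by
        rw [map_mul, lo_r, ro_r, MulOpposite.unop_op, A'.res_res, A'.res_id,
          MulOpposite.op_unop, ha', Algebra.smul_def, map_mul, ← mul_assoc, ← cl1_pow]
        rfl
      exact e1.trans (congrArg (fun z => z ^ n * (lo A A' q a * ro A A' q b))
        (cl1_r A A' h0 (tt k l hg)).symm)
    · obtain ⟨n, a', ha'⟩ := A'.surj h0.2 hg l h2 b.unop
      refine ⟨n, lo A A' p (A.res h3 a) * ro A A' p (MulOpposite.op a'), ?_⟩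
      have e : (bs A A').r h0 (ro A A' p (MulOpposite.op
          (algebraMap (RR k p.2.1) (A'.A p.2) (tt k l hg)))) =
          ro A A' q (MulOpposite.op (algebraMap (RR k q.2.1) (A'.A q.2) (tt k l (h0.2 hg)))) := by
        rw [ro_r, MulOpposite.unop_op, A'.res_R]
        rfl
      have e1 : (bs A A').r h0 (lo A A' p (A.res h3 a) * ro A A' p (MulOpposite.op a')) =
          ro A A' q (MulOpposite.op (algebraMap (RR k q.2.1) (A'.A q.2) (tt k l (h0.2 hg)))) ^ n *
            (lo A A' q a * ro A A' q b) := by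
        rw [map_mul, lo_r, ro_r, MulOpposite.unop_op, A.res_res, A.res_id, ha',
          Algebra.smul_def, ← map_pow, ← mul_assoc (ro A A' q _), ro_mul_lo, mul_assoc,
          ← map_mul]
        congr 2
        refine MulOpposite.unop_injective ?_
        rw [MulOpposite.unop_mul, MulOpposite.unop_pow, MulOpposite.unop_op,
          MulOpposite.unop_op, ← map_pow, ← Algebra.commutes]
      exact e1.trans (congrArg (fun z => z ^ n * (lo A A' q a * ro A A' q b)) e.symm)
  | h2 x y hx hy =>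
    obtain ⟨n1, b1, h1⟩ := hx
    obtain ⟨n2, b2, h2⟩ := hy
    refine ⟨n1 + n2, t ^ n2 * b1 + t ^ n1 * b2, ?_⟩
    rw [map_add, map_mul, map_mul, h1, h2, map_pow, map_pow, mul_add, ← mul_assoc, ← mul_assoc,
      ← pow_add, ← pow_add, Nat.add_comm n2 n1]

/-! ### The subsheaf generated by a subsheaf over the `R_c ⊗ R_{c'}` -/

theorem toOb_smul (Z : BS A A') {p : Ch i × Ch j} (r : (ob k i j).B p) (x : (toOb Z).E p) :
    (r • x : (toOb Z).E p) = ((rB A A' p r : (bs A A').B p) • (show Z.E p from x) : Z.E p) := rfl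

theorem toOb_pow_smul (Z : BS A A') {p q : Ch i × Ch j} (h : p ≤ q) (t0 : obB k p) (n : ℕ)
    (x : (toOb Z).E q) :
    ((ob k i j).r h t0 ^ n • x : (toOb Z).E q) =
      ((bs A A').r h (rB A A' p t0) ^ n • (show Z.E q from x) : Z.E q) := by
  refine (toOb_smul Z _ x).trans ?_
  have e : (rB A A' q ((ob k i j).r h t0 ^ n) : bsB A A' q) =
      (bs A A').r h (rB A A' p t0) ^ n :=
    (map_pow (rB A A' q) (obr k h t0) n).trans (congrArg (· ^ n) (bsr_rB h t0).symm)
  exact congrArg (fun z : (bs A A').B q => (z • (show Z.E q from x) : Z.E q)) e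

/-- the generated submodules -/
def spn (Z : BS A A') (N0 : Sub (toOb Z)) (p : Ch i × Ch j) :
    Submodule ((bs A A').B p) (Z.E p) :=
  Submodule.span ((bs A A').B p) {x : Z.E p | x ∈ N0.N p}

theorem spn_mono (Z : BS A A') (N0 : Sub (toOb Z)) {p q : Ch i × Ch j} (h : p ≤ q) {x : Z.E p}
    (hx : x ∈ spn Z N0 p) : Z.res h x ∈ spn Z N0 q := by
  unfold spn at hx
  induction hx using Submodule.span_induction with
  | mem x hx => exact Submodule.subset_span (N0.mono h hx)
  | zero =>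
    rw [map_zero]
    exact Submodule.zero_mem _
  | add x y _ _ hx hy =>
    rw [map_add]
    exact Submodule.add_mem _ hx hy
  | smul b x _ hx =>
    rw [Z.res_smul]
    exact Submodule.smul_mem _ _ hx

theorem spn_surj (Z : BS A A') (N0 : Sub (toOb Z)) {p q : Ch i × Ch j} {t : (bs A A').B p}
    (h : (bs A A').Loc p q t) {y : Z.E q} (hy : y ∈ spn Z N0 q) :
    ∃ (n : ℕ) (x : Z.E p), x ∈ spn Z N0 p ∧
      Z.res ((bs A A').le h) x = (bs A A').r ((bs A A').le h) t ^ n • y := by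
  have hc := bsLoc_comm h
  unfold spn at hy
  induction hy using Submodule.span_induction with
  | mem y hy =>
    obtain ⟨t0, h0, rfl⟩ := bsLoc_ob h
    obtain ⟨n, x, hx⟩ := N0.sh.surj h0 ⟨y, hy⟩
    refine ⟨n, x.1, Submodule.subset_span x.2, ?_⟩
    have h1 := congrArg (fun z : N0.sh.E q => z.1) hx
    exact h1.trans (toOb_pow_smul Z ((ob k i j).le h0) t0 n y)
  | zero => exact ⟨0, 0, Submodule.zero_mem _, by rw [map_zero, smul_zero]⟩
  | add x y _ _ hx hy =>
    obtain ⟨n1, x1, h1, h2⟩ := hx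
    obtain ⟨n2, x2, h3, h4⟩ := hy
    refine ⟨n1 + n2, t ^ n2 • x1 + t ^ n1 • x2, Submodule.add_mem _
      (Submodule.smul_mem _ _ h1) (Submodule.smul_mem _ _ h3), ?_⟩
    rw [map_add, Z.res_smul, Z.res_smul, h2, h4, map_pow, map_pow, smul_add, ← mul_smul,
      ← mul_smul, ← pow_add, ← pow_add, Nat.add_comm n2 n1]
  | smul b y _ hy =>
    obtain ⟨n1, x1, h1, h2⟩ := hy
    obtain ⟨n2, b', h3⟩ := bs_surj h b
    refine ⟨n2 + n1, b' • x1, Submodule.smul_mem _ _ h1, ?_⟩
    rw [Z.res_smul, h2, h3, ← mul_smul, ← mul_smul, mul_assoc, pow_add, mul_assoc,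
      ← pow_comm' hc n1 b]

/-- The subsheaf generated by a subsheaf over the `R_c ⊗ R_{c'}`. -/
def spnSub (Z : BS A A') (N0 : Sub (toOb Z)) : Sub Z where
  N := fun p => spn Z N0 p
  mono := fun h x hx => spn_mono Z N0 h hx
  sat := fun {p q t} h x hx => by
    obtain ⟨n, y, hy, h1⟩ := spn_surj Z N0 h hx
    have h2 : Z.res ((bs A A').le h) (t ^ n • x - y) = 0 := by
      rw [map_sub, Z.res_pow, h1, sub_self]
    obtain ⟨m, hm⟩ := Z.inj h _ h2
    rw [smul_sub, sub_eq_zero, ← mul_smul, ← pow_add] at hm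
    exact ⟨m + n, by rw [hm]; exact Submodule.smul_mem _ _ hy⟩

theorem mem_spnSub {Z : BS A A'} {N0 : Sub (toOb Z)} {p : Ch i × Ch j} {x : Z.E p}
    (hx : x ∈ N0.N p) : x ∈ (spnSub Z N0).N p := Submodule.subset_span hx

theorem spn_fg (Z : BS A A') (N0 : Sub (toOb Z)) (p : Ch i × Ch j)
    (h : Module.Finite ((ob k i j).B p) (N0.sh.E p)) : (spn Z N0 p).FG := by
  obtain ⟨n, a, ha⟩ := (Submodule.fg_iff_exists_fin_generating_family).1 h.fg_top
  refine Submodule.fg_def.2 ⟨Set.range (fun l => (show Z.E p from (a l).1)), Set.finite_range _, ?_⟩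
  refine le_antisymm (Submodule.span_le.2 ?_) (Submodule.span_le.2 ?_)
  · rintro _ ⟨l, rfl⟩
    exact Submodule.subset_span (a l).2
  · intro x hx
    have h1 : (show N0.sh.E p from ⟨x, hx⟩) ∈
        Submodule.span ((ob k i j).B p) (Set.range a) := by
      rw [ha]
      exact Submodule.mem_top
    obtain ⟨c, hc⟩ := (Submodule.mem_span_range_iff_exists_fun _).1 h1
    have h2 : x = ∑ l, ((rB A A' p (c l) : (bs A A').B p) • (show Z.E p from (a l).1) : Z.E p) := by
      have h3 := congrArg (fun z : N0.sh.E p => z.1) hc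
      refine h3.symm.trans ?_
      exact map_sum (N0.incl.f p) (fun l => (c l • a l : N0.sh.E p)) Finset.univ
    rw [h2]
    exact Submodule.sum_mem _ fun l _ => Submodule.smul_mem _ _ (Submodule.subset_span ⟨l, rfl⟩)

/-- Finitely many sections are contained in a coherent subsheaf. -/
theorem exists_sub_coh (Z : BS A A') (T : ∀ p : Ch i × Ch j, Finset (Z.E p)) :
    ∃ N : Sub Z, N.sh.Coh ∧ ∀ p, ∀ x ∈ T p, x ∈ N.N p := by
  obtain ⟨N0, h0, h1⟩ := exists_sub_coh_ob (toOb Z) T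
  exact ⟨spnSub Z N0, fun p => Module.Finite.iff_fg.2 (spn_fg Z N0 p (h0 p)),
    fun p x hx => mem_spnSub (h1 p x hx)⟩

end Pool.Agent.MP_6e5bed_ag_WW
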