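import Pool.Agent.Lib.MP_6e5bed_ag_GG.Cb
import Pool.Agent.Lib.MP_6e5bed_ag_CV.FCRes
import Mathlib.RingTheory.SimpleModule.InjectiveProjective

set_option autoImplicit false
set_option linter.unusedVariables false

/-!
# MP_6e5bed_ag, THEOREM W, (HR): bimodules over a semisimple ring and a smooth dg algebra with
finitely generated cohomology have perfect resolutions
-/

noncomputable section

namespace Pool.Agent.MP_6e5bed_ag_WW

open Pool.Agent.MP_6e5bed_ag_NC Pool.Agent.MP_6e5bed_ag_GG
open Pool.Agent.MP_6e5bed_ag_PN hiding Ch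
open Pool.Agent.MP_6e5bed_ag_NS (Cx CHom conc_map)
open scoped TensorProduct

universe u

variable {k : Type u} [Field k] {S : Type u} [Ring S] [Algebra k S] {W : DGA k}

/-! ### The left module of a bimodule -/

/-- the action of `S` -/
def lca (M : Bim (ring k S) W) : CAct S (bcx M) where
  φ := AlgHom.ofLinearMap M.l (LinearMap.ext M.l_one) (fun a b => LinearMap.ext (M.l_mul a b))
  deg := fun {n} a x hx => by
    have h1 := M.l_deg (a := a) (Dg.conc_deg (k := k) a) hx
    rw [zero_add] at h1
    exact h1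
  d := fun a x => by
    refine (M.d_l a x).trans ?_
    have h1 : (ring k S).dg.d a = 0 := rfl
    have h2 : (ring k S).dg.s a = a := ring_s a
    rw [h1, h2, map_zero, LinearMap.zero_apply, zero_add]
    rfl

theorem lca_smul (M : Bim (ring k S) W) (a : S) (x : (lca M).Md) : a • x = (M.l a x : M.M) := rfl

theorem lring_d (M : Bim (ring k S) W) (a : S) (x : M.M) : M.dg.d (M.l a x) = M.l a (M.dg.d x) :=
  (lca M).d a x

theorem lring_deg (M : Bim (ring k S) W) (a : S) {n : ℤ} {x : M.M} (h : M.dg.IsDeg n x) :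
    M.dg.IsDeg n (M.l a x) := (lca M).deg a h

theorem lring_ρ (M : Bim (ring k S) W) (a : S) (x : M.M) (n : ℤ) :
    M.dg.ρ (M.l a x) n = M.l a (M.dg.ρ x n) :=
  ρ_hom (X := bcx M) (Y := bcx M) ⟨M.l a, (lca M).deg a, (lca M).d a⟩ x n

/-- the differential -/
def dS (M : Bim (ring k S) W) : (lca M).Md →ₗ[S] (lca M).Md where
  toFun := fun x => M.dg.d x
  map_add' := fun x y => map_add M.dg.d x y
  map_smul' := fun a x => lring_d M a x

/-! ### Acyclic complexes over semisimple rings -/

theorem exists_pinvS [IsSemisimpleRing S] {V : Type u} [AddCommGroup V] [Module S V]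
    (f : V →ₗ[S] V) : ∃ g : V →ₗ[S] V, ∀ v, f (g (f v)) = f v := by
  obtain ⟨s, hs⟩ := IsSemisimpleModule.lifting_property f.rangeRestrict
    (LinearMap.surjective_rangeRestrict f) LinearMap.id
  obtain ⟨g, hg⟩ := IsSemisimpleModule.extension_property (LinearMap.range f).subtype
    (Submodule.injective_subtype _) s
  refine ⟨g, fun v => ?_⟩
  have h1 : g (f v) = s (f.rangeRestrict v) := LinearMap.congr_fun hg (f.rangeRestrict v)
  have h2 : f.rangeRestrict (s (f.rangeRestrict v)) = f.rangeRestrict v :=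
    LinearMap.congr_fun hs (f.rangeRestrict v)
  rw [h1]
  exact congrArg Subtype.val h2

theorem ring_sp_one (n : ℤ) (a : S) : (ring k S).dg.sp n a = a := ring_sp n a

/-- Over a semisimple ring acyclic complexes are contractible. -/
theorem contr_of_acycS [IsSemisimpleRing S] {M : Bim (ring k S) (base k)} (h : Acyc M) :
    Contr M := by
  obtain ⟨g, hg⟩ := exists_pinvS (dS M)
  let g0 : M.M →ₗ[k] M.M := (g.restrictScalars k : (lca M).Md →ₗ[k] (lca M).Md)
  have hg0 : ∀ x : M.M, M.dg.d (g0 (M.dg.d x)) = M.dg.d x := fun x => hg x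
  have hgl : ∀ (a : S) (x : M.M), g0 (M.l a x) = M.l a (g0 x) := fun a x => g.map_smul a x
  obtain ⟨e, hdeg, he⟩ := exists_comp M.dg M.dg g0 (-1)
  have hel : ∀ (a : S) (x : M.M), e (M.l a x) = M.l a (e x) := by
    intro a
    have h1 : e.comp (M.l a) = (M.l a : M.M →ₗ[k] M.M).comp e := M.dg.hom_ext (fun n x hx => by
      rw [LinearMap.comp_apply, LinearMap.comp_apply, he n x hx, he n _ (lring_deg M a hx), hgl,
        lring_ρ])
    exact fun x => LinearMap.congr_fun h1 x
  have hded : ∀ v, M.dg.d (e (M.dg.d v)) = M.dg.d v := by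
    have h1 : M.dg.d.comp (e.comp M.dg.d) = M.dg.d := M.dg.hom_ext (fun i v hv => by
      rw [LinearMap.comp_apply, LinearMap.comp_apply, he _ _ hv.d, add_neg_cancel_right,
        ← M.dg.ρ_d, hg0]
      have h2 : M.dg.ρ (M.dg.d v) = Finsupp.single (i + 1) (M.dg.d v) := hv.d
      rw [h2, Finsupp.single_eq_same])
    exact fun v => LinearMap.congr_fun h1 v
  have hcl : ∀ x, M.dg.d x = 0 → M.dg.d (e x) = x := by
    intro x hx
    obtain ⟨y, rfl⟩ := h x hx
    exact hded y
  have hall : ∀ x, M.dg.d (e x) - M.dg.d (e (e (M.dg.d x))) + e (M.dg.d x) = x := by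
    intro x
    have h1 : M.dg.d (x - e (M.dg.d x)) = 0 := by
      rw [map_sub, hded, sub_self]
    have h2 := hcl _ h1
    rw [map_sub, map_sub] at h2
    rw [h2, sub_add_cancel]
  refine ⟨⟨e - e.comp (e.comp M.dg.d), ?_, ?_, ?_⟩, ?_⟩
  · intro i m hm
    have h1 := hdeg (hdeg hm.d)
    rw [add_neg_cancel_right] at h1
    exact (hdeg hm).sub h1
  · intro a m
    rw [ring_sp_one]
    change e (M.l a m) - e (e (M.dg.d (M.l a m))) = M.l a (e m - e (e (M.dg.d m)))
    rw [lring_d, hel, hel, hel, map_sub]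
  · intro b m
    have h2 : M.r b m = (show k from b) • m := base_r (k := k) M b m
    rw [h2]
    exact (LinearMap.map_smul _ _ _).trans (base_r (k := k) M b _).symm
  · ext x
    rw [GMap.dd_apply, sg_odd (by decide), neg_smul, one_smul, sub_neg_eq_add,
      LinearMap.id_apply]
    change M.dg.d (e x - e (e (M.dg.d x))) +
      (e (M.dg.d x) - e (e (M.dg.d (M.dg.d x)))) = x
    rw [M.dg.d_d, map_zero, map_zero, sub_zero, map_sub]
    exact hall x

/-! ### Modules in one degree -/

section lmod

variable (k S) in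
/-- a module in degree zero -/
def lmod (V : Type u) [AddCommGroup V] [Module k V] [Module S V] [IsScalarTower k S V] :
    Bim (ring k S) (base k) where
  M := V
  dg := Dg.conc k V
  l := ((Algebra.lsmul k k V : S →ₐ[k] Module.End k V).toLinearMap : S →ₗ[k] V →ₗ[k] V)
  r := (LinearMap.lsmul k V : k →ₗ[k] V →ₗ[k] V)
  l_one := fun m => one_smul S m
  r_one := fun m => one_smul k m
  l_mul := fun a a' m => mul_smul (show S from a) (show S from a') m
  r_mul := fun b b' m => by
    change ((show k from b) * (show k from b')) • m = (show k from b') • (show k from b) • m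
    rw [mul_comm, mul_smul]
  l_r := fun a b m => smul_algebra_smul_comm (show k from b) (show S from a) m
  l_deg := Dg.conc_bil _
  r_deg := fun {i j b m} hm hb => by
    rcases base_deg_cases hb with rfl | rfl
    · rw [add_zero]
      exact hm.smul _
    · have h1 : (LinearMap.lsmul k V : k →ₗ[k] V →ₗ[k] V) 0 m = 0 := by
        rw [map_zero, LinearMap.zero_apply]
      exact (congrArg ((Dg.conc k V).IsDeg (i + j)) h1).mpr (Dg.IsDeg.zero _)
  d_l := fun a m => by
    have h1 : ∀ v : V, (Dg.conc k V).d v = 0 := fun v => rfl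
    have h2 : (ring k S).dg.d a = 0 := rfl
    rw [h1, h1, h2, map_zero, map_zero, LinearMap.zero_apply, add_zero]
  d_r := fun b m => by
    have h1 : ∀ v : V, (Dg.conc k V).d v = 0 := fun v => rfl
    have h2 : (base k).dg.d b = 0 := rfl
    rw [h1, h1, h2, map_zero, map_zero, LinearMap.zero_apply, add_zero]

variable {V V' : Type u} [AddCommGroup V] [Module k V] [Module S V] [IsScalarTower k S V]
  [AddCommGroup V'] [Module k V'] [Module S V'] [IsScalarTower k S V']

/-- linear maps -/
def lmodH (f : V →ₗ[S] V') : GMap 0 (lmod k S V) (lmod k S V') where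
  f := (f.restrictScalars k : V →ₗ[k] V')
  deg := fun {i v} hv => by
    rw [add_zero]
    exact conc_map (f.restrictScalars k) hv
  map_l := fun a m => by
    rw [ring_sp_one]
    exact f.map_smul a m
  map_r := fun b m => (f.restrictScalars k).map_smul (b : k) m

theorem lmodH_dd (f : V →ₗ[S] V') : (lmodH (k := k) f).dd = 0 := LinearMap.ext fun x => by
  rw [GMap.dd_apply, sg_zero, one_smul, LinearMap.zero_apply, sub_eq_zero]
  exact (map_zero (f.restrictScalars k)).symm

theorem lmod_summand (f : V →ₗ[S] V') (g : V' →ₗ[S] V) (h : ∀ x, g (f x) = x) :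
    IsSummand (lmod k S V) (lmod k S V') :=
  ⟨lmodH f, lmodH g, lmodH_dd f, lmodH_dd g, h⟩

end lmod

/-! ### The free module of rank one -/

variable (k S) in
/-- `S ⊗ k → S` -/
def freeM : GMap 0 (free (ring k S) (base k)) (lmod k S S) where
  f := ((TensorProduct.rid k S).toLinearMap : S ⊗[k] k →ₗ[k] S)
  deg := fun {i x} hx => by
    refine Dg.tensor_degMap (X := (ring k S).dg) (Y := (base k).dg) (Z := Dg.conc k S)
      ((TensorProduct.rid k S).toLinearMap : S ⊗[k] k →ₗ[k] S) (fun i j v w hv hw => ?_) hx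
    rcases base_deg_cases hw with rfl | rfl
    · rw [add_zero, add_zero]
      exact Dg.IsDeg.smul (k := k) w hv
    · have h1 : ∀ v : S, ((TensorProduct.rid k S).toLinearMap : S ⊗[k] k →ₗ[k] S)
          (v ⊗ₜ[k] (0 : k)) = 0 := fun v => by
        rw [TensorProduct.tmul_zero, map_zero]
      exact (congrArg ((Dg.conc k S).IsDeg (i + j + 0)) (h1 v)).mpr (Dg.IsDeg.zero _)
  map_l := fun a x => by
    rw [ring_sp_one]
    have h1 : ∀ x : S ⊗[k] k, TensorProduct.rid k S (LinearMap.rTensor k
        (LinearMap.mul k S a) x) = (show S from a) • TensorProduct.rid k S x := by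
      intro x
      induction x using TensorProduct.induction_on with
      | zero => rw [map_zero, map_zero, smul_zero]
      | tmul v w =>
        rw [LinearMap.rTensor_tmul, TensorProduct.rid_tmul, TensorProduct.rid_tmul,
          LinearMap.mul_apply']
        exact (mul_smul_comm w (show S from a) v).symm
      | add x y hx hy => rw [map_add, map_add, map_add, smul_add, hx, hy]
    exact h1 x
  map_r := fun b x => by
    have h1 : ∀ x : S ⊗[k] k, TensorProduct.rid k S (LinearMap.lTensor S
        ((LinearMap.mul k k).flip b) x) = (show k from b) • TensorProduct.rid k S x := by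
      intro x
      induction x using TensorProduct.induction_on with
      | zero => rw [map_zero, map_zero, smul_zero]
      | tmul v w =>
        rw [LinearMap.lTensor_tmul, TensorProduct.rid_tmul, TensorProduct.rid_tmul,
          LinearMap.flip_apply, LinearMap.mul_apply', smul_smul, mul_comm]
      | add x y hx hy => rw [map_add, map_add, map_add, smul_add, hx, hy]
    exact h1 x

theorem free_d (x : (free (ring k S) (base k)).M) : (free (ring k S) (base k)).dg.d x = 0 := by
  have h : ∀ y : S ⊗[k] k, (ring k S).dg.td (base k).dg y = 0 := by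
    refine Dg.tind (ring k S).dg (base k).dg (map_zero _) (fun v w hv hw => ?_)
      (fun i j v w _ _ => ?_)
    · rw [map_add, hv, hw, add_zero]
    · rw [Dg.td_tmul]
      have h1 : (ring k S).dg.d v = 0 := rfl
      have h2 : (base k).dg.d w = 0 := base_d (k := k) w
      rw [h1, h2, TensorProduct.zero_tmul, TensorProduct.tmul_zero, add_zero]
  exact h x

variable (k S) in
theorem free_lmod : BIso (free (ring k S) (base k)) (lmod k S S) :=
  BIso.of_bij (freeM k S) (LinearMap.ext fun x => by
    rw [GMap.dd_apply, sg_zero, one_smul, LinearMap.zero_apply, free_d, map_zero, sub_zero]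
    rfl) (TensorProduct.rid k S).bijective

/-- left ideals generated by idempotents -/
theorem lmod_perf {e : S} (he : IsIdempotentElem e) :
    Perf (lmod k S (Ideal.span {e} : Ideal S)) := by
  let g : S →ₗ[S] (Ideal.span {e} : Ideal S) :=
    LinearMap.codRestrict _ (LinearMap.toSpanSingleton S S e)
      (fun x => Ideal.mem_span_singleton'.2 ⟨x, rfl⟩)
  have h1 : IsSummand (lmod k S (Ideal.span {e} : Ideal S)) (lmod k S S) :=
    lmod_summand (Submodule.subtype _) g (fun x => Subtype.ext (by
      obtain ⟨t, ht⟩ := Ideal.mem_span_singleton'.1 x.2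
      change x.1 * e = x.1
      rw [← ht, mul_assoc, he.eq]))
  exact Perf.summand h1 ((free_lmod k S).perf Perf.free)

/-! ### The map given by a cocycle -/

/-- `I[-m] → M`, `s ↦ s x` -/
def phiM {I : Ideal S} (M : Bim (ring k S) (base k)) {m : ℤ} {x : M.M} (hx : M.dg.IsDeg m x) :
    GMap 0 ((lmod k S I).shift (-m)) M where
  f := ({ toFun := fun v => M.l v.1 x
          map_add' := fun v w => LinearMap.map_add₂ M.l v.1 w.1 x
          map_smul' := fun c v => LinearMap.map_smul₂ M.l c v.1 x } : I →ₗ[k] M.M)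
  deg := fun {i v} hv => by
    rw [add_zero]
    rcases Dg.conc_cases ((Dg.shift_deg (X := Dg.conc k I)).1 hv) with h | h
    · have h1 : i = m := by omega
      rw [h1]
      exact lring_deg M _ hx
    · rw [h]
      change M.dg.IsDeg i (M.l (0 : (ring k S).A) x)
      rw [LinearMap.map_zero₂]
      exact Dg.IsDeg.zero _
  map_l := fun a v => by
    rw [ring_sp_one]
    have h1 : ((lmod k S I).shift (-m)).l a v = (show S from a) • (show I from v) :=
      congrArg (fun b : S => b • (show I from v)) (ring_sp_one (k := k) (S := S) (-m) a)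
    rw [h1]
    exact M.l_mul a (Subtype.val (p := fun s : S => s ∈ I) v) x
  map_r := fun b v => (LinearMap.map_smul₂ M.l (show k from b)
    (Subtype.val (p := fun s : S => s ∈ I) v) x).trans (base_r (k := k) M b _).symm

theorem phiM_f {I : Ideal S} (M : Bim (ring k S) (base k)) {m : ℤ} {x : M.M}
    (hx : M.dg.IsDeg m x) (v : I) : (phiM (I := I) M hx).f v = M.l v.1 x := rfl

theorem shift_lmod_d {V : Type u} [AddCommGroup V] [Module k V] [Module S V]
    [IsScalarTower k S V] (n : ℤ) (v : ((lmod k S V).shift n).M) :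
    ((lmod k S V).shift n).dg.d v = 0 :=
  (Dg.shift_d (X := (lmod k S V).dg) n v).trans (smul_zero _)

theorem phiM_dd {I : Ideal S} (M : Bim (ring k S) (base k)) {m : ℤ} {x : M.M}
    (hx : M.dg.IsDeg m x) (hd : M.dg.d x = 0) : (phiM (I := I) M hx).dd = 0 :=
  LinearMap.ext fun v => by
    rw [GMap.dd_apply, shift_lmod_d, map_zero, smul_zero, sub_zero, LinearMap.zero_apply,
      phiM_f, lring_d, hd, map_zero]

/-! ### Finitely generated cohomology -/

/-- the cohomology is generated by `n` homogeneous cocycles -/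
def GenH (n : ℕ) (M : Bim (ring k S) (base k)) : Prop :=
  ∃ (x : Fin n → M.M) (m : Fin n → ℤ), (∀ i, M.dg.IsDeg (m i) (x i)) ∧
    (∀ i, M.dg.d (x i) = 0) ∧ ∀ y, M.dg.d y = 0 → ∃ (r : Fin n → S) (w : M.M),
      y = ∑ i, M.l (r i) (x i) + M.dg.d w

/-- the elements which make a cocycle a boundary -/
def annI (M : Bim (ring k S) (base k)) (x : M.M) : Ideal S where
  carrier := {s | ∃ w, M.dg.d w = M.l s x}
  zero_mem' := ⟨0, by
    rw [map_zero]
    exact (LinearMap.map_zero₂ M.l x).symm⟩
  add_mem' := by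
    rintro a b ⟨w, hw⟩ ⟨v, hv⟩
    refine ⟨w + v, ?_⟩
    rw [map_add, hw, hv]
    exact (LinearMap.map_add₂ M.l a b x).symm
  smul_mem' := by
    rintro a b ⟨w, hw⟩
    refine ⟨M.l a w, ?_⟩
    rw [lring_d, hw]
    exact (M.l_mul a b x).symm

theorem perf_genH [IsSemisimpleRing S] (n : ℕ) : ∀ M : Bim (ring k S) (base k), GenH n M →
    Perf M := by
  induction n with
  | zero =>
    rintro M ⟨x, m, h1, h2, h3⟩
    refine Perf.contr (contr_of_acycS (fun y hy => ?_))
    obtain ⟨r, w, hw⟩ := h3 y hy
    refine ⟨w, ?_⟩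
    rw [hw, Finset.univ_eq_empty, Finset.sum_empty, zero_add]
  | succ n ih =>
    rintro M ⟨x, m, h1, h2, h3⟩
    obtain ⟨f, hf, hK⟩ := IsSemisimpleRing.ideal_eq_span_idempotent (annI M (x 0))
    have he : IsIdempotentElem (1 - f) := hf.one_sub
    have hfe : f * (1 - f) = 0 := by rw [mul_sub, mul_one, hf.eq, sub_self]
    let P : Bim (ring k S) (base k) := (lmod k S (Ideal.span {1 - f} : Ideal S)).shift (-(m 0))
    have hP : Perf P := (lmod_perf he).shift _
    let φ : GMap 0 P M := phiM M (h1 0)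
    have hφ : φ.dd = 0 := phiM_dd M (h1 0) (h2 0)
    have c1 : ∀ v : (Ideal.span {1 - f} : Ideal S), (∃ w, M.dg.d w = M.l v.1 (x 0)) →
        v = 0 := by
      intro v hv
      have h4 : v.1 ∈ annI M (x 0) := hv
      rw [hK, Ideal.mem_span_singleton'] at h4
      obtain ⟨t, ht⟩ := h4
      obtain ⟨t', ht'⟩ := Ideal.mem_span_singleton'.1 v.2
      refine Subtype.ext ?_
      have h5 : v.1 * (1 - f) = v.1 := by rw [← ht', mul_assoc, he.eq]
      change v.1 = 0
      rw [← h5, ← ht, mul_assoc, hfe, mul_zero]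
    have c2 : ∀ s : S, ∃ w, M.l s (x 0) = M.l (s * (1 - f)) (x 0) + M.dg.d w := by
      intro s
      have h4 : s * f ∈ annI M (x 0) := by
        rw [hK, Ideal.mem_span_singleton']
        exact ⟨s, rfl⟩
      obtain ⟨w, hw⟩ := h4
      refine ⟨w, ?_⟩
      rw [hw]
      have h5 : s = s * (1 - f) + s * f := by rw [← mul_add, sub_add_cancel, mul_one]
      conv_lhs => rw [h5]
      exact LinearMap.map_add₂ M.l _ _ _
    have hC : Perf (MP_6e5bed_ag_NC.cone φ hφ) := by
      refine ih _ ⟨fun i => (0, x i.succ), fun i => m i.succ,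
        fun i => cone_deg.2 ⟨Dg.IsDeg.zero _, h1 _⟩, fun i => ?_, fun y hy => ?_⟩
      · refine (cone_d (h := hφ) _ _).trans (Prod.ext ?_ ?_)
        · exact (congrArg Neg.neg (map_zero P.dg.d)).trans neg_zero
        · exact (congrArg₂ (· + ·) (map_zero φ.f) (h2 _)).trans (add_zero _)
      · obtain ⟨v, y⟩ := y
        have h4 := (cone_d (h := hφ) v y).symm.trans hy
        have h5 : φ.f v + M.dg.d y = 0 := congrArg Prod.snd h4
        have h6 : v = 0 := c1 v ⟨-y, by
          rw [map_neg]
          exact (eq_neg_of_add_eq_zero_left h5).symm⟩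
        have h9 : φ.f v = 0 := (congrArg φ.f h6).trans (map_zero φ.f)
        rw [h9, zero_add] at h5
        obtain ⟨r, w, hw⟩ := h3 y h5
        obtain ⟨w', hw'⟩ := c2 (r 0)
        refine ⟨fun i => r i.succ, ((⟨r 0 * (1 - f), Ideal.mem_span_singleton'.2 ⟨_, rfl⟩⟩ :
          (Ideal.span {1 - f} : Ideal S)), w' + w), ?_⟩
        have h7 : (MP_6e5bed_ag_NC.cone φ hφ).dg.d
          ((⟨r 0 * (1 - f), Ideal.mem_span_singleton'.2 ⟨_, rfl⟩⟩ :
          (Ideal.span {1 - f} : Ideal S)), w' + w) =
            ((0 : (Ideal.span {1 - f} : Ideal S)), M.l (r 0 * (1 - f)) (x 0) +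
              M.dg.d (w' + w)) := by
          refine (cone_d (h := hφ) _ _).trans ?_
          refine Prod.ext ?_ rfl
          refine (congrArg Neg.neg (shift_lmod_d _ _)).trans neg_zero
        have h8 : ∀ s : Finset (Fin n), ∑ i ∈ s, (MP_6e5bed_ag_NC.cone φ hφ).l (r i.succ)
            ((0 : P.M), x i.succ) = ((0 : P.M), ∑ i ∈ s, M.l (r i.succ) (x i.succ)) := by
          classical
          intro s
          induction s using Finset.induction_on with
          | empty => rfl
          | insert i s hi ihs =>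
            rw [Finset.sum_insert hi, Finset.sum_insert hi, ihs]
            refine Prod.ext ?_ rfl
            change (P.shift 1).l (r i.succ) 0 + 0 = 0
            rw [map_zero, add_zero]
        refine Eq.trans ?_ (congrArg₂ (· + ·) (h8 Finset.univ).symm h7.symm)
        refine Prod.ext ?_ ?_
        · change v = 0 + 0
          rw [h6, add_zero]
        · change y = ∑ i : Fin n, M.l (r i.succ) (x i.succ) + (M.l (r 0 * (1 - f)) (x 0) +
            M.dg.d (w' + w))
          rw [hw, Fin.sum_univ_succ, hw', map_add]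
          abel
    exact Perf.left (isCone_cone φ hφ).isExt hC (hP.shift 1)

/-- ungraded generators -/
theorem genH_of_gen {M : Bim (ring k S) (base k)} {n : ℕ} (s : Fin n → M.M)
    (hs : ∀ i, M.dg.d (s i) = 0) (h : ∀ y, M.dg.d y = 0 → ∃ (r : Fin n → S) (w : M.M),
      y = ∑ i, M.l (r i) (s i) + M.dg.d w) : ∃ N, GenH N M := by
  classical
  let ι := Σ i : Fin n, {l : ℤ // l ∈ (M.dg.ρ (s i)).support}
  let e : Fin (Fintype.card ι) ≃ ι := (Fintype.equivFin ι).symm
  refine ⟨Fintype.card ι, fun a => M.dg.ρ (s (e a).1) (e a).2.1, fun a => (e a).2.1,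
    fun a => Dg.isDeg_ρ _ _, fun a => ?_, fun y hy => ?_⟩
  · rw [← M.dg.ρ_d, hs, map_zero, Finsupp.zero_apply]
  · obtain ⟨r, w, hw⟩ := h y hy
    refine ⟨fun a => r (e a).1, w, ?_⟩
    rw [hw]
    congr 1
    rw [Equiv.sum_comp e (fun a : ι => M.l (r a.1) (M.dg.ρ (s a.1) a.2.1)), Fintype.sum_sigma]
    refine Finset.sum_congr rfl (fun i _ => ?_)
    have h1 : s i = ∑ l ∈ (M.dg.ρ (s i)).support, M.dg.ρ (s i) l := (M.dg.sum_ρ (s i)).symm
    conv_lhs => rw [h1]
    rw [map_sum, ← Finset.sum_coe_sort]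

theorem perf_of_gen [IsSemisimpleRing S] {M : Bim (ring k S) (base k)} {n : ℕ}
    (s : Fin n → M.M) (hs : ∀ i, M.dg.d (s i) = 0)
    (h : ∀ y, M.dg.d y = 0 → ∃ (r : Fin n → S) (w : M.M),
      y = ∑ i, M.l (r i) (s i) + M.dg.d w) : Perf M := by
  obtain ⟨N, hN⟩ := genH_of_gen s hs h
  exact perf_genH N M hN

/-- (HR) Bimodules over a semisimple ring and a smooth dg algebra whose cohomology is finitely
generated over the ring have perfect resolutions. -/
theorem hasRes_of_gen [IsSemisimpleRing S] {T : DGA k} (hT : Smooth T) (M : Bim (ring k S) T)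
    {n : ℕ} (s : Fin n → M.M) (hs : ∀ i, M.dg.d (s i) = 0)
    (h : ∀ y, M.dg.d y = 0 → ∃ (r : Fin n → S) (w : M.M),
      y = ∑ i, M.l (r i) (s i) + M.dg.d w) : HasRes M := by
  obtain ⟨R, ψ, hR, hψ⟩ := (smooth_iff T).1 hT
  obtain ⟨g, hg⟩ := qiso_tbL_diag hR hψ M
  have h1 : Perf (fgR M) := perf_of_gen (M := fgR M) s hs h
  have h2 : Perf (tb (fgR M) (free (base k) T)) :=
    (MP_6e5bed_ag_NC.tbR (ring k S) (free (base k) T)).perf
      ((tb_free_free (ring k S) T).symm.perf Perf.free) h1
  have h3 : Perf (tb M (free T T)) := (tb_free_right M T).symm.perf h2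
  exact ⟨MP_6e5bed_ag_NC.tb M R, g, (MP_6e5bed_ag_NC.tbL M T).perf h3 hR, hg⟩

end Pool.Agent.MP_6e5bed_ag_WW
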