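import Pool.Agent.Lib.MP_6e5bed_ag_GG.DgL
import Pool.Agent.Lib.MP_6e5bed_ag_GG.SL
import Pool.Agent.Lib.MP_6e5bed_ag_GG.CLoc
import Pool.Agent.Lib.MP_6e5bed_ag_PN.Two2

set_option autoImplicit false
set_option linter.unusedVariables false

/-!
# MP_6e5bed_ag, THEOREM W, (6.1): the presheaf of the Čech algebras is quasi-coherent and its
cohomology is finitely generated
-/

noncomputable section

namespace Pool.Agent.MP_6e5bed_ag_WW

open Pool.Agent.MP_6e5bed_ag_NC Pool.Agent.MP_6e5bed_ag_GG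
open Pool.Agent.MP_6e5bed_ag_PN hiding Ch
open Pool.Agent.MP_6e5bed_ag_NS (Cx CHom ringH)

universe u v

theorem LocP.congr {k V V' U U' : Type*} [CommRing k] [AddCommGroup V] [Module k V]
    [AddCommGroup V'] [Module k V'] [AddCommGroup U] [Module k U] [AddCommGroup U'] [Module k U']
    {f : V →ₗ[k] V'} {t : V →ₗ[k] V} {t' : V' →ₗ[k] V'} {g : U →ₗ[k] U'} {u : U →ₗ[k] U}
    {u' : U' →ₗ[k] U'} (h : LocP f t t') {e : V →ₗ[k] U} {e' : V' →ₗ[k] U'}
    (he : Function.Bijective e) (he' : Function.Bijective e') (h1 : ∀ x, g (e x) = e' (f x))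
    (h2 : ∀ x, e (t x) = u (e x)) (h3 : ∀ x, e' (t' x) = u' (e' x)) : LocP g u u' where
  nat := fun y => by
    obtain ⟨x, rfl⟩ := he.2 y
    rw [← h2, h1, h1, h.nat, h3]
  surj := fun z => by
    obtain ⟨y, rfl⟩ := he'.2 z
    obtain ⟨n, x, hx⟩ := h.surj y
    exact ⟨n, e x, by rw [h1, hx, inter_pow h3]⟩
  inj := fun y hy => by
    obtain ⟨x, rfl⟩ := he.2 y
    rw [h1] at hy
    have h4 : f x = 0 := he'.1 (hy.trans (map_zero e').symm)
    obtain ⟨n, hn⟩ := h.inj x h4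
    exact ⟨n, by rw [← inter_pow h2, hn, map_zero]⟩

section cx

variable {k : Type u} [CommRing k] {D : Type v} [CommRing D] [Algebra k D] {X Y : Cx k}

/-- the action on an isomorphic complex -/
theorem DAct.transfer (a : DAct D X) (f : CHom X Y) (hf : Function.Bijective f.f) :
    ∃ b : DAct D Y, a.Eqv b f ∧ (a.FGt → b.FGt) := by
  have hs : ∀ x, f.f ((LinearEquiv.ofBijective f.f hf).symm x) = x := fun x =>
    (LinearEquiv.ofBijective f.f hf).apply_symm_apply x
  have hdeg : ∀ {n : ℤ} {y : Y.V}, Y.dg.IsDeg n y →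
      X.dg.IsDeg n ((LinearEquiv.ofBijective f.f hf).symm y) := by
    intro n y hy
    obtain ⟨x, hx, rfl⟩ := exists_deg_hom (f := f) (hf.2 y) hy
    have h1 : (LinearEquiv.ofBijective f.f hf).symm (f.f x) = x :=
      (LinearEquiv.ofBijective f.f hf).symm_apply_apply x
    rw [h1]
    exact hx
  let b : DAct D Y :=
    { φ := ((LinearEquiv.ofBijective f.f hf).conjAlgEquiv k).toAlgHom.comp a.φ
      deg := fun r y hy => f.deg (a.deg r (hdeg hy))
      d := fun r y => by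
        change Y.dg.d (f.f (a.φ r ((LinearEquiv.ofBijective f.f hf).symm y))) =
          f.f (a.φ r ((LinearEquiv.ofBijective f.f hf).symm (Y.dg.d y)))
        rw [f.d, a.d]
        refine congrArg (fun z => f.f (a.φ r z)) (hf.1 ?_)
        rw [← f.d, hs, hs] }
  have hb : a.Eqv b f := fun r x => by
    change f.f (a.φ r x) = f.f (a.φ r ((LinearEquiv.ofBijective f.f hf).symm (f.f x)))
    refine congrArg (fun z => f.f (a.φ r z)) (hf.1 ?_)
    rw [hs]
  refine ⟨b, hb, (DAct.FGt.qi (f := f) ⟨?_, ?_⟩ hb).1⟩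
  · rintro x hx ⟨y, hy⟩
    obtain ⟨z, rfl⟩ := hf.2 y
    refine ⟨z, hf.1 ?_⟩
    rw [← f.d, hy]
  · intro y hy
    obtain ⟨x, rfl⟩ := hf.2 y
    refine ⟨x, hf.1 ?_, 0, ?_⟩
    · rw [← f.d, hy, map_zero]
    · rw [map_zero, sub_self]

end cx

variable {k : Type u} [Field k] {i j : Type} [Fintype i] [Fintype j] {A : CA k i} {A' : CA k j}
  {W : DGA k}

theorem qcr_of_bij {Y Y' : PB (PA.con j W) A'.pa} (f : PBH Y Y')
    (hf : ∀ c, Function.Bijective (f.f c).f) (h : QCr Y) : QCr Y' := by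
  intro c d hcd g hg l hd
  exact LocP.congr (h hcd hg l hd) (hf c) (hf d) (fun x => f.nat hcd x)
    (fun x => (f.f c).map_r _ x) (fun x => (f.f d).map_r _ x)

/-- the cohomology of all charts is finitely generated, for the right action -/
def FGr (Y : PB (PA.con j W) A'.pa) : Prop := ∀ c : Ch j, ∃ a : DAct (RR k c.1)
  (MP_6e5bed_ag_PN.bcx (Y.M c)), (∀ r x, a.φ r x = (Y.M c).r (algebraMap (RR k c.1) (A'.A c) r) x) ∧
    a.FGt

/-- the cohomology of all charts is finitely generated, for the left action -/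
def FGl (X : PB A.pa (PA.con i W)) : Prop := ∀ c : Ch i, ∃ a : DAct (RR k c.1)
  (MP_6e5bed_ag_PN.bcx (X.M c)), (∀ r x, a.φ r x = (X.M c).l (algebraMap (RR k c.1) (A.A c) r) x) ∧
    a.FGt

theorem fgr_of_bij {Y Y' : PB (PA.con j W) A'.pa} (f : PBH Y Y')
    (hf : ∀ c, Function.Bijective (f.f c).f) (h : FGr Y) : FGr Y' := by
  intro c
  obtain ⟨a, ha, ha'⟩ := h c
  obtain ⟨b, hb, hb'⟩ := DAct.transfer a (f.pch.f c) (hf c)
  refine ⟨b, fun r y => ?_, hb' ha'⟩
  obtain ⟨x, rfl⟩ := (hf c).2 y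
  refine (hb r x).symm.trans ?_
  rw [ha]
  exact (f.f c).map_r _ x

/-- the presheaf of the Čech algebras -/
abbrev YY (A' : CA k j) : PB (PA.con j (TT A')) A'.pa := MP_6e5bed_ag_PN.dgS A'.pa (LL j)

theorem dgL_push_bij (A' : CA k j) (c : Ch j) :
    Function.Bijective (((dgL A').push (LL j) (FS.e j)).f c).f :=
  ⟨cH_inj ((dgL A').fst c).pch (fun a => Function.injective_id) _ _,
    cH_surj ((dgL A').fst c).pch (fun a => Function.surjective_id) _ _⟩

theorem YY_qcr (A' : CA k j) : QCr (YY A') :=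
  qcr_of_bij (dgH A'.pa (LL j)) (fun c => dgH_bij A'.pa (LL j) c)
    (qcr_of_bij ((dgL A').push (LL j) (FS.e j)) (fun c => dgL_push_bij A' c)
      (qcr_push (Sh.bp_qc _) (LL j) (FS.e j)))

theorem YY_fgr (A' : CA k j) : FGr (YY A') :=
  fgr_of_bij (dgH A'.pa (LL j)) (fun c => dgH_bij A'.pa (LL j) c)
    (fgr_of_bij ((dgL A').push (LL j) (FS.e j)) (fun c => dgL_push_bij A' c)
      (fun c => push_fg (dgS_coh A') c))

end Pool.Agent.MP_6e5bed_ag_WW
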