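import Pool.Agent.Lib.MP_6e5bed_ag_WW.SwF

set_option autoImplicit false
set_option linter.unusedVariables false

/-!
# MP_6e5bed_ag, THEOREM W: the two orders of the double Čech complex
-/

noncomputable section

namespace Pool.Agent.MP_6e5bed_ag_WW

open Pool.Agent.MP_6e5bed_ag_NC Pool.Agent.MP_6e5bed_ag_NS Pool.Agent.MP_6e5bed_ag_PN

universe u

variable {k : Type u} [CommRing k] {ι : Type} {κ : Type} {A : PA k ι} {B : PA k κ}

/-- the restriction of the Čech complexes in the second variable -/
def swR (M : PB2 A B) (L' : List κ) {c d : FS κ} (h : c ≤ d) :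
    PCH (M.push2 L' c).pc (M.push2 L' d).pc where
  f := fun a => (cC (M.snd a).pc L').ρ h
  nat := fun {a a'} e x => ((cH (M.fn e) L').nat h x).symm

/-- the augmentation of the Čech complexes in the second variable -/
def swA (M : PB2 A B) (L' : List κ) (b : Ch κ) : PCH (M.fst b).pc (M.push2 L' b.fs).pc where
  f := fun a => (cC (M.snd a).pc L').a b
  nat := fun {a a'} e x => (cH (M.fn e) L').a b x

theorem sw_pc (M : PB2 A B) (m : κ) (L' : List κ) (c' : FS κ) :
    (M.push2 (m :: L') c').pc = coP (swR M L' (le_ins c' m)) (swA M L' (c'.ins m)) := rfl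

/-- The comparison of the two orders. -/
structure SWs (M : PB2 A B) (L : List ι) (c : FS ι) (L' : List κ) where
  g : ∀ c', CHom ((cC (M.push2 L' c').pc L).X c) ((cC (M.push L c).pc L').X c')
  nat : ∀ {c' d' : FS κ} (h : c' ≤ d') x, (g d').f (((cH (swR M L' h) L).g c).f x) =
    ((cC (M.push L c).pc L').ρ h).f ((g c').f x)
  a : ∀ (b : Ch κ) x, (g b.fs).f (((cH (swA M L' b) L).g c).f x) =
    ((cC (M.push L c).pc L').a b).f x
  bij : ∀ c', Function.Bijective (g c').f

/-- the map of the step -/
def SWs.stp {M : PB2 A B} {L : List ι} {c : FS ι} {L' : List κ} (s : SWs M L c L') (m : κ)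
    (c' : FS κ) :
    CHom ((cC (coP (swR M L' (le_ins c' m)) (swA M L' (c'.ins m))) L).X c)
      ((cC (M.push L c).pc (m :: L')).X c') :=
  ((exC (swR M L' (le_ins c' m)) (swA M L' (c'.ins m)) L).g c).comp
    (co.map _ _ _ _ (s.g c') (CHom.id _) (s.g (c'.ins m).fs)
      (fun x => (s.nat (le_ins c' m) x).symm) (fun x => (s.a (c'.ins m) x).symm))

theorem SWs.stp_f {M : PB2 A B} {L : List ι} {c : FS ι} {L' : List κ} (s : SWs M L c L') (m : κ)
    (c' : FS κ) (x : ((cC (coP (swR M L' (le_ins c' m)) (swA M L' (c'.ins m))) L).X c).V) :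
    (s.stp m c').f x =
      (((s.g c').f (((exC (swR M L' (le_ins c' m)) (swA M L' (c'.ins m)) L).g c).f x).1.1,
        (((exC (swR M L' (le_ins c' m)) (swA M L' (c'.ins m)) L).g c).f x).1.2),
        (s.g (c'.ins m).fs).f
          (((exC (swR M L' (le_ins c' m)) (swA M L' (c'.ins m)) L).g c).f x).2) := rfl

/-- The step of the recursion. -/
def SWs.cons {M : PB2 A B} {L : List ι} {c : FS ι} {L' : List κ} (s : SWs M L c L') (m : κ) :
    SWs M L c (m :: L') where
  g := fun c' => s.stp m c'
  nat := fun {c' d'} h x => by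
    have h1 := exC_nat (r0 := swR M L' (le_ins c' m)) (r1 := swA M L' (c'.ins m))
      (r0' := swR M L' (le_ins d' m)) (r1' := swA M L' (d'.ins m)) (swR M (m :: L') h)
      (swR M L' h) (M.sn (ins_mono h m)) (swR M L' (fs_mono (ins_mono h m)))
      (fun a x => rfl) L c x
    refine Prod.ext (Prod.ext ?_ ?_) ?_
    · exact (congrArg (fun z => (s.g d').f z.1.1) h1).trans (s.nat h _)
    · exact congrArg (fun z => z.1.2) h1
    · exact (congrArg (fun z => (s.g (d'.ins m).fs).f z.2) h1).trans
        (s.nat (fs_mono (ins_mono h m)) _)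
  a := fun b x => by
    have h1 := exC_aug (r0 := swR M L' (le_ins b.fs m)) (r1 := swA M L' (b.fs.ins m))
      (swA M (m :: L') b) (swA M L' b) (M.sn (le_ins' b m)) (fun a x => rfl) L c x
    refine Prod.ext (Prod.ext ?_ ?_) ?_
    · exact (congrArg (fun z => (s.g b.fs).f z.1.1) h1).trans (s.a b _)
    · exact congrArg (fun z => z.1.2) h1
    · exact (congrArg (fun z => (s.g (b.fs.ins m).fs).f z.2) h1).trans
        (map_zero (s.g (b.fs.ins m).fs).f)
  bij := fun c' => by
    have h1 := (exC (swR M L' (le_ins c' m)) (swA M L' (c'.ins m)) L).bij c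
    have h2 := Function.Bijective.prodMap (Function.Bijective.prodMap (s.bij c')
      (Function.bijective_id (α := (bcx ((M.push L c).M (c'.ins m))).V))) (s.bij (c'.ins m).fs)
    exact h2.comp h1

theorem sw_nil {V : PC k ι} (hV : ∀ c, Subsingleton (V.X c).V) : ∀ (L : List ι) (c : FS ι),
    Subsingleton ((cC V L).X c).V
  | [], c => ⟨fun _ _ => rfl⟩
  | l :: L, c => by
    have h1 := sw_nil hV L c
    have h2 := sw_nil hV L (c.ins l).fs
    have h3 := hV (c.ins l)
    exact ⟨fun x y => Prod.ext (Prod.ext (h1.elim _ _) (h3.elim _ _)) (h2.elim _ _)⟩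

/-- The comparison of the two orders of the double Čech complex. -/
def swC (M : PB2 A B) (L : List ι) (c : FS ι) : ∀ L' : List κ, SWs M L c L'
  | [] =>
    { g := fun c' => toZero _
      nat := fun h x => rfl
      a := fun b x => rfl
      bij := fun c' => ⟨fun x y _ =>
        (sw_nil (V := (M.push2 [] c').pc) (fun a => ⟨fun _ _ => rfl⟩) L c).elim x y,
        fun y => ⟨0, rfl⟩⟩ }
  | m :: L' => (swC M L c L').cons m

/-- the left action -/
theorem swC_l (M : PB2 A B) (L : List ι) (c : FS ι) : ∀ (L' : List κ) (c' : FS κ)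
    (r : (cA A L c).A) (x : (cB2' M L' c' L c).M),
    ((swC M L c L').g c').f ((cB2' M L' c' L c).l r x) =
      (cB2 M L c L' c').l r (((swC M L c L').g c').f x)
  | [], c', r, x => rfl
  | m :: L', c', r, x => by
    have ih := swC_l M L c L'
    have h1 := exC_left (r0 := swR M L' (le_ins c' m)) (r1 := swA M L' (c'.ins m))
      (M.push2 (m :: L') c').pl (M.push2 L' c').pl (M.fst (c'.ins m)).pl
      (M.push2 L' (c'.ins m).fs).pl (fun a r x => ?_) L c r x
    · have h2 := cBL_l (M.push L c) m L' c' r (((swC M L c L').g c').f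
        (((exC (swR M L' (le_ins c' m)) (swA M L' (c'.ins m)) L).g c).f x).1.1)
        (((exC (swR M L' (le_ins c' m)) (swA M L' (c'.ins m)) L).g c).f x).1.2
        (((swC M L c L').g (c'.ins m).fs).f
          (((exC (swR M L' (le_ins c' m)) (swA M L' (c'.ins m)) L).g c).f x).2)
      refine Eq.trans ?_ h2.symm
      refine Prod.ext (Prod.ext ?_ ?_) ?_
      · exact (congrArg (fun z => ((swC M L c L').g c').f z.1.1) h1).trans (ih c' r _)
      · exact congrArg (fun z => z.1.2) h1
      · exact (congrArg (fun z => ((swC M L c L').g (c'.ins m).fs).f z.2) h1).trans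
          (ih (c'.ins m).fs ((cA A L c).dg.s r) _)
    · exact cBL_l (M.snd a) m L' c' r x.1.1 x.1.2 x.2

/-- the right action -/
theorem swC_r (M : PB2 A B) (L : List ι) (c : FS ι) : ∀ (L' : List κ) (c' : FS κ)
    (b : (cA B L' c').A) (x : (cB2' M L' c' L c).M),
    ((swC M L c L').g c').f ((cB2' M L' c' L c).r b x) =
      (cB2 M L c L' c').r b (((swC M L c L').g c').f x)
  | [], c', r, x => rfl
  | m :: L', c', b, x => by
    have ih := swC_r M L c L'
    have h1 := exC_right (t0 := (cC B.pc L').ρ (le_ins c' m)) (t1 := (cC B.pc L').a (c'.ins m))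
      (r0 := swR M L' (le_ins c' m)) (r1 := swA M L' (c'.ins m))
      (M.push2 (m :: L') c').pr (M.push2 L' c').pr (M.fst (c'.ins m)).pr
      (M.push2 L' (c'.ins m).fs).pr (fun a x b => rfl) L c x b
    obtain ⟨⟨b0, b1⟩, b2⟩ := b
    refine Prod.ext (Prod.ext ?_ ?_) ?_
    · exact (congrArg (fun z => ((swC M L c L').g c').f z.1.1) h1).trans (ih c' b0 _)
    · exact congrArg (fun z => z.1.2) h1
    · refine (congrArg (fun z => ((swC M L c L').g (c'.ins m).fs).f z.2) h1).trans ?_
      refine (map_add ((swC M L c L').g (c'.ins m).fs).f _ _).trans ?_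
      refine congrArg₂ (· + ·) ((ih (c'.ins m).fs b2 _).trans ?_)
        (ih (c'.ins m).fs (((cC B.pc L').a (c'.ins m)).f b1) _)
      refine congrArg (fun z => (cB2 M L c L' (c'.ins m).fs).r b2 z) ?_
      refine ((swC M L c L').nat (le_ins c' m) _).trans ?_
      exact congrArg (fun z => ((cC (M.push L c).pc L').ρ (le_ins c' m)).f z)
        (((swC M L c L').g c').s _).symm

/-- The comparison of the two orders, as a map of bimodules. -/
def swG (M : PB2 A B) (L : List ι) (c : FS ι) (L' : List κ) (c' : FS κ) :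
    GMap 0 (cB2' M L' c' L c) (cB2 M L c L' c') :=
  cgm (M := cB2' M L' c' L c) (N := cB2 M L c L' c') (DHom.id _) (DHom.id _)
    ((swC M L c L').g c') (fun r x => swC_l M L c L' c' r x)
    (fun b x => swC_r M L c L' c' b x)

theorem swG_dd (M : PB2 A B) (L : List ι) (c : FS ι) (L' : List κ) (c' : FS κ) :
    (swG M L c L' c').dd = 0 := cgm_dd _ _ _ _ _

theorem swG_bij (M : PB2 A B) (L : List ι) (c : FS ι) (L' : List κ) (c' : FS κ) :
    Function.Bijective (swG M L c L' c').f := (swC M L c L').bij c'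

/-- The two orders of the double Čech complex. -/
theorem cB2_swap (M : PB2 A B) (L : List ι) (c : FS ι) (L' : List κ) (c' : FS κ) :
    BIso (cB2 M L c L' c') (cB2' M L' c' L c) :=
  (BIso.of_bij (swG M L c L' c') (swG_dd M L c L' c') (swG_bij M L c L' c')).symm

end Pool.Agent.MP_6e5bed_ag_WW
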