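import Pool.Agent.Lib.MP_6e5bed_ag_WW.K1a
import Pool.Agent.Lib.MP_6e5bed_ag_WW.K1b
import Pool.Agent.Lib.MP_6e5bed_ag_WW.ChiC
import Pool.Agent.Lib.MP_6e5bed_ag_WW.Sw
import Pool.Agent.Lib.MP_6e5bed_ag_WW.CmpL
import Pool.Agent.Lib.MP_6e5bed_ag_GG.CLoc2
import Pool.Agent.Lib.MP_6e5bed_ag_GG.S62

set_option autoImplicit false
set_option linter.unusedVariables false

/-!
# MP_6e5bed_ag, THEOREM W, (6.1): the Euler characteristic of `X_F ⊗ U ⊗ Y`, for coherent `F`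
-/

noncomputable section

namespace Pool.Agent.MP_6e5bed_ag_WW

open Pool.Agent.MP_6e5bed_ag_NC Pool.Agent.MP_6e5bed_ag_GG
open Pool.Agent.MP_6e5bed_ag_PN hiding Ch
open Pool.Agent.MP_6e5bed_ag_NS (Cx CHom ringH)

universe u

variable {k : Type u} [Field k] {i j x : Type} [Fintype i] [Fintype j] [Fintype x]
  {A : CA k i} {A' : CA k j} {B : CA k x}

section kl

variable {W W' : DGA k} {I : ∀ c : Ch i, Ideal (A.A c)}

/-- `I` acts as zero -/
def KlX (I : ∀ c : Ch i, Ideal (A.A c)) (X : PB A.pa (PA.con i W)) : Prop :=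
  ∀ (c : Ch i) (a : A.A c), a ∈ I c → ∀ x : (X.M c).M, (X.M c).l a x = 0

theorem KlX.cmp {X : PB A.pa (PA.con i W)} (h : KlX I X) (V : Bim W W')
    (Y : PB (PA.con j W') A'.pa) : Kl I (BPB.cmp X V Y) := fun p a ha x =>
  lin_tm (M := X.M p.1) (N := tb V (Y.M p.2)) (f := ((BPB.cmp X V Y).F p).l a) (g := 0)
    (fun m n => by
      refine (tb_l (M := X.M p.1) (N := tb V (Y.M p.2)) a m n).trans ?_
      rw [h p.1 a ha m]
      exact tm_zero_left n) x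

theorem cBL_kill {ι : Type} {R : Type u} [Ring R] [Algebra k R] {B : PA k ι}
    {M : PB (PA.con ι (MP_6e5bed_ag_NC.ring k R)) B} {a : R}
    (h : ∀ c x, (M.M c).l a x = 0) : ∀ (L : List ι) (c : FS ι) (x : (cBL M L c).M),
      (cBL M L c).l a x = 0
  | [], c, x => rfl
  | l :: L, c, x => by
    obtain ⟨⟨x0, x1⟩, ξ⟩ := x
    refine (cBL_l M l L c a x0 x1 ξ).trans ?_
    refine Prod.ext (Prod.ext (cBL_kill h L c x0) (h _ x1)) ?_
    refine (congrArg (fun z : R => (cBL M L (c.ins l).fs).l z ξ) (ring_s (k := k) a)).trans ?_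
    exact cBL_kill h L _ ξ

/-- the Čech complexes in the second variable -/
abbrev XF (F : BPB A B) : PB A.pa (PA.con i (TT B)) := F.two.push2 (LL x) (FS.e x)

theorem Kl.XF {F : BPB A B} (h : Kl I F) : KlX I (XF F) := fun c a ha x =>
  cBL_kill (M := F.two.snd c) (fun b y => h (c, b) a ha y) _ _ x

theorem kl_bp {Z : BS A B} (h : I ≤ MP_6e5bed_ag_GG.ann Z) : Kl I Z.bp := fun p a ha z =>
  h p.1 ha p.2 z

end kl

variable {V : Type*} [AddCommGroup V] {E : BS A A'} {m : Ch i}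

/-- THE PROPERTY OF SECTION 6: `z` is a class which computes the Euler characteristics of
`X ⊗ U ⊗ Y`, for all perfect `U`. -/
def CP (hR : Red E m) (cl : AddFn (S := bs A A') Sh.Coh V) (q : K0Q (TT A) (TT A') →+ V)
    {W : DGA k} (hW : Proper W) (X : PB A.pa (PA.con i W)) (z : K0Q (TT A) W) : Prop :=
  ∀ (U : Bim W (TT A')) (hU : Perf U), SB (ann E) m (sgR hR) (BPB.cmp X U (YY A')) ∧
    chi hR cl (BPB.cmp X U (YY A')) = q (K0Q.comp hW z (cls U hU))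

variable {hR : Red E m} {cl : AddFn (S := bs A A') Sh.Coh V}

/-- (6.1) -/
theorem CP.of_coh (hN : (bs A A').Noe)
    (ih : ∀ F : BS A A', F.Coh → ann E < ann F → cl.cl F = 0)
    (q : K0Q (TT A) (TT A') →+ V) (hRes : ∀ Z : BS A A', Z.Coh → HasRes Z.bp.BB)
    (hq : ∀ (Z : BS A A') (h : Z.Coh), cl.cl Z = q (rcls Z.bp.BB (hRes Z h)))
    (hA : Smooth (TT A)) (hB : Smooth (TT B)) (hW : Proper (TT B)) {F : BS A B} (hF : F.Coh)
    (hI : ann E ≤ ann F) (r : HasRes F.bp.BB) : CP hR cl q hW (XF F.bp) (rcls F.bp.BB r) := by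
  intro U hU
  have hQ : (BPB.cmp (XF F.bp) U (YY A')).QC :=
    BPB.cmp_qc (qcl_push2 (Sh.bp_qc F) (LL x) (FS.e x)) (YY_qcr A')
  have hK : Kl (ann E) (BPB.cmp (XF F.bp) U (YY A')) := (kl_bp hI).XF.cmp U (YY A')
  have hC : (BPB.cmp (XF F.bp) U (YY A')).CohF :=
    BPB.cmp_cohF (XF F.bp) (YY A') (fun c => push2_fg hF c) (YY_fgr A') hU
  have rX : HasRes (cBR (XF F.bp) (LL i) (FS.e i)) :=
    HasRes.of_finCoh hA hB _ (finBB2 F hF)
  refine ⟨sb_cohF hQ hK hC, ?_⟩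
  rw [chi_cohF hN ih q hRes hq hQ hK hC (hasRes_cmp hW (XF F.bp) rX hU),
    rcls_cmp hW (XF F.bp) rX hU]
  exact congrArg (fun z => q (K0Q.comp hW z (cls U hU)))
    (rcls_iso (cB2_swap F.bp.two (LL i) (FS.e i) (LL x) (FS.e x)) r rX).symm

end Pool.Agent.MP_6e5bed_ag_WW
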