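import Pool.Agent.Lib.MP_6e5bed_ag_WW.CmpQ
import Pool.Agent.Lib.MP_6e5bed_ag_WW.Asc
import Pool.Agent.Lib.MP_6e5bed_ag_GG.CompA
import Pool.Agent.Lib.MP_6e5bed_ag_PN.DgF
import Pool.Agent.Lib.MP_6e5bed_ag_PN.ExtP

set_option autoImplicit false
set_option linter.unusedVariables false

/-!
# MP_6e5bed_ag, THEOREM W, (6.1): the class of the double Čech complex of `X ⊗ U ⊗ Y`, for the
presheaf `Y` of the Čech algebras
-/

noncomputable section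

namespace Pool.Agent.MP_6e5bed_ag_WW

open Pool.Agent.MP_6e5bed_ag_NC Pool.Agent.MP_6e5bed_ag_GG
open Pool.Agent.MP_6e5bed_ag_PN hiding Ch
open Pool.Agent.MP_6e5bed_ag_NS (Cx CHom ringH)

universe u

section bim

variable {k : Type u} [Field k] {A B W : DGA k}

theorem RFlat_qiso {X : Bim A W} (hf : RFlat X) {Y Q : Bim W B} {ψ : GMap 0 Q Y}
    (hψ : QIso ψ) : QIso (ψ.tbL X) := by
  have h1 : ψ.dd = 0 := hψ.1
  have hc : IsCone ψ (MP_6e5bed_ag_NC.cone ψ h1) := isCone_cone ψ h1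
  have h2 : Acyc (MP_6e5bed_ag_NC.cone ψ h1) := (hc.qiso_iff h1).1 hψ
  have h3 : IsCone (ψ.tbL X) (tb X (MP_6e5bed_ag_NC.cone ψ h1)) :=
    (MP_6e5bed_ag_NC.tbL X B).isCone hc
  exact (h3.qiso_iff (tbL_dd' X ψ h1)).2 (hf B _ h2)

theorem hasRes_tb_perf (hW : Proper W) {X : Bim A W} (hX : HasRes X) {U : Bim W B}
    (hU : Perf U) : HasRes (tb X U) := by
  obtain ⟨P, φ, hP, hφ⟩ := hX
  exact ⟨tb P U, φ.tbR U, Perf.tb hW hP hU, (RQIso.tbR ((rqiso_iff φ).2 hφ) hU).qiso⟩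

theorem rcls_tb_perf (hW : Proper W) {X : Bim A W} (hX : HasRes X) {U : Bim W B}
    (hU : Perf U) (h : HasRes (tb X U)) :
    rcls (tb X U) h = K0Q.comp hW (rcls X hX) (cls U hU) := by
  obtain ⟨P, φ, hP, hφ⟩ := id hX
  rw [rcls_eq hX hP φ hφ, K0Q.comp_cls hW hP hU,
    rcls_eq h (Perf.tb hW hP hU) (φ.tbR U) (RQIso.tbR ((rqiso_iff φ).2 hφ) hU).qiso]

end bim

section cmp

variable {k : Type u} [Field k] {i j : Type} [Fintype i] [Fintype j] {A : CA k i} {A' : CA k j}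
  {W : DGA k}

/-- The double Čech complex of `X ⊗ U ⊗ Y` is `G_l(X) ⊗ U`, if `Y` is the presheaf of the Čech
algebras and `U` is perfect. -/
theorem cmp_BB_qiso (X : PB A.pa (PA.con i W)) {U : Bim W (TT A')} (hU : Perf U) :
    ∃ g : GMap 0 (BPB.cmp X U (MP_6e5bed_ag_PN.dgS A'.pa (LL j))).BB
      (tb (cBR X (LL i) (FS.e i)) U), QIso g := by
  obtain ⟨φ, ψ, h0, h1, h2⟩ :=
    (ext_biso3 X U (MP_6e5bed_ag_PN.dgS A'.pa (LL j)) (LL i) (FS.e i) (LL j) (FS.e j)).symm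
  have e1 : QIso φ := qiso_of_inv h0 h1 h2
  have e2 : QIso (asI (cBR X (LL i) (FS.e i)) U
      (cBL (MP_6e5bed_ag_PN.dgS A'.pa (LL j)) (LL j) (FS.e j))) :=
    qiso_of_inv (asI_dd _ _ _) (asG_asI _ _ _) (asI_asG _ _ _)
  have e3 : QIso ((MP_6e5bed_ag_PN.dgD A'.pa (LL j)).tbL (tb (cBR X (LL i) (FS.e i)) U)) :=
    RFlat_qiso (rflat_tb_perf _ hU) (dgD_qi A'.pa (LL j) (fun c => aug_qi A'.pa.pc mem_LL c))
  obtain ⟨φ', ψ', h0', h1', h2'⟩ := tb_diag_right (tb (cBR X (LL i) (FS.e i)) U)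
  have e4 : QIso φ' := qiso_of_inv h0' h1' h2'
  exact ⟨_, ((e1.comp e2).comp e3).comp e4⟩

/-- (6.1): its class -/
theorem rcls_cmp (hW : Proper W) (X : PB A.pa (PA.con i W))
    (rX : HasRes (cBR X (LL i) (FS.e i))) {U : Bim W (TT A')} (hU : Perf U)
    (h : HasRes (BPB.cmp X U (MP_6e5bed_ag_PN.dgS A'.pa (LL j))).BB) :
    rcls _ h = K0Q.comp hW (rcls _ rX) (cls U hU) := by
  obtain ⟨g, hg⟩ := cmp_BB_qiso X hU
  exact (rcls_qiso h (hasRes_tb_perf hW rX hU) g hg).trans (rcls_tb_perf hW rX hU _)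

theorem hasRes_cmp (hW : Proper W) (X : PB A.pa (PA.con i W))
    (rX : HasRes (cBR X (LL i) (FS.e i))) {U : Bim W (TT A')} (hU : Perf U) :
    HasRes (BPB.cmp X U (MP_6e5bed_ag_PN.dgS A'.pa (LL j))).BB := by
  obtain ⟨g, hg⟩ := cmp_BB_qiso X hU
  exact (hasRes_tb_perf hW rX hU).of_qiso' g hg

end cmp

end Pool.Agent.MP_6e5bed_ag_WW
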