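import Pool.Agent.Lib.MP_6e5bed_ag_WW.K2
import Pool.Agent.Lib.MP_6e5bed_ag_WW.CmpA
import Pool.Agent.Lib.MP_6e5bed_ag_WW.Alp
import Pool.Agent.Lib.MP_6e5bed_ag_NC.KComp

set_option autoImplicit false
set_option linter.unusedVariables false

/-!
# MP_6e5bed_ag, THEOREM W, (6.4): the classes of compositions
-/

noncomputable section

namespace Pool.Agent.MP_6e5bed_ag_WW

open Pool.Agent.MP_6e5bed_ag_NC Pool.Agent.MP_6e5bed_ag_GG
open Pool.Agent.MP_6e5bed_ag_PN hiding Ch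
open Pool.Agent.MP_6e5bed_ag_NS (Cx CHom ringH)

universe u

variable {k : Type u} [Field k] {i j x : Type} [Fintype i] [Fintype j] [Fintype x]
  {A : CA k i} {A' : CA k j} {B : CA k x}

section qcl

variable {W D : DGA k} {I : ∀ c : Ch i, Ideal (A.A c)}

theorem qcl_tbR {X : PB A.pa (PA.con i W)} (h : QCl X) (M : Bim W D) : QCl (PB.tbR X M) := by
  intro c d hcd g hg l hd
  exact LocP.tbR (X := X.M c) (X' := X.M d) (Q := M) (h hcd hg l hd)
    (fun w y => gm_r (X.ρ hcd) w y) (fun w y => (X.M c).l_r _ w y)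
    (fun w y => (X.M d).l_r _ w y) (fun y q => PB.tbR_ρ X M hcd y q)
    (fun y q => tb_l (M := X.M c) (N := M) _ y q) (fun y q => tb_l (M := X.M d) (N := M) _ y q)

theorem KlX.tbR {X : PB A.pa (PA.con i W)} (h : KlX I X) (M : Bim W D) :
    KlX I (PB.tbR X M) := fun c a ha y =>
  lin_tm (M := X.M c) (N := M) (f := ((PB.tbR X M).M c).l a) (g := 0) (fun m n => by
    refine (tb_l (M := X.M c) (N := M) a m n).trans ?_
    rw [h c a ha m]
    exact tm_zero_left n) y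

theorem qcl_of_bij {X X' : PB A.pa (PA.con i W)} (f : PBH X X')
    (hf : ∀ c, Function.Bijective (f.f c).f) (h : QCl X) : QCl X' := by
  intro c d hcd g hg l hd
  exact LocP.congr (h hcd hg l hd) (hf c) (hf d) (fun y => f.nat hcd y)
    (fun y => by
      have h1 := (f.f c).map_l (algebraMap (RR k c.1) (A.A c) (tt k l hg)) y
      rw [Dg.sp_zero] at h1
      exact h1)
    (fun y => by
      have h1 := (f.f d).map_l (algebraMap (RR k d.1) (A.A d) (tt k l (hcd hg))) y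
      rw [Dg.sp_zero] at h1
      exact h1)

theorem klx_of_bij {X X' : PB A.pa (PA.con i W)} (f : PBH X X')
    (hf : ∀ c, Function.Bijective (f.f c).f) (h : KlX I X) : KlX I X' := fun c a ha y => by
  obtain ⟨z, rfl⟩ := (hf c).2 y
  have h1 := (f.f c).map_l a z
  rw [Dg.sp_zero, h c a ha z, map_zero] at h1
  exact h1.symm

theorem qiso_of_bij' {S T : DGA k} {M N : Bim S T} {f : GMap 0 M N} (h : f.dd = 0)
    (hf : Function.Bijective f.f) : QIso f := by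
  refine ⟨h, fun z hz hy => ?_, fun y hy => ?_⟩
  · obtain ⟨w, hw⟩ := hy
    obtain ⟨v, rfl⟩ := hf.2 w
    refine ⟨v, hf.1 ?_⟩
    rw [← GMap.d_f_zero h, hw]
  · obtain ⟨z, rfl⟩ := hf.2 y
    refine ⟨z, hf.1 ?_, 0, ?_⟩
    · rw [← GMap.d_f_zero h, hy, map_zero]
    · rw [map_zero, sub_self]

end qcl

variable {V : Type*} [AddCommGroup V] {E : BS A A'} {m : Ch i}
  {hR : Red E m} {cl : AddFn (S := bs A A') Sh.Coh V} {q : K0Q (TT A) (TT A') →+ V}
  {W W₀ : DGA k} {hW : Proper W} {hP : Proper (TT B)}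

/-- `M ⊗ Y → M`, on the Čech complexes, for perfect `M` -/
theorem exists_tbL_qiso {M : Bim W₀ (TT B)} (hM : Perf M) :
    ∃ g : GMap 0 (cBL (PB.tbL M (YY B)) (LL x) (FS.e x)) M, QIso g := by
  obtain ⟨φ, ψ, h0, h1, h2⟩ := (tbL_biso M (YY B) (LL x) (FS.e x)).symm
  have e1 : QIso φ := qiso_of_inv h0 h1 h2
  have e3 : QIso ((MP_6e5bed_ag_PN.dgD B.pa (LL x)).tbL M) :=
    RFlat_qiso (fun _ _ hY => (clos_acycL hM (rac_iff.2 hY)).acyc)
      (dgD_qi B.pa (LL x) (fun c => aug_qi B.pa.pc mem_LL c))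
  obtain ⟨φ', ψ', h0', h1', h2'⟩ := tb_diag_right M
  have e4 : QIso φ' := qiso_of_inv h0' h1' h2'
  exact ⟨_, (e1.comp e3).comp e4⟩

section cp

variable (hN : (bs A A').Noe) (ih : ∀ F : BS A A', F.Coh → ann E < ann F → cl.cl F = 0)

include hN ih

/-- isomorphisms -/
theorem CP.iff_bij {X X' : PB A.pa (PA.con i W)} (hX : QCl X) (kX : KlX (ann E) X)
    (f : PBH X X') (hf : ∀ c, Function.Bijective (f.f c).f) {z : K0Q (TT A) W} :
    CP hR cl q hW X z ↔ CP hR cl q hW X' z :=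
  CP.iff_qiso hN ih hX (qcl_of_bij f hf hX) kX (klx_of_bij f hf kX)
    (qiso_of_bij' (f.dd m) (hf m))

/-- ALPHA -/
theorem CP.iff_alp {X : PB A.pa (PA.con i W₀)} {N : PB (PA.con x W₀) B.pa} (hX : QCl X)
    (kX : KlX (ann E) X) {z : K0Q (TT A) (TT B)} :
    CP hR cl q hP (PB.tbR X (cBL N (LL x) (FS.e x))) z ↔
      CP hR cl q hP ((PB.ext X N).push2 (LL x) (FS.e x)) z :=
  CP.iff_bij hN ih (qcl_tbR hX _) (kX.tbR _) (alp X N (LL x) (FS.e x))
    (fun c => alp_bij X N (LL x) (FS.e x) c)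

/-- quasi-isomorphisms in the second factor, if the first factor is flat at `m` -/
theorem CP.iff_tbR {X : PB A.pa (PA.con i W₀)} (hX : QCl X) (kX : KlX (ann E) X)
    (hf : RFlat (X.M m)) {M M' : Bim W₀ W} {g : GMap 0 M M'} (hg : QIso g)
    {z : K0Q (TT A) W} : CP hR cl q hW (PB.tbR X M) z ↔ CP hR cl q hW (PB.tbR X M') z :=
  CP.iff_qiso hN ih (qcl_tbR hX _) (qcl_tbR hX _) (kX.tbR _) (kX.tbR _)
    (f := PB.tbRm X g hg.1) (RFlat_qiso hf hg)

/-- the Euler characteristics of `X ⊗ M ⊗ U ⊗ Y` -/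
theorem CP.chi_tb {X : PB A.pa (PA.con i W₀)} (hX : QCl X) (kX : KlX (ann E) X)
    {M : Bim W₀ W} {z : K0Q (TT A) W} (h : CP hR cl q hW (PB.tbR X M) z)
    {U : Bim W (TT A')} (hU : Perf U) :
    chi hR cl (BPB.cmp X (tb M U) (YY A')) = q (K0Q.comp hW z (cls U hU)) := by
  refine Eq.trans ?_ (h U hU).2
  refine (chi_ciso hN ih (f := cmpA X M U (YY A')) (CIso.of_qiso (fun c' => ?_))
    (yqc (qcl_tbR hX M) U) (yqc hX (tb M U)) ((kX.tbR M).cmp U (YY A'))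
    (kX.cmp (tb M U) (YY A'))).symm
  exact qiso_of_bij' ((cmpA X M U (YY A')).dd (m, c')) (cmpA_bij X M U (YY A') (m, c'))

end cp

section lin

variable [Module ℚ V] {ql : K0Q (TT A) (TT A') →ₗ[ℚ] V}
  (hN : (bs A A').Noe) (ih : ∀ F : BS A A', F.Coh → ann E < ann F → cl.cl F = 0)

include hN ih

/-- the value on compositions -/
theorem CP.eval {X : PB A.pa (PA.con i W₀)} (hX : QCl X) (kX : KlX (ann E) X)
    {Gm : K0Q W₀ (TT A') →ₗ[ℚ] V}
    (hGm : ∀ (M : Bim W₀ (TT A')) (hM : Perf M),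
      Gm (cls M hM) = chi hR cl (BPB.cmp X M (YY A')))
    {M : Bim W₀ W} (hM : Perf M) {z : K0Q (TT A) W}
    (h : CP hR cl ql.toAddMonoidHom hW (PB.tbR X M) z) (w : K0Q W (TT A')) :
    Gm (K0Q.comp hW (cls M hM) w) = ql (K0Q.comp hW z w) := by
  have h1 : Gm ∘ₗ K0Q.comp hW (cls M hM) = ql ∘ₗ K0Q.comp hW z := K0Q.hom_ext (fun U hU => by
    change Gm (K0Q.comp hW (cls M hM) (cls U hU)) = ql (K0Q.comp hW z (cls U hU))
    rw [K0Q.comp_cls hW hM hU, hGm]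
    exact CP.chi_tb hN ih hX kX h hU)
  exact LinearMap.congr_fun h1 w

/-- (6.4) -/
theorem k4_of (hRes : ∀ Z : BS A A', Z.Coh → HasRes Z.bp.BB)
    (hq : ∀ (Z : BS A A') (h : Z.Coh), cl.cl Z = ql (rcls Z.bp.BB (hRes Z h)))
    (hA : Smooth (TT A)) (hB : Smooth (TT B)) (hP : Proper (TT B))
    {X : PB A.pa (PA.con i W₀)} (hX : QCl X) (kX : KlX (ann E) X) (hf : RFlat (X.M m))
    {Gm : K0Q W₀ (TT A') →ₗ[ℚ] V}
    (hGm : ∀ (M : Bim W₀ (TT A')) (hM : Perf M),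
      Gm (cls M hM) = chi hR cl (BPB.cmp X M (YY A')))
    (h53 : ∀ M : Bim W₀ (TT B), Perf M → SB (ann E) m (sgR hR) (BPB.cmp X M (YY B)) ∧
      BdM m (BPB.cmp X M (YY B))) (y : K0Q W₀ (TT B)) :
    ∃ z : K0Q (TT A) (TT B), ∀ w : K0Q (TT B) (TT A'),
      Gm (K0Q.comp hP y w) = ql (K0Q.comp hP z w) := by
  refine K0Q.ind (P := fun y => ∃ z : K0Q (TT A) (TT B), ∀ w : K0Q (TT B) (TT A'),
    Gm (K0Q.comp hP y w) = ql (K0Q.comp hP z w)) ?_ ?_ ?_ ?_ y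
  · rintro y y' ⟨z, hz⟩ ⟨z', hz'⟩
    refine ⟨z + z', fun w => ?_⟩
    rw [map_add, map_add, LinearMap.add_apply, LinearMap.add_apply, map_add, map_add, hz, hz']
  · rintro c y ⟨z, hz⟩
    refine ⟨c • z, fun w => ?_⟩
    rw [map_smul, map_smul, LinearMap.smul_apply, LinearMap.smul_apply, map_smul, map_smul, hz]
  · refine ⟨0, fun w => ?_⟩
    rw [map_zero, map_zero, LinearMap.zero_apply, LinearMap.zero_apply, map_zero, map_zero]
  · intro M hM
    obtain ⟨z, hz⟩ := CP.of_sb hN ih ql.toAddMonoidHom hRes hq hA hB hP (h53 M hM).1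
      (h53 M hM).2
    refine ⟨z, fun w => ?_⟩
    have h1 : CP hR cl ql.toAddMonoidHom hP ((PB.ext X (PB.tbL M (YY B))).push2 (LL x) (FS.e x))
      z := hz
    obtain ⟨g, hg⟩ := exists_tbL_qiso hM
    exact CP.eval hN ih hX kX hGm hM
      ((CP.iff_tbR hN ih hX kX hf hg).1 ((CP.iff_alp hN ih hX kX).2 h1)) w

end lin

end Pool.Agent.MP_6e5bed_ag_WW
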