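import Pool.Agent.Lib.MP_6e5bed_ag_NC.KComp
import Pool.Agent.Lib.MP_6e5bed_ag_CV.Ring0
import Pool.Agent.Lib.MP_6e5bed_ag_CV.CorPerf
import Pool.Agent.Lib.MP_6e5bed_ag_CV.RTb
import Pool.Agent.Lib.MP_6e5bed_ag_NS.Sh
import Pool.Agent.Lib.MP_6e5bed_ag_BC.QtApi
import Pool.Agent.Lib.MP_6e5bed_ag_GG.Theta

set_option autoImplicit false
set_option linter.unusedVariables false
set_option linter.unusedSectionVars false

/-!
# MP_6e5bed_ag, THEOREM W, section 8: from the centre to the central simple algebra

`S` is a central simple algebra, finite over its centre `L`, which is a field over `k`. If every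
class of perfect `L`-`T`-bimodules factors through `u`, then so does every class of perfect
`S`-`T`-bimodules.
-/

noncomputable section

namespace Pool.Agent.MP_6e5bed_ag_WW

open Pool.Agent.MP_6e5bed_ag_GG Pool.Agent.MP_6e5bed_ag_NC Pool.Agent.MP_6e5bed_ag_NS
open scoped TensorProduct

universe u

variable {k : Type u} [Field k] (L S : Type u) [Field L] [Algebra k L] [Ring S] [Algebra k S]
  [Algebra L S] [IsScalarTower k L S]

theorem ls_sum {V : Type u} [AddCommGroup V] [Module k V] {X : Dg k V} {n : ℕ} {i : ℤ}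
    {f : Fin n → V} (h : ∀ j, X.IsDeg i (f j)) : X.IsDeg i (∑ j, f j) := by
  classical
  refine Finset.sum_induction f (fun v => X.IsDeg i v) (fun _ _ h h' => h.add h')
    (Dg.IsDeg.zero i) fun j _ => h j

/-- the inclusion of the centre -/
def lsH : DHom (ring k L) (ring k S) := ringH (IsScalarTower.toAlgHom k L S)

theorem lsH_f (c : L) : (lsH (k := k) L S).f c = algebraMap L S c := rfl

/-- `S` as an `S`-`L`-bimodule -/
def lsD : Bim (ring k S) (ring k L) := res (DHom.id (ring k S)) (lsH L S) (diag (ring k S))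

theorem lsD_l (a x : S) : (lsD (k := k) L S).l a x = a * x := rfl

theorem lsD_r (c : L) (x : S) : (lsD (k := k) L S).r c x = x * algebraMap L S c := rfl

theorem lsD_fgR : BIso (fgR (lsD (k := k) L S)) (fgR (diag (ring k S))) := by
  refine BIso.of_bij (M := fgR (lsD (k := k) L S)) (N := fgR (diag (ring k S)))
    { f := LinearMap.id
      deg := fun {i m} hm => by
        rw [add_zero]
        exact hm
      map_l := fun a m => by
        rw [Dg.sp_zero]
        rfl
      map_r := fun (c : k) m => by
        rw [base_r (fgR (lsD (k := k) L S)) c m, base_r (fgR (diag (ring k S))) c]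
        rfl } ?_ Function.bijective_id
  refine LinearMap.ext (fun z => ?_)
  rw [GMap.dd_apply, sg_zero, one_smul, LinearMap.zero_apply, sub_eq_zero]
  rfl

/-- `S ⊗_L (L ⊗ T) = S ⊗ T` is perfect -/
theorem lsD_free (T : DGA k) : Perf (tb (lsD L S) (free (ring k L) T)) :=
  (tb_free_right (lsD (k := k) L S) T).symm.perf
    ((tbR (ring k S) (free (base k) T)).perf ((tb_free_free _ _).symm.perf Perf.free)
      ((lsD_fgR L S).symm.perf (perf_fgR_diag _)))

/-- the extension of scalars -/
def lsExt (T : DGA k) : K0Q (ring k L) T →ₗ[ℚ] K0Q (ring k S) T :=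
  (tbL (lsD L S) T).k0 (lsD_free L S T)

theorem lsD_perf {T : DGA k} {M : Bim (ring k L) T} (hM : Perf M) :
    Perf (tb (lsD L S) M) := (tbL (lsD L S) T).perf (lsD_free L S T) hM

theorem lsExt_cls {T : DGA k} {M : Bim (ring k L) T} (hM : Perf M) :
    lsExt L S T (cls M hM) = cls (tb (lsD L S) M) (lsD_perf L S hM) :=
  (tbL (lsD L S) T).k0_cls (lsD_free L S T) hM

/-- extension of scalars commutes with composition -/
theorem lsExt_comp {T T' : DGA k} (hT' : Proper T') (u : K0Q T' T)
    (y : K0Q (ring k L) T') :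
    lsExt L S T (K0Q.comp hT' y u) = K0Q.comp hT' (lsExt L S T' y) u := by
  refine K0Q.ind (P := fun y => lsExt L S T (K0Q.comp hT' y u) =
    K0Q.comp hT' (lsExt L S T' y) u) ?_ ?_ ?_ ?_ y
  · intro x y hx hy
    simp only [map_add, LinearMap.add_apply, hx, hy]
  · intro c x hx
    simp only [map_smul, LinearMap.smul_apply, hx]
  · simp
  intro M hM
  refine K0Q.ind (P := fun u => lsExt L S T (K0Q.comp hT' (cls M hM) u) =
    K0Q.comp hT' (lsExt L S T' (cls M hM)) u) ?_ ?_ ?_ ?_ u
  · intro x y hx hy
    simp only [map_add, hx, hy]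
  · intro c x hx
    simp only [map_smul, hx]
  · simp
  intro N hN
  rw [K0Q.comp_cls hT' hM hN, lsExt_cls, lsExt_cls, K0Q.comp_cls hT' _ hN]
  exact K0Q.cls_iso (tb_assoc (lsD L S) M N).symm _ _

/-- `S` as an `L`-module -/
def lsM : Bim (ring k L) (base k) :=
  res (lsH L S) (DHom.id (base k)) (fgR (diag (ring k S)))

theorem lsM_l (c : L) (x : S) : (lsM (k := k) L S).l c x = algebraMap L S c * x := rfl

section fin

variable [FiniteDimensional L S]

/-- `v ⊗ c ↦ ∑ v_j c b_j` -/
def lsMf : (Fin (Module.finrank L S) → k) ⊗[k] L →ₗ[k] S :=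
  TensorProduct.lift (LinearMap.mk₂ k
    (fun v c => ∑ j, v j • (c • Module.finBasis L S j))
    (fun v w c => by
      rw [← Finset.sum_add_distrib]
      exact Finset.sum_congr rfl fun j _ => add_smul _ _ _)
    (fun a v c => by
      rw [Finset.smul_sum]
      exact Finset.sum_congr rfl fun j _ => mul_smul _ _ _)
    (fun v c c' => by
      rw [← Finset.sum_add_distrib]
      exact Finset.sum_congr rfl fun j _ => by rw [add_smul, smul_add])
    (fun a v c => by
      rw [Finset.smul_sum]
      exact Finset.sum_congr rfl fun j _ => by rw [smul_assoc, smul_comm]))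

theorem lsMf_tmul (v : Fin (Module.finrank L S) → k) (c : L) :
    lsMf L S (v ⊗ₜ[k] c) = ∑ j, v j • (c • Module.finBasis L S j) := rfl

theorem lsMf_bij : Function.Bijective (lsMf (k := k) L S) := by
  classical
  let g : S → (Fin (Module.finrank L S) → k) ⊗[k] L := fun s =>
    ∑ j, (Pi.single j (1 : k)) ⊗ₜ[k] (Module.finBasis L S).repr s j
  have hg : ∀ s s', g (s + s') = g s + g s' := fun s s' => by
    change ∑ j, _ = ∑ j, _ + ∑ j, _
    rw [← Finset.sum_add_distrib]
    refine Finset.sum_congr rfl fun j _ => ?_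
    rw [map_add, Finsupp.add_apply, TensorProduct.tmul_add]
  refine Function.bijective_iff_has_inverse.2 ⟨g, fun x => ?_, fun s => ?_⟩
  · induction x using TensorProduct.induction_on with
    | zero =>
      rw [map_zero]
      change ∑ j, _ = _
      refine Finset.sum_eq_zero fun j _ => ?_
      rw [map_zero, Finsupp.zero_apply, TensorProduct.tmul_zero]
    | add x y hx hy => rw [map_add, hg, hx, hy]
    | tmul v c =>
      rw [lsMf_tmul]
      change ∑ j, _ = _
      have h1 : ∀ j, (Module.finBasis L S).repr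
          (∑ l, v l • (c • Module.finBasis L S l)) j = v j • c := by
        intro j
        rw [map_sum, Finsupp.finsetSum_apply, Finset.sum_eq_single j]
        · rw [← smul_assoc, map_smul, Finsupp.smul_apply, Module.Basis.repr_self,
            Finsupp.single_eq_same, smul_eq_mul, mul_one]
        · intro l _ hl
          rw [← smul_assoc, map_smul, Finsupp.smul_apply, Module.Basis.repr_self,
            Finsupp.single_eq_of_ne hl.symm, smul_zero]
        · intro h
          exact absurd (Finset.mem_univ _) h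
      rw [Finset.sum_congr rfl fun j _ => by rw [h1 j]]
      have h2 : ∀ j, (Pi.single j (1 : k) : Fin (Module.finrank L S) → k) ⊗ₜ[k] (v j • c) =
          (Pi.single j (v j) : Fin (Module.finrank L S) → k) ⊗ₜ[k] c := by
        intro j
        rw [TensorProduct.tmul_smul, TensorProduct.smul_tmul', ← Pi.single_smul, smul_eq_mul,
          mul_one]
      rw [Finset.sum_congr rfl fun j _ => h2 j, ← TensorProduct.sum_tmul]
      congr 1
      exact Finset.univ_sum_single v
  · change lsMf L S (∑ j, _) = s
    rw [map_sum]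
    have h1 : ∀ j, lsMf L S ((Pi.single j (1 : k) : Fin (Module.finrank L S) → k) ⊗ₜ[k]
        (Module.finBasis L S).repr s j) =
          (Module.finBasis L S).repr s j • Module.finBasis L S j := by
      intro j
      rw [lsMf_tmul, Finset.sum_eq_single j]
      · rw [Pi.single_eq_same, one_smul]
      · intro l _ hl
        rw [Pi.single_eq_of_ne hl, zero_smul]
      · intro h
        exact absurd (Finset.mem_univ _) h
    rw [Finset.sum_congr rfl fun j _ => h1 j]
    exact (Module.finBasis L S).sum_repr s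

theorem lsMf_mul (v : Fin (Module.finrank L S) → k) (a c : L) :
    lsMf L S (v ⊗ₜ[k] (a * c)) = algebraMap L S a * lsMf L S (v ⊗ₜ[k] c) := by
  rw [lsMf_tmul, lsMf_tmul, Finset.mul_sum]
  refine Finset.sum_congr rfl fun j _ => ?_
  rw [← Algebra.smul_def, mul_smul, smul_comm]

theorem lsM_deg {i : ℤ} {m : L} (h : (Dg.conc k L).IsDeg i m)
    (v : Fin (Module.finrank L S) → k) :
    (Dg.conc k S).IsDeg i (lsMf L S (v ⊗ₜ[k] m)) := by
  rcases Dg.conc_cases h with h0 | h0
  · subst h0
    exact Dg.conc_deg _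
  · rw [h0, TensorProduct.tmul_zero, map_zero]
    exact Dg.IsDeg.zero _

/-- `S` is a perfect `L`-module -/
theorem lsM_perf : Perf (lsM (k := k) L S) := by
  refine (BIso.of_bij (M := (fgR (diag (ring k L))).qt (Fin (Module.finrank L S) → k))
    (N := lsM (k := k) L S) (GMap.ofQt (M := fgR (diag (ring k L))) (n := 0)
      (N := lsM (k := k) L S)
      (lsMf (k := k) L S) (fun q {i m} h => ?_) (fun q a m => ?_) (fun q (b : k) m => ?_)) ?_
      (lsMf_bij L S)).perf (Perf.qt _ (perf_fgR_diag _))
  · rw [add_zero]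
    exact lsM_deg L S h q
  · rw [Dg.sp_zero]
    exact lsMf_mul L S q a m
  · rw [base_r (fgR (diag (ring k L))) b m, base_r (lsM (k := k) L S) b, Bim.tq_smul]
    exact map_smul (lsMf (k := k) L S) b _
  · refine Bim.tq_ext (fun q m => ?_)
    rw [GMap.dd_apply, Bim.tq_d, sg_zero, one_smul, LinearMap.zero_apply]
    change (0 : S) - lsMf (k := k) L S (q ⊗ₜ[k] (0 : L)) = 0
    rw [TensorProduct.tmul_zero, map_zero, sub_zero]

/-- the restriction of scalars -/
def lsR (T : DGA k) : DGFun (ring k S) T (ring k L) T := resF (lsH L S) (DHom.id T)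

theorem lsR_free (T : DGA k) : Perf ((lsR L S T).obj (free (ring k S) T)) := by
  have h1 : BIso (free (ring k S) T) (tb (fgR (diag (ring k S))) (free (base k) T)) :=
    (tb_diag_left (free (ring k S) T)).symm.trans (tb_free_right (diag (ring k S)) T)
  have h2 := (lsR L S T).biso h1
  have h3 := res_tb (lsH L S) (DHom.id T) (fgR (diag (ring k S))) (free (base k) T)
  have h4 : Perf (tb (lsM L S) (free (base k) T)) := Perf.tb proper_base (lsM_perf L S) Perf.free
  exact (h2.trans h3).symm.perf h4

/-- the restriction of scalars, on classes -/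
def lsRes (T : DGA k) : K0Q (ring k S) T →ₗ[ℚ] K0Q (ring k L) T :=
  (lsR L S T).k0 (lsR_free L S T)

theorem lsRes_cls {T : DGA k} {M : Bim (ring k S) T} (hM : Perf M) :
    lsRes L S T (cls M hM) = cls (res (lsH L S) (DHom.id T) M)
      ((lsR L S T).perf (lsR_free L S T) hM) :=
  (lsR L S T).k0_cls (lsR_free L S T) hM

variable {L S} {T : DGA k} (M : Bim (ring k S) T)

/-- the left action of `S` -/
def lsA : S →ₗ[k] M.M →ₗ[k] M.M := M.l

theorem lsA_mul (s s' : S) (m : M.M) : lsA M (s * s') m = lsA M s (lsA M s' m) := M.l_mul s s' m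

theorem lsA_one (m : M.M) : lsA M 1 m = m := M.l_one m

theorem lsA_deg {i j : ℤ} {s : S} {m : M.M} (hs : (Dg.conc k S).IsDeg i s)
    (hm : M.dg.IsDeg j m) (b : S) : M.dg.IsDeg (i + j) (lsA M (s * b) m) := by
  rcases Dg.conc_cases hs with h0 | h0
  · subst h0
    exact M.l_deg (Dg.conc_deg (s * b)) hm
  · rw [h0, zero_mul, map_zero, LinearMap.zero_apply]
    exact Dg.IsDeg.zero _

/-- `s ⊗ m ↦ (s b_j m)_j` -/
def lsTb : S →ₗ[k] M.M →ₗ[k] (M.qt (Fin (Module.finrank L S) → k)).M :=
  LinearMap.mk₂ k (fun (s : S) (m : M.M) => ∑ j, M.tq (Pi.single j (1 : k))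
      (lsA M (s * Module.finBasis L S j) m))
    (fun s s' m => by
      rw [← Finset.sum_add_distrib]
      refine Finset.sum_congr rfl fun j _ => ?_
      rw [add_mul, map_add, LinearMap.add_apply, map_add])
    (fun c s m => by
      rw [Finset.smul_sum]
      refine Finset.sum_congr rfl fun j _ => ?_
      rw [smul_mul_assoc, map_smul, LinearMap.smul_apply, Bim.tq_smul])
    (fun s m m' => by
      rw [← Finset.sum_add_distrib]
      refine Finset.sum_congr rfl fun j _ => ?_
      rw [map_add, map_add])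
    (fun c s m => by
      rw [Finset.smul_sum]
      refine Finset.sum_congr rfl fun j _ => ?_
      rw [map_smul, Bim.tq_smul])

theorem lsTb_apply (s : S) (m : M.M) : lsTb (L := L) M s m =
    ∑ j, M.tq (Pi.single j (1 : k)) (lsA M (s * Module.finBasis L S j) m) := rfl

theorem lsTb_l (a s : S) (m : M.M) : lsTb (L := L) M (a * s) m =
    (M.qt (Fin (Module.finrank L S) → k)).l a (lsTb (L := L) M s m) := by
  rw [lsTb_apply, lsTb_apply, map_sum]
  refine Finset.sum_congr rfl fun j _ => ?_
  rw [Bim.tq_l, mul_assoc, lsA_mul]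
  rfl

theorem lsTb_bal (s : S) (c : L) (m : M.M) :
    lsTb (L := L) M (s * algebraMap L S c) m = lsTb (L := L) M s (lsA M (algebraMap L S c) m) := by
  rw [lsTb_apply, lsTb_apply]
  refine Finset.sum_congr rfl fun j _ => ?_
  rw [← lsA_mul, mul_assoc, mul_assoc, Algebra.commutes]

/-- `s ⊗ m ↦ (s b_j m)_j` -/
def lsTf : (tb (lsD L S) (res (lsH L S) (DHom.id T) M)).M →ₗ[k]
    (M.qt (Fin (Module.finrank L S) → k)).M :=
  tlift (M := lsD L S) (N := res (lsH L S) (DHom.id T) M) (lsTb (L := L) M)
    (fun s c m => lsTb_bal (L := L) (S := S) M s c m)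

/-- the pure tensors -/
def lsT (s : S) (m : M.M) : (tb (lsD L S) (res (lsH L S) (DHom.id T) M)).M :=
  tm (M := lsD L S) (N := res (lsH L S) (DHom.id T) M) s m

theorem lsT_l (a : (ring k S).A) (s : S) (m : M.M) :
    (tb (lsD L S) (res (lsH L S) (DHom.id T) M)).l a (lsT M s m) =
      lsT M (HMul.hMul (α := S) (β := S) (γ := S) a s) m :=
  tb_l (M := lsD L S) (N := res (lsH L S) (DHom.id T) M) a s m

theorem lsTf_t (s : S) (m : M.M) : lsTf (L := L) M (lsT M s m) = lsTb (L := L) M s m :=
  tlift_tm (M := lsD L S) (N := res (lsH L S) (DHom.id T) M) (lsTb (L := L) M)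
    (fun s c m => lsTb_bal (L := L) (S := S) M s c m) s m

theorem lsT_ind {P : (tb (lsD L S) (res (lsH L S) (DHom.id T) M)).M → Prop} (h0 : P 0)
    (hadd : ∀ x y, P x → P y → P (x + y)) (h : ∀ (s : S) (m : M.M), P (lsT M s m)) (x) : P x :=
  tb_ind (M := lsD L S) (N := res (lsH L S) (DHom.id T) M) h0 hadd h x

theorem lsT_add (s s' : S) (m : M.M) : lsT (L := L) M (s + s') m = lsT M s m + lsT M s' m :=
  tm_add_left (M := lsD L S) (N := res (lsH L S) (DHom.id T) M) s s' m

theorem lsT_add' (s : S) (m m' : M.M) : lsT (L := L) M s (m + m') = lsT M s m + lsT M s m' :=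
  tm_add_right (M := lsD L S) (N := res (lsH L S) (DHom.id T) M) s m m'

theorem lsT_smul' (c : k) (s : S) (m : M.M) : lsT (L := L) M s (c • m) = c • lsT M s m :=
  tm_smul_right (M := lsD L S) (N := res (lsH L S) (DHom.id T) M) c s m

theorem lsT_bal (s : S) (c : L) (m : M.M) :
    lsT (L := L) M (c • s) m = lsT M s (lsA M (algebraMap L S c) m) := by
  have h := tm_r_l (M := lsD L S) (N := res (lsH L S) (DHom.id T) M) s c m
  have h1 : c • s = s * algebraMap L S c := by rw [Algebra.smul_def, Algebra.commutes]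
  rw [h1]
  exact h

/-- `(m_j) ↦ ∑ w_j m_j`, `w_j = ∑ p_{ji} ⊗ q_{ji}` -/
def lsTg {n : Fin (Module.finrank L S) → ℕ} (p q : ∀ j, Fin (n j) → S) :
    (M.qt (Fin (Module.finrank L S) → k)).M →ₗ[k]
      (tb (lsD L S) (res (lsH L S) (DHom.id T) M)).M :=
  M.tqLift (LinearMap.mk₂ k (fun (v : Fin (Module.finrank L S) → k) (m : M.M) =>
      ∑ j, ∑ i, v j • lsT (L := L) M (p j i) (lsA M (q j i) m))
    (fun v v' m => by
      rw [← Finset.sum_add_distrib]
      refine Finset.sum_congr rfl fun j _ => ?_
      rw [← Finset.sum_add_distrib]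
      exact Finset.sum_congr rfl fun i _ => add_smul _ _ _)
    (fun c v m => by
      rw [Finset.smul_sum]
      refine Finset.sum_congr rfl fun j _ => ?_
      rw [Finset.smul_sum]
      exact Finset.sum_congr rfl fun i _ => mul_smul _ _ _)
    (fun v m m' => by
      rw [← Finset.sum_add_distrib]
      refine Finset.sum_congr rfl fun j _ => ?_
      rw [← Finset.sum_add_distrib]
      refine Finset.sum_congr rfl fun i _ => ?_
      rw [map_add, lsT_add', smul_add])
    (fun c v m => by
      rw [Finset.smul_sum]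
      refine Finset.sum_congr rfl fun j _ => ?_
      rw [Finset.smul_sum]
      refine Finset.sum_congr rfl fun i _ => ?_
      rw [map_smul, lsT_smul', smul_comm]))

theorem lsTg_tq {n : Fin (Module.finrank L S) → ℕ} (p q : ∀ j, Fin (n j) → S)
    (v : Fin (Module.finrank L S) → k) (m : M.M) :
    lsTg M p q (M.tq v m) = ∑ j, ∑ i, v j • lsT (L := L) M (p j i) (lsA M (q j i) m) :=
  Bim.tqLift_tq _ v m

theorem lsTg_single {n : Fin (Module.finrank L S) → ℕ} (p q : ∀ j, Fin (n j) → S)
    (j : Fin (Module.finrank L S)) (m : M.M) :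
    lsTg M p q (M.tq (Pi.single j (1 : k)) m) =
      ∑ i, lsT (L := L) M (p j i) (lsA M (q j i) m) := by
  rw [lsTg_tq, Finset.sum_eq_single j]
  · refine Finset.sum_congr rfl fun i _ => ?_
    rw [Pi.single_eq_same, one_smul]
  · intro l _ hl
    refine Finset.sum_eq_zero fun i _ => ?_
    rw [Pi.single_eq_of_ne hl, zero_smul]
  · intro h
    exact absurd (Finset.mem_univ _) h

/-- evaluation at `m` -/
def lsEv (m : M.M) : S ⊗[L] S →+ (tb (lsD L S) (res (lsH L S) (DHom.id T) M)).M :=
  TensorProduct.liftAddHom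
    { toFun := fun a =>
        { toFun := fun c => lsT (L := L) M a (lsA M c m)
          map_zero' := by
            have h := lsT_smul' (L := L) M 0 a (lsA M 0 m)
            rw [zero_smul, zero_smul] at h
            rw [map_zero, LinearMap.zero_apply]
            exact h
          map_add' := fun c c' => by rw [map_add, LinearMap.add_apply, lsT_add'] }
      map_zero' := AddMonoidHom.ext fun c => by
        have h := lsT_add (L := L) M 0 0 (lsA M c m)
        rw [add_zero] at h
        exact left_eq_add.1 h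
      map_add' := fun a a' => AddMonoidHom.ext fun c => lsT_add M a a' _ }
    (fun c a a' => by
      change lsT (L := L) M (c • a) (lsA M a' m) = lsT (L := L) M a (lsA M (c • a') m)
      rw [lsT_bal, ← lsA_mul, Algebra.smul_def])

theorem lsEv_tmul (m : M.M) (a c : S) : lsEv (L := L) M m (a ⊗ₜ[L] c) = lsT M a (lsA M c m) :=
  rfl

end fin

section central

variable [Algebra.IsCentral L S] [IsSimpleRing S] [FiniteDimensional L S]
  {L S} {T : DGA k} (M : Bim (ring k S) T)

theorem lsTf_bij : Function.Bijective (lsTf (L := L) M) := by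
  classical
  choose n p q hpq using exists_dual L S
  let b := Module.finBasis L S
  have key : ∀ s : S, ∑ j, ∑ i, p j i ⊗ₜ[L] (q j i * (s * b j)) = s ⊗ₜ[L] (1 : S) := by
    intro s
    refine thQ_inj L S (LinearMap.ext fun y => ?_)
    rw [thQ_tmul, mul_one, map_sum, LinearMap.sum_apply]
    have h1 : ∀ j, (thQ L S (∑ i, p j i ⊗ₜ[L] (q j i * (s * b j)))) y = s * (b.coord j y • b j) := by
      intro j
      rw [map_sum, LinearMap.sum_apply]
      have h2 : ∀ i, thQ L S (p j i ⊗ₜ[L] (q j i * (s * b j))) y = p j i * y * q j i * (s * b j) :=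
        fun i => by rw [thQ_tmul, mul_assoc (p j i * y)]
      rw [Finset.sum_congr rfl fun i _ => h2 i, ← Finset.sum_mul, hpq, ← Algebra.smul_def,
        mul_smul_comm]
    rw [Finset.sum_congr rfl fun j _ => h1 j, ← Finset.mul_sum]
    congr 1
    exact b.sum_repr y
  refine Function.bijective_iff_has_inverse.2 ⟨lsTg M p q, fun x => ?_, fun v => ?_⟩
  · refine lsT_ind M (P := fun x => lsTg M p q (lsTf M x) = x) ?_ ?_ ?_ x
    · rw [map_zero, map_zero]
    · intro x y hx hy
      rw [map_add, map_add, hx, hy]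
    · intro s m
      rw [lsTf_t, lsTb_apply, map_sum, Finset.sum_congr rfl fun j _ => lsTg_single M p q j _]
      have h1 : ∀ j i, lsT (L := L) M (p j i) (lsA M (q j i) (lsA M (s * b j) m)) =
          lsEv M m (p j i ⊗ₜ[L] (q j i * (s * b j))) := fun j i => by
        rw [lsEv_tmul, ← lsA_mul]
      rw [Finset.sum_congr rfl fun j _ => Finset.sum_congr rfl fun i _ => h1 j i]
      have h2 : lsEv (L := L) M m (∑ j, ∑ i, p j i ⊗ₜ[L] (q j i * (s * b j))) =
          ∑ j, ∑ i, lsEv M m (p j i ⊗ₜ[L] (q j i * (s * b j))) := by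
        simp only [map_sum]
      rw [← h2, key, lsEv_tmul, lsA_one]
  · have h0 : ∀ (l : Fin (Module.finrank L S)) (m : M.M),
        lsTf (L := L) M (lsTg M p q (M.tq (Pi.single l (1 : k)) m)) =
          M.tq (Pi.single l (1 : k)) m := by
      intro l m
      rw [lsTg_single, map_sum, Finset.sum_congr rfl fun i _ => lsTf_t M _ _]
      simp only [lsTb_apply]
      rw [Finset.sum_comm]
      have h1 : ∀ j, ∑ i, M.tq (Pi.single j (1 : k) : Fin (Module.finrank L S) → k)
          (lsA M (p l i * b j) (lsA M (q l i) m)) =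
            M.tq (Pi.single j (1 : k)) (lsA M (algebraMap L S (b.coord l (b j))) m) := by
        intro j
        refine (map_sum (M.tq (Pi.single j (1 : k) : Fin (Module.finrank L S) → k)) _ _).symm.trans
          (congrArg _ ?_)
        rw [← hpq l (b j), map_sum, LinearMap.sum_apply]
        refine Finset.sum_congr rfl fun i _ => ?_
        rw [← lsA_mul]
      rw [Finset.sum_congr rfl fun j _ => h1 j, Finset.sum_eq_single l]
      · rw [Module.Basis.coord_apply, Module.Basis.repr_self, Finsupp.single_eq_same, map_one,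
          lsA_one]
      · intro j _ hj
        rw [Module.Basis.coord_apply, Module.Basis.repr_self, Finsupp.single_eq_of_ne hj.symm,
          map_zero, map_zero, LinearMap.zero_apply, map_zero]
      · intro h
        exact absurd (Finset.mem_univ _) h
    refine Bim.tq_ind (P := fun v => lsTf (L := L) M (lsTg M p q v) = v) ?_ ?_ ?_ v
    · rw [map_zero, map_zero]
    · intro x y hx hy
      rw [map_add, map_add, hx, hy]
    · intro v m
      have h1 : M.tq v m = ∑ j, v j • M.tq (Pi.single j (1 : k)) m := by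
        have h2 : ∀ j, v j • M.tq (Pi.single j (1 : k) : Fin (Module.finrank L S) → k) m =
            M.tq (Pi.single j (v j) : Fin (Module.finrank L S) → k) m :=
          fun j => by rw [← Bim.smul_tq, ← Pi.single_smul, smul_eq_mul, mul_one]
        rw [Finset.sum_congr rfl fun j _ => h2 j]
        change v ⊗ₜ[k] m = ∑ j, (Pi.single j (v j) : Fin (Module.finrank L S) → k) ⊗ₜ[k] m
        rw [← TensorProduct.sum_tmul, Finset.univ_sum_single]
      rw [h1]
      simp only [map_sum, map_smul, h0]

/-- `S ⊗_L M = M ^ d` -/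
theorem lsT_biso : BIso (tb (lsD L S) (res (lsH L S) (DHom.id T) M))
    (M.qt (Fin (Module.finrank L S) → k)) := by
  refine BIso.of_bij { f := lsTf (L := L) M, deg := ?_, map_l := ?_, map_r := ?_ } ?_
    (lsTf_bij M)
  · intro i x hx
    refine tb_degMap (M := lsD L S) (N := res (lsH L S) (DHom.id T) M)
      (Z := (M.qt (Fin (Module.finrank L S) → k)).dg) (lsTf M) (fun {i j s m} hs hm => ?_) hx
    have h1 : lsTf (L := L) M (tm (M := lsD L S) (N := res (lsH L S) (DHom.id T) M) s m) =
      lsTb (L := L) M s m := lsTf_t M s m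
    rw [h1, lsTb_apply, add_zero]
    exact ls_sum fun l => Bim.tq_deg _ (lsA_deg M hs hm _)
  · intro a x
    rw [Dg.sp_zero]
    refine lsT_ind M (P := fun x => lsTf (L := L) M ((tb (lsD L S)
      (res (lsH L S) (DHom.id T) M)).l a x) =
        (M.qt (Fin (Module.finrank L S) → k)).l a (lsTf (L := L) M x)) ?_ ?_ ?_ x
    · rw [map_zero, map_zero, map_zero]
    · intro x y hx hy
      rw [map_add, map_add, map_add, map_add, hx, hy]
    · intro s m
      rw [lsT_l, lsTf_t, lsTf_t, lsTb_l]
  · intro a x
    refine lsT_ind M (P := fun x => lsTf (L := L) M ((tb (lsD L S)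
      (res (lsH L S) (DHom.id T) M)).r a x) =
        (M.qt (Fin (Module.finrank L S) → k)).r a (lsTf (L := L) M x)) ?_ ?_ ?_ x
    · rw [map_zero, map_zero, map_zero]
    · intro x y hx hy
      rw [map_add, map_add, map_add, map_add, hx, hy]
    · intro s m
      have h1 : (tb (lsD L S) (res (lsH L S) (DHom.id T) M)).r a (lsT M s m) =
        lsT M s (M.r a m) := tb_r _ _ _
      rw [h1, lsTf_t, lsTf_t, lsTb_apply, lsTb_apply, map_sum]
      refine Finset.sum_congr rfl fun j _ => ?_
      rw [Bim.tq_r]
      exact congrArg _ (M.l_r _ _ _)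
  · refine LinearMap.ext fun x => ?_
    rw [GMap.dd_apply, sg_zero, one_smul, LinearMap.zero_apply, sub_eq_zero]
    refine lsT_ind M (P := fun x => (M.qt (Fin (Module.finrank L S) → k)).dg.d
      (lsTf (L := L) M x) = lsTf (L := L) M ((tb (lsD L S)
      (res (lsH L S) (DHom.id T) M)).dg.d x)) ?_ ?_ ?_ x
    · rw [map_zero, map_zero, map_zero, map_zero]
    · intro x y hx hy
      rw [map_add, map_add, map_add, map_add, hx, hy]
    · intro s m
      have h1 : (tb (lsD L S) (res (lsH L S) (DHom.id T) M)).dg.d (lsT M s m) =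
          lsT M s (M.dg.d m) := by
        refine (tb_d (M := lsD L S) (N := res (lsH L S) (DHom.id T) M) s m).trans ?_
        have h2 : (lsD (k := k) L S).dg.d s = 0 := rfl
        have h3 : (lsD (k := k) L S).dg.s s = s := Dg.conc_s (k := k) (V := S) s
        rw [h2, h3, tm_zero_left, zero_add]
        rfl
      rw [h1, lsTf_t, lsTf_t, lsTb_apply, lsTb_apply, map_sum]
      refine Finset.sum_congr rfl fun j _ => ?_
      rw [Bim.tq_d]
      refine congrArg _ ((M.d_l _ _).trans ?_)
      have h4 : ∀ x : S, (ring k S).dg.d x = 0 := fun _ => rfl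
      have h5 : ∀ x : S, (ring k S).dg.s x = x := fun x => Dg.conc_s (k := k) (V := S) x
      rw [h4, h5, map_zero, LinearMap.zero_apply, zero_add]
      rfl

/-- extension after restriction is multiplication with the dimension -/
theorem lsExt_lsRes (x : K0Q (ring k S) T) :
    lsExt L S T (lsRes L S T x) = (Module.finrank L S : ℚ) • x := by
  refine K0Q.ind (P := fun x => lsExt L S T (lsRes L S T x) = (Module.finrank L S : ℚ) • x)
    ?_ ?_ ?_ ?_ x
  · intro x y hx hy
    simp only [map_add, hx, hy, smul_add]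
  · intro c x hx
    simp only [map_smul, hx]
    rw [smul_comm]
  · simp
  intro M hM
  rw [lsRes_cls, lsExt_cls, K0Q.cls_iso (lsT_biso M) _ (Perf.qt _ hM), K0Q.cls_qt _ hM]
  congr 2
  exact Module.finrank_fin_fun k

/-- If every class of perfect `L`-`T`-bimodules factors through `u`, then so does every class of
perfect `S`-`T`-bimodules. -/
theorem surj_of_center {T T' : DGA k} (hT' : Proper T') (u : K0Q T' T)
    (h : ∀ x : K0Q (ring k L) T, ∃ y : K0Q (ring k L) T', K0Q.comp hT' y u = x)
    (x : K0Q (ring k S) T) : ∃ y : K0Q (ring k S) T', K0Q.comp hT' y u = x := by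
  obtain ⟨y, hy⟩ := h (lsRes L S T x)
  have hd : (Module.finrank L S : ℚ) ≠ 0 := by
    have h1 : 0 < Module.finrank L S := Module.finrank_pos_iff.2 inferInstance
    exact_mod_cast h1.ne'
  refine ⟨(Module.finrank L S : ℚ)⁻¹ • lsExt L S T' y, ?_⟩
  rw [map_smul, LinearMap.smul_apply, ← lsExt_comp, hy, lsExt_lsRes, smul_smul,
    inv_mul_cancel₀ hd, one_smul]

/-- The family version: if every class of perfect `L`-`T`-bimodules is a sum of classes which
factor through the `u a`, then so is every class of perfect `S`-`T`-bimodules. -/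
theorem span_of_center {T : DGA k} {ι : Type*} {T' : ι → DGA k} (hT' : ∀ a, Proper (T' a))
    (u : ∀ a, K0Q (T' a) T)
    (h : ∀ x : K0Q (ring k L) T, x ∈ ⨆ a, LinearMap.range ((K0Q.comp (hT' a)).flip (u a)))
    (x : K0Q (ring k S) T) : x ∈ ⨆ a, LinearMap.range ((K0Q.comp (hT' a)).flip (u a)) := by
  have hd : (Module.finrank L S : ℚ) ≠ 0 := by
    have h1 : 0 < Module.finrank L S := Module.finrank_pos_iff.2 inferInstance
    exact_mod_cast h1.ne'
  have h1 : lsExt L S T (lsRes L S T x) ∈
      Submodule.map (lsExt L S T) (⨆ a, LinearMap.range ((K0Q.comp (hT' a)).flip (u a))) :=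
    Submodule.mem_map_of_mem (h _)
  have h2 : Submodule.map (lsExt L S T) (⨆ a, LinearMap.range ((K0Q.comp (A := ring k L)
      (hT' a)).flip (u a))) ≤ ⨆ a, LinearMap.range ((K0Q.comp (hT' a)).flip (u a)) := by
    rw [Submodule.map_iSup]
    refine iSup_mono fun a => ?_
    rw [Submodule.map_le_iff_le_comap]
    rintro _ ⟨y, rfl⟩
    exact ⟨lsExt L S (T' a) y, (lsExt_comp L S (hT' a) (u a) y).symm⟩
  have h3 := h2 h1
  rw [lsExt_lsRes] at h3
  have h4 := Submodule.smul_mem _ (Module.finrank L S : ℚ)⁻¹ h3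
  rwa [smul_smul, inv_mul_cancel₀ hd, one_smul] at h4

end central

end Pool.Agent.MP_6e5bed_ag_WW
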