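import Pool.Agent.Lib.MP_6e5bed_ag_WW.LS
import Pool.Agent.Lib.MP_6e5bed_ag_GG.GE

set_option autoImplicit false

/-!
# MP_6e5bed_ag, THEOREM W, section 8: from the finitely generated fields to the generic algebras
-/

noncomputable section

namespace Pool.Agent.MP_6e5bed_ag_WW

open Pool.Agent.MP_6e5bed_ag_GG Pool.Agent.MP_6e5bed_ag_NC

universe u

variable {k : Type u} [Field k] {i : Type} [Fintype i] {A : CA k i} {m : Ch i}

/-- If, for all finitely generated field extensions `L` of `k`, every class of perfect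
`L`-`T`-bimodules factors through `u`, then so does every class of perfect `S`-`T`-bimodules, for
the generic algebras `S`. -/
theorem surj_gd (g : GD A m) {T T' : DGA k} (hT' : Proper T') (u : K0Q T' T)
    (h : ∀ (L : Type u) [Field L] [Algebra k L] [Algebra.EssFiniteType k L]
      (x : K0Q (ring k L) T), ∃ y : K0Q (ring k L) T', K0Q.comp hT' y u = x)
    (x : K0Q (ring k g.S) T) : ∃ y : K0Q (ring k g.S) T', K0Q.comp hT' y u = x := by
  obtain ⟨L, i1, i2, i3, i4, h1, h2, h3, -⟩ := g.exists_L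
  have h4 : IsSimpleRing g.S := g.main.1
  have h5 : FiniteDimensional L g.S := h2
  exact surj_of_center (L := L) (S := g.S) hT' u (fun x => h L x) x

/-- The family version. -/
theorem span_gd (g : GD A m) {T : DGA k} {ι : Type*} {T' : ι → DGA k}
    (hT' : ∀ a, Proper (T' a)) (u : ∀ a, K0Q (T' a) T)
    (h : ∀ (L : Type u) [Field L] [Algebra k L] [Algebra.EssFiniteType k L]
      (x : K0Q (ring k L) T), x ∈ ⨆ a, LinearMap.range ((K0Q.comp (hT' a)).flip (u a)))
    (x : K0Q (ring k g.S) T) : x ∈ ⨆ a, LinearMap.range ((K0Q.comp (hT' a)).flip (u a)) := by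
  obtain ⟨L, i1, i2, i3, i4, h1, h2, h3, -⟩ := g.exists_L
  have h4 : IsSimpleRing g.S := g.main.1
  have h5 : FiniteDimensional L g.S := h2
  exact span_of_center (L := L) (S := g.S) hT' u (fun x => h L x) x

/-- The family version, with the hypothesis for the centre only. -/
theorem span_gd_center (g : GD A m) {T : DGA k} {ι : Type*} {T' : ι → DGA k}
    (hT' : ∀ a, Proper (T' a)) (u : ∀ a, K0Q (T' a) T)
    (h : ∀ x : K0Q (ring k (Subalgebra.center k g.S)) T,
      x ∈ ⨆ a, LinearMap.range ((K0Q.comp (hT' a)).flip (u a)))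
    (x : K0Q (ring k g.S) T) : x ∈ ⨆ a, LinearMap.range ((K0Q.comp (hT' a)).flip (u a)) := by
  obtain ⟨L, i1, i2, i3, i4, h1, h2, h3, h6⟩ := g.exists_L
  have h4 : IsSimpleRing g.S := g.main.1
  have h5 : FiniteDimensional L g.S := h2
  have h7 := h6 (fun Z _ _ => ∀ x : K0Q (ring k Z) T,
    x ∈ ⨆ a, LinearMap.range ((K0Q.comp (hT' a)).flip (u a))) h
  exact span_of_center (L := L) (S := g.S) hT' u h7 x

end Pool.Agent.MP_6e5bed_ag_WW
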