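import Pool.Agent.Lib.MP_6e5bed_ag_PS.Dist
import Pool.Agent.Lib.MP_6e5bed_ag_GG.CohF

set_option autoImplicit false
set_option linter.unusedVariables false

/-!
# MP_6e5bed_ag, THEOREM W, (2.1): the long exact sequence of the cohomology bisheaves
-/

noncomputable section

namespace Pool.Agent.MP_6e5bed_ag_WW

open Pool.Agent.MP_6e5bed_ag_NC Pool.Agent.MP_6e5bed_ag_GG
open Pool.Agent.MP_6e5bed_ag_PN hiding Ch
open Pool.Agent.MP_6e5bed_ag_NS (Cx CHom ringH)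
open Pool.Agent.MP_6e5bed_ag_PS (Dist)
open scoped TensorProduct

universe u

/-! ### Linear maps from their graphs -/

section rel

variable {B M N : Type*} [Ring B] [AddCommGroup M] [Module B M] [AddCommGroup N] [Module B N]
  {R : Submodule B (M × N)}

theorem rel_uniq (hf : ∀ y, ((0 : M), y) ∈ R → y = 0) {x : M} {y y' : N} (h : (x, y) ∈ R)
    (h' : (x, y') ∈ R) : y = y' := by
  have h1 := R.sub_mem h h'
  rw [Prod.mk_sub_mk, sub_self] at h1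
  exact sub_eq_zero.1 (hf _ h1)

/-- the linear map with the graph `R` -/
def relL (R : Submodule B (M × N)) (ht : ∀ x, ∃ y, (x, y) ∈ R)
    (hf : ∀ y, ((0 : M), y) ∈ R → y = 0) : M →ₗ[B] N where
  toFun := fun x => (ht x).choose
  map_add' := fun x y => rel_uniq hf (ht (x + y)).choose_spec
    (R.add_mem (ht x).choose_spec (ht y).choose_spec)
  map_smul' := fun c x => rel_uniq hf (ht (c • x)).choose_spec
    (R.smul_mem c (ht x).choose_spec)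

theorem relL_iff (ht : ∀ x, ∃ y, (x, y) ∈ R) (hf : ∀ y, ((0 : M), y) ∈ R → y = 0) {x : M}
    {y : N} : relL R ht hf x = y ↔ (x, y) ∈ R := by
  constructor
  · rintro rfl
    exact (ht x).choose_spec
  · intro h
    exact rel_uniq hf (ht x).choose_spec h

end rel

/-! ### Homogeneous elements -/

section deg

variable {k : Type u} [Field k] {X1 X2 X3 : Cx k} {a : CHom X1 X2} {b : CHom X2 X3}

theorem dist_surj_deg (h : Dist a b) {n : ℤ} {x3 : X3.V} (h1 : X3.dg.IsDeg n x3)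
    (h2 : X3.dg.d x3 = 0) : ∃ (x1 : X1.V) (x2 : X2.V) (y3 : X3.V), X1.dg.IsDeg (n + 1) x1 ∧
      X2.dg.IsDeg n x2 ∧ X1.dg.d x1 = 0 ∧ a.f x1 + X2.dg.d x2 = 0 ∧
      x3 = b.f x2 + X3.dg.d y3 := by
  obtain ⟨x1, x2, y3, e1, e2, e3⟩ := h.surj x3 h2
  refine ⟨X1.dg.ρ x1 (n + 1), X2.dg.ρ x2 n, X3.dg.ρ y3 (n - 1), Dg.isDeg_ρ _ _,
    Dg.isDeg_ρ _ _, ?_, ?_, ?_⟩
  · have h3 := ρ_d' X1 x1 (n + 1 + 1)
    rw [add_sub_cancel_right] at h3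
    rw [← h3, e1, map_zero, Finsupp.zero_apply]
  · have h3 := ρ_d' X2 x2 (n + 1)
    rw [add_sub_cancel_right] at h3
    rw [← ρ_hom, ← h3, ← ρ_add, e2, map_zero, Finsupp.zero_apply]
  · rw [← ρ_hom, ← ρ_d', ← ρ_add, ← e3, ρ_self h1]

theorem dist_inj_deg (h : Dist a b) {n : ℤ} {x1 : X1.V} {x2 : X2.V} {x3 : X3.V}
    (h1 : X1.dg.IsDeg (n + 1) x1) (h2 : X2.dg.IsDeg n x2) (e1 : X1.dg.d x1 = 0)
    (e2 : a.f x1 + X2.dg.d x2 = 0) (e3 : b.f x2 = X3.dg.d x3) :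
    ∃ (y1 : X1.V) (y2 : X2.V), X1.dg.IsDeg n y1 ∧ x1 = - X1.dg.d y1 ∧
      x2 = a.f y1 + X2.dg.d y2 := by
  obtain ⟨y1, y2, k1, k2⟩ := h.inj x1 x2 x3 e1 e2 e3
  refine ⟨X1.dg.ρ y1 n, X2.dg.ρ y2 (n - 1), Dg.isDeg_ρ _ _, ?_, ?_⟩
  · have h3 := ρ_d' X1 y1 (n + 1)
    rw [add_sub_cancel_right] at h3
    rw [← h3, ← Finsupp.neg_apply, ← map_neg, ← k1, ρ_self h1]
  · rw [← ρ_hom, ← ρ_d', ← ρ_add, ← k2, ρ_self h2]

end deg

variable {k : Type u} [Field k] {i j : Type} [Fintype i] [Fintype j] {A : CA k i} {A' : CA k j}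

/-! ### Classes of cocycles -/

section hc

variable {F G : BPB A A'} {hQ : F.QC} {hG : G.QC} {n : ℤ} {p : Ch i × Ch j}

/-- the class of a cocycle -/
def hc (F : BPB A A') (hQ : F.QC) (n : ℤ) {p : Ch i × Ch j} (x : (bcx (F.F p)).V)
    (h1 : (bcx (F.F p)).dg.IsDeg n x) (h2 : (bcx (F.F p)).dg.d x = 0) : (F.H hQ n).E p :=
  (F.ca p).cl x h1 h2

theorem hc_surj (z : (F.H hQ n).E p) : ∃ (x : (bcx (F.F p)).V)
    (h1 : (bcx (F.F p)).dg.IsDeg n x) (h2 : (bcx (F.F p)).dg.d x = 0), z = hc F hQ n x h1 h2 :=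
  (F.ca p).cl_surj z

theorem hc_eq_zero {x : (bcx (F.F p)).V} {h1 : (bcx (F.F p)).dg.IsDeg n x}
    {h2 : (bcx (F.F p)).dg.d x = 0} : hc F hQ n x h1 h2 = 0 ↔
      ∃ y, (bcx (F.F p)).dg.d y = x := CAct.cl_eq_zero

theorem hc_eq {x y : (bcx (F.F p)).V} {h1 : (bcx (F.F p)).dg.IsDeg n x}
    {h2 : (bcx (F.F p)).dg.d x = 0} {h3 : (bcx (F.F p)).dg.IsDeg n y}
    {h4 : (bcx (F.F p)).dg.d y = 0} : hc F hQ n x h1 h2 = hc F hQ n y h3 h4 ↔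
      ∃ z, (bcx (F.F p)).dg.d z = x - y := CAct.cl_eq

theorem hc_ext {x y : (bcx (F.F p)).V} {h1 : (bcx (F.F p)).dg.IsDeg n x}
    {h2 : (bcx (F.F p)).dg.d x = 0} {h3 : (bcx (F.F p)).dg.IsDeg n y}
    {h4 : (bcx (F.F p)).dg.d y = 0} (e : x = y) :
    hc F hQ n x h1 h2 = hc F hQ n y h3 h4 := CAct.cl_ext (a := F.ca p) e

theorem hc_add {x y : (bcx (F.F p)).V} (h1 : (bcx (F.F p)).dg.IsDeg n x)
    (h2 : (bcx (F.F p)).dg.d x = 0) (h3 : (bcx (F.F p)).dg.IsDeg n y)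
    (h4 : (bcx (F.F p)).dg.d y = 0) : hc F hQ n x h1 h2 + hc F hQ n y h3 h4 =
      hc F hQ n (x + y) (h1.add h3) (cyc_add h2 h4) := rfl

theorem smul_hc (c : (bs A A').B p) {x : (bcx (F.F p)).V}
    (h1 : (bcx (F.F p)).dg.IsDeg n x) (h2 : (bcx (F.F p)).dg.d x = 0) :
    c • hc F hQ n x h1 h2 = hc F hQ n ((F.ca p).φ c x) ((F.ca p).deg c h1)
      ((F.ca p).cyc c h2) := rfl

theorem res_hc {q : Ch i × Ch j} (h : p ≤ q) {x : (bcx (F.F p)).V}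
    (h1 : (bcx (F.F p)).dg.IsDeg n x) (h2 : (bcx (F.F p)).dg.d x = 0) :
    (F.H hQ n).res h (hc F hQ n x h1 h2) = hc F hQ n ((F.rho h).f x) ((F.rho h).deg h1)
      (chom_cyc _ h2) := rfl

theorem H_hc (φ : BPH F G) {x : (bcx (F.F p)).V} (h1 : (bcx (F.F p)).dg.IsDeg n x)
    (h2 : (bcx (F.F p)).dg.d x = 0) : (φ.H hQ hG n).f p (hc F hQ n x h1 h2) =
      hc G hG n ((φ.ch p).f x) ((φ.ch p).deg h1) (chom_cyc (φ.ch p) h2) := rfl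

theorem ch_act (φ : BPH F G) (c : (bs A A').B p) (x : (bcx (F.F p)).V) :
    (φ.ch p).f ((F.ca p).φ c x) = (G.ca p).φ c ((φ.ch p).f x) := gmap_bact (φ.f p) c x

theorem ch_nat (φ : BPH F G) {q : Ch i × Ch j} (h : p ≤ q) (x : (bcx (F.F p)).V) :
    (G.rho h).f ((φ.ch p).f x) = (φ.ch q).f ((F.rho h).f x) := φ.nat h x

end hc

section les

variable {F' F F'' : BPB A A'} {a : BPH F' F} {b : BPH F F''}

theorem les_cyc (hD : ∀ p, Dist (a.ch p) (b.ch p)) {p : Ch i × Ch j}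
    {x1 : (bcx (F'.F p)).V} {x2 : (bcx (F.F p)).V}
    (h : (a.ch p).f x1 + (bcx (F.F p)).dg.d x2 = 0) :
    (bcx (F''.F p)).dg.d ((b.ch p).f x2) = 0 := by
  rw [(b.ch p).d, eq_neg_of_add_eq_zero_right h, map_neg, (hD p).zero, neg_zero]

/-- the graph of the connecting map -/
def lesR (hD : ∀ p, Dist (a.ch p) (b.ch p)) (hQ' : F'.QC) (hQ'' : F''.QC) (n : ℤ)
    (p : Ch i × Ch j) : Submodule ((bs A A').B p)
    ((F''.H hQ'' n).E p × (F'.H hQ' (n + 1)).E p) where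
  carrier := {z | ∃ (x1 : (bcx (F'.F p)).V) (h1 : (bcx (F'.F p)).dg.IsDeg (n + 1) x1)
    (h1' : (bcx (F'.F p)).dg.d x1 = 0) (x2 : (bcx (F.F p)).V)
    (h2 : (bcx (F.F p)).dg.IsDeg n x2)
    (h : (a.ch p).f x1 + (bcx (F.F p)).dg.d x2 = 0), z.1 = hc F'' hQ'' n ((b.ch p).f x2)
      ((b.ch p).deg h2) (les_cyc hD h) ∧ z.2 = hc F' hQ' (n + 1) x1 h1 h1'}
  zero_mem' := ⟨0, Dg.IsDeg.zero _, map_zero _, 0, Dg.IsDeg.zero _, by
    rw [map_zero, map_zero, add_zero], (hc_eq_zero.2 ⟨0, by rw [map_zero, map_zero]⟩).symm,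
    (hc_eq_zero.2 ⟨0, by rw [map_zero]⟩).symm⟩
  add_mem' := by
    rintro z w ⟨x1, h1, h1', x2, h2, h, e1, e2⟩ ⟨y1, g1, g1', y2, g2, g, f1, f2⟩
    refine ⟨x1 + y1, h1.add g1, cyc_add h1' g1', x2 + y2, h2.add g2, ?_, ?_, ?_⟩
    · rw [map_add, map_add, add_add_add_comm, h, g, add_zero]
    · refine (congrArg₂ (· + ·) e1 f1).trans ?_
      exact hc_ext (h1 := ((b.ch p).deg h2).add ((b.ch p).deg g2))
        (h2 := cyc_add (les_cyc hD h) (les_cyc hD g)) (map_add (b.ch p).f x2 y2).symm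
    · exact congrArg₂ (· + ·) e2 f2
  smul_mem' := by
    rintro c z ⟨x1, h1, h1', x2, h2, h, e1, e2⟩
    refine ⟨(F'.ca p).φ c x1, (F'.ca p).deg c h1, (F'.ca p).cyc c h1',
      (F.ca p).φ c x2, (F.ca p).deg c h2, ?_, ?_, ?_⟩
    · rw [ch_act, (F.ca p).d, ← map_add, h, map_zero]
    · refine (congrArg (fun y => c • y) e1).trans ?_
      exact hc_ext (h1 := (F''.ca p).deg c ((b.ch p).deg h2))
        (h2 := (F''.ca p).cyc c (les_cyc hD h)) (ch_act b c x2).symm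
    · exact congrArg (fun y => c • y) e2

theorem lesR_tot (hD : ∀ p, Dist (a.ch p) (b.ch p)) (hQ' : F'.QC) (hQ'' : F''.QC) (n : ℤ)
    (p : Ch i × Ch j) (z : (F''.H hQ'' n).E p) : ∃ w, (z, w) ∈ lesR hD hQ' hQ'' n p := by
  obtain ⟨x3, h1, h2, rfl⟩ := hc_surj z
  obtain ⟨x1, x2, y3, k1, k2, k3, k4, k5⟩ := dist_surj_deg (hD p) h1 h2
  refine ⟨hc F' hQ' (n + 1) x1 k1 k3, x1, k1, k3, x2, k2, k4, ?_, rfl⟩
  refine (hc_eq (h1 := h1) (h2 := h2) (h3 := (b.ch p).deg k2) (h4 := les_cyc hD k4)).2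
    ⟨y3, ?_⟩
  rw [k5, add_sub_cancel_left]

theorem lesR_fun (hD : ∀ p, Dist (a.ch p) (b.ch p)) (hQ' : F'.QC) (hQ'' : F''.QC) (n : ℤ)
    (p : Ch i × Ch j) (w : (F'.H hQ' (n + 1)).E p)
    (h : ((0 : (F''.H hQ'' n).E p), w) ∈ lesR hD hQ' hQ'' n p) : w = 0 := by
  obtain ⟨x1, h1, h1', x2, h2, h, e1, e2⟩ := h
  obtain ⟨y, hy⟩ := hc_eq_zero.1 e1.symm
  obtain ⟨y1, y2, k1, k2, k3⟩ := dist_inj_deg (hD p) h1 h2 h1' h hy.symm
  refine e2.trans (hc_eq_zero.2 ⟨-y1, ?_⟩)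
  rw [map_neg]
  exact k2.symm

/-- THE CONNECTING MAP -/
def lesD (hD : ∀ p, Dist (a.ch p) (b.ch p)) (hQ' : F'.QC) (hQ'' : F''.QC) (n : ℤ) :
    ShH (F''.H hQ'' n) (F'.H hQ' (n + 1)) where
  f := fun p => relL (lesR hD hQ' hQ'' n p) (lesR_tot hD hQ' hQ'' n p)
    (lesR_fun hD hQ' hQ'' n p)
  nat := fun {p q} hpq z => by
    refine ((relL_iff (lesR_tot hD hQ' hQ'' n q) (lesR_fun hD hQ' hQ'' n q)).2 ?_).symm
    obtain ⟨x1, h1, h1', x2, h2, h, e1, e2⟩ :=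
      (relL_iff (lesR_tot hD hQ' hQ'' n p) (lesR_fun hD hQ' hQ'' n p) (x := z)).1 rfl
    refine ⟨(F'.rho hpq).f x1, (F'.rho hpq).deg h1, chom_cyc _ h1', (F.rho hpq).f x2,
      (F.rho hpq).deg h2, ?_, ?_, ?_⟩
    · rw [← ch_nat, (F.rho hpq).d, ← map_add, h, map_zero]
    · refine (congrArg ((F''.H hQ'' n).res hpq) e1).trans ?_
      exact hc_ext (h1 := (F''.rho hpq).deg ((b.ch p).deg h2))
        (h2 := chom_cyc _ (les_cyc hD h)) (ch_nat b hpq x2)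
    · exact congrArg ((F'.H hQ' (n + 1)).res hpq) e2

theorem lesD_iff (hD : ∀ p, Dist (a.ch p) (b.ch p)) {hQ' : F'.QC} {hQ'' : F''.QC} {n : ℤ}
    {p : Ch i × Ch j} {z : (F''.H hQ'' n).E p} {w : (F'.H hQ' (n + 1)).E p} :
    (lesD hD hQ' hQ'' n).f p z = w ↔ (z, w) ∈ lesR hD hQ' hQ'' n p :=
  relL_iff (lesR_tot hD hQ' hQ'' n p) (lesR_fun hD hQ' hQ'' n p)

/-- exactness at `H^n F` -/
theorem les_mid (hD : ∀ p, Dist (a.ch p) (b.ch p)) (hQ' : F'.QC) (hQ : F.QC)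
    (hQ'' : F''.QC) (n : ℤ) (p : Ch i × Ch j) (z : (F.H hQ n).E p) :
    (b.H hQ hQ'' n).f p z = 0 ↔ ∃ y, (a.H hQ' hQ n).f p y = z := by
  constructor
  · intro h
    obtain ⟨x, h1, h2, rfl⟩ := hc_surj z
    obtain ⟨w, hw⟩ := hc_eq_zero.1 ((H_hc b h1 h2).symm.trans h)
    obtain ⟨y1, y2, k1, k2, k3⟩ := dist_inj_deg (hD p) (Dg.IsDeg.zero (n + 1)) h1
      (map_zero _) (by rw [map_zero, zero_add, h2]) hw.symm
    have k4 : (bcx (F'.F p)).dg.d y1 = 0 := neg_eq_zero.1 k2.symm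
    refine ⟨hc F' hQ' n y1 k1 k4, (H_hc a k1 k4).trans (hc_eq.2 ⟨-y2, ?_⟩)⟩
    rw [k3, map_neg]
    abel
  · rintro ⟨y, rfl⟩
    obtain ⟨x, h1, h2, rfl⟩ := hc_surj y
    exact (H_hc b ((a.ch p).deg h1) (chom_cyc _ h2)).trans
      (hc_eq_zero.2 ⟨0, by rw [map_zero, (hD p).zero]⟩)

/-- exactness at `H^n F''` -/
theorem les_right (hD : ∀ p, Dist (a.ch p) (b.ch p)) (hQ' : F'.QC) (hQ : F.QC)
    (hQ'' : F''.QC) (n : ℤ) (p : Ch i × Ch j) (z : (F''.H hQ'' n).E p) :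
    (lesD hD hQ' hQ'' n).f p z = 0 ↔ ∃ y, (b.H hQ hQ'' n).f p y = z := by
  rw [lesD_iff]
  constructor
  · rintro ⟨x1, h1, h1', x2, h2, h, e1, e2⟩
    obtain ⟨w, hw⟩ := hc_eq_zero.1 e2.symm
    have hw' : (bcx (F'.F p)).dg.d ((bcx (F'.F p)).dg.ρ w n) = x1 := by
      have h3 := ρ_d' (bcx (F'.F p)) w (n + 1)
      rw [add_sub_cancel_right] at h3
      rw [← h3, hw, ρ_self h1]
    have hwd : (bcx (F'.F p)).dg.IsDeg n ((bcx (F'.F p)).dg.ρ w n) := Dg.isDeg_ρ _ _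
    generalize (bcx (F'.F p)).dg.ρ w n = v at hw' hwd
    have k1 : (bcx (F.F p)).dg.d (x2 + (a.ch p).f v) = 0 := by
      rw [map_add, (a.ch p).d, hw', add_comm]
      exact h
    refine ⟨hc F hQ n (x2 + (a.ch p).f v) (h2.add ((a.ch p).deg hwd)) k1, ?_⟩
    refine Eq.trans ((H_hc b _ k1).trans (hc_ext ?_)) e1.symm
    rw [map_add, (hD p).zero, add_zero]
  · rintro ⟨y, rfl⟩
    obtain ⟨x, h1, h2, rfl⟩ := hc_surj y
    exact ⟨0, Dg.IsDeg.zero _, map_zero _, x, h1, by rw [map_zero, zero_add, h2], rfl,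
      (hc_eq_zero.2 ⟨0, by rw [map_zero]⟩).symm⟩

/-- exactness at `H^{n+1} F'` -/
theorem les_left (hD : ∀ p, Dist (a.ch p) (b.ch p)) (hQ' : F'.QC) (hQ : F.QC)
    (hQ'' : F''.QC) (n : ℤ) (p : Ch i × Ch j) (z : (F'.H hQ' (n + 1)).E p) :
    (a.H hQ' hQ (n + 1)).f p z = 0 ↔ ∃ y, (lesD hD hQ' hQ'' n).f p y = z := by
  constructor
  · intro h
    obtain ⟨x, h1, h2, rfl⟩ := hc_surj z
    obtain ⟨w, hw⟩ := hc_eq_zero.1 ((H_hc a h1 h2).symm.trans h)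
    have hw' : (bcx (F.F p)).dg.d ((bcx (F.F p)).dg.ρ w n) = (a.ch p).f x := by
      have h3 := ρ_d' (bcx (F.F p)) w (n + 1)
      rw [add_sub_cancel_right] at h3
      rw [← h3, hw, ρ_self ((a.ch p).deg h1)]
    have hwd : (bcx (F.F p)).dg.IsDeg n ((bcx (F.F p)).dg.ρ w n) := Dg.isDeg_ρ _ _
    generalize (bcx (F.F p)).dg.ρ w n = v at hw' hwd
    have k1 : (a.ch p).f x + (bcx (F.F p)).dg.d (-v) = 0 := by
      rw [map_neg, hw', add_neg_cancel]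
    exact ⟨_, (lesD_iff hD).2 ⟨x, h1, h2, -v, hwd.neg, k1, rfl, rfl⟩⟩
  · rintro ⟨y, hy⟩
    obtain ⟨x1, h1, h1', x2, h2, h, e1, e2⟩ := (lesD_iff hD).1 hy
    refine (congrArg ((a.H hQ' hQ (n + 1)).f p) e2).trans ?_
    refine (H_hc a h1 h1').trans (hc_eq_zero.2 ⟨-x2, ?_⟩)
    rw [map_neg]
    exact (eq_neg_of_add_eq_zero_left h).symm

end les

end Pool.Agent.MP_6e5bed_ag_WW
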