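import Pool.Agent.Lib.MP_6e5bed_ag_WW.Gen
import Pool.Agent.Lib.MP_6e5bed_ag_GG.IC

set_option autoImplicit false

/-!
# MP_6e5bed_ag, THEOREM W: bisheaves which are coherent over the generic point of a chart
-/

noncomputable section

namespace Pool.Agent.MP_6e5bed_ag_WW

open Pool.Agent.MP_6e5bed_ag_GG
open scoped TensorProduct

universe u

variable {k : Type u} [Field k] {i j : Type} [Fintype i] [Fintype j] {A : CA k i} {A' : CA k j}

/-- A bisheaf which is killed by the ideals `I` and coherent over `m` up to the denominators in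
`Sg`. -/
structure SCo (I : ∀ c : Ch i, Ideal (A.A c)) (m : Ch i) (Sg : Submonoid (RR k m.1))
    (Z : BS A A') : Prop where
  ann : I ≤ MP_6e5bed_ag_GG.ann Z
  ex : ∃ N : Sub Z, N.sh.Coh ∧ ∀ (c' : Ch j) (z : Z.E (m, c')), ∃ f ∈ Sg,
    cl1 A A' (m, c') f • z ∈ N.N (m, c')

/-- A morphism which is bijective over `m` up to the denominators in `Sg`. -/
structure SIso (m : Ch i) (Sg : Submonoid (RR k m.1)) {Z₁ Z₂ : BS A A'} (φ : ShH Z₁ Z₂) :
    Prop where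
  inj : ∀ (c' : Ch j) (x : Z₁.E (m, c')), φ.f (m, c') x = 0 → ∃ f ∈ Sg,
    cl1 A A' (m, c') f • x = 0
  surj : ∀ (c' : Ch j) (z : Z₂.E (m, c')), ∃ f ∈ Sg, ∃ x, φ.f (m, c') x =
    cl1 A A' (m, c') f • z

variable {I : ∀ c : Ch i, Ideal (A.A c)} {m : Ch i} {Sg : Submonoid (RR k m.1)}

theorem SIso.of_bij {Z₁ Z₂ : BS A A'} {φ : ShH Z₁ Z₂} (h : φ.Bij) : SIso m Sg φ where
  inj := fun c' x hx => ⟨1, Sg.one_mem, by
    have h1 : x = 0 := (h (m, c')).1 (by rw [hx, map_zero])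
    rw [h1, smul_zero]⟩
  surj := fun c' z => by
    obtain ⟨x, rfl⟩ := (h (m, c')).2 z
    exact ⟨1, Sg.one_mem, x, by rw [cl1_one, one_smul]⟩

theorem SIso.comp {Z₁ Z₂ Z₃ : BS A A'} {φ : ShH Z₁ Z₂} {ψ : ShH Z₂ Z₃} (h : SIso m Sg φ)
    (h' : SIso m Sg ψ) : SIso m Sg (ψ.comp φ) where
  inj := fun c' x hx => by
    obtain ⟨f, hf, h1⟩ := h'.inj c' (φ.f (m, c') x) hx
    rw [← map_smul] at h1
    obtain ⟨g, hg, h2⟩ := h.inj c' _ h1
    exact ⟨g * f, Sg.mul_mem hg hf, by rw [cl1_mul, mul_smul, h2]⟩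
  surj := fun c' z => by
    obtain ⟨f, hf, y, hy⟩ := h'.surj c' z
    obtain ⟨g, hg, x, hx⟩ := h.surj c' y
    refine ⟨g * f, Sg.mul_mem hg hf, x, ?_⟩
    change ψ.f (m, c') (φ.f (m, c') x) = _
    rw [hx, map_smul, hy, cl1_mul, mul_smul]

/-- the inclusion of a subsheaf which contains everything up to denominators -/
theorem SIso.incl {Z : BS A A'} {N : Sub Z} (h : ∀ (c' : Ch j) (z : Z.E (m, c')), ∃ f ∈ Sg,
    cl1 A A' (m, c') f • z ∈ N.N (m, c')) : SIso m Sg N.incl where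
  inj := fun c' x hx => ⟨1, Sg.one_mem, by
    have h1 : x = 0 := N.incl_inj (m, c') (by rw [hx, map_zero])
    rw [h1, smul_zero]⟩
  surj := fun c' z => by
    obtain ⟨f, hf, h1⟩ := h c' z
    exact ⟨f, hf, ⟨_, h1⟩, rfl⟩

theorem top_coh {S : Site k} {Z : Sh S} (h : Z.Coh) : (Sub.top Z).sh.Coh :=
  h.of_surj ((ShH.id Z).codRestr (Sub.top Z) (fun _ _ => Submodule.mem_top)) (fun _ x =>
    ⟨x.1, rfl⟩)

/-- coherent bisheaves -/
theorem SCo.of_coh {Z : BS A A'} (h : Z.Coh) (hI : I ≤ MP_6e5bed_ag_GG.ann Z) : SCo I m Sg Z where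
  ann := hI
  ex := ⟨Sub.top Z, top_coh h, fun _ _ => ⟨1, Sg.one_mem, Submodule.mem_top⟩⟩

/-- images of coherent subsheaves: if a coherent sheaf maps onto `Z` up to denominators -/
theorem SCo.of_map {F Z : BS A A'} (hF : F.Coh) (φ : ShH F Z) (hI : I ≤ MP_6e5bed_ag_GG.ann Z)
    (h : ∀ (c' : Ch j) (z : Z.E (m, c')), ∃ f ∈ Sg, ∃ x, φ.f (m, c') x =
      cl1 A A' (m, c') f • z) : SCo I m Sg Z where
  ann := hI
  ex := ⟨φ.range, coh_range hF φ, fun c' z => by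
    obtain ⟨f, hf, x, hx⟩ := h c' z
    exact ⟨f, hf, x, hx⟩⟩

/-- the image under a morphism which is surjective up to denominators -/
theorem SCo.map {Z₁ Z₂ : BS A A'} (h : SCo I m Sg Z₁) (φ : ShH Z₁ Z₂) (hI : I ≤ MP_6e5bed_ag_GG.ann Z₂)
    (hs : ∀ (c' : Ch j) (z : Z₂.E (m, c')), ∃ f ∈ Sg, ∃ x, φ.f (m, c') x =
      cl1 A A' (m, c') f • z) : SCo I m Sg Z₂ := by
  obtain ⟨N, hN, h1⟩ := h.ex
  refine SCo.of_map hN (φ.comp N.incl) hI (fun c' z => ?_)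
  obtain ⟨f, hf, x, hx⟩ := hs c' z
  obtain ⟨g, hg, h2⟩ := h1 c' x
  refine ⟨g * f, Sg.mul_mem hg hf, ⟨_, h2⟩, ?_⟩
  change φ.f (m, c') (cl1 A A' (m, c') g • x) = _
  rw [map_smul, hx, cl1_mul, mul_smul]

theorem SCo.of_bij {Z₁ Z₂ : BS A A'} (h : SCo I m Sg Z₁) {φ : ShH Z₁ Z₂} (hφ : φ.Bij) :
    SCo I m Sg Z₂ :=
  h.map φ (h.ann.trans (ann_of_surj φ (fun p => (hφ p).2))) (SIso.of_bij hφ).surj

theorem SCo.quot {Z : BS A A'} (h : SCo I m Sg Z) (N : Sub Z) : SCo I m Sg N.quot :=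
  h.map N.proj (h.ann.trans (ann_quot Z N)) (fun c' z => by
    obtain ⟨x, rfl⟩ := N.proj_surj (m, c') z
    exact ⟨1, Sg.one_mem, x, by rw [cl1_one, one_smul]⟩)

theorem SCo.sub (hN : (bs A A').Noe) {Z : BS A A'} (h : SCo I m Sg Z) (N : Sub Z) :
    SCo I m Sg N.sh := by
  obtain ⟨M, hM, h1⟩ := h.ex
  refine ⟨h.ann.trans (ann_sub Z N), Sub.restr N M, ?_, fun c' z => ?_⟩
  · have h2 : (Sub.inf M N).sh.Coh := by
      have h3 : (Sub.restr M N).sh.Coh := hM.sub hN _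
      exact h3.of_surj (Sub.infIso M N) (fun p => (Sub.infIso_bij M N p).2)
    have h4 : (Sub.inf N M).sh.Coh :=
      h2.of_surj (Sub.infComm M N) (fun p => (Sub.infComm_bij M N p).2)
    exact h4.of_inj hN (Sub.infIso N M) (fun p => (Sub.infIso_bij N M p).1)
  · obtain ⟨f, hf, h2⟩ := h1 c' z.1
    exact ⟨f, hf, h2⟩

/-- torsion -/
theorem SCo.of_tors {Z : BS A A'} (hI : I ≤ MP_6e5bed_ag_GG.ann Z)
    (h : ∀ (c' : Ch j) (z : Z.E (m, c')), ∃ f ∈ Sg, cl1 A A' (m, c') f • z = 0) :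
    SCo I m Sg Z where
  ann := hI
  ex := ⟨Sub.bot Z, fun p => by
      have h1 : Module.Finite ((bs A A').B p) (⊥ : Submodule ((bs A A').B p) (Z.E p)) :=
        inferInstance
      exact h1, fun c' z => by
    obtain ⟨f, hf, h1⟩ := h c' z
    exact ⟨f, hf, (Submodule.mem_bot _).2 h1⟩⟩

/-- generators of a coherent subsheaf -/
theorem exists_gen {S : Site k} {Z : Sh S} {N : Sub Z} (h : N.sh.Coh) (p : S.P) :
    ∃ T : Finset (Z.E p), Submodule.span (S.B p) (T : Set (Z.E p)) = N.N p := by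
  have h1 : Module.Finite (S.B p) (N.N p) := h p
  obtain ⟨T, hT⟩ := Module.Finite.iff_fg.1 h1
  exact ⟨T, hT⟩

/-- EXTENSIONS -/
theorem SCo.ext {Z : BS A A'} {N : Sub Z} (h : SCo I m Sg N.sh) (h' : SCo I m Sg N.quot)
    (hI : I ≤ MP_6e5bed_ag_GG.ann Z) : SCo I m Sg Z := by
  classical
  obtain ⟨M₁, hM₁, h₁⟩ := h.ex
  obtain ⟨M₂, hM₂, h₂⟩ := h'.ex
  choose T₁ hT₁ using fun p => exists_gen hM₁ p
  choose T₂ hT₂ using fun p => exists_gen hM₂ p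
  choose lf hlf using fun p => N.proj_surj p
  obtain ⟨M, hM, hMT⟩ := exists_sub_coh Z (fun p =>
    (T₁ p).image (N.incl.f p) ∪ (T₂ p).image (lf p))
  have e1 : ∀ p (x : N.sh.E p), x ∈ M₁.N p → N.incl.f p x ∈ M.N p := by
    intro p x hx
    rw [← hT₁ p] at hx
    induction hx using Submodule.span_induction with
    | mem x hx => exact hMT p _ (Finset.mem_union_left _ (Finset.mem_image_of_mem _ hx))
    | zero =>
      rw [map_zero]
      exact zero_mem _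
    | add x y _ _ hx hy =>
      rw [map_add]
      exact add_mem hx hy
    | smul b x _ hx =>
      rw [map_smul]
      exact Submodule.smul_mem _ _ hx
  have e2 : ∀ p (x : N.quot.E p), x ∈ M₂.N p → ∃ y ∈ M.N p, N.proj.f p y = x := by
    intro p x hx
    rw [← hT₂ p] at hx
    induction hx using Submodule.span_induction with
    | mem x hx =>
      exact ⟨lf p x, hMT p _ (Finset.mem_union_right _ (Finset.mem_image_of_mem _ hx)), hlf p x⟩
    | zero => exact ⟨0, zero_mem _, map_zero _⟩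
    | add x y _ _ hx hy =>
      obtain ⟨x, hx, rfl⟩ := hx
      obtain ⟨y, hy, rfl⟩ := hy
      exact ⟨x + y, add_mem hx hy, map_add _ _ _⟩
    | smul b x _ hx =>
      obtain ⟨x, hx, rfl⟩ := hx
      exact ⟨b • x, Submodule.smul_mem _ _ hx, map_smul _ _ _⟩
  refine ⟨hI, M, hM, fun c' z => ?_⟩
  obtain ⟨f, hf, h3⟩ := h₂ c' (N.proj.f (m, c') z)
  obtain ⟨y, hy, h4⟩ := e2 _ _ h3
  have h5 : cl1 A A' (m, c') f • z - y ∈ N.N (m, c') := by
    rw [← N.proj_eq_zero, map_sub, h4, map_smul, sub_self]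
  obtain ⟨g, hg, h6⟩ := h₁ c' ⟨_, h5⟩
  have h7 : cl1 A A' (m, c') g • (cl1 A A' (m, c') f • z - y) ∈ M.N (m, c') := e1 _ _ h6
  refine ⟨g * f, Sg.mul_mem hg hf, ?_⟩
  have h8 := Submodule.add_mem _ h7 (Submodule.smul_mem _ (cl1 A A' (m, c') g) hy)
  rw [smul_sub, sub_add_cancel, ← mul_smul, ← cl1_mul] at h8
  exact h8

/-- a product of denominators -/
theorem exists_den {Z₁ Z₂ : BS A A'} {φ : ShH Z₁ Z₂} {c' : Ch j} (T : Finset (Z₂.E (m, c')))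
    (h : ∀ z ∈ T, ∃ f ∈ Sg, ∃ x, φ.f (m, c') x = cl1 A A' (m, c') f • z) :
    ∃ f ∈ Sg, ∀ z ∈ T, ∃ x, φ.f (m, c') x = cl1 A A' (m, c') f • z := by
  classical
  choose! f hf x hx using h
  refine ⟨∏ z ∈ T, f z, Sg.prod_mem (fun z hz => hf z hz), fun z hz => ?_⟩
  refine ⟨cl1 A A' (m, c') (∏ y ∈ T.erase z, f y) • x z, ?_⟩
  rw [map_smul, hx z hz, ← mul_smul, ← cl1_mul, Finset.prod_erase_mul T f hz]

/-- the source of a morphism which is an isomorphism up to denominators -/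
theorem SCo.of_SIso {Z₁ Z₂ : BS A A'} (h : SCo I m Sg Z₂) {φ : ShH Z₁ Z₂} (hφ : SIso m Sg φ)
    (hI : I ≤ MP_6e5bed_ag_GG.ann Z₁) : SCo I m Sg Z₁ := by
  classical
  obtain ⟨M, hM, h1⟩ := h.ex
  choose T hT using fun p => exists_gen hM p
  have h2 : ∀ c' : Ch j, ∃ f ∈ Sg, ∀ z ∈ T (m, c'), ∃ x, φ.f (m, c') x =
      cl1 A A' (m, c') f • z := fun c' => exists_den (T (m, c')) (fun z _ => hφ.surj c' z)
  choose f hf x hx using h2
  have h3 : ∀ p : Ch i × Ch j, ∃ X : Finset (Z₁.E p), ∀ hp : p.1 = m, ∀ z ∈ T (m, p.2),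
      ∃ w : Z₁.E (m, p.2), φ.f (m, p.2) w = cl1 A A' (m, p.2) (f p.2) • z ∧
        w ∈ (X.image (Z₁.res (p := p) (q := (m, p.2)) ⟨hp.le, le_rfl⟩)) := by
    rintro ⟨a, c'⟩
    by_cases ha : a = m
    · subst ha
      refine ⟨(T (a, c')).attach.image (fun z => x c' z.1 z.2), fun _ z hz => ?_⟩
      refine ⟨x c' z hz, hx c' z hz, ?_⟩
      rw [Finset.mem_image]
      refine ⟨x c' z hz, Finset.mem_image.2 ⟨⟨z, hz⟩, Finset.mem_attach _ _, rfl⟩, ?_⟩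
      exact Z₁.res_id _ _
    · exact ⟨∅, fun h => absurd h ha⟩
  choose X hX using h3
  obtain ⟨N, hN, hNX⟩ := exists_sub_coh Z₁ X
  refine ⟨hI, N, hN, fun c' z => ?_⟩
  obtain ⟨g, hg, h4⟩ := h1 c' (φ.f (m, c') z)
  have h5 : ∀ w : Z₂.E (m, c'), w ∈ M.N (m, c') → ∃ y ∈ N.N (m, c'),
      φ.f (m, c') y = cl1 A A' (m, c') (f c') • w := by
    intro w hw
    rw [← hT (m, c')] at hw
    induction hw using Submodule.span_induction with
    | mem w hw =>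
      obtain ⟨y, hy, hy'⟩ := hX (m, c') rfl w hw
      rw [Finset.mem_image] at hy'
      obtain ⟨y', hy', rfl⟩ := hy'
      exact ⟨_, N.mono _ (hNX _ _ hy'), hy⟩
    | zero => exact ⟨0, zero_mem _, by rw [map_zero, smul_zero]⟩
    | add x y _ _ hx hy =>
      obtain ⟨x', hx, hx'⟩ := hx
      obtain ⟨y', hy, hy'⟩ := hy
      exact ⟨x' + y', add_mem hx hy, by rw [map_add, hx', hy', smul_add]⟩
    | smul b x _ hx =>
      obtain ⟨x', hx, hx'⟩ := hx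
      exact ⟨b • x', Submodule.smul_mem _ _ hx, by
        rw [map_smul, hx', ← mul_smul, ← mul_smul, cl1_comm]⟩
  obtain ⟨y, hy, h6⟩ := h5 _ h4
  have h7 : φ.f (m, c') (cl1 A A' (m, c') (f c' * g) • z - y) = 0 := by
    rw [map_sub, h6, map_smul, cl1_mul, mul_smul, sub_self]
  obtain ⟨e, he, h8⟩ := hφ.inj c' _ h7
  refine ⟨e * (f c' * g), Sg.mul_mem he (Sg.mul_mem (hf c') hg), ?_⟩
  rw [smul_sub, sub_eq_zero, ← mul_smul, ← cl1_mul] at h8
  rw [h8]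
  exact Submodule.smul_mem _ _ hy

theorem SCo.iff_SIso {Z₁ Z₂ : BS A A'} {φ : ShH Z₁ Z₂} (hφ : SIso m Sg φ)
    (h₁ : I ≤ MP_6e5bed_ag_GG.ann Z₁) (h₂ : I ≤ MP_6e5bed_ag_GG.ann Z₂) :
    SCo I m Sg Z₁ ↔ SCo I m Sg Z₂ :=
  ⟨fun h => h.map φ h₂ hφ.surj, fun h => h.of_SIso hφ h₁⟩

end Pool.Agent.MP_6e5bed_ag_WW
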