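import Pool.Agent.Lib.MP_6e5bed_ag_WW.Les
import Pool.Agent.Lib.MP_6e5bed_ag_WW.SC

set_option autoImplicit false
set_option linter.unusedVariables false

/-!
# MP_6e5bed_ag, THEOREM W, (2.2), (2.3): complexes of bisheaves which are coherent over the generic
point of a chart
-/

noncomputable section

namespace Pool.Agent.MP_6e5bed_ag_WW

open Pool.Agent.MP_6e5bed_ag_NC Pool.Agent.MP_6e5bed_ag_GG
open Pool.Agent.MP_6e5bed_ag_PN hiding Ch
open Pool.Agent.MP_6e5bed_ag_NS (Cx CHom ringH)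
open Pool.Agent.MP_6e5bed_ag_PS (Dist)
open scoped TensorProduct

universe u

variable {k : Type u} [Field k] {i j : Type} [Fintype i] [Fintype j] {A : CA k i} {A' : CA k j}

/-! ### Exact sequences of bisheaves -/

/-- the sections over `m` are torsion -/
def STors (m : Ch i) (Sg : Submonoid (RR k m.1)) (Z : BS A A') : Prop :=
  ∀ (c' : Ch j) (z : Z.E (m, c')), ∃ f ∈ Sg, cl1 A A' (m, c') f • z = 0

section sh

variable {I : ∀ c : Ch i, Ideal (A.A c)} {m : Ch i} {Sg : Submonoid (RR k m.1)}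
  {Z' Z Z'' : BS A A'}

theorem STors.mid {f : ShH Z' Z} {g : ShH Z Z''}
    (hfg : ∀ p z, g.f p z = 0 → ∃ y, f.f p y = z) (h' : STors m Sg Z') (h'' : STors m Sg Z'') :
    STors m Sg Z := by
  intro c' z
  obtain ⟨s, hs, h1⟩ := h'' c' (g.f (m, c') z)
  rw [← map_smul] at h1
  obtain ⟨y, hy⟩ := hfg _ _ h1
  obtain ⟨t, ht, h2⟩ := h' c' y
  refine ⟨t * s, Sg.mul_mem ht hs, ?_⟩
  rw [cl1_mul, mul_smul, ← hy, ← map_smul, h2, map_zero]

theorem STors.iff_SIso {φ : ShH Z' Z} (hφ : SIso m Sg φ) : STors m Sg Z' ↔ STors m Sg Z := by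
  constructor
  · intro h c' z
    obtain ⟨s, hs, x, hx⟩ := hφ.surj c' z
    obtain ⟨t, ht, h2⟩ := h c' x
    refine ⟨t * s, Sg.mul_mem ht hs, ?_⟩
    rw [cl1_mul, mul_smul, ← hx, ← map_smul, h2, map_zero]
  · intro h c' x
    obtain ⟨s, hs, h1⟩ := h c' (φ.f (m, c') x)
    rw [← map_smul] at h1
    obtain ⟨t, ht, h2⟩ := hφ.inj c' _ h1
    exact ⟨t * s, Sg.mul_mem ht hs, by rw [cl1_mul, mul_smul, h2]⟩

theorem SCo.of_STors (hI : I ≤ MP_6e5bed_ag_GG.ann Z) (h : STors m Sg Z) : SCo I m Sg Z :=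
  SCo.of_tors hI h

theorem SCo.range (hN : (bs A A').Noe) (h : SCo I m Sg Z) (g : ShH Z'' Z) :
    SCo I m Sg g.range.sh := h.sub hN _

/-- the kernel of a morphism with coherent target up to denominators, and quotient -/
theorem SCo.ker_quot (hN : (bs A A').Noe) (h : SCo I m Sg Z'') (g : ShH Z Z'') :
    SCo I m Sg g.ker.quot :=
  (h.sub hN g.range).of_bij (ShH.symm_bij g.quotKer g.quotKer_bij)

theorem SCo.ker_of (h : SCo I m Sg Z') {f : ShH Z' Z} {g : ShH Z Z''}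
    (hfg : ∀ p z, g.f p z = 0 ↔ ∃ y, f.f p y = z) (hI : I ≤ MP_6e5bed_ag_GG.ann Z) :
    SCo I m Sg g.ker.sh :=
  h.map (f.codRestr g.ker (fun p x => ShH.mem_ker.2 ((hfg p _).2 ⟨x, rfl⟩)))
    (hI.trans (ann_sub Z _)) (fun c' z => by
      obtain ⟨y, hy⟩ := (hfg (m, c') z.1).1 (ShH.mem_ker.1 z.2)
      exact ⟨1, Sg.one_mem, y, by
        rw [cl1_one, one_smul]
        exact Subtype.ext hy⟩)

/-- three terms of an exact sequence -/
theorem SCo.mid (hN : (bs A A').Noe) {f : ShH Z' Z} {g : ShH Z Z''}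
    (hfg : ∀ p z, g.f p z = 0 ↔ ∃ y, f.f p y = z) (h' : SCo I m Sg Z') (h'' : SCo I m Sg Z'')
    (hI : I ≤ MP_6e5bed_ag_GG.ann Z) : SCo I m Sg Z :=
  SCo.ext (N := g.ker) (h'.ker_of hfg hI) (h''.ker_quot hN g) hI

end sh

/-! ### Complexes of bisheaves -/

/-- the ideals `I` act as zero -/
def Kl (I : ∀ c : Ch i, Ideal (A.A c)) (F : BPB A A') : Prop :=
  ∀ (p : Ch i × Ch j) (a : A.A p.1), a ∈ I p.1 → ∀ x : (F.F p).M, (F.F p).l a x = 0

theorem Kl.ann_le {I : ∀ c : Ch i, Ideal (A.A c)} {F : BPB A A'} (h : Kl I F) (hQ : F.QC)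
    (n : ℤ) : I ≤ MP_6e5bed_ag_GG.ann (F.H hQ n) := by
  intro c a ha c' e
  obtain ⟨x, h1, h2, rfl⟩ := hc_surj e
  refine (smul_hc _ h1 h2).trans (hc_eq_zero.2 ⟨0, ?_⟩)
  rw [map_zero]
  exact ((bact_l (F.F (c, c')) a x).trans (h (c, c') a ha x)).symm

/-- Quasi-coherent, killed by `I`, with cohomology which is coherent over the generic point and
bounded there. -/
structure SB (I : ∀ c : Ch i, Ideal (A.A c)) (m : Ch i) (Sg : Submonoid (RR k m.1))
    (F : BPB A A') : Prop where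
  qc : F.QC
  kl : Kl I F
  co : ∀ n, SCo I m Sg (F.H qc n)
  bd : ∃ N : ℕ, ∀ n : ℤ, (N : ℤ) < |n| → STors m Sg (F.H qc n)

section sb

variable {I : ∀ c : Ch i, Ideal (A.A c)} {m : Ch i} {Sg : Submonoid (RR k m.1)}
  {F' F F'' : BPB A A'} {a : BPH F' F} {b : BPH F F''}

theorem SB.mid (hN : (bs A A').Noe) (hD : ∀ p, Dist (a.ch p) (b.ch p)) (h' : SB I m Sg F')
    (h'' : SB I m Sg F'') (hQ : F.QC) (hK : Kl I F) : SB I m Sg F where
  qc := hQ
  kl := hK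
  co := fun n => SCo.mid hN (les_mid hD h'.qc hQ h''.qc n) (h'.co n) (h''.co n)
    (hK.ann_le hQ n)
  bd := by
    obtain ⟨N', hN'⟩ := h'.bd
    obtain ⟨N'', hN''⟩ := h''.bd
    refine ⟨max N' N'', fun n hn => ?_⟩
    have h1 : (N' : ℤ) < |n| := lt_of_le_of_lt (Int.ofNat_le.2 (le_max_left _ _)) hn
    have h2 : (N'' : ℤ) < |n| := lt_of_le_of_lt (Int.ofNat_le.2 (le_max_right _ _)) hn
    exact STors.mid (fun p z => (les_mid hD h'.qc hQ h''.qc n p z).1) (hN' n h1) (hN'' n h2)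

theorem SB.right (hN : (bs A A').Noe) (hD : ∀ p, Dist (a.ch p) (b.ch p)) (h' : SB I m Sg F')
    (h : SB I m Sg F) (hQ : F''.QC) (hK : Kl I F'') : SB I m Sg F'' where
  qc := hQ
  kl := hK
  co := fun n => SCo.mid hN (les_right hD h'.qc h.qc hQ n) (h.co n) (h'.co (n + 1))
    (hK.ann_le hQ n)
  bd := by
    obtain ⟨N', hN'⟩ := h'.bd
    obtain ⟨N, hN⟩ := h.bd
    refine ⟨max N' N + 1, fun n hn => ?_⟩
    have h3 := le_max_left N' N
    have h4 := le_max_right N' N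
    have h5 : |n| ≤ |n + 1| + 1 := by
      have h6 := abs_sub (n + 1) 1
      rw [add_sub_cancel_right, abs_one] at h6
      exact h6
    have h1 : (N' : ℤ) < |n + 1| := by
      push_cast at hn
      omega
    have h2 : (N : ℤ) < |n| := by
      push_cast at hn
      omega
    exact STors.mid (fun p z => (les_right hD h'.qc h.qc hQ n p z).1) (hN n h2)
      (hN' (n + 1) h1)

theorem SB.left (hN : (bs A A').Noe) (hD : ∀ p, Dist (a.ch p) (b.ch p)) (h : SB I m Sg F)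
    (h'' : SB I m Sg F'') (hQ : F'.QC) (hK : Kl I F') : SB I m Sg F' where
  qc := hQ
  kl := hK
  co := fun n => by
    obtain ⟨l, rfl⟩ : ∃ l, n = l + 1 := ⟨n - 1, by ring⟩
    exact SCo.mid hN (les_left hD hQ h.qc h''.qc l) (h''.co l) (h.co (l + 1))
      (hK.ann_le hQ (l + 1))
  bd := by
    obtain ⟨N', hN'⟩ := h''.bd
    obtain ⟨N, hN⟩ := h.bd
    refine ⟨max N' N + 1, fun n hn => ?_⟩
    obtain ⟨l, rfl⟩ : ∃ l, n = l + 1 := ⟨n - 1, by ring⟩
    have h3 := le_max_left N' N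
    have h4 := le_max_right N' N
    have h5 : |l + 1| ≤ |l| + 1 := by
      have h6 := abs_add_le l 1
      rw [abs_one] at h6
      exact h6
    have h1 : (N' : ℤ) < |l| := by
      push_cast at hn
      omega
    have h2 : (N : ℤ) < |l + 1| := by
      push_cast at hn
      omega
    exact STors.mid (fun p z => (les_left hD hQ h.qc h''.qc l p z).1) (hN' l h1)
      (hN (l + 1) h2)

/-- all cohomology bisheaves are torsion -/
theorem SB.of_tors {F : BPB A A'} (hQ : F.QC) (hK : Kl I F)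
    (h : ∀ n, STors m Sg (F.H hQ n)) : SB I m Sg F where
  qc := hQ
  kl := hK
  co := fun n => SCo.of_STors (hK.ann_le hQ n) (h n)
  bd := ⟨0, fun n _ => h n⟩

end sb

/-! ### Morphisms which are isomorphisms in cohomology up to denominators -/

/-- A morphism which is bijective in cohomology over `m` up to the denominators in `Sg`. -/
structure CIso (m : Ch i) (Sg : Submonoid (RR k m.1)) {F G : BPB A A'} (f : BPH F G) : Prop where
  surj : ∀ (c' : Ch j) (n : ℤ) (y : (G.F (m, c')).M), (G.F (m, c')).dg.IsDeg n y →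
    (G.F (m, c')).dg.d y = 0 → ∃ s ∈ Sg, ∃ (x : (F.F (m, c')).M) (w : (G.F (m, c')).M),
      (F.F (m, c')).dg.d x = 0 ∧
        (G.F (m, c')).l (algebraMap (RR k m.1) (A.A m) s) y =
          (f.f (m, c')).f x + (G.F (m, c')).dg.d w
  inj : ∀ (c' : Ch j) (n : ℤ) (x : (F.F (m, c')).M) (w : (G.F (m, c')).M),
    (F.F (m, c')).dg.IsDeg n x → (F.F (m, c')).dg.d x = 0 →
      (G.F (m, c')).dg.d w = (f.f (m, c')).f x → ∃ s ∈ Sg, ∃ z : (F.F (m, c')).M,
        (F.F (m, c')).dg.d z = (F.F (m, c')).l (algebraMap (RR k m.1) (A.A m) s) x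

section ciso

variable {I : ∀ c : Ch i, Ideal (A.A c)} {m : Ch i} {Sg : Submonoid (RR k m.1)}
  {F G : BPB A A'} {f : BPH F G}

theorem cl1_act (F : BPB A A') (c' : Ch j) (s : RR k m.1) (x : (bcx (F.F (m, c'))).V) :
    (F.ca (m, c')).φ (cl1 A A' (m, c') s) x =
      (F.F (m, c')).l (algebraMap (RR k m.1) (A.A m) s) x :=
  bact_l (F.F (m, c')) _ x

theorem CIso.of_qiso (h : ∀ c' : Ch j, QIso (f.f (m, c'))) : CIso m Sg f where
  surj := fun c' n y h1 h2 => by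
    obtain ⟨x, hx, w, hw⟩ := (h c').2.2 y h2
    refine ⟨1, Sg.one_mem, x, w, hx, ?_⟩
    rw [map_one, hw, add_sub_cancel]
    exact (G.F (m, c')).l_one y
  inj := fun c' n x w h1 h2 h3 => by
    obtain ⟨z, hz⟩ := (h c').2.1 x h2 ⟨w, h3⟩
    refine ⟨1, Sg.one_mem, z, ?_⟩
    rw [map_one, hz]
    exact ((F.F (m, c')).l_one x).symm

theorem CIso.of_locS {σ : ∀ c' : Ch j, Sg → (F.F (m, c')).M →ₗ[k] (F.F (m, c')).M}
    {σ' : ∀ c' : Ch j, Sg → (G.F (m, c')).M →ₗ[k] (G.F (m, c')).M}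
    (h : ∀ c' : Ch j, LocS (f.f (m, c')).f (σ c') (σ' c'))
    (hσ : ∀ c' (s : Sg) x, σ c' s x = (F.F (m, c')).l (algebraMap (RR k m.1) (A.A m) s.1) x)
    (hσ' : ∀ c' (s : Sg) x, σ' c' s x =
      (G.F (m, c')).l (algebraMap (RR k m.1) (A.A m) s.1) x) : CIso m Sg f := by
  have h0 : ∀ c' : Ch j, LocS (f.ch (m, c')).f
      (fun s : Sg => (bactH (F.F (m, c')) (cl1 A A' (m, c') s.1)).f)
      (fun s : Sg => (bactH (G.F (m, c')) (cl1 A A' (m, c') s.1)).f) := by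
    intro c'
    have e1 : (fun s : Sg => (bactH (F.F (m, c')) (cl1 A A' (m, c') s.1)).f) = σ c' :=
      funext fun s => LinearMap.ext fun x => (bact_l (F.F (m, c')) _ x).trans (hσ c' s x).symm
    have e2 : (fun s : Sg => (bactH (G.F (m, c')) (cl1 A A' (m, c') s.1)).f) = σ' c' :=
      funext fun s => LinearMap.ext fun x => (bact_l (G.F (m, c')) _ x).trans (hσ' c' s x).symm
    rw [e1, e2]
    exact h c'
  constructor
  · intro c' n y h1 h2
    obtain ⟨s, x, hx1, hx2, hx3⟩ := (h0 c').coh_surj h1 h2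
    refine ⟨s.1, s.2, x, 0, hx2, ?_⟩
    rw [map_zero, add_zero]
    exact (bact_l (G.F (m, c')) _ y).symm.trans hx3.symm
  · intro c' n x w h1 h2 h3
    obtain ⟨s, z, hz⟩ := (h0 c').coh_inj h3
    exact ⟨s.1, s.2, z, hz.trans (bact_l (F.F (m, c')) _ x)⟩

/-- the cohomology bisheaves -/
theorem CIso.sIso (h : CIso m Sg f) (hF : F.QC) (hG : G.QC) (n : ℤ) :
    SIso m Sg (f.H hF hG n) where
  inj := fun c' z hz => by
    obtain ⟨x, h1, h2, rfl⟩ := hc_surj z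
    obtain ⟨w, hw⟩ := hc_eq_zero.1 ((H_hc f h1 h2).symm.trans hz)
    obtain ⟨s, hs, y, hy⟩ := h.inj c' n x w h1 h2 hw
    exact ⟨s, hs, (smul_hc _ h1 h2).trans (hc_eq_zero.2 ⟨y, hy.trans (cl1_act F c' s x).symm⟩)⟩
  surj := fun c' z => by
    obtain ⟨y, h1, h2, rfl⟩ := hc_surj z
    obtain ⟨s, hs, x, w, hx, hxw⟩ := h.surj c' n y h1 h2
    have h3 : (G.ca (m, c')).φ (cl1 A A' (m, c') s) y = (f.ch (m, c')).f x +
      (bcx (G.F (m, c'))).dg.d w := (cl1_act G c' s y).trans hxw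
    have h4 : (bcx (G.F (m, c'))).dg.IsDeg n ((G.ca (m, c')).φ (cl1 A A' (m, c') s) y) :=
      (G.ca (m, c')).deg _ h1
    have h5 : (bcx (F.F (m, c'))).dg.d ((bcx (F.F (m, c'))).dg.ρ x n) = 0 := by
      have h6 := ρ_d' (bcx (F.F (m, c'))) x (n + 1)
      rw [add_sub_cancel_right] at h6
      rw [← h6]
      have h7 : (bcx (F.F (m, c'))).dg.d x = 0 := hx
      rw [h7, map_zero, Finsupp.zero_apply]
    refine ⟨s, hs, hc F hF n ((bcx (F.F (m, c'))).dg.ρ x n) (Dg.isDeg_ρ _ _) h5, ?_⟩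
    refine (H_hc f _ h5).trans (Eq.trans ?_ (smul_hc _ h1 h2).symm)
    refine hc_eq.2 ⟨-(bcx (G.F (m, c'))).dg.ρ w (n - 1), ?_⟩
    rw [map_neg, ← ρ_d', ← ρ_self h4, h3, ρ_add, ρ_hom]
    abel

theorem SB.of_ciso (h : CIso m Sg f) (hB : SB I m Sg F) (hG : G.QC) (hK : Kl I G) :
    SB I m Sg G where
  qc := hG
  kl := hK
  co := fun n => (SCo.iff_SIso (h.sIso hB.qc hG n) (hB.kl.ann_le hB.qc n)
    (hK.ann_le hG n)).1 (hB.co n)
  bd := by
    obtain ⟨N, hN⟩ := hB.bd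
    exact ⟨N, fun n hn => (STors.iff_SIso (h.sIso hB.qc hG n)).1 (hN n hn)⟩

theorem SB.of_ciso' (h : CIso m Sg f) (hB : SB I m Sg G) (hF : F.QC) (hK : Kl I F) :
    SB I m Sg F where
  qc := hF
  kl := hK
  co := fun n => (SCo.iff_SIso (h.sIso hF hB.qc n) (hK.ann_le hF n)
    (hB.kl.ann_le hB.qc n)).2 (hB.co n)
  bd := by
    obtain ⟨N, hN⟩ := hB.bd
    exact ⟨N, fun n hn => (STors.iff_SIso (h.sIso hF hB.qc n)).2 (hN n hn)⟩

theorem SB.iff_ciso (h : CIso m Sg f) (hF : F.QC) (hG : G.QC) (hKF : Kl I F) (hKG : Kl I G) :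
    SB I m Sg F ↔ SB I m Sg G :=
  ⟨fun hB => hB.of_ciso h hG hKG, fun hB => hB.of_ciso' h hF hKF⟩

end ciso

/-- short exact sequences of complexes are distinguished -/
theorem bpEx_dist {F' F F'' : BPB A A'} {a : BPH F' F} {b : BPH F F''} (h : BPEx a b)
    (p : Ch i × Ch j) : Dist (a.ch p) (b.ch p) :=
  MP_6e5bed_ag_PS.CEx.dist (i := a.ch p) (p := b.ch p) ⟨(h p).1, (h p).2.1, (h p).2.2⟩

end Pool.Agent.MP_6e5bed_ag_WW
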