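import Pool.Agent.Lib.MP_6e5bed_ag_WW.K2
import Pool.Agent.Lib.MP_6e5bed_ag_WW.CmpV

set_option autoImplicit false
set_option linter.unusedVariables false

/-!
# MP_6e5bed_ag, THEOREM W, (5.3): `X ⊗ M ⊗ Y` for perfect `M`
-/

noncomputable section

namespace Pool.Agent.MP_6e5bed_ag_WW

open Pool.Agent.MP_6e5bed_ag_NC Pool.Agent.MP_6e5bed_ag_GG
open Pool.Agent.MP_6e5bed_ag_PN hiding Ch
open Pool.Agent.MP_6e5bed_ag_NS (Cx CHom ringH)
open Pool.Agent.MP_6e5bed_ag_PS (Dist)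

universe u

variable {k : Type u} [Field k] {i j : Type} [Fintype i] [Fintype j] {A : CA k i} {A' : CA k j}

/-! ### Strict boundedness -/

section bd

variable {m : Ch i} {F' F F'' : BPB A A'} {a : BPH F' F} {b : BPH F F''}

theorem bdM_iff {F : BPB A A'} (hQ : F.QC) : BdM m F ↔ ∃ N : ℕ, ∀ n : ℤ, (N : ℤ) < |n| →
    ∀ (c' : Ch j) (z : (F.H hQ n).E (m, c')), z = 0 := by
  constructor
  · rintro ⟨N, hN⟩
    refine ⟨N, fun n hn c' z => ?_⟩
    obtain ⟨y, h1, h2, rfl⟩ := hc_surj z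
    exact hc_eq_zero.2 (hN c' n hn y h1 h2)
  · rintro ⟨N, hN⟩
    refine ⟨N, fun c' n hn x h1 h2 => ?_⟩
    exact hc_eq_zero.1 (hN n hn c' (hc F hQ n x h1 h2))

theorem BdM.mid (hD : ∀ p, Dist (a.ch p) (b.ch p)) (hQ' : F'.QC) (hQ : F.QC) (hQ'' : F''.QC)
    (h' : BdM m F') (h'' : BdM m F'') : BdM m F := by
  obtain ⟨N', hN'⟩ := (bdM_iff hQ').1 h'
  obtain ⟨N'', hN''⟩ := (bdM_iff hQ'').1 h''
  refine (bdM_iff hQ).2 ⟨max N' N'', fun n hn c' z => ?_⟩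
  have h1 : (N' : ℤ) < |n| := lt_of_le_of_lt (Int.ofNat_le.2 (le_max_left _ _)) hn
  have h2 : (N'' : ℤ) < |n| := lt_of_le_of_lt (Int.ofNat_le.2 (le_max_right _ _)) hn
  obtain ⟨y, rfl⟩ := (les_mid hD hQ' hQ hQ'' n (m, c') z).1 (hN'' n h2 c' _)
  rw [hN' n h1 c' y, map_zero]

theorem BdM.right (hD : ∀ p, Dist (a.ch p) (b.ch p)) (hQ' : F'.QC) (hQ : F.QC) (hQ'' : F''.QC)
    (h' : BdM m F') (h : BdM m F) : BdM m F'' := by
  obtain ⟨N', hN'⟩ := (bdM_iff hQ').1 h'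
  obtain ⟨N, hN⟩ := (bdM_iff hQ).1 h
  refine (bdM_iff hQ'').2 ⟨max N' N + 1, fun n hn c' z => ?_⟩
  have h3 := le_max_left N' N
  have h4 := le_max_right N' N
  have h5 : |n| ≤ |n + 1| + 1 := by
    have h6 := abs_sub (n + 1) 1
    rw [add_sub_cancel_right, abs_one] at h6
    exact h6
  have h1 : (N' : ℤ) < |n + 1| := by
    push_cast at hn
    omega
  have h2 : (N : ℤ) < |n| := by
    push_cast at hn
    omega
  obtain ⟨y, rfl⟩ := (les_right hD hQ' hQ hQ'' n (m, c') z).1 (hN' (n + 1) h1 c' _)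
  rw [hN n h2 c' y, map_zero]

theorem BdM.left (hD : ∀ p, Dist (a.ch p) (b.ch p)) (hQ' : F'.QC) (hQ : F.QC) (hQ'' : F''.QC)
    (h : BdM m F) (h'' : BdM m F'') : BdM m F' := by
  obtain ⟨N'', hN''⟩ := (bdM_iff hQ'').1 h''
  obtain ⟨N, hN⟩ := (bdM_iff hQ).1 h
  refine (bdM_iff hQ').2 ⟨max N'' N + 1, fun n hn c' z => ?_⟩
  obtain ⟨l, rfl⟩ : ∃ l, n = l + 1 := ⟨n - 1, by ring⟩
  have h3 := le_max_left N'' N
  have h4 := le_max_right N'' N
  have h5 : |l + 1| ≤ |l| + 1 := by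
    have h6 := abs_add_le l 1
    rw [abs_one] at h6
    exact h6
  have h1 : (N'' : ℤ) < |l| := by
    push_cast at hn
    omega
  have h2 : (N : ℤ) < |l + 1| := by
    push_cast at hn
    omega
  obtain ⟨y, rfl⟩ := (les_left hD hQ' hQ hQ'' l (m, c') z).1 (hN (l + 1) h2 c' _)
  rw [hN'' l h1 c' y, map_zero]

/-- retracts -/
theorem BdM.retract {F G : BPB A A'} {f : BPH F G} {g : BPH G F}
    (h : ∀ p x, (g.f p).f ((f.f p).f x) = x) (hG : BdM m G) : BdM m F := by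
  obtain ⟨N, hN⟩ := hG
  refine ⟨N, fun c' n hn x h1 h2 => ?_⟩
  have h3 : (G.F (m, c')).dg.d ((f.f (m, c')).f x) = 0 := by
    rw [GMap.d_f_zero (f.dd (m, c')), h2, map_zero]
  have h4 : (G.F (m, c')).dg.IsDeg n ((f.f (m, c')).f x) := by
    have h5 := (f.f (m, c')).deg h1
    rwa [add_zero] at h5
  obtain ⟨y, hy⟩ := hN c' n hn _ h4 h3
  refine ⟨(g.f (m, c')).f y, ?_⟩
  rw [GMap.d_f_zero (g.dd (m, c')), hy, h]

end bd

/-! ### Retracts -/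

section retr

variable {I : ∀ c : Ch i, Ideal (A.A c)} {m : Ch i} {Sg : Submonoid (RR k m.1)}

theorem SCo.of_inj (hN : (bs A A').Noe) {Z Z' : BS A A'} (h : SCo I m Sg Z) {f : ShH Z' Z}
    (hf : f.Inj) : SCo I m Sg Z' := by
  let φ : ShH Z' f.range.sh := f.codRestr f.range (fun p x => ⟨x, rfl⟩)
  have hφ : φ.Bij := fun p => ⟨fun x y hxy => hf p (congrArg Subtype.val hxy), fun z => by
    obtain ⟨y, hy⟩ := z.2
    exact ⟨y, Subtype.ext hy⟩⟩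
  exact (h.sub hN f.range).of_bij (ShH.symm_bij φ hφ)

theorem SB.retract (hN : (bs A A').Noe) {F G : BPB A A'} {f : BPH F G} {g : BPH G F}
    (h : ∀ p x, (g.f p).f ((f.f p).f x) = x) (hQ : F.QC) (hK : Kl I F) (hG : SB I m Sg G) :
    SB I m Sg F := by
  have hi : ∀ n, (f.H hQ hG.qc n).Inj := by
    intro n p
    have h1 : ∀ z, (g.H hG.qc hQ n).f p ((f.H hQ hG.qc n).f p z) = z := by
      intro z
      obtain ⟨x, h1, h2, rfl⟩ := hc_surj z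
      rw [H_hc, H_hc]
      exact hc_ext (h p x)
    exact Function.LeftInverse.injective h1
  refine ⟨hQ, hK, fun n => (hG.co n).of_inj hN (hi n), ?_⟩
  obtain ⟨N, hN⟩ := hG.bd
  refine ⟨N, fun n hn c' z => ?_⟩
  obtain ⟨s, hs, h1⟩ := hN n hn c' ((f.H hQ hG.qc n).f (m, c') z)
  refine ⟨s, hs, hi n (m, c') ?_⟩
  rw [map_smul, h1, map_zero]

end retr

/-! ### Acyclic complexes -/

section acy

variable {I : ∀ c : Ch i, Ideal (A.A c)} {m : Ch i} {Sg : Submonoid (RR k m.1)}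

theorem H_zero_of_acyc {F : BPB A A'} (hQ : F.QC) {p : Ch i × Ch j} (h : Acyc (F.F p)) (n : ℤ)
    (z : (F.H hQ n).E p) : z = 0 := by
  obtain ⟨y, h1, h2, rfl⟩ := hc_surj z
  exact hc_eq_zero.2 (h y h2)

theorem stors_of_acyc {F : BPB A A'} (hQ : F.QC) (h : ∀ c' : Ch j, Acyc (F.F (m, c')))
    (n : ℤ) : STors m Sg (F.H hQ n) := fun c' z => ⟨1, Sg.one_mem, by
  rw [H_zero_of_acyc hQ (h c') n z, smul_zero]⟩

theorem bdM_of_acyc {F : BPB A A'} (h : ∀ c' : Ch j, Acyc (F.F (m, c'))) : BdM m F :=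
  ⟨0, fun c' n hn x h1 h2 => h c' x h2⟩

end acy

variable {I : ∀ c : Ch i, Ideal (A.A c)} {m : Ch i} {Sg : Submonoid (RR k m.1)}
  {x : Type} [Fintype x] {B : CA k x} {W₀ : DGA k}

/-- (5.3): the induction over the perfect bimodules -/
theorem h53_of (hN : (bs A B).Noe) {X : PB A.pa (PA.con i W₀)} (hX : QCl X) (kX : KlX I X)
    (h0 : SB I m Sg (BPB.cmp X (free W₀ (TT B)) (YY B)) ∧
      BdM m (BPB.cmp X (free W₀ (TT B)) (YY B))) {M : Bim W₀ (TT B)} (hM : Perf M) :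
    SB I m Sg (BPB.cmp X M (YY B)) ∧ BdM m (BPB.cmp X M (YY B)) := by
  have hq : ∀ M : Bim W₀ (TT B), (BPB.cmp X M (YY B)).QC := fun M => yqc hX M
  have hk : ∀ M : Bim W₀ (TT B), Kl I (BPB.cmp X M (YY B)) := fun M => kX.cmp M (YY B)
  induction hM with
  | free => exact h0
  | @contr M h =>
    have h1 : ∀ c' : Ch x, Acyc ((BPB.cmp X M (YY B)).F (m, c')) := fun c' =>
      (cmpV_contr X (YY B) h (m, c')).acyc
    exact ⟨SB.of_tors (hq M) (hk M) (fun n => stors_of_acyc (hq M) h1 n), bdM_of_acyc h1⟩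
  | @mid M' M M'' h _ _ h1 h2 =>
    obtain ⟨a, b, hab⟩ := cmpV_isExt X (YY B) h
    have hD := fun p => bpEx_dist hab p
    exact ⟨SB.mid hN hD h1.1 h2.1 (hq _) (hk _), BdM.mid hD (hq _) (hq _) (hq _) h1.2 h2.2⟩
  | @left M' M M'' h _ _ h1 h2 =>
    obtain ⟨a, b, hab⟩ := cmpV_isExt X (YY B) h
    have hD := fun p => bpEx_dist hab p
    exact ⟨SB.left hN hD h1.1 h2.1 (hq _) (hk _), BdM.left hD (hq _) (hq _) (hq _) h1.2 h2.2⟩
  | @right M' M M'' h _ _ h1 h2 =>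
    obtain ⟨a, b, hab⟩ := cmpV_isExt X (YY B) h
    have hD := fun p => bpEx_dist hab p
    exact ⟨SB.right hN hD h1.1 h2.1 (hq _) (hk _), BdM.right hD (hq _) (hq _) (hq _) h1.2 h2.2⟩
  | @summand M' M h _ h1 =>
    obtain ⟨a, b, hab⟩ := cmpV_summand X (YY B) h
    exact ⟨SB.retract hN hab (hq _) (hk _) h1.1, BdM.retract hab h1.2⟩

end Pool.Agent.MP_6e5bed_ag_WW
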