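import Pool.Agent.Lib.MP_6e5bed_ag_WW.Main
import Pool.Agent.Lib.MP_6e5bed_ag_WW.K4
import Pool.Agent.Lib.MP_6e5bed_ag_WW.Gam0

set_option autoImplicit false
set_option linter.unusedVariables false

/-!
# MP_6e5bed_ag, THEOREM W: the step from its data
-/

noncomputable section

namespace Pool.Agent.MP_6e5bed_ag_WW

open Pool.Agent.MP_6e5bed_ag_NC Pool.Agent.MP_6e5bed_ag_GG
open Pool.Agent.MP_6e5bed_ag_PN hiding Ch
open Pool.Agent.MP_6e5bed_ag_NS (Cx CHom ringH)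

universe u

variable {k : Type u} [Field k] {i : Type} [Fintype i] {A : CA k i} {E : BS A A} {m : Ch i}

/-- What the sections 5 and 7 deliver for `E`: the presheaf `X` with value `S` at `m`, the
statement (5.2), and the isomorphisms of (7.2). -/
structure SData (hR : Red E m) (X : PB A.pa (PA.con i (ring k hR.gd.S))) : Prop where
  qcl : QCl X
  kl : KlX (ann E) X
  flat : RFlat (X.M m)
  free : ∀ {x : Type} [Fintype x] (B : CA k x),
    SB (ann E) m (sgR hR) (BPB.cmp X (free (ring k hR.gd.S) (TT B)) (YY B)) ∧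
      BdM m (BPB.cmp X (MP_6e5bed_ag_NC.free (ring k hR.gd.S) (TT B)) (YY B))
  gen : ∀ _ : E.Coh, ∀ _ : Smooth (TT A), ∃ (N : PB (PA.con i (ring k hR.gd.S)) A.pa)
    (G : BPB A A) (f₁ : BPH E.bp G) (f₂ : PB2H (PB.ext X N) G.two)
    (P : Bim (ring k hR.gd.S) (TT A)) (g : GMap 0 P (cBL N (LL i) (FS.e i))),
    G.QC ∧ Kl (ann E) G ∧
    (∀ b : Ch i, LocS (V := (E.bp.F (m, b)).M) (V' := (G.F (m, b)).M) (f₁.f (m, b)).f
      (fun s : sgR hR => (E.bp.F (m, b)).l (algebraMap (RR k m.1) (A.A m) s.1))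
      (fun s : sgR hR => (G.F (m, b)).l (algebraMap (RR k m.1) (A.A m) s.1))) ∧
    (∀ b : Ch i, QIso (f₂.f m b)) ∧ Perf P ∧ QIso g

/-- The step, given the data. -/
theorem stepW_of (h : ∀ {i : Type} [Fintype i] (A : CA k i) (E : BS A A) (m : Ch i)
    (_ : E.Coh) (hR : Red E m), ∃ X, SData hR X) : StepW k := by
  intro i _ A hF hS J E m hE hR ih
  obtain ⟨X, hX⟩ := h A E m hE hR
  have hp : Proper (TT A) := proper_TT hF
  have hRes : ∀ Z : BS A A, Z.Coh → HasRes Z.bp.BB := fun Z hZ => hasRes_BB hF hS hS hZ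
  have hq : ∀ (Z : BS A A) (h : Z.Coh), (clf A A hF hS hS (bs_noe A A) J).cl Z =
      J.mkQ (rcls Z.bp.BB (hRes Z h)) := fun Z hZ => clf_cl hF hS hS (bs_noe A A) J hZ
  have h53 : ∀ {x : Type} [Fintype x] (B : CA k x) (M : Bim (ring k hR.gd.S) (TT B)), Perf M →
      SB (ann E) m (sgR hR) (BPB.cmp X M (YY B)) ∧ BdM m (BPB.cmp X M (YY B)) :=
    fun B M hM => h53_of (bs_noe A B) hX.qcl hX.kl (hX.free B) hM
  refine ⟨Gam0 (hR := hR) (bs_noe A A) ih hX.qcl (fun M hM => (h53 A M hM).1), ?_, ?_⟩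
  · intro x _ B hB' hB y
    exact k4_of (bs_noe A A) ih hRes hq hS hB' hB hX.qcl hX.kl hX.flat
      (fun M hM => Gam0_cls (bs_noe A A) ih hX.qcl (fun M hM => (h53 A M hM).1) M hM)
      (fun M hM => h53 B M hM) y
  · obtain ⟨N, G, f₁, f₂, P, g, hG, kG, h₁, h₂, hP, hg⟩ := hX.gen hE hS
    exact ⟨cls P hP, (ke_of (bs_noe A A) ih hRes hq hS hS hp hX.qcl hX.kl hX.flat
      (fun M hM => Gam0_cls (bs_noe A A) ih hX.qcl (fun M hM => (h53 A M hM).1) M hM)
      hE hG kG h₁ h₂ hP hg).symm⟩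

end Pool.Agent.MP_6e5bed_ag_WW
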