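import Pool.Agent.Lib.MP_6e5bed_ag_PN.Two2

set_option autoImplicit false
set_option linter.unusedVariables false

/-!
# MP_6e5bed_ag, THEOREM W: the Čech complex of the complex of a cospan

For morphisms `V0 → V01 ← V1` of presheaves of complexes, `coP` is the presheaf of the complexes of
the cospans. Its Čech complex is the complex of the cospan of the Čech complexes (`exC`), with a
sign.
-/

noncomputable section

namespace Pool.Agent.MP_6e5bed_ag_WW

open Pool.Agent.MP_6e5bed_ag_NC Pool.Agent.MP_6e5bed_ag_NS Pool.Agent.MP_6e5bed_ag_PN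

universe u

variable {k : Type u} [CommRing k] {ι : Type}

/-- The presheaf of the complexes of the cospans. -/
def coP {V0 V1 V01 : PC k ι} (r0 : PCH V0 V01) (r1 : PCH V1 V01) : PC k ι where
  X := fun c => co (r0.f c) (r1.f c)
  ρ := fun {c d} h => co.map _ _ _ _ (V0.ρ h) (V1.ρ h) (V01.ρ h)
    (fun x => (r0.nat h x).symm) (fun x => (r1.nat h x).symm)
  ρ_id := fun {c} h x => by
    obtain ⟨⟨x0, x1⟩, ξ⟩ := x
    exact Prod.ext (Prod.ext (V0.ρ_id _ x0) (V1.ρ_id _ x1)) (V01.ρ_id _ ξ)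
  ρ_ρ := fun {c d e} h h' x => by
    obtain ⟨⟨x0, x1⟩, ξ⟩ := x
    exact Prod.ext (Prod.ext (V0.ρ_ρ _ _ x0) (V1.ρ_ρ _ _ x1)) (V01.ρ_ρ _ _ ξ)

/-- Exchange of rows and columns, with a sign. -/
def exl (X0 X1 X01 Y0 Y1 Y01 Z0 Z1 Z01 : Type u) [AddCommGroup X0] [AddCommGroup X1]
    [AddCommGroup X01] [AddCommGroup Y0] [AddCommGroup Y1] [AddCommGroup Y01] [AddCommGroup Z0]
    [AddCommGroup Z1] [AddCommGroup Z01] [Module k X0] [Module k X1] [Module k X01] [Module k Y0]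
    [Module k Y1] [Module k Y01] [Module k Z0] [Module k Z1] [Module k Z01] :
    ((((X0 × X1) × X01) × ((Y0 × Y1) × Y01)) × ((Z0 × Z1) × Z01)) →ₗ[k]
      ((((X0 × Y0) × Z0) × ((X1 × Y1) × Z1)) × ((X01 × Y01) × Z01)) where
  toFun v := ((((v.1.1.1.1, v.1.2.1.1), v.2.1.1), ((v.1.1.1.2, v.1.2.1.2), v.2.1.2)),
    ((v.1.1.2, v.1.2.2), - v.2.2))
  map_add' v w := by
    ext <;> simp [add_comm]
  map_smul' c v := by
    ext <;> simp

theorem exl_bij (X0 X1 X01 Y0 Y1 Y01 Z0 Z1 Z01 : Type u) [AddCommGroup X0] [AddCommGroup X1]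
    [AddCommGroup X01] [AddCommGroup Y0] [AddCommGroup Y1] [AddCommGroup Y01] [AddCommGroup Z0]
    [AddCommGroup Z1] [AddCommGroup Z01] [Module k X0] [Module k X1] [Module k X01] [Module k Y0]
    [Module k Y1] [Module k Y01] [Module k Z0] [Module k Z1] [Module k Z01] :
    Function.Bijective (exl (k := k) X0 X1 X01 Y0 Y1 Y01 Z0 Z1 Z01) := by
  refine Function.bijective_iff_has_inverse.2 ⟨fun v =>
    ((((v.1.1.1.1, v.1.2.1.1), v.2.1.1), ((v.1.1.1.2, v.1.2.1.2), v.2.1.2)),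
      ((v.1.1.2, v.1.2.2), - v.2.2)), fun v => ?_, fun v => ?_⟩
  · change _ = (((_, _), _))
    simp [exl]
  · simp [exl]

/-- The comparison. -/
structure EX {V0 V1 V01 : PC k ι} (r0 : PCH V0 V01) (r1 : PCH V1 V01) {W0 : WC V0} {W1 : WC V1}
    {W01 : WC V01} (W : WC (coP r0 r1)) (g0 : WCH r0 W0 W01) (g1 : WCH r1 W1 W01) where
  g : ∀ c, CHom (W.X c) (co (g0.g c) (g1.g c))
  nat : ∀ {c d : FS ι} (h : c ≤ d) x, (g d).f ((W.ρ h).f x) =
    (((W0.ρ h).f ((g c).f x).1.1, (W1.ρ h).f ((g c).f x).1.2), (W01.ρ h).f ((g c).f x).2)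
  a : ∀ (c : Ch ι) x, (g c.fs).f ((W.a c).f x) =
    (((W0.a c).f x.1.1, (W1.a c).f x.1.2), (W01.a c).f x.2)
  bij : ∀ c, Function.Bijective (g c).f

section cons

variable {V0 V1 V01 : PC k ι} {r0 : PCH V0 V01} {r1 : PCH V1 V01} {W0 : WC V0} {W1 : WC V1}
    {W01 : WC V01} {W : WC (coP r0 r1)} {g0 : WCH r0 W0 W01} {g1 : WCH r1 W1 W01}

/-- the linear map of the step -/
def EX.stf (E : EX r0 r1 W g0 g1) (l : ι) (c : FS ι) :
    ((W.cons l).X c).V →ₗ[k] (co ((g0.cons l).g c) ((g1.cons l).g c)).V :=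
  exl (k := k) (W0.X c).V (W1.X c).V (W01.X c).V (V0.X (c.ins l)).V (V1.X (c.ins l)).V
    (V01.X (c.ins l)).V (W0.X (c.ins l).fs).V (W1.X (c.ins l).fs).V (W01.X (c.ins l).fs).V ∘ₗ
  LinearMap.prodMap (LinearMap.prodMap (E.g c).f LinearMap.id) (E.g (c.ins l).fs).f

theorem EX.stf_apply (E : EX r0 r1 W g0 g1) (l : ι) (c : FS ι) (u : (W.X c).V)
    (y : ((coP r0 r1).X (c.ins l)).V) (ξ : (W.X (c.ins l).fs).V) :
    E.stf l c ((u, y), ξ) =
      (((((((E.g c).f u).1.1, y.1.1), ((E.g (c.ins l).fs).f ξ).1.1) : ((W0.cons l).X c).V),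
        ((((((E.g c).f u).1.2, y.1.2), ((E.g (c.ins l).fs).f ξ).1.2)) : ((W1.cons l).X c).V)),
      (((((E.g c).f u).2, y.2), - ((E.g (c.ins l).fs).f ξ).2) : ((W01.cons l).X c).V)) := rfl

/-- The step of the recursion. -/
def EX.cons (E : EX r0 r1 W g0 g1) (l : ι) : EX r0 r1 (W.cons l) (g0.cons l) (g1.cons l) where
  g := fun c =>
    { f := E.stf l c
      deg := fun {i x} h => by
        obtain ⟨⟨u, y⟩, ξ⟩ := x
        have h' := co_deg.1 h
        have hu := co_deg.1 ((E.g c).deg h'.1)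
        have hy := co_deg.1 h'.2.1
        have hξ := co_deg.1 ((E.g (c.ins l).fs).deg h'.2.2)
        exact co_deg.2 ⟨co_deg.2 ⟨hu.1, hy.1, hξ.1⟩, co_deg.2 ⟨hu.2.1, hy.2.1, hξ.2.1⟩,
          co_deg.2 ⟨hu.2.2, hy.2.2, hξ.2.2.neg⟩⟩
      d := fun x => by
        obtain ⟨⟨u, y⟩, ξ⟩ := x
        have e0 := co_d (r0 := W.ρ (le_ins c l)) (r1 := W.a (c.ins l)) u y ξ
        have hu := ((E.g c).d u).symm.trans
          (co_d (r0 := g0.g c) (r1 := g1.g c) ((E.g c).f u).1.1 ((E.g c).f u).1.2 ((E.g c).f u).2)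
        have hy := co_d (r0 := r0.f (c.ins l)) (r1 := r1.f (c.ins l)) y.1.1 y.1.2 y.2
        have hξ := ((E.g (c.ins l).fs).d ξ).symm.trans
          (co_d (r0 := g0.g (c.ins l).fs) (r1 := g1.g (c.ins l).fs)
            ((E.g (c.ins l).fs).f ξ).1.1 ((E.g (c.ins l).fs).f ξ).1.2
            ((E.g (c.ins l).fs).f ξ).2)
        have hn := E.nat (le_ins c l) u
        have ha := E.a (c.ins l) y
        have hw := (((E.g (c.ins l).fs).f.map_sub ((W.a (c.ins l)).f y -
          (W.ρ (le_ins c l)).f u) ((W.X (c.ins l).fs).dg.d ξ)).trans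
          (congrArg₂ (· - ·) (((E.g (c.ins l).fs).f.map_sub ((W.a (c.ins l)).f y)
          ((W.ρ (le_ins c l)).f u)).trans (congrArg₂ (· - ·) ha hn)) hξ))
        have z0 := co_d (r0 := W0.ρ (le_ins c l)) (r1 := W0.a (c.ins l)) ((E.g c).f u).1.1 y.1.1
          ((E.g (c.ins l).fs).f ξ).1.1
        have z1 := co_d (r0 := W1.ρ (le_ins c l)) (r1 := W1.a (c.ins l)) ((E.g c).f u).1.2 y.1.2
          ((E.g (c.ins l).fs).f ξ).1.2
        have z01 := co_d (r0 := W01.ρ (le_ins c l)) (r1 := W01.a (c.ins l)) ((E.g c).f u).2 y.2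
          (- ((E.g (c.ins l).fs).f ξ).2)
        have eL := co_d (r0 := (g0.cons l).g c) (r1 := (g1.cons l).g c)
          (((((E.g c).f u).1.1, y.1.1), ((E.g (c.ins l).fs).f ξ).1.1) : ((W0.cons l).X c).V)
          (((((E.g c).f u).1.2, y.1.2), ((E.g (c.ins l).fs).f ξ).1.2) : ((W1.cons l).X c).V)
          (((((E.g c).f u).2, y.2), - ((E.g (c.ins l).fs).f ξ).2) : ((W01.cons l).X c).V)
        refine eL.trans (Eq.trans ?_ (congrArg (E.stf l c) e0.symm))
        refine Prod.ext (Prod.ext (z0.trans ?_) (z1.trans ?_)) ?_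
        · refine Prod.ext (Prod.ext ?_ ?_) ?_
          · exact (congrArg (fun z => z.1.1) hu).symm
          · exact (congrArg (fun z => z.1.1) hy).symm
          · exact (congrArg (fun z => z.1.1) hw).symm
        · refine Prod.ext (Prod.ext ?_ ?_) ?_
          · exact (congrArg (fun z => z.1.2) hu).symm
          · exact (congrArg (fun z => z.1.2) hy).symm
          · exact (congrArg (fun z => z.1.2) hw).symm
        · refine (congrArg (fun z => ((g1.cons l).g c).f (((((E.g c).f u).1.2, y.1.2),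
            ((E.g (c.ins l).fs).f ξ).1.2) : ((W1.cons l).X c).V) -
            ((g0.cons l).g c).f (((((E.g c).f u).1.1, y.1.1), ((E.g (c.ins l).fs).f ξ).1.1) :
              ((W0.cons l).X c).V) - z) z01).trans ?_
          refine Prod.ext (Prod.ext ?_ ?_) ?_
          · exact (congrArg (fun z => z.2) hu).symm
          · exact (congrArg (fun z => z.2) hy).symm
          · refine Eq.trans ?_ (congrArg (fun z => - z.2) hw).symm
            change (g1.g (c.ins l).fs).f ((E.g (c.ins l).fs).f ξ).1.2 -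
              (g0.g (c.ins l).fs).f ((E.g (c.ins l).fs).f ξ).1.1 -
              ((W01.a (c.ins l)).f y.2 - (W01.ρ (le_ins c l)).f ((E.g c).f u).2 -
                (W01.X (c.ins l).fs).dg.d (- ((E.g (c.ins l).fs).f ξ).2)) =
              - ((W01.a (c.ins l)).f y.2 - (W01.ρ (le_ins c l)).f ((E.g c).f u).2 -
                ((g1.g (c.ins l).fs).f ((E.g (c.ins l).fs).f ξ).1.2 -
                  (g0.g (c.ins l).fs).f ((E.g (c.ins l).fs).f ξ).1.1 -
                  (W01.X (c.ins l).fs).dg.d ((E.g (c.ins l).fs).f ξ).2))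
            rw [map_neg]
            abel }
  nat := fun {c d} h x => by
    obtain ⟨⟨u, y⟩, ξ⟩ := x
    have hu := E.nat h u
    have hξ := E.nat (fs_mono (ins_mono h l)) ξ
    refine Prod.ext (Prod.ext ?_ ?_) ?_
    · exact Prod.ext (Prod.ext (congrArg (fun z => z.1.1) hu) rfl) (congrArg (fun z => z.1.1) hξ)
    · exact Prod.ext (Prod.ext (congrArg (fun z => z.1.2) hu) rfl) (congrArg (fun z => z.1.2) hξ)
    · refine Prod.ext (Prod.ext (congrArg (fun z => z.2) hu) rfl) ?_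
      exact (congrArg (fun z => - z.2) hξ).trans
        (map_neg (W01.ρ (fs_mono (ins_mono h l))).f ((E.g (c.ins l).fs).f ξ).2).symm
  a := fun c x => by
    have hx := E.a c x
    have h0 := map_zero (E.g (c.fs.ins l).fs).f
    refine Prod.ext (Prod.ext ?_ ?_) ?_
    · exact Prod.ext (Prod.ext (congrArg (fun z => z.1.1) hx) rfl) (congrArg (fun z => z.1.1) h0)
    · exact Prod.ext (Prod.ext (congrArg (fun z => z.1.2) hx) rfl) (congrArg (fun z => z.1.2) h0)
    · refine Prod.ext (Prod.ext (congrArg (fun z => z.2) hx) rfl) ?_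
      exact (congrArg (fun z => - z.2) h0).trans neg_zero
  bij := fun c => by
    refine (exl_bij (k := k) (W0.X c).V (W1.X c).V (W01.X c).V (V0.X (c.ins l)).V
      (V1.X (c.ins l)).V (V01.X (c.ins l)).V (W0.X (c.ins l).fs).V (W1.X (c.ins l).fs).V
      (W01.X (c.ins l).fs).V).comp ?_
    exact Function.Bijective.prodMap (Function.Bijective.prodMap (E.bij c) Function.bijective_id)
      (E.bij _)

end cons

/-- The comparison for the Čech complexes. -/
def exC {V0 V1 V01 : PC k ι} (r0 : PCH V0 V01) (r1 : PCH V1 V01) :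
    ∀ L : List ι, EX r0 r1 (cC (coP r0 r1) L) (cH r0 L) (cH r1 L)
  | [] =>
    { g := fun c =>
        { f := 0
          deg := fun _ => Dg.IsDeg.zero _
          d := fun _ => map_zero _ }
      nat := fun h x => rfl
      a := fun c x => rfl
      bij := fun c => ⟨fun x y _ => rfl, fun y => ⟨PUnit.unit, rfl⟩⟩ }
  | l :: L => (exC r0 r1 L).cons l

theorem exC_cons {V0 V1 V01 : PC k ι} (r0 : PCH V0 V01) (r1 : PCH V1 V01) (l : ι) (L : List ι)
    (c : FS ι) (u : ((cC (coP r0 r1) L).X c).V) (y : ((coP r0 r1).X (c.ins l)).V)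
    (ξ : ((cC (coP r0 r1) L).X (c.ins l).fs).V) :
    ((exC r0 r1 (l :: L)).g c).f ((u, y), ξ) = co.mk _ _
      (co.mk _ _ (((exC r0 r1 L).g c).f u).1.1 y.1.1 (((exC r0 r1 L).g (c.ins l).fs).f ξ).1.1)
      (co.mk _ _ (((exC r0 r1 L).g c).f u).1.2 y.1.2 (((exC r0 r1 L).g (c.ins l).fs).f ξ).1.2)
      (co.mk _ _ (((exC r0 r1 L).g c).f u).2 y.2
        (- (((exC r0 r1 L).g (c.ins l).fs).f ξ).2)) := rfl

end Pool.Agent.MP_6e5bed_ag_WW
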