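import Pool.Agent.Lib.MP_6e5bed_ag_WW.SwE

set_option autoImplicit false
set_option linter.unusedVariables false

/-!
# MP_6e5bed_ag, THEOREM W: naturality of the exchange, and pairings
-/

noncomputable section

namespace Pool.Agent.MP_6e5bed_ag_WW

open Pool.Agent.MP_6e5bed_ag_NC Pool.Agent.MP_6e5bed_ag_NS Pool.Agent.MP_6e5bed_ag_PN

universe u

variable {k : Type u} [CommRing k] {ι : Type}

/-- The exchange is natural. -/
theorem exC_nat {V0 V1 V01 V0' V1' V01' : PC k ι} {r0 : PCH V0 V01} {r1 : PCH V1 V01}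
    {r0' : PCH V0' V01'} {r1' : PCH V1' V01'} (F : PCH (coP r0 r1) (coP r0' r1'))
    (f0 : PCH V0 V0') (f1 : PCH V1 V1') (f01 : PCH V01 V01')
    (h : ∀ c x, (F.f c).f x = (((f0.f c).f x.1.1, (f1.f c).f x.1.2), (f01.f c).f x.2)) :
    ∀ (L : List ι) (c : FS ι) (x : ((cC (coP r0 r1) L).X c).V),
      ((exC r0' r1' L).g c).f (((cH F L).g c).f x) =
        ((((cH f0 L).g c).f (((exC r0 r1 L).g c).f x).1.1,
          ((cH f1 L).g c).f (((exC r0 r1 L).g c).f x).1.2),
          ((cH f01 L).g c).f (((exC r0 r1 L).g c).f x).2)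
  | [], c, x => rfl
  | l :: L, c, x => by
    obtain ⟨⟨u, y⟩, ξ⟩ := x
    have hu := exC_nat F f0 f1 f01 h L c u
    have hξ := exC_nat F f0 f1 f01 h L (c.ins l).fs ξ
    have hy := h (c.ins l) y
    refine Prod.ext (Prod.ext ?_ ?_) ?_
    · exact Prod.ext (Prod.ext (congrArg (fun z => z.1.1) hu) (congrArg (fun z => z.1.1) hy))
        (congrArg (fun z => z.1.1) hξ)
    · exact Prod.ext (Prod.ext (congrArg (fun z => z.1.2) hu) (congrArg (fun z => z.1.2) hy))
        (congrArg (fun z => z.1.2) hξ)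
    · refine Prod.ext (Prod.ext (congrArg (fun z => z.2) hu) (congrArg (fun z => z.2) hy)) ?_
      exact (congrArg (fun z => - z.2) hξ).trans
        (map_neg ((cH f01 L).g (c.ins l).fs).f (((exC r0 r1 L).g (c.ins l).fs).f ξ).2).symm

/-- The exchange and augmentations. -/
theorem exC_aug {V V0 V1 V01 : PC k ι} {r0 : PCH V0 V01} {r1 : PCH V1 V01}
    (F : PCH V (coP r0 r1)) (f0 : PCH V V0) (f1 : PCH V V1)
    (h : ∀ c x, (F.f c).f x = (((f0.f c).f x, (f1.f c).f x), 0)) :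
    ∀ (L : List ι) (c : FS ι) (x : ((cC V L).X c).V),
      ((exC r0 r1 L).g c).f (((cH F L).g c).f x) =
        ((((cH f0 L).g c).f x, ((cH f1 L).g c).f x), 0)
  | [], c, x => rfl
  | l :: L, c, x => by
    obtain ⟨⟨u, y⟩, ξ⟩ := x
    have hu := exC_aug F f0 f1 h L c u
    have hξ := exC_aug F f0 f1 h L (c.ins l).fs ξ
    have hy := h (c.ins l) y
    refine Prod.ext (Prod.ext ?_ ?_) ?_
    · exact Prod.ext (Prod.ext (congrArg (fun z => z.1.1) hu) (congrArg (fun z => z.1.1) hy))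
        (congrArg (fun z => z.1.1) hξ)
    · exact Prod.ext (Prod.ext (congrArg (fun z => z.1.2) hu) (congrArg (fun z => z.1.2) hy))
        (congrArg (fun z => z.1.2) hξ)
    · refine Prod.ext (Prod.ext (congrArg (fun z => z.2) hu) (congrArg (fun z => z.2) hy)) ?_
      exact (congrArg (fun z => - z.2) hξ).trans neg_zero

/-- The exchange and left actions. -/
theorem exC_left {U V0 V1 V01 : PC k ι} {r0 : PCH V0 V01} {r1 : PCH V1 V01}
    (p : PP U (coP r0 r1) (coP r0 r1)) (p0 : PP U V0 V0) (p1 : PP U V1 V1) (p01 : PP U V01 V01)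
    (h : ∀ c r x, (p.p c).m r x =
      (((p0.p c).m r x.1.1, (p1.p c).m r x.1.2), (p01.p c).m ((U.X c).dg.s r) x.2)) :
    ∀ (L : List ι) (c : FS ι) (r : ((cC U L).X c).V) (x : ((cC (coP r0 r1) L).X c).V),
      ((exC r0 r1 L).g c).f (((cP p L).q c).m r x) =
        ((((cP p0 L).q c).m r (((exC r0 r1 L).g c).f x).1.1,
          ((cP p1 L).q c).m r (((exC r0 r1 L).g c).f x).1.2),
          ((cP p01 L).q c).m (((cC U L).X c).dg.s r) (((exC r0 r1 L).g c).f x).2)
  | [], c, r, x => rfl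
  | l :: L, c, r, x => by
    obtain ⟨⟨u, y⟩, ξ⟩ := x
    obtain ⟨⟨ra, rb⟩, rc⟩ := r
    have ih := exC_left p p0 p1 p01 h L
    have hu := ih c ra u
    have hy := h (c.ins l) rb y
    have h1 := ih (c.ins l).fs (((cC U L).ρ (le_ins c l)).f (((cC U L).X c).dg.s ra)) ξ
    have h2 := ih (c.ins l).fs rc (((cC (coP r0 r1) L).a (c.ins l)).f y)
    rw [(exC r0 r1 L).a (c.ins l) y] at h2
    have hw := (((exC r0 r1 L).g (c.ins l).fs).f.map_add
      (((cP p L).q (c.ins l).fs).m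
        (((cC U L).ρ (le_ins c l)).f (((cC U L).X c).dg.s ra)) ξ)
      (((cP p L).q (c.ins l).fs).m rc (((cC (coP r0 r1) L).a (c.ins l)).f y))).trans
      (congrArg₂ (· + ·) h1 h2)
    have hs := co_s (r0 := (cC U L).ρ (le_ins c l)) (r1 := (cC U L).a (c.ins l)) ra rb rc
    have hss : ((cC U L).X (c.ins l).fs).dg.s
        (((cC U L).ρ (le_ins c l)).f (((cC U L).X c).dg.s ra)) =
        ((cC U L).ρ (le_ins c l)).f (((cC U L).X c).dg.s (((cC U L).X c).dg.s ra)) :=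
      ((cC U L).ρ (le_ins c l)).s _
    refine Prod.ext (Prod.ext ?_ ?_) ?_
    · exact Prod.ext (Prod.ext (congrArg (fun z => z.1.1) hu) (congrArg (fun z => z.1.1) hy))
        (congrArg (fun z => z.1.1) hw)
    · exact Prod.ext (Prod.ext (congrArg (fun z => z.1.2) hu) (congrArg (fun z => z.1.2) hy))
        (congrArg (fun z => z.1.2) hw)
    · refine Eq.trans ?_ (congrArg (fun z => ((cP p01 (l :: L)).q c).m z
        (((exC r0 r1 (l :: L)).g c).f ((u, y), ξ)).2) hs).symm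
      refine Prod.ext (Prod.ext (congrArg (fun z => z.2) hu) (congrArg (fun z => z.2) hy)) ?_
      refine (congrArg (fun z => - z.2) hw).trans ?_
      change - (((cP p01 L).q (c.ins l).fs).m (((cC U L).X (c.ins l).fs).dg.s
        (((cC U L).ρ (le_ins c l)).f (((cC U L).X c).dg.s ra)))
          (((exC r0 r1 L).g (c.ins l).fs).f ξ).2 +
        ((cP p01 L).q (c.ins l).fs).m (((cC U L).X (c.ins l).fs).dg.s rc)
          (((cC V01 L).a (c.ins l)).f y.2)) =
        ((cP p01 L).q (c.ins l).fs).m (((cC U L).ρ (le_ins c l)).f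
          (((cC U L).X c).dg.s (((cC U L).X c).dg.s ra)))
          (- (((exC r0 r1 L).g (c.ins l).fs).f ξ).2) +
        ((cP p01 L).q (c.ins l).fs).m (- ((cC U L).X (c.ins l).fs).dg.s rc)
          (((cC V01 L).a (c.ins l)).f y.2)
      rw [hss, map_neg, map_neg, LinearMap.neg_apply, neg_add]

/-- The exchange and right actions of constants. -/
theorem exC_right {V0 V1 V01 : PC k ι} {Y0 Y1 Y01 : Cx k} {t0 : CHom Y0 Y01} {t1 : CHom Y1 Y01}
    {r0 : PCH V0 V01} {r1 : PCH V1 V01}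
    (p : PP (coP r0 r1) (PC.con ι (co t0 t1)) (coP r0 r1)) (p0 : PP V0 (PC.con ι Y0) V0)
    (p1 : PP V1 (PC.con ι Y1) V1) (p01 : PP V01 (PC.con ι Y01) V01)
    (h : ∀ c x b, (p.p c).m x b =
      (((p0.p c).m x.1.1 b.1.1, (p1.p c).m x.1.2 b.1.2),
        (p01.p c).m ((r0.f c).f ((V0.X c).dg.s x.1.1)) b.2 + (p01.p c).m x.2 (t1.f b.1.2))) :
    ∀ (L : List ι) (c : FS ι) (x : ((cC (coP r0 r1) L).X c).V) (b : (co t0 t1).V),
      ((exC r0 r1 L).g c).f (((cP p L).q c).m x ((kX (co t0 t1) L c).f b)) =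
        ((((cP p0 L).q c).m (((exC r0 r1 L).g c).f x).1.1 ((kX Y0 L c).f b.1.1),
          ((cP p1 L).q c).m (((exC r0 r1 L).g c).f x).1.2 ((kX Y1 L c).f b.1.2)),
          ((cP p01 L).q c).m (((cH r0 L).g c).f (((cC V0 L).X c).dg.s
            (((exC r0 r1 L).g c).f x).1.1)) ((kX Y01 L c).f b.2) +
          ((cP p01 L).q c).m (((exC r0 r1 L).g c).f x).2 ((kX Y01 L c).f (t1.f b.1.2)))
  | [], c, x, b => rfl
  | l :: L, c, x, b => by
    obtain ⟨⟨u, y⟩, ξ⟩ := x
    have ih := exC_right p p0 p1 p01 h L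
    have hu := ih c u b
    have hy := h (c.ins l) y b
    have hξ := ih (c.ins l).fs ξ b
    have hx := cP_kR (V := coP r0 r1) (V' := coP r0 r1) (X := co t0 t1) p l L c u y ξ b
    have e0 := cP_kR (V := V0) (V' := V0) (X := Y0) p0 l L c (((exC r0 r1 L).g c).f u).1.1
      y.1.1 (((exC r0 r1 L).g (c.ins l).fs).f ξ).1.1 b.1.1
    have e1 := cP_kR (V := V1) (V' := V1) (X := Y1) p1 l L c (((exC r0 r1 L).g c).f u).1.2
      y.1.2 (((exC r0 r1 L).g (c.ins l).fs).f ξ).1.2 b.1.2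
    have hs := co_s (r0 := (cC V0 L).ρ (le_ins c l)) (r1 := (cC V0 L).a (c.ins l))
      (((exC r0 r1 L).g c).f u).1.1 y.1.1 (((exC r0 r1 L).g (c.ins l).fs).f ξ).1.1
    have e2 := cP_kR (V := V01) (V' := V01) (X := Y01) p01 l L c
      (((cH r0 L).g c).f (((cC V0 L).X c).dg.s (((exC r0 r1 L).g c).f u).1.1))
      ((r0.f (c.ins l)).f ((V0.X (c.ins l)).dg.s y.1.1))
      (((cH r0 L).g (c.ins l).fs).f (- ((cC V0 L).X (c.ins l).fs).dg.s
        (((exC r0 r1 L).g (c.ins l).fs).f ξ).1.1)) b.2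
    have e3 := cP_kR (V := V01) (V' := V01) (X := Y01) p01 l L c
      (((exC r0 r1 L).g c).f u).2 y.2 (- (((exC r0 r1 L).g (c.ins l).fs).f ξ).2) (t1.f b.1.2)
    refine (congrArg ((exC r0 r1 (l :: L)).g c).f hx).trans ?_
    refine Prod.ext (Prod.ext ?_ ?_) ?_
    · refine Eq.trans ?_ e0.symm
      exact Prod.ext (Prod.ext (congrArg (fun z => z.1.1) hu) (congrArg (fun z => z.1.1) hy))
        (congrArg (fun z => z.1.1) hξ)
    · refine Eq.trans ?_ e1.symm
      exact Prod.ext (Prod.ext (congrArg (fun z => z.1.2) hu) (congrArg (fun z => z.1.2) hy))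
        (congrArg (fun z => z.1.2) hξ)
    · refine Eq.trans ?_ (congrArg₂ (· + ·) ((congrArg (fun z => ((cP p01 (l :: L)).q c).m
        (((cH r0 (l :: L)).g c).f z) ((kX Y01 (l :: L) c).f b.2)) hs).trans e2) e3).symm
      refine Prod.ext (Prod.ext (congrArg (fun z => z.2) hu) (congrArg (fun z => z.2) hy)) ?_
      refine (congrArg (fun z => - z.2) hξ).trans ?_
      change - (((cP p01 L).q (c.ins l).fs).m (((cH r0 L).g (c.ins l).fs).f
          (((cC V0 L).X (c.ins l).fs).dg.s (((exC r0 r1 L).g (c.ins l).fs).f ξ).1.1))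
          ((kX Y01 L (c.ins l).fs).f b.2) +
        ((cP p01 L).q (c.ins l).fs).m (((exC r0 r1 L).g (c.ins l).fs).f ξ).2
          ((kX Y01 L (c.ins l).fs).f (t1.f b.1.2))) =
        ((cP p01 L).q (c.ins l).fs).m (((cH r0 L).g (c.ins l).fs).f
          (- ((cC V0 L).X (c.ins l).fs).dg.s (((exC r0 r1 L).g (c.ins l).fs).f ξ).1.1))
          ((kX Y01 L (c.ins l).fs).f b.2) +
        ((cP p01 L).q (c.ins l).fs).m (- (((exC r0 r1 L).g (c.ins l).fs).f ξ).2)
          ((kX Y01 L (c.ins l).fs).f (t1.f b.1.2))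
      rw [map_neg, map_neg, map_neg, LinearMap.neg_apply, LinearMap.neg_apply, neg_add]

end Pool.Agent.MP_6e5bed_ag_WW
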