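import Pool.Agent.Lib.MP_6e5bed_ag_WW.SB

set_option autoImplicit false
set_option linter.unusedVariables false

/-!
# MP_6e5bed_ag, THEOREM W, (3.1): the truncations are quasi-coherent
-/

noncomputable section

namespace Pool.Agent.MP_6e5bed_ag_WW

open Pool.Agent.MP_6e5bed_ag_NC Pool.Agent.MP_6e5bed_ag_GG
open Pool.Agent.MP_6e5bed_ag_PN hiding Ch
open Pool.Agent.MP_6e5bed_ag_NS (Cx CHom ringH)
open scoped TensorProduct

universe u

variable {k : Type u} [Field k] {i j : Type} [Fintype i] [Fintype j] {A : CA k i} {A' : CA k j}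

section bim

variable {R R' : Type u} [Ring R] [Algebra k R] [Ring R'] [Algebra k R'] {X : Cx k}

theorem bact_bim (a : CAct (R ⊗[k] R'ᵐᵒᵖ) X) (b : R ⊗[k] R'ᵐᵒᵖ) (x : X.V) :
    bact a.bim b x = a.φ b x := by
  induction b using TensorProduct.induction_on with
  | zero =>
    rw [map_zero, map_zero]
    rfl
  | tmul b c =>
    rw [bact_tmul]
    change a.φ (b ⊗ₜ[k] 1) (a.φ (1 ⊗ₜ[k] MulOpposite.op c.unop) x) = _
    rw [CAct.mul_apply, Algebra.TensorProduct.tmul_mul_tmul, mul_one, one_mul]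
    rfl
  | add b c hb hc =>
    rw [map_add, map_add]
    exact congrArg₂ (· + ·) hb hc

end bim

/-- quasi-coherence -/
def QCc (F : BPC A A') : Prop := ∀ {p q : Ch i × Ch j} {t : bsB A A' p}
  (h : bsLoc A A' p q t), LocP (F.ρ h.1).f ((F.a p).φ t) ((F.a q).φ (bsr A A' h.1 t))

theorem QCc.bpb {F : BPC A A'} (h : QCc F) : F.bpb.QC := by
  intro p q t hl
  have e1 : bact (F.bpb.F p) t = (F.a p).φ t := LinearMap.ext (fun x => bact_bim (F.a p) t x)
  have e2 : bact (F.bpb.F q) (bsr A A' hl.1 t) = (F.a q).φ (bsr A A' hl.1 t) :=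
    LinearMap.ext (fun x => bact_bim (F.a q) (bsr A A' hl.1 t) x)
  have h1 : LocP (F.bpb.rho hl.1).f ((F.a p).φ t) ((F.a q).φ (bsr A A' hl.1 t)) := h hl
  rw [← e1, ← e2] at h1
  exact h1

theorem QCc.of_bpb {F : BPB A A'} (h : F.QC) : QCc F.bpc := fun hl => h hl

/-- killed by the ideals `I` -/
def Klc (I : ∀ c : Ch i, Ideal (A.A c)) (F : BPC A A') : Prop :=
  ∀ (p : Ch i × Ch j) (a : A.A p.1), a ∈ I p.1 → ∀ x : (F.X p).V,
    (F.a p).φ (a ⊗ₜ[k] (1 : (A'.A p.2)ᵐᵒᵖ)) x = 0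

theorem Klc.bpb {I : ∀ c : Ch i, Ideal (A.A c)} {F : BPC A A'} (h : Klc I F) : Kl I F.bpb :=
  fun p a ha x => h p a ha x

theorem Klc.of_bpb {I : ∀ c : Ch i, Ideal (A.A c)} {F : BPB A A'} (h : Kl I F) :
    Klc I F.bpc := fun p a ha x => (bact_l (F.F p) a x).trans (h p a ha x)

/-! ### Subcomplexes -/

section grs

variable {F : BPC A A'}

theorem GrS_act_pow (G : GrS F) (p : Ch i × Ch j) (b : bsB A A' p) (n : ℕ) (x : G.S p) :
    (G.S p).subtype (((G.bpc.a p).φ b ^ n) x) = ((F.a p).φ b ^ n) x.1 := by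
  induction n with
  | zero => rfl
  | succ n ih =>
    rw [pow_succ', pow_succ', Module.End.mul_apply, Module.End.mul_apply, ← ih]
    rfl

theorem GrS_mem_pow (G : GrS F) (p : Ch i × Ch j) (b : bsB A A' p) (n : ℕ) {x : (F.X p).V}
    (hx : x ∈ G.S p) : ((F.a p).φ b ^ n) x ∈ G.S p := by
  have h1 := GrS_act_pow G p b n ⟨x, hx⟩
  have h2 : (G.S p).subtype (((G.bpc.a p).φ b ^ n) (⟨x, hx⟩ : G.S p)) ∈ G.S p :=
    Subtype.property _
  rw [h1] at h2
  exact h2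

/-- subcomplexes whose homogeneous elements are locally restrictions -/
theorem QCc.grs (hQ : QCc F) (G : GrS F)
    (h : ∀ {p q : Ch i × Ch j} {t : bsB A A' p} (hl : bsLoc A A' p q t) (n : ℤ)
      (y : (F.X q).V), (F.X q).dg.IsDeg n y → y ∈ G.P q n → ∃ (N : ℕ) (x : (F.X p).V),
        x ∈ G.S p ∧ (F.ρ hl.1).f x = ((F.a q).φ (bsr A A' hl.1 t) ^ N) y) : QCc G.bpc := by
  intro p q t hl
  have key : ∀ y : (F.X q).V, y ∈ G.S q → ∃ (N : ℕ) (x : (F.X p).V),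
      x ∈ G.S p ∧ (F.ρ hl.1).f x = ((F.a q).φ (bsr A A' hl.1 t) ^ N) y := by
    have key2 : ∀ (s : Finset ℤ) (y : ℤ → (F.X q).V), (∀ n, (F.X q).dg.IsDeg n (y n)) →
        (∀ n, y n ∈ G.P q n) → ∃ (N : ℕ) (x : (F.X p).V), x ∈ G.S p ∧
          (F.ρ hl.1).f x = ((F.a q).φ (bsr A A' hl.1 t) ^ N) (∑ n ∈ s, y n) := by
      classical
      intro s y h1 h2
      induction s using Finset.induction_on with
      | empty => exact ⟨0, 0, zero_mem _, by rw [map_zero, Finset.sum_empty, map_zero]⟩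
      | insert n s hn ih =>
        obtain ⟨N, x, hx, hx'⟩ := ih
        obtain ⟨M, z, hz, hz'⟩ := h hl n (y n) (h1 n) (h2 n)
        refine ⟨N + M, ((F.a p).φ t ^ N) z + ((F.a p).φ t ^ M) x,
          add_mem (GrS_mem_pow G p t N hz) (GrS_mem_pow G p t M hx), ?_⟩
        rw [Finset.sum_insert hn, map_add, map_add, (hQ hl).nat_pow, (hQ hl).nat_pow, hx', hz']
        congr 1
        · rw [pow_add, Module.End.mul_apply]
        · rw [add_comm N M, pow_add, Module.End.mul_apply]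
    intro y hy
    obtain ⟨N, x, hx, hx'⟩ := key2 ((F.X q).dg.ρ y).support (fun n => (F.X q).dg.ρ y n)
      (fun n => Dg.isDeg_ρ y n) (fun n => hy n)
    have hs : ∑ n ∈ ((F.X q).dg.ρ y).support, (F.X q).dg.ρ y n = y := (F.X q).dg.sum_ρ y
    rw [hs] at hx'
    exact ⟨N, x, hx, hx'⟩
  constructor
  · intro x
    exact Subtype.ext ((hQ hl).nat x.1)
  · intro y
    obtain ⟨N, x, hx, hx'⟩ := key y.1 y.2
    refine ⟨N, ⟨x, hx⟩, Subtype.ext ?_⟩
    exact hx'.trans (GrS_act_pow G q (bsr A A' hl.1 t) N y).symm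
  · intro x hx
    obtain ⟨N, hN⟩ := (hQ hl).inj x.1 (congrArg Subtype.val hx)
    exact ⟨N, Subtype.ext ((GrS_act_pow G p t N x).trans hN)⟩

theorem Klc.grs {I : ∀ c : Ch i, Ideal (A.A c)} (h : Klc I F) (G : GrS F) : Klc I G.bpc :=
  fun p a ha x => Subtype.ext (h p a ha x.1)

theorem QCc.surj_deg (hQ : QCc F) {p q : Ch i × Ch j} {t : bsB A A' p}
    (hl : bsLoc A A' p q t) {n : ℤ} {y : (F.X q).V} (h : (F.X q).dg.IsDeg n y) :
    ∃ (N : ℕ) (x : (F.X p).V), (F.X p).dg.IsDeg n x ∧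
      (F.ρ hl.1).f x = ((F.a q).φ (bsr A A' hl.1 t) ^ N) y := by
  obtain ⟨N, x, hx⟩ := (hQ hl).surj y
  let t' : CHom (F.X q) (F.X q) := ⟨(F.a q).φ (bsr A A' hl.1 t), (F.a q).deg _, (F.a q).d _⟩
  have h1 : (F.X q).dg.IsDeg n (((F.a q).φ (bsr A A' hl.1 t) ^ N) y) := CHom_pow_deg t' N h
  obtain ⟨x', h2, h3⟩ := exists_deg_hom ⟨x, hx⟩ h1
  exact ⟨N, x', h2, h3⟩

theorem mem_tr_P {n m : ℤ} {p : Ch i × Ch j} {x : (F.X p).V} (h : x ∈ (tr F n).P p m) :
    m < n ∨ (m = n ∧ (F.X p).dg.d x = 0) ∨ x = 0 := by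
  change _ ∈ (if m < n then _ else if m = n then _ else _ : Submodule k (F.X p).V) at h
  split_ifs at h with h1 h2
  · exact Or.inl h1
  · exact Or.inr (Or.inl ⟨h2, h⟩)
  · exact Or.inr (Or.inr ((Submodule.mem_bot k).1 h))

theorem mem_tr'_P {n m : ℤ} {p : Ch i × Ch j} {x : (F.X p).V} (h : x ∈ (tr' F n).P p m) :
    m < n ∨ (m = n ∧ ∃ y, (F.X p).dg.d y = x) ∨ x = 0 := by
  change _ ∈ (if m < n then _ else if m = n then _ else _ : Submodule k (F.X p).V) at h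
  split_ifs at h with h1 h2
  · exact Or.inl h1
  · exact Or.inr (Or.inl ⟨h2, h⟩)
  · exact Or.inr (Or.inr ((Submodule.mem_bot k).1 h))

theorem QCc.tr (hQ : QCc F) (n : ℤ) : QCc (tr F n).bpc := by
  refine hQ.grs _ (fun {p q t} hl m y h1 h2 => ?_)
  rcases mem_tr_P h2 with h3 | ⟨rfl, h3⟩ | h3
  · obtain ⟨N, x, hx, hx'⟩ := hQ.surj_deg hl h1
    refine ⟨N, x, (GrS.mem_deg hx).2 ?_, hx'⟩
    change _ ∈ (if m < n then _ else if m = n then _ else _ : Submodule k (F.X p).V)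
    rw [if_pos h3]
    exact Submodule.mem_top
  · let t0 : CHom (F.X p) (F.X p) := ⟨(F.a p).φ t, (F.a p).deg _, (F.a p).d _⟩
    let t' : CHom (F.X q) (F.X q) := ⟨(F.a q).φ (bsr A A' hl.1 t), (F.a q).deg _, (F.a q).d _⟩
    obtain ⟨N, x, hx1, hx2, hx⟩ := LocP.coh_surj (t := t0) (t' := t') (f := F.ρ hl.1)
      (hQ hl) h1 h3
    refine ⟨N, x, (GrS.mem_deg hx1).2 ?_, hx⟩
    change _ ∈ (if m < m then _ else if m = m then _ else _ : Submodule k (F.X p).V)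
    rw [if_neg (lt_irrefl m), if_pos rfl]
    exact hx2
  · exact ⟨0, 0, zero_mem _, by rw [map_zero, h3, map_zero]⟩

theorem QCc.tr' (hQ : QCc F) (n : ℤ) : QCc (tr' F n).bpc := by
  refine hQ.grs _ (fun {p q t} hl m y h1 h2 => ?_)
  rcases mem_tr'_P h2 with h3 | ⟨rfl, w, hw⟩ | h3
  · obtain ⟨N, x, hx, hx'⟩ := hQ.surj_deg hl h1
    refine ⟨N, x, (GrS.mem_deg hx).2 ?_, hx'⟩
    change _ ∈ (if m < n then _ else if m = n then _ else _ : Submodule k (F.X p).V)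
    rw [if_pos h3]
    exact Submodule.mem_top
  · have h4 : (F.X q).dg.d ((F.X q).dg.ρ w (m - 1)) = y := by
      rw [← ρ_d', hw, ρ_self h1]
    obtain ⟨N, x, hx, hx'⟩ := hQ.surj_deg hl (Dg.isDeg_ρ w (m - 1))
    have h5 : (F.X p).dg.IsDeg m ((F.X p).dg.d x) := by
      have h6 := hx.d
      rwa [sub_add_cancel] at h6
    let t' : CHom (F.X q) (F.X q) := ⟨(F.a q).φ (bsr A A' hl.1 t), (F.a q).deg _, (F.a q).d _⟩
    have h7 : (F.X q).dg.d (((F.a q).φ (bsr A A' hl.1 t) ^ N) ((F.X q).dg.ρ w (m - 1))) =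
      ((F.a q).φ (bsr A A' hl.1 t) ^ N) ((F.X q).dg.d ((F.X q).dg.ρ w (m - 1))) :=
      CHom_pow_d t' N _
    refine ⟨N, (F.X p).dg.d x, (GrS.mem_deg h5).2 ?_, ?_⟩
    · change _ ∈ (if m < m then _ else if m = m then _ else _ : Submodule k (F.X p).V)
      rw [if_neg (lt_irrefl m), if_pos rfl]
      exact ⟨x, rfl⟩
    · rw [← (F.ρ hl.1).d, hx', h7, h4]
  · exact ⟨0, 0, zero_mem _, by rw [map_zero, h3, map_zero]⟩

end grs

/-! ### Bisheaves in degree `n` -/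

theorem Sh_act_pow (E : BS A A') (p : Ch i × Ch j) (b : bsB A A' p) (n : ℕ) (x : E.E p) :
    (Algebra.lsmul k k (E.E p) b ^ n) x = (show (bs A A').B p from b) ^ n • x := by
  rw [← map_pow]
  rfl

theorem atn_qc (E : BS A A') (n : ℤ) : QCc (E.atn n) := by
  intro p q t hl
  constructor
  · intro x
    exact E.res_smul hl.1 t x
  · intro y
    obtain ⟨N, x, hx⟩ := E.surj hl y
    exact ⟨N, x, hx.trans (Sh_act_pow E q (bsr A A' hl.1 t) N y).symm⟩
  · intro x hx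
    obtain ⟨N, hN⟩ := E.inj hl x hx
    exact ⟨N, (Sh_act_pow E p t N x).trans hN⟩

theorem twn_act_pow (E : BS A A') (n : ℤ) (p : Ch i × Ch j) (b : bsB A A' p) (N : ℕ)
    (x : E.E p × E.E p) : (Algebra.lsmul k k (E.E p × E.E p) b ^ N) x =
      ((show (bs A A').B p from b) ^ N • x.1, (show (bs A A').B p from b) ^ N • x.2) := by
  rw [← map_pow]
  rfl

theorem twn_qc (E : BS A A') (n : ℤ) : QCc (E.twn n) := by
  intro p q t hl
  constructor
  · intro x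
    exact (E.twn n).act hl.1 t x
  · intro y
    obtain ⟨N, x, hx⟩ := E.surj hl y.1
    obtain ⟨M, z, hz⟩ := E.surj hl y.2
    refine ⟨M + N, ((show (bs A A').B p from t) ^ M • x, (show (bs A A').B p from t) ^ N • z),
      ?_⟩
    refine Eq.trans ?_ (twn_act_pow E n q (bsr A A' hl.1 t) (M + N) y).symm
    have h1 : E.res hl.1 ((show (bs A A').B p from t) ^ M • x) =
        (bs A A').r hl.1 t ^ (M + N) • y.1 := by
      rw [E.res_pow, pow_add, mul_smul]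
      exact congrArg (fun v => (bs A A').r hl.1 t ^ M • v) hx
    have h2 : E.res hl.1 ((show (bs A A').B p from t) ^ N • z) =
        (bs A A').r hl.1 t ^ (M + N) • y.2 := by
      rw [E.res_pow, add_comm M N, pow_add, mul_smul]
      exact congrArg (fun v => (bs A A').r hl.1 t ^ N • v) hz
    exact Prod.ext h1 h2
  · intro x hx
    obtain ⟨N, hN⟩ := E.inj hl x.1 (congrArg Prod.fst hx)
    obtain ⟨M, hM⟩ := E.inj hl x.2 (congrArg Prod.snd hx)
    have h1 : (show (bs A A').B p from t) ^ (M + N) • x.1 = 0 := by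
      rw [pow_add, mul_smul, hN, smul_zero]
    have h2 : (show (bs A A').B p from t) ^ (M + N) • x.2 = 0 := by
      rw [add_comm M N, pow_add, mul_smul, hM, smul_zero]
    exact ⟨M + N, (twn_act_pow E n p t (M + N) x).trans (Prod.ext h1 h2)⟩

theorem bp_qc (E : BS A A') : E.bp.QC := by
  refine BPB.QC.of E.bp (fun {p q t} hl y => ?_) (fun {p q t} hl x hx => ?_)
  · obtain ⟨N, x, hx⟩ := E.surj hl y
    refine ⟨N, x, hx.trans ?_⟩
    have h1 := E.bact_bp (bsr A A' hl.1 t ^ N) y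
    rw [map_pow] at h1
    exact h1.symm
  · obtain ⟨N, hN⟩ := E.inj hl x hx
    have h1 := E.bact_bp (t ^ N) x
    rw [map_pow] at h1
    exact ⟨N, h1.trans hN⟩

section kl

variable {I : ∀ c : Ch i, Ideal (A.A c)} {E : BS A A'}

theorem atn_kl (h : I ≤ MP_6e5bed_ag_GG.ann E) (n : ℤ) : Klc I (E.atn n) :=
  fun p a ha x => h p.1 ha p.2 x

theorem twn_kl (h : I ≤ MP_6e5bed_ag_GG.ann E) (n : ℤ) : Klc I (E.twn n) :=
  fun p a ha x => Prod.ext (h p.1 ha p.2 x.1) (h p.1 ha p.2 x.2)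

theorem bp_kl (h : I ≤ MP_6e5bed_ag_GG.ann E) : Kl I E.bp :=
  fun p a ha x => h p.1 ha p.2 x

end kl

end Pool.Agent.MP_6e5bed_ag_WW
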